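import Pool.Agent.Y19.QT.Laws
import Pool.Agent.Y153.QTN3F
import Pool.Agent.Y692.QTN4
import Pool.Agent.Y812.QTN2
import Pool.Agent.Y812.QTN11

set_option autoImplicit false

/-! Project QT: the families of quadratic twists that are known to be modular in Lean. -/

namespace Pool.Agent.Y19.QT

theorem twistsModular_twist {a b : ℤ} (h : TwistsModular a b) {g : ℤ} (hg : g ≠ 0) :
    TwistsModular (a * g ^ 2) (b * g ^ 3) := by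
  intro e he
  obtain ⟨N, f, hf⟩ := h (g * e) (mul_ne_zero hg he)
  refine ⟨N, f, ?_⟩
  have e1 : a * g ^ 2 * e ^ 2 = a * (g * e) ^ 2 := by ring
  have e2 : b * g ^ 3 * e ^ 3 = b * (g * e) ^ 3 := by ring
  rw [e1, e2]
  exact hf

theorem Fam.disc {a b : ℤ} (h : Fam a b) : 4 * a ^ 3 + 27 * b ^ 2 ≠ 0 := by
  rcases h with ⟨ha, rfl⟩ | ⟨rfl, hb⟩ | ⟨g, hg, ⟨rfl, rfl⟩ | ⟨rfl, rfl⟩⟩
  · have : 4 * a ^ 3 + 27 * (0 : ℤ) ^ 2 = 4 * a ^ 3 := by ring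
    rw [this]; exact mul_ne_zero (by norm_num) (pow_ne_zero _ ha)
  · have : 4 * (0 : ℤ) ^ 3 + 27 * b ^ 2 = 27 * b ^ 2 := by ring
    rw [this]; exact mul_ne_zero (by norm_num) (pow_ne_zero _ hb)
  · have : 4 * (-13392 * g ^ 2) ^ 3 + 27 * (-1080432 * g ^ 3) ^ 2 =
      (4 * (-13392) ^ 3 + 27 * (-1080432) ^ 2) * g ^ 6 := by ring
    rw [this]; exact mul_ne_zero (by norm_num) (pow_ne_zero _ hg)
  · have : 4 * (5805 * g ^ 2) ^ 3 + 27 * (-285714 * g ^ 3) ^ 2 =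
      (4 * 5805 ^ 3 + 27 * (-285714) ^ 2) * g ^ 6 := by ring
    rw [this]; exact mul_ne_zero (by norm_num) (pow_ne_zero _ hg)

theorem Fam.data {a b : ℤ} (h : Fam a b) : HasTwists a b ∧
    ∀ d : ℤ, Squarefree d → ∃ F : ℂ → ℂ, IsLFun (a * d ^ 2) (b * d ^ 3) F := by
  rcases h with ⟨ha, rfl⟩ | ⟨rfl, hb⟩ | ⟨g, hg, ⟨rfl, rfl⟩ | ⟨rfl, rfl⟩⟩
  · exact Pool.Agent.Y153.QN3.N3 a ha
  · exact Pool.Agent.Y692.QTN4.N4 b hb
  · have hT := twistsModular_twist Pool.Agent.Y812.QTN11.twists11 hg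
    have hd : 4 * (-13392 * g ^ 2) ^ 3 + 27 * (-1080432 * g ^ 3) ^ 2 ≠ 0 :=
      Fam.disc (Or.inr (Or.inr ⟨g, hg, Or.inl ⟨rfl, rfl⟩⟩))
    have := Pool.Agent.Y812.QTN2.of_twistsModular hd hT
    exact ⟨this.1, fun d hd => this.2 d hd.ne_zero⟩
  · have hT := twistsModular_twist Pool.Agent.Y812.TM.twists14 hg
    have hd : 4 * (5805 * g ^ 2) ^ 3 + 27 * (-285714 * g ^ 3) ^ 2 ≠ 0 :=
      Fam.disc (Or.inr (Or.inr ⟨g, hg, Or.inr ⟨rfl, rfl⟩⟩))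
    have := Pool.Agent.Y812.QTN2.of_twistsModular hd hT
    exact ⟨this.1, fun d hd => this.2 d hd.ne_zero⟩

end Pool.Agent.Y19.QT
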