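import Mathlib
import Pool.Agent.H306R2.RZ.Defs

set_option autoImplicit false

/-!
Project QT (quadratic twists): definitions.  `js k n` is the Jacobi symbol `(k | n)` as a real number,
`Gk j n = ∑_{r mod n} (r | n) cas(2 π j r / n)`; both are from `Pool.Agent.H306R2.RZ.Defs`.
-/

namespace Pool.Agent.Y19.QT

open Complex MeasureTheory Filter Topology
open Pool.Agent.H306R2.RZ (js Gk)
open scoped ENNReal ComplexConjugate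

noncomputable section

/-- normalised Hecke eigenvalues away from the primes dividing `Q` -/
structure Hecke (Q : ℕ) (lam : ℕ → ℝ) : Prop where
  pos : 0 < Q
  small : ∀ p : ℕ, p.Prime → p ≤ 16 → p ∣ Q
  zero : lam 0 = 0
  one : lam 1 = 1
  mul : ∀ m n : ℕ, m.Coprime n → lam (m * n) = lam m * lam n
  bad : ∀ p k : ℕ, p.Prime → p ∣ Q → lam (p ^ (k + 1)) = 0
  hrec : ∀ p k : ℕ, p.Prime → ¬ p ∣ Q →
    lam (p ^ (k + 2)) = lam p * lam (p ^ (k + 1)) - lam (p ^ k)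
  bound : ∀ p : ℕ, p.Prime → |lam p| ≤ 2

/-- restriction to squarefree integers -/
def flat (lam : ℕ → ℝ) (n : ℕ) : ℝ := if Squarefree n then lam n else 0

/-- `λ♭(n) χ_j(n)` for `(n, B) = 1` -/
def cof (lam : ℕ → ℝ) (j : ℤ) (B n : ℕ) : ℝ := if n.Coprime B then flat lam n * js j n else 0

/-- the angle `7π/16` -/
def th0 : ℝ := 7 * Real.pi / 16

/-- the angle `15π/32` -/
def th1 : ℝ := 15 * Real.pi / 32

/-- the point `u e^{iθ}` -/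
def ray (θ u : ℝ) : ℂ := (u : ℂ) * cexp ((θ : ℂ) * I)

/-- `G_k(w) = ∑ λ♭(n) √n χ_k(n) e^{-2πnw}` -/
def G (lam : ℕ → ℝ) (k : ℤ) (w : ℂ) : ℂ :=
  ∑' n : ℕ, ((flat lam n * Real.sqrt n * js k n : ℝ) : ℂ) * cexp (-(2 * Real.pi * n * w))

/-- `∫_{u0}^∞ |f(u e^{iθ})|² u^{2σ} du` -/
def NN (σ θ u0 : ℝ) (f : ℂ → ℂ) : ℝ≥0∞ :=
  ∫⁻ u in Set.Ioi u0, ‖f (ray θ u)‖ₑ ^ 2 * ENNReal.ofReal (u ^ (2 * σ))

/-- `∏_{p ∣ b} (p - 1 if p² ∣ j, else -1)` -/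
def hb (j : ℤ) (b : ℕ) : ℝ := ∏ p ∈ b.primeFactors, (if ((p : ℤ) ^ 2 ∣ j) then (p : ℝ) - 1 else -1)

/-- `∑_{m₁,m₂} a(m₁) a(m₂) e^{-2πb(m₁w + m₂w̄)} e^{-π(R/(b²m₁m₂))²}` -/
def AA (a : ℕ → ℝ) (b : ℕ) (R : ℝ) (w : ℂ) : ℂ :=
  ∑' m : ℕ × ℕ, ((a m.1 * a m.2 *
    Real.exp (-(Real.pi * (R / ((b : ℝ) ^ 2 * (m.1 : ℝ) * (m.2 : ℝ))) ^ 2)) : ℝ) : ℂ) *
    cexp (-(2 * Real.pi * b * ((m.1 : ℂ) * w + (m.2 : ℂ) * conj w)))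

/-- a family of `L`-functions of degree two: the quadratic twists of `λ`, by all squarefree integers
`d` (positive or negative, prime to `Q` or not).  The coefficients of the `d`-th are
`λ_d = e_d * (λ χ_d)`, its theta function has a functional equation `z → 1/z` of weight two. -/
structure Twists (Q : ℕ) (lam : ℕ → ℝ) where
  hecke : Hecke Q lam
  c : ℝ
  one_le_c : 1 ≤ c
  /-- square root of the conductor -/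
  q : ℤ → ℝ
  /-- sign of the functional equation -/
  w : ℤ → ℝ
  /-- the factors at the primes dividing `Q` -/
  e : ℤ → ℕ → ℝ
  /-- its Dirichlet inverse -/
  e' : ℤ → ℕ → ℝ
  q_lower : ∀ d : ℤ, Squarefree d → |(d : ℝ)| ≤ c * q d
  q_upper : ∀ d : ℤ, Squarefree d → q d ≤ c * |(d : ℝ)|
  w_sq : ∀ d : ℤ, Squarefree d → w d ^ 2 = 1
  e_zero : ∀ d : ℤ, Squarefree d → e d 0 = 0 ∧ e' d 0 = 0
  e_sum : ∀ d : ℤ, Squarefree d → Summable (fun a : ℕ => |e d a| * (a : ℝ) ^ (-(1 / 4) : ℝ)) ∧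
    ∑' a : ℕ, |e d a| * (a : ℝ) ^ (-(1 / 4) : ℝ) ≤ c
  e'_sum : ∀ d : ℤ, Squarefree d → Summable (fun a : ℕ => |e' d a| * (a : ℝ) ^ (-(1 / 4) : ℝ)) ∧
    ∑' a : ℕ, |e' d a| * (a : ℝ) ^ (-(1 / 4) : ℝ) ≤ c
  e_inv : ∀ d : ℤ, Squarefree d → ∀ n : ℕ, 1 ≤ n →
    ∑ x ∈ n.divisorsAntidiagonal, e d x.1 * e' d x.2 = if n = 1 then 1 else 0
  fe : ∀ d : ℤ, Squarefree d → ∀ z : ℂ, 0 < z.re →
    ∑' n : ℕ, (((∑ x ∈ n.divisorsAntidiagonal, e d x.1 * (lam x.2 * js d x.2)) *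
        Real.sqrt n : ℝ) : ℂ) * cexp (-(2 * Real.pi * n * (1 / z) / q d)) =
      w d * z ^ 2 * ∑' n : ℕ, (((∑ x ∈ n.divisorsAntidiagonal, e d x.1 * (lam x.2 * js d x.2)) *
        Real.sqrt n : ℝ) : ℂ) * cexp (-(2 * Real.pi * n * z / q d))

namespace Twists

variable {Q : ℕ} {lam : ℕ → ℝ} (T : Twists Q lam)

/-- the coefficients of the `d`-th `L`-function -/
def cf (d : ℤ) (n : ℕ) : ℝ := ∑ x ∈ n.divisorsAntidiagonal, T.e d x.1 * (lam x.2 * js d x.2)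

/-- `∑ λ_d(n) √n e^{-2πnw}` -/
def Gf (d : ℤ) (w : ℂ) : ℂ :=
  ∑' n : ℕ, ((T.cf d n * Real.sqrt n : ℝ) : ℂ) * cexp (-(2 * Real.pi * n * w))

/-- `F_d(z) = ∑ λ_d(n) √n e^{-2πnz/q_d}` -/
def F (d : ℤ) (z : ℂ) : ℂ := T.Gf d (z / T.q d)

/-- the `d`-th `L`-function, centre `1/2` -/
def ell (d : ℤ) (s : ℂ) : ℂ :=
  (2 * Real.pi / (T.q d : ℂ)) ^ (s + 1 / 2) * (Complex.Gamma (s + 1 / 2))⁻¹ *
    mellin (fun u : ℝ => T.F d (u : ℂ)) (s + 1 / 2)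

/-- `∫ |ℓ_d(σ+iy)|² (1+|y|)^24 e^{-π|y|/8} dy` -/
def II (d : ℤ) (σ : ℝ) : ℝ≥0∞ :=
  ∫⁻ y : ℝ, ‖T.ell d (σ + y * I)‖ₑ ^ 2 *
    ENNReal.ofReal ((1 + |y|) ^ 24 * Real.exp (-(Real.pi / 8 * |y|)))

end Twists

/-- `min(x⁻¹, x⁻¹⁰)` -/
def psi (x : ℝ) : ℝ := min (x⁻¹) ((x ^ 10)⁻¹)

/-- the squarefree integers `d`, `|d| ≤ X` -/
def sqf (X : ℕ) : Finset ℤ := (Finset.Icc (-(X : ℤ)) X).filter (fun d => Squarefree d.natAbs)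

theorem mem_sqf {X : ℕ} {d : ℤ} : d ∈ sqf X ↔ |d| ≤ X ∧ Squarefree d := by
  simp only [sqf, Finset.mem_filter, Finset.mem_Icc, Int.squarefree_natAbs, abs_le]

/-- the Dirichlet inverse of `λ` -/
def muE (Q : ℕ) (lam : ℕ → ℝ) (n : ℕ) : ℝ :=
  if n = 0 then 0 else
    n.factorization.prod fun p k => if k = 1 then -lam p else if k = 2 ∧ ¬ p ∣ Q then 1 else 0

/-- `∑_{h ∣ n, h ≤ Y} μ_E(h) λ(n/h)` -/
def cY (Q : ℕ) (lam : ℕ → ℝ) (Y n : ℕ) : ℝ :=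
  ∑ x ∈ n.divisorsAntidiagonal, if x.1 ≤ Y then muE Q lam x.1 * lam x.2 else 0

/-- the mollifier `∑_{h ≤ Y} μ_E(h) χ_d(h) h^{-s}` -/
def Mol (Q : ℕ) (lam : ℕ → ℝ) (Y : ℕ) (d : ℤ) (s : ℂ) : ℂ :=
  ∑ h ∈ Finset.Icc 1 Y, ((muE Q lam h * js d h : ℝ) : ℂ) * (h : ℂ) ^ (-s)

/-- `ℓ_d` without the factors at the primes dividing `Q`; equal to `∑ λ(n) χ_d(n) n^{-s}` -/
def Twists.Lq {Q : ℕ} {lam : ℕ → ℝ} (T : Twists Q lam) (d : ℤ) (s : ℂ) : ℂ :=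
  T.ell d s * ∑' a : ℕ, (T.e' d a : ℂ) * (a : ℂ) ^ (-s)

end

end Pool.Agent.Y19.QT
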