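import Pool.Agent.Y19.QT.Forms
import Pool.Agent.Y155.QT14
import Pool.Agent.Y496.QT15
import Pool.Agent.Y705.QT13
import Pool.Agent.Y818.QT13b
import Pool.Agent.Y691.QT10
import Pool.Agent.Y496.QT10a
import Pool.Agent.Y703.QT8

set_option autoImplicit false

/-! Project QT: from the orders of the central zeros to the ranks. -/

namespace Pool.Agent.Y19.QT

open Complex

noncomputable section

/-- exponential moments of `rank + ord` in the family of the quadratic twists -/
def ExpMom (a b : ℤ) : Prop :=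
  ∃ (C c : ℝ) (A : ℕ), 0 < c ∧ ∀ F : ℤ → ℂ → ℂ,
    (∀ d : ℤ, Squarefree d → IsLFun (a * d ^ 2) (b * d ^ 3) (F d)) →
    (∀ d : ℤ, Squarefree d → analyticOrderAt (F d) 1 ≠ ⊤) ∧
    ∀ X : ℕ, 3 ≤ X → ∑ d ∈ sqf X,
      Real.exp (c * (Module.finrank ℤ (EQ (a * d ^ 2) (b * d ^ 3)) +
        (analyticOrderAt (F d) 1).toNat)) ≤ C * X * Real.log X ^ A

/-- exponential moments for a family of twists -/
def S_T12 : Prop := ∀ {Q : ℕ} {lam : ℕ → ℝ} (T : Twists Q lam), ∃ (C c : ℝ) (A : ℕ), 0 < C ∧ 0 < c ∧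
    (∀ d : ℤ, Squarefree d → analyticOrderAt (T.ell d) (1 / 2) ≠ ⊤) ∧
    ∀ X : ℕ, 3 ≤ X →
      ∑ d ∈ sqf X,
        Real.exp (c * (analyticOrderAt (T.ell d) (1 / 2)).toNat) ≤ C * X * Real.log X ^ A

theorem one_le_log {X : ℕ} (hX : 3 ≤ X) : 1 ≤ Real.log X := by
  rw [Real.le_log_iff_exp_le (by positivity)]
  have h := Real.exp_one_lt_d9
  have : (3 : ℝ) ≤ X := by exact_mod_cast hX
  linarith

theorem expMom_of (h12 : S_T12) (a b : ℤ) (hab : 4 * a ^ 3 + 27 * b ^ 2 ≠ 0) (h : HasTwists a b) :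
    ExpMom a b := by
  obtain ⟨Q, lam, ⟨T⟩, hQ, hlam⟩ := h
  obtain ⟨C, c, A, hC, hc, hfin, hmom⟩ := h12 T
  obtain ⟨B, hB⟩ := Pool.Agent.Y155.QT14.T14 a b hab
  have hord : ∀ F : ℤ → ℂ → ℂ, (∀ d : ℤ, Squarefree d → IsLFun (a * d ^ 2) (b * d ^ 3) (F d)) →
      ∀ d : ℤ, Squarefree d → analyticOrderAt (F d) 1 = analyticOrderAt (T.ell d) (1 / 2) :=
    fun F hF d hd => Pool.Agent.Y705.QT.T13 a b hab Q lam T
      (fun d hd => ⟨(Pool.Agent.Y703.QT8.T8a T d hd).1, (Pool.Agent.Y703.QT8.T8a T d hd).2.1⟩)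
      hQ hlam d hd (F d) (hF d hd)
  set c1 : ℝ := min (c / 2) (Real.log 2 / 24) with hc1
  have hc1p : 0 < c1 := lt_min (by positivity) (by have := Real.log_pos one_lt_two; positivity)
  have hc1a : 2 * c1 ≤ c := by have := min_le_left (c / 2) (Real.log 2 / 24); linarith
  have hc1b : 24 * c1 ≤ Real.log 2 := by have := min_le_right (c / 2) (Real.log 2 / 24); linarith
  refine ⟨Real.exp (2 * c1 * B) * 8 + C, c1, A + 1, hc1p, fun F hF => ⟨fun d hd => ?_, ?_⟩⟩
  · rw [hord F hF d hd]; exact hfin d hd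
  · intro X hX
    have hl := one_le_log hX
    have hX0 : (0 : ℝ) ≤ X := Nat.cast_nonneg X
    have hpt : ∀ d ∈ sqf X, Real.exp (c1 * (Module.finrank ℤ (EQ (a * d ^ 2) (b * d ^ 3)) +
        (analyticOrderAt (F d) 1).toNat)) ≤
        Real.exp (2 * c1 * B) * (2 : ℝ) ^ d.natAbs.primeFactors.card +
          Real.exp (c * (analyticOrderAt (T.ell d) (1 / 2)).toNat) := by
      intro d hd
      have hsq : Squarefree d := (mem_sqf.1 hd).2
      rw [hord F hF d hsq]
      set o : ℝ := ((analyticOrderAt (T.ell d) (1 / 2)).toNat : ℝ) with ho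
      set r : ℝ := (Module.finrank ℤ (EQ (a * d ^ 2) (b * d ^ 3)) : ℝ) with hr
      have ho0 : 0 ≤ o := Nat.cast_nonneg _
      have hr0 : 0 ≤ r := Nat.cast_nonneg _
      have hrB : r ≤ B + 12 * d.natAbs.primeFactors.card := by
        have := hB d hsq.ne_zero
        rw [hr]; exact_mod_cast this
      have h1 : Real.exp (2 * c1 * r) ≤
          Real.exp (2 * c1 * B) * (2 : ℝ) ^ d.natAbs.primeFactors.card := by
        have e1 : (2 : ℝ) ^ d.natAbs.primeFactors.card =
            Real.exp (Real.log 2 * d.natAbs.primeFactors.card) := by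
          rw [mul_comm, Real.exp_nat_mul, Real.exp_log two_pos]
        rw [e1, ← Real.exp_add]
        apply Real.exp_le_exp.2
        have hw : (0 : ℝ) ≤ d.natAbs.primeFactors.card := Nat.cast_nonneg _
        have h2 : 2 * c1 * r ≤ 2 * c1 * (B + 12 * d.natAbs.primeFactors.card) :=
          mul_le_mul_of_nonneg_left hrB (by positivity)
        have h3 : 24 * c1 * d.natAbs.primeFactors.card ≤
            Real.log 2 * d.natAbs.primeFactors.card := mul_le_mul_of_nonneg_right hc1b hw
        linarith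
      have h2 : Real.exp (2 * c1 * o) ≤ Real.exp (c * o) := by
        apply Real.exp_le_exp.2
        exact mul_le_mul_of_nonneg_right hc1a ho0
      have h3 : Real.exp (c1 * (r + o)) ≤ Real.exp (2 * c1 * r) + Real.exp (2 * c1 * o) := by
        rcases le_total r o with h | h
        · have : Real.exp (c1 * (r + o)) ≤ Real.exp (2 * c1 * o) := by
            apply Real.exp_le_exp.2
            nlinarith
          have := Real.exp_pos (2 * c1 * r)
          linarith
        · have : Real.exp (c1 * (r + o)) ≤ Real.exp (2 * c1 * r) := by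
            apply Real.exp_le_exp.2
            nlinarith
          have := Real.exp_pos (2 * c1 * o)
          linarith
      linarith
    refine (Finset.sum_le_sum hpt).trans ?_
    rw [Finset.sum_add_distrib, ← Finset.mul_sum]
    have h4 := Pool.Agent.Y496.QT.T15 X hX
    have h5 := hmom X hX
    have e0 := Real.exp_pos (2 * c1 * B)
    have hpA : (1 : ℝ) ≤ Real.log X ^ A := one_le_pow₀ hl
    have h6 : Real.exp (2 * c1 * B) * ∑ d ∈ sqf X, (2 : ℝ) ^ d.natAbs.primeFactors.card ≤
        Real.exp (2 * c1 * B) * 8 * X * Real.log X ^ (A + 1) := by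
      have h7 : 4 * X * (1 + Real.log X) ≤ 8 * X * Real.log X ^ (A + 1) := by
        have h8 : 1 + Real.log X ≤ 2 * Real.log X ^ (A + 1) := by
          rw [pow_succ]
          nlinarith
        nlinarith
      have := mul_le_mul_of_nonneg_left (h4.trans h7) e0.le
      linarith
    have h7 : C * X * Real.log X ^ A ≤ C * X * Real.log X ^ (A + 1) := by
      apply mul_le_mul_of_nonneg_left _ (by positivity)
      exact pow_le_pow_right₀ hl (Nat.le_succ A)
    calc _ ≤ Real.exp (2 * c1 * B) * 8 * X * Real.log X ^ (A + 1) + C * X * Real.log X ^ (A + 1) :=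
          add_le_add h6 (h5.trans h7)
      _ = _ := by ring

/-- a function with values in `ℕ` and small exponential moments has small moments -/
theorem moments (C c : ℝ) (A : ℕ) (hc : 0 < c) (x : ℤ → ℕ)
    (h : ∀ X : ℕ, 3 ≤ X → ∑ d ∈ sqf X, Real.exp (c * x d) ≤ C * X * Real.log X ^ A) (k : ℕ) :
    ∀ X : ℕ, 3 ≤ X → ∑ d ∈ sqf X, (x d : ℝ) ^ k ≤
      (3 * (2 * A / c) ^ k + (k.factorial * (2 / c) ^ k) * C) * X * (1 + Real.log (Real.log X)) ^ k := by
  intro X hX
  have hl := one_le_log hX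
  have hl0 : 0 < Real.log X := by linarith
  have hll : 0 ≤ Real.log (Real.log X) := Real.log_nonneg hl
  set L : ℝ := Real.log (Real.log X) with hL
  have hpt : ∀ d ∈ sqf X, (x d : ℝ) ^ k ≤ (2 * A / c * L) ^ k +
      (k.factorial * (2 / c) ^ k) * (Real.exp (c * x d) / Real.log X ^ A) := by
    intro d hd
    have hx0 : (0 : ℝ) ≤ x d := Nat.cast_nonneg _
    have hE : (0 : ℝ) < Real.exp (c * x d) / Real.log X ^ A := by positivity
    by_cases hx : (x d : ℝ) ≤ 2 * A / c * L
    · have h1 := pow_le_pow_left₀ hx0 hx k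
      have : 0 ≤ (k.factorial * (2 / c) ^ k) * (Real.exp (c * x d) / Real.log X ^ A) := by positivity
      linarith
    · push Not at hx
      have h1 : (x d : ℝ) ^ k ≤ (k.factorial * (2 / c) ^ k) * Real.exp (c / 2 * x d) := by
        have h2 := Real.pow_div_factorial_le_exp (c / 2 * x d) (by positivity) k
        rw [div_le_iff₀ (by positivity)] at h2
        have h3 : (x d : ℝ) ^ k = (2 / c) ^ k * (c / 2 * x d) ^ k := by
          rw [← mul_pow]
          congr 1
          field_simp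
        rw [h3]
        calc (2 / c) ^ k * (c / 2 * x d) ^ k ≤ (2 / c) ^ k * (Real.exp (c / 2 * x d) * k.factorial) :=
              mul_le_mul_of_nonneg_left h2 (by positivity)
          _ = _ := by ring
      have h2 : Real.exp (c / 2 * x d) ≤ Real.exp (c * x d) / Real.log X ^ A := by
        rw [le_div_iff₀ (by positivity)]
        have h3 : Real.log X ^ A = Real.exp (A * L) := by
          rw [hL, Real.exp_nat_mul, Real.exp_log hl0]
        rw [h3, ← Real.exp_add]
        apply Real.exp_le_exp.2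
        have h4 : A * L ≤ c / 2 * x d := by
          have h5 : 2 * A / c * L * (c / 2) ≤ x d * (c / 2) :=
            mul_le_mul_of_nonneg_right hx.le (by positivity)
          have h6 : 2 * A / c * L * (c / 2) = A * L := by field_simp
          linarith
        linarith
      have h3 := mul_le_mul_of_nonneg_left h2 (show (0 : ℝ) ≤ k.factorial * (2 / c) ^ k by positivity)
      have h4 : (0 : ℝ) ≤ (2 * A / c * L) ^ k := by positivity
      linarith
  have hcard : ((sqf X).card : ℝ) ≤ 3 * X := by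
    have h1 : (sqf X).card ≤ 2 * X + 1 := by
      refine (Finset.card_le_card (Finset.filter_subset _ _)).trans ?_
      rw [Int.card_Icc]
      omega
    have h2 : (sqf X).card ≤ 3 * X := by omega
    exact_mod_cast h2
  refine (Finset.sum_le_sum hpt).trans ?_
  rw [Finset.sum_add_distrib, Finset.sum_const, nsmul_eq_mul, ← Finset.mul_sum, ← Finset.sum_div]
  have h1 : (∑ d ∈ sqf X, Real.exp (c * x d)) / Real.log X ^ A ≤ C * X := by
    rw [div_le_iff₀ (by positivity)]
    exact h X hX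
  have hLk : L ^ k ≤ (1 + L) ^ k := pow_le_pow_left₀ hll (by linarith) k
  have h1k : (1 : ℝ) ≤ (1 + L) ^ k := one_le_pow₀ (by linarith)
  have hCX : 0 ≤ C * X := by
    refine le_trans ?_ h1
    positivity
  have h2 : ((sqf X).card : ℝ) * (2 * A / c * L) ^ k ≤ 3 * X * ((2 * A / c) ^ k * (1 + L) ^ k) := by
    rw [mul_pow]
    apply mul_le_mul hcard (mul_le_mul_of_nonneg_left hLk (by positivity)) (by positivity)
      (by positivity)
  have h3 : (k.factorial * (2 / c) ^ k) * ((∑ d ∈ sqf X, Real.exp (c * x d)) / Real.log X ^ A) ≤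
      (k.factorial * (2 / c) ^ k) * (C * X * (1 + L) ^ k) := by
    apply mul_le_mul_of_nonneg_left _ (by positivity)
    refine h1.trans ?_
    nlinarith
  calc _ ≤ 3 * X * ((2 * A / c) ^ k * (1 + L) ^ k) +
        (k.factorial * (2 / c) ^ k) * (C * X * (1 + L) ^ k) := add_le_add h2 h3
    _ = _ := by ring

theorem hasTwists_of (a b : ℤ) (hab : 4 * a ^ 3 + 27 * b ^ 2 ≠ 0) (h : TwistsModular a b) :
    HasTwists a b :=
  Pool.Agent.Y691.QT.T10_of Pool.Agent.Y496.QT10a.T10a a b hab h

theorem exists_LFun (a b : ℤ) (hab : 4 * a ^ 3 + 27 * b ^ 2 ≠ 0) (h : TwistsModular a b) (d : ℤ)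
    (hd : Squarefree d) : ∃ F : ℂ → ℂ, IsLFun (a * d ^ 2) (b * d ^ 3) F := by
  obtain ⟨N, f, hf⟩ := h d hd.ne_zero
  refine Pool.Agent.Y818.QT13b.T13b _ _ ?_ N f hf
  have e : 4 * (a * d ^ 2) ^ 3 + 27 * (b * d ^ 3) ^ 2 = d ^ 6 * (4 * a ^ 3 + 27 * b ^ 2) := by ring
  rw [e]
  exact mul_ne_zero (pow_ne_zero _ hd.ne_zero) hab

end

end Pool.Agent.Y19.QT
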