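import Pool.Agent.Y19.QT.Low1
import Pool.Agent.Y703.QT12

set_option autoImplicit false

/-! Project QT: exponential moments of the number of zeros close to the centre (generalisation of
`Pool.Agent.Y703.QT12` from the order of the central zero to the zeros in a small disc). -/

namespace Pool.Agent.Y19.QT.Low

open Complex MeasureTheory Filter Topology Set
open Pool.Agent.Y19.QT Pool.Agent.Y703.QT8 Pool.Agent.Y703.QT12
open Pool.Agent.Y180.QT12b2 (Ep cx Ep_bound Ep_diff Lq_eq lj_le)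
open Pool.Agent.Y180.QT12d1 (Sq pt measurableSet_Sq continuous_pt)
open Pool.Agent.H306R2.RZ (js Gk)
open scoped ENNReal ComplexConjugate

variable {Q : ℕ} {lam : ℕ → ℝ} (T : Twists Q lam)

/-- the set of `d` with at least `r` zeros in the disc of radius `κ` -/
noncomputable def SN (X r : ℕ) (κ : ℝ) : Finset ℤ := by
  classical
  exact (sqf X).filter (fun d => ∃ r' : ℕ, r ≤ r' ∧ Near (T.ell d) κ r')

lemma mem_SN {X r : ℕ} {κ : ℝ} {d : ℤ} :
    d ∈ SN T X r κ ↔ d ∈ sqf X ∧ ∃ r' : ℕ, r ≤ r' ∧ Near (T.ell d) κ r' := by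
  unfold SN
  simp

lemma SN_sub (X r : ℕ) (κ : ℝ) : SN T X r κ ⊆ sqf X := fun _ hd => (mem_SN T |>.1 hd).1

lemma near_mono {f : ℂ → ℂ} {κ κ' : ℝ} {r : ℕ} (h : Near f κ r) (hk : κ ≤ κ') : Near f κ' r := by
  obtain ⟨S, m, h1, h2⟩ := h
  exact ⟨S, m, fun ρ hρ => ⟨(h1 ρ hρ).1.trans hk, (h1 ρ hρ).2⟩, h2⟩

lemma near_Lq {d : ℤ} (hd : Squarefree d) {κ : ℝ} (hκ : κ < 1 / 4) {r : ℕ}
    (h : Near (T.ell d) κ r) : Near (T.Lq d) κ r := by
  obtain ⟨S, m, h1, h2⟩ := h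
  refine ⟨S, m, fun ρ hρ => ⟨(h1 ρ hρ).1, ?_⟩, h2⟩
  have hre : 1 / 4 < ρ.re := by
    have h3 := (Complex.abs_re_le_norm (ρ - 1 / 2)).trans (h1 ρ hρ).1
    have h4 : (ρ - 1 / 2).re = ρ.re - 1 / 2 := by simp
    rw [h4] at h3
    have := (abs_le.1 h3).1
    linarith
  have hmem : {s : ℂ | 1 / 4 < s.re} ∈ 𝓝 ρ :=
    (isOpen_lt continuous_const continuous_re).mem_nhds hre
  have h3 : AnalyticAt ℂ (T.ell d) ρ := (T8a T d hd).1.analyticAt _
  have h4 : AnalyticAt ℂ (Ep T d) ρ := (Ep_diff T hd).analyticAt hmem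
  have e : T.Lq d = T.ell d * Ep T d := rfl
  rw [e, analyticOrderAt_mul h3 h4]
  exact (h1 ρ hρ).2.trans le_self_add

lemma pow_lb (r : ℕ) : Real.exp (33 / 25 * r) ≤ (79 / 21 : ℝ) ^ r := by
  have h : Real.exp (33 / 25) ≤ 79 / 21 := by
    have h1 : Real.exp (33 / 25) = Real.exp 1 * Real.exp (8 / 25) := by
      rw [← Real.exp_add]; norm_num
    have h2 := Real.exp_one_lt_d9
    have h3 : Real.exp (8 / 25) ≤ 1.3772 := by
      have h4 := Real.exp_bound' (x := 8 / 25) (by norm_num) (by norm_num) (n := 5) (by norm_num)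
      refine h4.trans ?_
      norm_num [Finset.sum_range_succ, Nat.factorial]
    rw [h1]
    have h5 := Real.exp_pos (8 / 25 : ℝ)
    nlinarith
  rw [mul_comm, Real.exp_nat_mul]
  exact pow_le_pow_left₀ (Real.exp_pos _).le h r

/-- the first sum -/
theorem sum_vv : ∃ (C : ℝ) (A : ℕ), 0 < C ∧ ∀ (X Y r : ℕ) (δ κ : ℝ), 3 ≤ X → 1 ≤ Y →
    (Y : ℝ) ^ 4 ≤ X → 1 / Real.log X ≤ 9 * δ → δ ≤ 1 / 100 → κ ≤ δ / 20 →
    δ ^ 2 * (79 / 21) ^ r * ∑ d ∈ SN T X r κ, ‖vv T Y δ d‖ ≤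
      C * (X : ℝ) ^ (1 + 32 * δ) * Real.log X ^ A := by
  obtain ⟨C1, A1, hC1, h1⟩ := mean_Sq T
  obtain ⟨C2, A2, hC2, h2⟩ := mean_Mol T.hecke
  refine ⟨C1 + C2, A1 + A2, by positivity, fun X Y r δ κ hX hY hYX hδ1 hδ2 hκ => ?_⟩
  have hX0 : (0 : ℝ) < X := by exact_mod_cast (by omega : 0 < X)
  have hX1 : (1 : ℝ) ≤ X := by exact_mod_cast (by omega : 1 ≤ X)
  have hL := log_ge_one hX
  have hY1 : (1 : ℝ) ≤ Y := by exact_mod_cast hY
  have hδ : 0 < δ := by
    have : 0 < 1 / Real.log X := by positivity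
    linarith
  have hpi := Real.pi_gt_three
  have hYX1 : (Y : ℝ) ≤ X := by
    calc (Y : ℝ) ≤ (Y : ℝ) ^ 4 := le_self_pow₀ hY1 (by norm_num)
      _ ≤ X := hYX
  have key : ∀ d ∈ SN T X r κ, ENNReal.ofReal (3 * δ * (5 * δ)) * (ENNReal.ofReal (2 * Real.pi) *
      ENNReal.ofReal ((79 / 21) ^ r * ‖vv T Y δ d‖)) ≤
      (∫⁻ p in Sq δ, ‖T.Lq d (pt δ p)‖ₑ ^ 2) + ∫⁻ p in Sq δ, ‖Mol Q lam Y d (pt δ p)‖ₑ ^ 2 := by
    intro d hd
    obtain ⟨hd1, r', hr', hd2⟩ := (mem_SN T).1 hd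
    have hdiff : DifferentiableOn ℂ (T.Lq d) (Metric.ball (1 / 2) (20 * δ)) := by
      refine (Lq_diff T (sqf_sqf hd1)).mono fun s hs => ?_
      rw [Metric.mem_ball, dist_eq_norm] at hs
      have h3 := (Complex.abs_re_le_norm (s - 1 / 2)).trans hs.le
      have h4 : (s - 1 / 2).re = s.re - 1 / 2 := by simp
      rw [h4] at h3
      have := (abs_le.1 h3).1
      show 1 / 4 < s.re
      linarith
    have h5 := stepB (M := fun s => Mol Q lam Y d s) hδ hdiff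
      (mol_diff Y d).differentiableOn
      (near_mono (near_Lq T (sqf_sqf hd1) (by linarith) hd2) hκ)
    have h6 : ENNReal.ofReal (3 * δ * (5 * δ)) * (ENNReal.ofReal (2 * Real.pi) *
        ENNReal.ofReal ((79 / 21) ^ r * ‖vv T Y δ d‖)) ≤
        ENNReal.ofReal (3 * δ * (5 * δ)) * (ENNReal.ofReal (2 * Real.pi) *
        ENNReal.ofReal ((79 / 21) ^ r' * ‖vv T Y δ d‖)) := by
      gcongr
      norm_num
    refine h6.trans ?_
    have hm : Measurable fun p : ℝ × ℝ => ‖Mol Q lam Y d (pt δ p)‖ₑ ^ 2 :=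
      (((mol_cont Y d).comp (continuous_pt δ)).enorm.measurable).pow_const 2
    rw [← lintegral_add_right _ hm]
    refine h5.trans (lintegral_mono fun p => ?_)
    rcases le_total ‖T.Lq d (pt δ p)‖ₑ ‖Mol Q lam Y d (pt δ p)‖ₑ with h | h
    · calc ‖T.Lq d (pt δ p)‖ₑ * ‖Mol Q lam Y d (pt δ p)‖ₑ
          ≤ ‖Mol Q lam Y d (pt δ p)‖ₑ * ‖Mol Q lam Y d (pt δ p)‖ₑ := by gcongr
        _ = ‖Mol Q lam Y d (pt δ p)‖ₑ ^ 2 := (sq _).symm
        _ ≤ _ := le_add_self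
    · calc ‖T.Lq d (pt δ p)‖ₑ * ‖Mol Q lam Y d (pt δ p)‖ₑ
          ≤ ‖T.Lq d (pt δ p)‖ₑ * ‖T.Lq d (pt δ p)‖ₑ := by gcongr
        _ = ‖T.Lq d (pt δ p)‖ₑ ^ 2 := (sq _).symm
        _ ≤ _ := le_self_add
  have hsum : ENNReal.ofReal (3 * δ * (5 * δ) * (2 * Real.pi) *
      ((79 / 21) ^ r * ∑ d ∈ SN T X r κ, ‖vv T Y δ d‖)) ≤
      ENNReal.ofReal (C1 * (X : ℝ) ^ (1 + 32 * δ) * Real.log X ^ A1 +
        C2 * X * Real.log X ^ A2 * (Y : ℝ) ^ (14 * δ)) := by
    rw [ENNReal.ofReal_mul (by positivity), ENNReal.ofReal_mul (by positivity), mul_assoc,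
      Finset.mul_sum, ENNReal.ofReal_sum_of_nonneg (fun d _ => by positivity), Finset.mul_sum,
      Finset.mul_sum, ENNReal.ofReal_add (by positivity) (by positivity)]
    refine (Finset.sum_le_sum key).trans ?_
    rw [Finset.sum_add_distrib]
    refine add_le_add ?_ ?_
    · exact (Finset.sum_le_sum_of_subset (SN_sub T X r κ)).trans (h1 X δ hX hδ1 hδ2)
    · exact (Finset.sum_le_sum_of_subset (SN_sub T X r κ)).trans (h2 X Y δ hX hY hYX hδ hδ2)
  have hreal := (ENNReal.ofReal_le_ofReal_iff (by positivity)).1 hsum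
  have hV : 0 ≤ ∑ d ∈ SN T X r κ, ‖vv T Y δ d‖ := Finset.sum_nonneg fun d _ => norm_nonneg _
  have e1 : (X : ℝ) * (Y : ℝ) ^ (14 * δ) ≤ (X : ℝ) ^ (1 + 32 * δ) := by
    rw [Real.rpow_add hX0, Real.rpow_one]
    gcongr
    calc (Y : ℝ) ^ (14 * δ) ≤ (X : ℝ) ^ (14 * δ) :=
          Real.rpow_le_rpow (by positivity) hYX1 (by positivity)
      _ ≤ (X : ℝ) ^ (32 * δ) := Real.rpow_le_rpow_of_exponent_le hX1 (by linarith)
  have h8 : Real.log X ^ A1 ≤ Real.log X ^ (A1 + A2) := pow_le_pow_right₀ hL (by omega)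
  have h9 : Real.log X ^ A2 ≤ Real.log X ^ (A1 + A2) := pow_le_pow_right₀ hL (by omega)
  calc δ ^ 2 * (79 / 21) ^ r * ∑ d ∈ SN T X r κ, ‖vv T Y δ d‖
      ≤ 30 * Real.pi * (δ ^ 2 * (79 / 21) ^ r * ∑ d ∈ SN T X r κ, ‖vv T Y δ d‖) := by
        have : 0 ≤ δ ^ 2 * (79 / 21) ^ r * ∑ d ∈ SN T X r κ, ‖vv T Y δ d‖ := by positivity
        nlinarith
    _ = 3 * δ * (5 * δ) * (2 * Real.pi) * ((79 / 21) ^ r * ∑ d ∈ SN T X r κ, ‖vv T Y δ d‖) := by
        ring
    _ ≤ C1 * (X : ℝ) ^ (1 + 32 * δ) * Real.log X ^ A1 +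
        C2 * X * Real.log X ^ A2 * (Y : ℝ) ^ (14 * δ) := hreal
    _ = C1 * (X : ℝ) ^ (1 + 32 * δ) * Real.log X ^ A1 +
        C2 * (X * (Y : ℝ) ^ (14 * δ)) * Real.log X ^ A2 := by ring
    _ ≤ C1 * (X : ℝ) ^ (1 + 32 * δ) * Real.log X ^ (A1 + A2) +
        C2 * (X : ℝ) ^ (1 + 32 * δ) * Real.log X ^ (A1 + A2) := by gcongr
    _ = _ := by ring

set_option maxHeartbeats 4000000 in
/-- the middle range -/
theorem card_mid : ∃ (C : ℝ) (A : ℕ), 0 < C ∧ ∀ (X r : ℕ) (κ : ℝ), 3 ≤ X → 12 ≤ r →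
    (r : ℝ) ≤ Real.log X → κ ≤ r / (2000 * Real.log X) →
    ((SN T X r κ).card : ℝ) ≤ C * X * Real.log X ^ A * Real.exp (-(r / 800)) := by
  obtain ⟨C1, A1, hC1, h1⟩ := sum_vv T
  obtain ⟨C2, A2, hC2, h2⟩ := sum_uu T
  refine ⟨81 * C1 + C2 * (2 + 2 * 9 ^ A2 + 1 + 1 + 9), A1 + 2 + (2 * A2 + 1), by positivity,
    fun X r κ hX hr hrX hκ => ?_⟩
  have hX0 : (0 : ℝ) < X := by exact_mod_cast (by omega : 0 < X)
  have hX1 : (1 : ℝ) ≤ X := by exact_mod_cast (by omega : 1 ≤ X)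
  set L := Real.log X with hLdef
  have hr' : (12 : ℝ) ≤ r := by exact_mod_cast hr
  have hL12 : 12 ≤ L := by linarith
  have hL1 : 1 ≤ L := by linarith
  have hXL : Real.exp L = X := Real.exp_log hX0
  set δ : ℝ := r / (100 * L) with hδdef
  have hδ : 0 < δ := by positivity
  have hδL : δ * L = r / 100 := by rw [hδdef]; field_simp
  have hκδ : κ ≤ δ / 20 := by
    refine hκ.trans (le_of_eq ?_)
    rw [hδdef]
    field_simp
    norm_num
  have hδ1 : δ ≤ 1 / 100 := by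
    rw [hδdef, div_le_div_iff₀ (by positivity) (by norm_num)]; linarith
  have hδ2 : 1 / L ≤ 9 * δ := by
    rw [hδdef, ← mul_div_assoc, div_le_div_iff₀ (by positivity) (by positivity)]
    nlinarith
  have hδi : δ⁻¹ ≤ 9 * L := by
    rw [hδdef, inv_div, div_le_iff₀ (by positivity)]
    nlinarith
  set Z : ℝ := (X : ℝ) ^ (1 / 4 : ℝ) with hZdef
  have hZ4 : Z ^ 4 = X := by
    rw [hZdef, ← Real.rpow_natCast, ← Real.rpow_mul hX0.le]
    norm_num
  have hZ1 : 1 ≤ Z := Real.one_le_rpow hX1 (by norm_num)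
  have hZ0 : 0 < Z := by linarith
  have hZexp : Z = Real.exp (L / 4) := by
    rw [hZdef, Real.rpow_def_of_pos hX0]
    congr 1
    rw [← hLdef]; ring
  set Y : ℕ := ⌊Z⌋₊ with hYdef
  have hY1 : 1 ≤ Y := Nat.floor_pos.2 hZ1
  have hY1' : (1 : ℝ) ≤ Y := by exact_mod_cast hY1
  have hYZ : (Y : ℝ) ≤ Z := Nat.floor_le hZ0.le
  have hZY : Z ≤ 2 * Y := by
    have := (Nat.lt_floor_add_one Z).le
    rw [← hYdef] at this
    linarith
  have hYX : (Y : ℝ) ^ 4 ≤ X := by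
    rw [← hZ4]; gcongr
  -- exponentials
  set E := Real.exp (-(r / 800)) with hE
  have hE0 : 0 < E := Real.exp_pos _
  have f1 : (X : ℝ) ^ (1 + 32 * δ) = X * Real.exp (8 / 25 * r) := by
    rw [Real.rpow_add hX0, Real.rpow_one, Real.rpow_def_of_pos hX0, ← hLdef]
    congr 2
    rw [show L * (32 * δ) = 32 * (δ * L) by ring, hδL]
    ring
  have f2 : Z ^ (-δ) = Real.exp (-(r / 400)) := by
    rw [hZexp, ← Real.exp_mul]
    congr 1
    rw [show L / 4 * -δ = -(δ * L) / 4 by ring, hδL]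
    ring
  set τ := (Y : ℝ) ^ (-(δ / 2)) with hτdef
  have hτ0 : 0 < τ := Real.rpow_pos_of_pos (by linarith) _
  have f3 : τ ≤ 2 * E := by
    have h3 : τ ≤ (Z / 2) ^ (-(δ / 2)) := by
      rw [hτdef, Real.rpow_neg (by positivity), Real.rpow_neg (by positivity)]
      apply inv_anti₀ (by positivity)
      apply Real.rpow_le_rpow (by positivity) (by linarith) (by positivity)
    have h4 : (Z / 2) ^ (-(δ / 2)) = Z ^ (-(δ / 2)) * 2 ^ (δ / 2) := by
      rw [Real.div_rpow hZ0.le (by norm_num), Real.rpow_neg (by norm_num : (0 : ℝ) ≤ 2)]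
      field_simp
    have h5 : Z ^ (-(δ / 2)) = E := by
      rw [hZexp, ← Real.exp_mul, hE]
      congr 1
      rw [show L / 4 * -(δ / 2) = -(δ * L) / 8 by ring, hδL]
      ring
    have h6 : (2 : ℝ) ^ (δ / 2) ≤ 2 := by
      calc (2 : ℝ) ^ (δ / 2) ≤ 2 ^ (1 : ℝ) :=
            Real.rpow_le_rpow_of_exponent_le (by norm_num) (by linarith)
        _ = 2 := Real.rpow_one 2
    rw [h4, h5] at h3
    nlinarith
  have f4 : τ⁻¹ * (Y : ℝ) ^ (-δ) = τ := by
    have : (Y : ℝ) ^ (-δ) = τ * τ := by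
      rw [hτdef, ← Real.rpow_add (by linarith)]; congr 1; ring
    rw [this]; field_simp
  have f5 : τ⁻¹ ≤ X * E := by
    have h3 : τ⁻¹ = (Y : ℝ) ^ (δ / 2) := by
      rw [hτdef, Real.rpow_neg (by positivity), inv_inv]
    rw [h3]
    calc (Y : ℝ) ^ (δ / 2) ≤ Z ^ (δ / 2) := Real.rpow_le_rpow (by positivity) hYZ (by positivity)
      _ = Real.exp (r / 800) := by
          rw [hZexp, ← Real.exp_mul]
          congr 1
          rw [show L / 4 * (δ / 2) = (δ * L) / 8 by ring, hδL]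
          ring
      _ ≤ Real.exp (L + -(r / 800)) := by
          apply Real.exp_le_exp.2
          linarith
      _ = X * E := by rw [Real.exp_add, hXL]
  have f6 : Z⁻¹ ≤ E := by
    rw [hZexp, ← Real.exp_neg, hE]
    apply Real.exp_le_exp.2
    linarith
  -- the first sum
  have hV : ∑ d ∈ SN T X r κ, ‖vv T Y δ d‖ ≤ 81 * C1 * X * L ^ (A1 + 2) * E := by
    have h3 := h1 X Y r δ κ hX hY1 hYX hδ2 hδ1 hκδ
    rw [f1] at h3
    have h4 : 0 < δ ^ 2 * (79 / 21) ^ r := by positivity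
    have h5 : 1 ≤ δ ^ 2 * (81 * L ^ 2) := by
      have : (1 : ℝ) ≤ δ * (9 * L) := by
        have := mul_le_mul_of_nonneg_left hδi hδ.le
        rwa [mul_inv_cancel₀ hδ.ne'] at this
      calc (1 : ℝ) = 1 ^ 2 := by norm_num
        _ ≤ (δ * (9 * L)) ^ 2 := by gcongr
        _ = _ := by ring
    have h6 : Real.exp (8 / 25 * r) ≤ (79 / 21) ^ r * E := by
      calc Real.exp (8 / 25 * r) ≤ Real.exp (33 / 25 * r + -(r / 800)) := by
            apply Real.exp_le_exp.2; linarith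
        _ = Real.exp (33 / 25 * r) * E := Real.exp_add _ _
        _ ≤ (79 / 21) ^ r * E := by gcongr; exact pow_lb r
    refine le_of_mul_le_mul_left (h3.trans ?_) h4
    calc C1 * (X * Real.exp (8 / 25 * r)) * L ^ A1
        ≤ C1 * (X * ((79 / 21) ^ r * E)) * L ^ A1 * 1 := by rw [mul_one]; gcongr
      _ ≤ C1 * (X * ((79 / 21) ^ r * E)) * L ^ A1 * (δ ^ 2 * (81 * L ^ 2)) := by gcongr
      _ = _ := by ring
  -- the second sum
  have hU : ∑ d ∈ sqf X, ‖vv T Y δ d - 1‖ ≤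
      C2 * (2 + 2 * 9 ^ A2 + 1 + 1 + 9) * X * L ^ (2 * A2 + 1) * E := by
    have h3 := h2 X Y Z δ τ hX (by linarith) hY1 hYX hZ1 hZ4.le hδ (by linarith) hτ0
    rw [f2] at h3
    have g1 : X * τ ≤ 2 * (X * E) := by nlinarith
    have g2 : τ⁻¹ * X * (Y : ℝ) ^ (-δ) * δ⁻¹ ^ A2 ≤ 2 * (X * E) * (9 ^ A2 * L ^ A2) := by
      calc τ⁻¹ * X * (Y : ℝ) ^ (-δ) * δ⁻¹ ^ A2 = X * (τ⁻¹ * (Y : ℝ) ^ (-δ)) * δ⁻¹ ^ A2 := by ring
        _ = X * τ * δ⁻¹ ^ A2 := by rw [f4]
        _ ≤ (2 * (X * E)) * (9 * L) ^ A2 := by gcongr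
        _ = _ := by rw [mul_pow]
    have g3 : X * Z⁻¹ ≤ X * E := by gcongr
    have g4 : δ⁻¹ * Real.exp (-(r / 400)) * X ≤ 9 * L * (X * E) := by
      have : Real.exp (-(r / 400)) ≤ E := by
        rw [hE]; apply Real.exp_le_exp.2; linarith
      calc δ⁻¹ * Real.exp (-(r / 400)) * X ≤ (9 * L) * E * X := by gcongr
        _ = _ := by ring
    have gL : 1 ≤ L ^ (A2 + 1) := one_le_pow₀ hL1
    have gL2 : L ^ A2 ≤ L ^ (A2 + 1) := pow_le_pow_right₀ hL1 (by omega)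
    have gL3 : L ≤ L ^ (A2 + 1) := le_self_pow₀ hL1 (by omega)
    calc ∑ d ∈ sqf X, ‖vv T Y δ d - 1‖
        ≤ C2 * L ^ A2 * (X * τ + τ⁻¹ * X * (Y : ℝ) ^ (-δ) * (δ⁻¹) ^ A2 +
          τ⁻¹ + X * Z⁻¹ + δ⁻¹ * Real.exp (-(r / 400)) * X) := h3
      _ ≤ C2 * L ^ A2 * (2 * (X * E) * 1 + 2 * (X * E) * (9 ^ A2 * L ^ A2) + X * E * 1 +
          X * E * 1 + 9 * L * (X * E)) := by
          rw [mul_one, mul_one]
          gcongr
      _ ≤ C2 * L ^ A2 * (2 * (X * E) * L ^ (A2 + 1) + 2 * (X * E) * (9 ^ A2 * L ^ (A2 + 1)) +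
          X * E * L ^ (A2 + 1) + X * E * L ^ (A2 + 1) + 9 * L ^ (A2 + 1) * (X * E)) := by
          gcongr
      _ = _ := by ring
  -- conclusion
  have hcount : ((SN T X r κ).card : ℝ) ≤ ∑ d ∈ SN T X r κ, ‖vv T Y δ d‖ +
      ∑ d ∈ sqf X, ‖vv T Y δ d - 1‖ := by
    calc ((SN T X r κ).card : ℝ) = ∑ d ∈ SN T X r κ, (1 : ℝ) := by simp
      _ ≤ ∑ d ∈ SN T X r κ, (‖vv T Y δ d‖ + ‖vv T Y δ d - 1‖) := by
          refine Finset.sum_le_sum fun d _ => ?_
          have := norm_sub_le (vv T Y δ d) (vv T Y δ d - 1)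
          simpa using this
      _ = ∑ d ∈ SN T X r κ, ‖vv T Y δ d‖ + ∑ d ∈ SN T X r κ, ‖vv T Y δ d - 1‖ :=
          Finset.sum_add_distrib
      _ ≤ _ := by
          gcongr
          exact SN_sub T X r κ
  have p1 : L ^ (A1 + 2) ≤ L ^ (A1 + 2 + (2 * A2 + 1)) := pow_le_pow_right₀ hL1 (by omega)
  have p2 : L ^ (2 * A2 + 1) ≤ L ^ (A1 + 2 + (2 * A2 + 1)) := pow_le_pow_right₀ hL1 (by omega)
  calc ((SN T X r κ).card : ℝ) ≤ 81 * C1 * X * L ^ (A1 + 2) * E +
        C2 * (2 + 2 * 9 ^ A2 + 1 + 1 + 9) * X * L ^ (2 * A2 + 1) * E := by linarith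
    _ ≤ 81 * C1 * X * L ^ (A1 + 2 + (2 * A2 + 1)) * E +
        C2 * (2 + 2 * 9 ^ A2 + 1 + 1 + 9) * X * L ^ (A1 + 2 + (2 * A2 + 1)) * E := by gcongr
    _ = _ := by ring

/-- the trivial bound for the number of zeros in the disc of radius `1/4` -/
theorem ord_bound : ∃ C : ℝ, 1 ≤ C ∧ ∀ (d : ℤ) (X : ℕ), Squarefree d → 3 ≤ X → |d| ≤ X →
    ∀ r : ℕ, Near (T.ell d) (1 / 4) r → (r : ℝ) ≤ C * Real.log X := by
  obtain ⟨C, A, hC, h⟩ := T8d T
  have hc := c_pos T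
  have hlog : 0 < Real.log (21 / 19) := Real.log_pos (by norm_num)
  refine ⟨max 1 ((|Real.log (2 * T.c * C)| + A) / Real.log (21 / 19)), le_max_left _ _,
    fun d X hd hX hdX r hr => ?_⟩
  have hd1 := one_le_abs hd
  have hX0 : (0 : ℝ) < X := by exact_mod_cast (by omega : 0 < X)
  have hdX' : |(d : ℝ)| ≤ X := by exact_mod_cast hdX
  have hL1 : 1 ≤ Real.log X := log_ge_one hX
  obtain ⟨S, m, hS, hSr⟩ := hr
  obtain ⟨g, hg1, hg2⟩ := exists_quots isOpen_univ m S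
    (T8a T d hd).1.differentiableOn fun ρ hρ => ⟨mem_univ _, (hS ρ hρ).2⟩
  have hg1' : Differentiable ℂ g := differentiableOn_univ.1 hg1
  have hmax : ‖g 5‖ ≤ C * |(d : ℝ)| ^ A / (21 / 4) ^ r := by
    refine Complex.norm_le_of_forall_mem_frontier_norm_le (U := Metric.ball (1 / 2 : ℂ) (11 / 2))
      Metric.isBounded_ball hg1'.diffContOnCl (fun z hz => ?_) ?_
    · rw [frontier_ball _ (by norm_num), mem_sphere_iff_norm] at hz
      have h1 := hg2 z (mem_univ _)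
      have h2 := h d z hd (by
        calc ‖z‖ = ‖(z - 1 / 2) + 1 / 2‖ := by ring_nf
          _ ≤ ‖z - 1 / 2‖ + ‖(1 / 2 : ℂ)‖ := norm_add_le _ _
          _ = 6 := by rw [hz]; norm_num)
      have h7 : (21 / 4 : ℝ) ^ r ≤ ‖∏ ρ ∈ S, (z - ρ) ^ m ρ‖ := by
        rw [norm_prod, ← hSr, ← Finset.prod_pow_eq_pow_sum]
        refine Finset.prod_le_prod (fun ρ _ => by positivity) fun ρ hρ => ?_
        rw [norm_pow]
        refine pow_le_pow_left₀ (by positivity) ?_ _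
        have h8 : ‖z - 1 / 2‖ ≤ ‖z - ρ‖ + ‖ρ - 1 / 2‖ := by
          have : z - 1 / 2 = (z - ρ) + (ρ - 1 / 2) := by ring
          rw [this]
          exact norm_add_le _ _
        have h9 := (hS ρ hρ).1
        rw [hz] at h8
        linarith
      rw [h1, norm_mul] at h2
      rw [le_div_iff₀ (by positivity)]
      have h8 := mul_le_mul_of_nonneg_right h7 (norm_nonneg (g z))
      linarith
    · rw [closure_ball _ (by norm_num), Metric.mem_closedBall, dist_eq_norm]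
      norm_num
  have h5 : ‖T.ell d 5‖ ≤ (19 / 4) ^ r * ‖g 5‖ := by
    rw [hg2 5 (mem_univ _), norm_mul]
    gcongr
    rw [norm_prod, ← hSr, ← Finset.prod_pow_eq_pow_sum]
    refine Finset.prod_le_prod (fun ρ _ => norm_nonneg _) fun ρ hρ => ?_
    rw [norm_pow]
    refine pow_le_pow_left₀ (norm_nonneg _) ?_ _
    have h9 := (hS ρ hρ).1
    calc ‖(5 : ℂ) - ρ‖ = ‖(9 / 2 : ℂ) - (ρ - 1 / 2)‖ := by congr 1; ring
      _ ≤ ‖(9 / 2 : ℂ)‖ + ‖ρ - 1 / 2‖ := norm_sub_le _ _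
      _ ≤ 9 / 2 + 1 / 4 := by
        have : ‖(9 / 2 : ℂ)‖ = 9 / 2 := by norm_num
        linarith
      _ = 19 / 4 := by norm_num
  have h6 := (ell_five T hd).trans h5
  have h7 : (21 / 19 : ℝ) ^ r ≤ 2 * T.c * C * |(d : ℝ)| ^ A := by
    have e1 : (21 / 19 : ℝ) ^ r = (21 / 4) ^ r / (19 / 4) ^ r := by rw [← div_pow]; norm_num
    rw [e1, div_le_iff₀ (by positivity)]
    have h8 : 1 / (2 * T.c) ≤ (19 / 4) ^ r * (C * |(d : ℝ)| ^ A / (21 / 4) ^ r) :=
      h6.trans (by gcongr)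
    rw [div_le_iff₀ (by positivity)] at h8
    have h9 : (19 / 4 : ℝ) ^ r * (C * |(d : ℝ)| ^ A / (21 / 4) ^ r) * (2 * T.c) =
      (2 * T.c * C * |(d : ℝ)| ^ A * (19 / 4) ^ r) / (21 / 4) ^ r := by ring
    rw [h9, le_div_iff₀ (by positivity), one_mul] at h8
    exact h8
  have h8 : (r : ℝ) * Real.log (21 / 19) ≤ |Real.log (2 * T.c * C)| + A * Real.log X := by
    have e := Real.log_le_log (by positivity) h7
    rw [Real.log_pow, Real.log_mul (by positivity) (by positivity), Real.log_pow] at e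
    have e2 : Real.log |(d : ℝ)| ≤ Real.log X := Real.log_le_log (by linarith) hdX'
    have e3 := le_abs_self (Real.log (2 * T.c * C))
    have e4 : (A : ℝ) * Real.log |(d : ℝ)| ≤ A * Real.log X := by gcongr
    linarith
  calc (r : ℝ) ≤ (|Real.log (2 * T.c * C)| + A * Real.log X) / Real.log (21 / 19) := by
        rw [le_div_iff₀ hlog]; exact h8
    _ ≤ ((|Real.log (2 * T.c * C)| + A) * Real.log X) / Real.log (21 / 19) := by
        gcongr
        have := abs_nonneg (Real.log (2 * T.c * C))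
        nlinarith
    _ = (|Real.log (2 * T.c * C)| + A) / Real.log (21 / 19) * Real.log X := by ring
    _ ≤ _ := by gcongr; exact le_max_right _ _

/-- all `r` -/
theorem card_all : ∃ (c : ℝ) (A : ℕ), 0 < c ∧ ∀ K : ℝ, 0 ≤ K → ∃ C : ℝ, 0 < C ∧ ∀ X r : ℕ, 3 ≤ X →
    4 * K ≤ Real.log X →
    ((SN T X r (K / Real.log X)).card : ℝ) ≤ C * X * Real.log X ^ A * Real.exp (-(c * r)) := by
  obtain ⟨C1, A, hC1, h1⟩ := card_mid T
  obtain ⟨D, hD, h2⟩ := ord_bound T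
  have hD0 : 0 < D := by linarith
  refine ⟨1 / (800 * D), A, by positivity, fun K hK => ?_⟩
  set K' : ℝ := 2000 * K + 13 with hK'
  have hK'0 : 0 < K' := by positivity
  refine ⟨(3 + C1) * Real.exp K', by positivity, fun X r hX hKX => ?_⟩
  have hX0 : (0 : ℝ) < X := by exact_mod_cast (by omega : 0 < X)
  have hL1 := log_ge_one hX
  set L := Real.log X with hLdef
  set κ := K / L with hκ
  have hκ4 : κ ≤ 1 / 4 := by
    rw [hκ, div_le_div_iff₀ (by linarith) (by norm_num)]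
    linarith
  have hLA : 1 ≤ L ^ A := one_le_pow₀ hL1
  have triv : ((SN T X r κ).card : ℝ) ≤ 3 * X := by
    refine le_trans ?_ (card_sqf (X := X) (by omega))
    exact_mod_cast Finset.card_le_card (SN_sub T X r κ)
  have small : (r : ℝ) ≤ K' * D →
      ((SN T X r κ).card : ℝ) ≤ (3 + C1) * Real.exp K' * X * L ^ A *
        Real.exp (-(1 / (800 * D) * r)) := by
    intro hr
    have e1 : 1 ≤ Real.exp K' * Real.exp (-(1 / (800 * D) * r)) := by
      rw [← Real.exp_add, Real.one_le_exp_iff]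
      have : 1 / (800 * D) * r ≤ K' := by
        rw [div_mul_eq_mul_div, one_mul, div_le_iff₀ (by positivity)]
        nlinarith
      linarith
    calc ((SN T X r κ).card : ℝ) ≤ 3 * X * 1 * 1 := by linarith
      _ ≤ (3 + C1) * X * L ^ A * (Real.exp K' * Real.exp (-(1 / (800 * D) * r))) := by
          gcongr; linarith
      _ = _ := by ring
  rcases le_or_gt (r : ℝ) K' with hr | hr
  · apply small
    nlinarith
  have hr12 : 12 ≤ r := by
    have : (12 : ℝ) < r := by linarith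
    exact_mod_cast this.le
  have hκr : ∀ s : ℝ, 2000 * K ≤ s → κ ≤ s / (2000 * L) := by
    intro s hs
    rw [hκ, div_le_div_iff₀ (by linarith) (by linarith)]
    nlinarith
  rcases le_or_gt (r : ℝ) L with hrL | hrL
  · refine (h1 X r κ hX hr12 hrL (hκr r (by linarith))).trans ?_
    have e2 : Real.exp (-(r / 800 : ℝ)) ≤ Real.exp K' * Real.exp (-(1 / (800 * D) * r)) := by
      rw [← Real.exp_add]
      apply Real.exp_le_exp.2
      have : 1 / (800 * D) * r ≤ 1 / 800 * r := by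
        gcongr
        linarith
      linarith
    calc C1 * X * L ^ A * Real.exp (-(r / 800 : ℝ))
        ≤ (3 + C1) * X * L ^ A * (Real.exp K' * Real.exp (-(1 / (800 * D) * r))) := by
          gcongr; linarith
      _ = _ := by ring
  rcases le_or_gt (r : ℝ) (D * L) with hrD | hrD
  · rcases lt_or_ge L K' with hL12 | hL12
    · apply small
      nlinarith
    · set s := ⌊L⌋₊ with hs
      have hs12 : 12 ≤ s := Nat.le_floor (by push_cast; linarith)
      have hsL : (s : ℝ) ≤ L := Nat.floor_le (by linarith)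
      have hLs : L ≤ s + 1 := (Nat.lt_floor_add_one L).le
      have hsr : s ≤ r := by
        have : (s : ℝ) ≤ r := by linarith
        exact_mod_cast this
      have hsub : SN T X r κ ⊆ SN T X s κ := by
        intro d hd
        obtain ⟨hd1, r', hr', hd2⟩ := (mem_SN T).1 hd
        exact (mem_SN T).2 ⟨hd1, r', hsr.trans hr', hd2⟩
      have e2 : Real.exp (-(s / 800 : ℝ)) ≤ Real.exp K' * Real.exp (-(1 / (800 * D) * r)) := by
        rw [← Real.exp_add]
        apply Real.exp_le_exp.2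
        have h4 : 1 / (800 * D) * r ≤ L / 800 := by
          rw [div_mul_eq_mul_div, one_mul, div_le_div_iff₀ (by positivity) (by norm_num)]
          nlinarith
        linarith
      calc ((SN T X r κ).card : ℝ) ≤ ((SN T X s κ).card : ℝ) := by
            exact_mod_cast Finset.card_le_card hsub
        _ ≤ C1 * X * L ^ A * Real.exp (-(s / 800 : ℝ)) :=
            h1 X s κ hX hs12 hsL (hκr s (by linarith))
        _ ≤ (3 + C1) * X * L ^ A * (Real.exp K' * Real.exp (-(1 / (800 * D) * r))) := by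
            gcongr; linarith
        _ = _ := by ring
  · have hempty : SN T X r κ = ∅ := by
      rw [Finset.eq_empty_iff_forall_notMem]
      intro d hd
      obtain ⟨hd1, r', hr', hd2⟩ := (mem_SN T).1 hd
      have := h2 d X (sqf_sqf hd1) hX (mem_sqf.1 hd1).1 r' (near_mono hd2 hκ4)
      have hr'' : (r : ℝ) ≤ r' := by exact_mod_cast hr'
      linarith
    rw [hempty]
    simp only [Finset.card_empty, Nat.cast_zero]
    positivity

/-- exponential moments of the number of zeros in the disc of radius `K / log X` -/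
theorem near_moment : ∃ (c : ℝ) (A : ℕ), 0 < c ∧ ∀ K : ℝ, 0 ≤ K → ∃ C : ℝ, 0 < C ∧
    ∀ (X : ℕ) (n : ℤ → ℕ), 3 ≤ X → 4 * K ≤ Real.log X →
      (∀ d ∈ sqf X, Near (T.ell d) (K / Real.log X) (n d)) →
      ∑ d ∈ sqf X, Real.exp (c * n d) ≤ C * X * Real.log X ^ A := by
  obtain ⟨c, A, hc, h⟩ := card_all T
  set q := Real.exp (-(c / 2)) with hq
  have hq0 : 0 < q := Real.exp_pos _
  have hq1 : q < 1 := by rw [hq, Real.exp_lt_one_iff]; linarith
  refine ⟨c / 2, A, by positivity, fun K hK => ?_⟩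
  obtain ⟨C, hC, h⟩ := h K hK
  refine ⟨C * (1 - q)⁻¹, mul_pos hC (inv_pos.2 (by linarith)), fun X n hX hKX hn => ?_⟩
  have hX0 : (0 : ℝ) < X := by exact_mod_cast (by omega : 0 < X)
  have hL1 := log_ge_one hX
  set κ := K / Real.log X with hκ
  set R : ℕ := (sqf X).sup n with hR
  have hmem : ∀ d ∈ sqf X, ∀ r : ℕ, r ≤ n d → d ∈ SN T X r κ :=
    fun d hd r hr => (mem_SN T).2 ⟨hd, n d, hr, hn d hd⟩
  have step : ∀ d ∈ sqf X, Real.exp (c / 2 * n d) ≤
      ∑ r ∈ Finset.range (R + 1), if d ∈ SN T X r κ then Real.exp (c / 2 * r) else 0 := by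
    intro d hd
    have h1 : n d ∈ Finset.range (R + 1) :=
      Finset.mem_range.2 (Nat.lt_succ_of_le (Finset.le_sup (f := n) hd))
    calc Real.exp (c / 2 * n d) =
          if d ∈ SN T X (n d) κ then Real.exp (c / 2 * (n d : ℕ)) else 0 := by
          rw [if_pos (hmem d hd _ le_rfl)]
      _ ≤ _ := Finset.single_le_sum
          (f := fun r : ℕ => if d ∈ SN T X r κ then Real.exp (c / 2 * r) else 0)
          (fun r _ => by positivity) h1
  calc ∑ d ∈ sqf X, Real.exp (c / 2 * n d)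
      ≤ ∑ d ∈ sqf X, ∑ r ∈ Finset.range (R + 1),
        (if d ∈ SN T X r κ then Real.exp (c / 2 * r) else 0) := Finset.sum_le_sum step
    _ = ∑ r ∈ Finset.range (R + 1), ∑ d ∈ sqf X,
        (if d ∈ SN T X r κ then Real.exp (c / 2 * r) else 0) := Finset.sum_comm
    _ = ∑ r ∈ Finset.range (R + 1), ((SN T X r κ).card : ℝ) * Real.exp (c / 2 * r) := by
        refine Finset.sum_congr rfl fun r _ => ?_
        rw [← Finset.sum_filter, Finset.sum_const, nsmul_eq_mul]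
        congr 3
        ext d
        simp only [Finset.mem_filter]
        exact ⟨fun h => h.2, fun h => ⟨SN_sub T X r κ h, h⟩⟩
    _ ≤ ∑ r ∈ Finset.range (R + 1), (C * X * Real.log X ^ A) * q ^ r := by
        refine Finset.sum_le_sum fun r _ => ?_
        have h3 : Real.exp (-(c * r)) * Real.exp (c / 2 * r) = q ^ r := by
          rw [← Real.exp_add, hq, ← Real.exp_nat_mul]; congr 1; ring
        calc ((SN T X r κ).card : ℝ) * Real.exp (c / 2 * r)
            ≤ (C * X * Real.log X ^ A * Real.exp (-(c * r))) * Real.exp (c / 2 * r) := by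
              gcongr
              exact h X r hX hKX
          _ = (C * X * Real.log X ^ A) * q ^ r := by rw [mul_assoc, h3]
    _ = (C * X * Real.log X ^ A) * ∑ r ∈ Finset.range (R + 1), q ^ r := by rw [Finset.mul_sum]
    _ ≤ (C * X * Real.log X ^ A) * (1 - q)⁻¹ := by
        gcongr
        have h5 : HasSum (fun r : ℕ => q ^ r) (1 - q)⁻¹ := hasSum_geometric_of_lt_one hq0.le hq1
        rw [← h5.tsum_eq]
        exact h5.summable.sum_le_tsum _ (fun r _ => by positivity)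
    _ = _ := by ring

end Pool.Agent.Y19.QT.Low
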