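import Pool.Agent.Y705.QT13
import Pool.Agent.Y703.QT8
import Pool.Agent.Y180.QT12b2b

set_option autoImplicit false

/-! Project QT: symmetry of the zeros, and the statement on almost all twists. -/

namespace Pool.Agent.Y19.QT

open Complex Filter Topology MeasureTheory
open Pool.Agent.H306R2.RZ (js Gk)
open Pool.Agent.Y705.QT
open scoped ENNReal

noncomputable section

variable {Q : ℕ} {lam : ℕ → ℝ}

theorem mellin_fe (T : Twists Q lam) {d : ℤ} (hd : Squarefree d) (z : ℂ) :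
    mellin (fun u : ℝ => T.F d (u : ℂ)) (2 - z) =
      T.w d * mellin (fun u : ℝ => T.F d (u : ℂ)) z := by
  have e1 : (2 - z : ℂ) = -(z - 2) := by ring
  rw [e1, ← mellin_comp_inv]
  have e2 : mellin (fun t : ℝ => T.F d ((t⁻¹ : ℝ) : ℂ)) (z - 2) =
      mellin (fun t : ℝ => (T.w d : ℂ) * ((t : ℂ) ^ (2 : ℂ) • T.F d (t : ℂ))) (z - 2) := by
    unfold mellin
    refine setIntegral_congr_fun measurableSet_Ioi fun t ht => ?_
    have ht' : (0 : ℝ) < t := ht
    show (t : ℂ) ^ (z - 2 - 1) • T.F d ((t⁻¹ : ℝ) : ℂ) =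
      (t : ℂ) ^ (z - 2 - 1) • ((T.w d : ℂ) * ((t : ℂ) ^ (2 : ℂ) • T.F d (t : ℂ)))
    congr 1
    have h := T.fe d hd (t : ℂ) (by rw [ofReal_re]; exact ht')
    have e3 : (t : ℂ) ^ (2 : ℂ) = (t : ℂ) ^ (2 : ℕ) := by
      have := Complex.cpow_natCast (t : ℂ) 2
      exact_mod_cast this
    rw [e3]
    have h1 : T.F d ((t⁻¹ : ℝ) : ℂ) = ∑' n : ℕ, (((∑ x ∈ n.divisorsAntidiagonal,
        T.e d x.1 * (lam x.2 * js d x.2)) * Real.sqrt n : ℝ) : ℂ) *
          cexp (-(2 * Real.pi * n * (1 / (t : ℂ)) / T.q d)) := by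
      unfold Twists.F Twists.Gf Twists.cf
      refine tsum_congr fun n => ?_
      push_cast
      congr 2
      ring
    have h2 : T.F d (t : ℂ) = ∑' n : ℕ, (((∑ x ∈ n.divisorsAntidiagonal,
        T.e d x.1 * (lam x.2 * js d x.2)) * Real.sqrt n : ℝ) : ℂ) *
          cexp (-(2 * Real.pi * n * (t : ℂ) / T.q d)) := by
      unfold Twists.F Twists.Gf Twists.cf
      refine tsum_congr fun n => ?_
      push_cast
      congr 2
      ring
    rw [h1, h2, h, smul_eq_mul]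
    ring
  rw [e2]
  have e4 : mellin (fun t : ℝ => (T.w d : ℂ) * ((t : ℂ) ^ (2 : ℂ) • T.F d (t : ℂ))) (z - 2) =
      (T.w d : ℂ) * mellin (fun t : ℝ => (t : ℂ) ^ (2 : ℂ) • T.F d (t : ℂ)) (z - 2) := by
    have := mellin_const_smul (fun t : ℝ => (t : ℂ) ^ (2 : ℂ) • T.F d (t : ℂ)) (z - 2) (T.w d : ℂ)
    simpa only [smul_eq_mul] using this
  rw [e4, mellin_cpow_smul]
  congr 2
  ring

theorem ell_zero_symm (T : Twists Q lam) {d : ℤ} (hd : Squarefree d) {s : ℂ} (h1 : 0 < s.re)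
    (h2 : s.re < 1) (h0 : T.ell d s = 0) : T.ell d (1 - s) = 0 := by
  have hw : (T.w d : ℂ) ≠ 0 := by
    have := T.w_sq d hd
    intro h
    have h' : T.w d = 0 := by exact_mod_cast h
    rw [h'] at this
    norm_num at this
  have hq : (2 * Real.pi / (T.q d : ℂ)) ≠ 0 := Pool.Agent.Y703.QT8.q_ne T hd
  unfold Twists.ell at h0 ⊢
  have hG : Complex.Gamma (s + 1 / 2) ≠ 0 := Complex.Gamma_ne_zero_of_re_pos (by
    have : (s + 1 / 2).re = s.re + 1 / 2 := by simp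
    rw [this]; linarith)
  have hp : (2 * Real.pi / (T.q d : ℂ)) ^ (s + 1 / 2) ≠ 0 := by
    rw [Complex.cpow_ne_zero_iff]; exact Or.inl hq
  have h3 : mellin (fun u : ℝ => T.F d (u : ℂ)) (s + 1 / 2) = 0 := by
    rcases mul_eq_zero.1 h0 with h | h
    · exact absurd h (mul_ne_zero hp (inv_ne_zero hG))
    · exact h
  have e : (1 - s + 1 / 2 : ℂ) = 2 - (s + 1 / 2) := by ring
  rw [e, mellin_fe T hd, h3, mul_zero, mul_zero]

theorem Ep_ne (T : Twists Q lam) {d : ℤ} (hd : Squarefree d) {s : ℂ} (hs : 1 / 4 ≤ s.re) :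
    Pool.Agent.Y180.QT12b2.Ep T d s ≠ 0 := by
  have sE : LSeriesSummable (fun n => (T.e d n : ℂ)) s := (hE_bound _ _ (T.e_sum d hd) s hs).1
  have sE' : LSeriesSummable (fun n => (T.e' d n : ℂ)) s := (hE_bound _ _ (T.e'_sum d hd) s hs).1
  have hEE : LSeries (fun n => (T.e d n : ℂ)) s * LSeries (fun n => (T.e' d n : ℂ)) s = 1 := by
    rw [← LSeries_convolution' sE sE']
    have h5 : LSeries (LSeries.convolution (fun n => (T.e d n : ℂ)) (fun n => (T.e' d n : ℂ))) s =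
        LSeries LSeries.delta s := by
      apply LSeries_congr
      intro n hn
      rw [LSeries.convolution_def]
      show ∑ p ∈ n.divisorsAntidiagonal, (T.e d p.1 : ℂ) * (T.e' d p.2 : ℂ) = LSeries.delta n
      have h6 := T.e_inv d hd n (Nat.one_le_iff_ne_zero.mpr hn)
      have h7 : ((∑ x ∈ n.divisorsAntidiagonal, T.e d x.1 * T.e' d x.2 : ℝ) : ℂ) =
          ((if n = 1 then 1 else 0 : ℝ) : ℂ) := by rw [h6]
      rw [ofReal_sum] at h7
      simp only [ofReal_mul] at h7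
      rw [h7, LSeries.delta]
      split_ifs <;> simp
    rw [h5, LSeries_delta]
    rfl
  have h1 : Pool.Agent.Y180.QT12b2.Ep T d s = LSeries (fun n => (T.e' d n : ℂ)) s := by
    unfold Pool.Agent.Y180.QT12b2.Ep
    rw [tsum_eq_ls (fun n => (T.e' d n : ℂ)) (by simp [(T.e_zero d hd).2]) s]
  rw [h1]
  exact right_ne_zero_of_mul_eq_one hEE

theorem Lq_zero_symm (T : Twists Q lam) {d : ℤ} (hd : Squarefree d) {s : ℂ} (h1 : 1 / 4 < s.re)
    (h2 : s.re < 1) (h0 : T.Lq d s = 0) : T.Lq d (1 - s) = 0 := by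
  have e : ∀ s, T.Lq d s = T.ell d s * Pool.Agent.Y180.QT12b2.Ep T d s := fun _ => rfl
  rw [e] at h0 ⊢
  rcases mul_eq_zero.1 h0 with h | h
  · rw [ell_zero_symm T hd (by linarith) h2 h, zero_mul]
  · exact absurd h (Ep_ne T hd h1.le)

end

end Pool.Agent.Y19.QT
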