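import Pool.Agent.Y19.QT.Laws
import Pool.Agent.Y19.QT.Low2
import Pool.Agent.Y19.QT.ZD2
import Pool.Agent.Y203.QTZ5
import Pool.Agent.Y705.QT.Pts

set_option autoImplicit false

/-! Project QT: central and nearly central zeros, for fundamental discriminants. -/

namespace Pool.Agent.Y19.QT

open Complex Filter Topology MeasureTheory
open Pool.Agent.H306R2.RZ (js Gk)
open Pool.Agent.Y19.QT.Low
open scoped ENNReal

noncomputable section

variable {Q : ℕ} {lam : ℕ → ℝ}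

/-! ### Fundamental discriminants -/

/-- the squarefree part of a fundamental discriminant -/
def core (d : ℤ) : ℤ := if d % 4 = 1 then d else d / 4

/-- the discriminant with a given squarefree part -/
def uncore (m : ℤ) : ℤ := if m % 4 = 1 then m else 4 * m

theorem core_cases {d : ℤ} (h : IsFund d) : Squarefree (core d) ∧ uncore (core d) = d ∧
    (d = core d ∨ d = 4 * core d) := by
  obtain ⟨h1, ⟨h2, h3⟩ | ⟨m, rfl, h2, h3⟩⟩ := h
  · have e : core d = d := by unfold core; rw [if_pos h2]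
    rw [e]
    refine ⟨h3, ?_, Or.inl rfl⟩
    unfold uncore
    rw [if_pos h2]
  · have e : core (4 * m) = m := by
      unfold core
      rw [if_neg (by omega)]
      omega
    rw [e]
    refine ⟨h3, ?_, Or.inr rfl⟩
    unfold uncore
    rw [if_neg (by omega)]

theorem core_mem {X : ℕ} {d : ℤ} (h : d ∈ fund X) : core d ∈ sqf X := by
  classical
  unfold fund at h
  rw [Finset.mem_filter, Finset.mem_Icc] at h
  obtain ⟨⟨h1, h2⟩, h3⟩ := h
  obtain ⟨c1, -, c3⟩ := core_cases h3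
  rw [mem_sqf]
  refine ⟨?_, c1⟩
  rw [abs_le]
  rcases c3 with h | h <;> constructor <;> omega

theorem isFund_of_mem {X : ℕ} {d : ℤ} (h : d ∈ fund X) : IsFund d := by
  classical
  unfold fund at h
  exact (Finset.mem_filter.1 h).2

theorem ap_four (a b : ℤ) {p : ℕ} (hp : p.Prime) (h2 : p ≠ 2) :
    ap (a * 4 ^ 2) (b * 4 ^ 3) p = ap a b p := by
  have : Fact p.Prime := ⟨hp⟩
  have hpi : Prime (p : ℤ) := Nat.prime_iff_prime_int.mp hp
  have h4 : ¬ (p : ℤ) ∣ 4 := by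
    intro h
    have h5 : (p : ℤ) ∣ 2 ^ 2 := by norm_num; exact h
    have h6 := hpi.dvd_of_dvd_pow h5
    have h7 : p ∣ 2 := by exact_mod_cast h6
    exact h2 ((Nat.prime_dvd_prime_iff_eq hp Nat.prime_two).1 h7)
  have h := Pool.Agent.Y705.QT.ap_twist a b 4 p hp h2 h4
  have hj : js 4 p = 1 := by
    rw [Pool.Agent.Y705.QT.js_prime]
    have e : (((4 : ℤ)) : ZMod p) = (2 : ZMod p) ^ 2 := by norm_num
    have h20 : (2 : ZMod p) ≠ 0 := by
      intro h0
      have : ((2 : ℕ) : ZMod p) = 0 := by exact_mod_cast h0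
      rw [ZMod.natCast_eq_zero_iff] at this
      exact h2 ((Nat.prime_dvd_prime_iff_eq hp Nat.prime_two).1 this)
    rw [e, quadraticChar_sq_one' h20]
    simp
  rw [hj, one_mul] at h
  exact_mod_cast h

theorem isLFun_four {a b m : ℤ} {F : ℂ → ℂ} (h : IsLFun (a * (4 * m) ^ 2) (b * (4 * m) ^ 3) F) :
    IsLFun (a * m ^ 2) (b * m ^ 3) F := by
  refine ⟨h.1, fun s hs => ?_⟩
  convert h.2 s hs using 1
  funext p
  by_cases hp : p.Prime
  swap
  · rw [if_neg (by tauto), if_neg (by tauto)]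
  have hpi : Prime (p : ℤ) := Nat.prime_iff_prime_int.mp hp
  have e1 : 2 * (-4 * (a * (4 * m) ^ 2) ^ 3 - 27 * (b * (4 * m) ^ 3) ^ 2) =
      2 ^ 12 * (2 * (-4 * (a * m ^ 2) ^ 3 - 27 * (b * m ^ 3) ^ 2)) := by ring
  by_cases h2 : p = 2
  · subst h2
    rw [if_neg, if_neg]
    · rintro ⟨-, h⟩
      exact h (Dvd.intro _ rfl)
    · rintro ⟨-, h⟩
      exact h (Dvd.intro _ rfl)
  have e2 : (p : ℤ) ∣ 2 * (-4 * (a * (4 * m) ^ 2) ^ 3 - 27 * (b * (4 * m) ^ 3) ^ 2) ↔
      (p : ℤ) ∣ 2 * (-4 * (a * m ^ 2) ^ 3 - 27 * (b * m ^ 3) ^ 2) := by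
    rw [e1]
    constructor
    · intro h
      rcases hpi.dvd_or_dvd h with h | h
      · have h6 := hpi.dvd_of_dvd_pow h
        have h7 : p ∣ 2 := by exact_mod_cast h6
        exact absurd ((Nat.prime_dvd_prime_iff_eq hp Nat.prime_two).1 h7) h2
      · exact h
    · exact fun h => h.mul_left _
  have e3 : ap (a * (4 * m) ^ 2) (b * (4 * m) ^ 3) p = ap (a * m ^ 2) (b * m ^ 3) p := by
    rw [← ap_four (a * m ^ 2) (b * m ^ 3) hp h2]
    congr 1 <;> ring
  have e4 : ∀ a b : ℤ, ((p : ℂ) - (Nat.card {q : ZMod p × ZMod p //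
      q.2 ^ 2 = q.1 ^ 3 + (a : ZMod p) * q.1 + (b : ZMod p)} : ℂ)) = (ap a b p : ℂ) := by
    intro a b
    unfold ap
    push_cast
    rfl
  simp only [e2, e4, e3]

theorem isLFun_core {a b d : ℤ} (hd : IsFund d) {F : ℂ → ℂ}
    (h : IsLFun (a * d ^ 2) (b * d ^ 3) F) : IsLFun (a * core d ^ 2) (b * core d ^ 3) F := by
  obtain ⟨-, -, h1 | h1⟩ := core_cases hd
  · rw [← h1]; exact h
  · rw [h1] at h; exact isLFun_four h

/-! ### Orders -/

theorem order_ell (a b : ℤ) (hab : 4 * a ^ 3 + 27 * b ^ 2 ≠ 0) (T : Twists Q lam)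
    (hQ : ∀ p : ℕ, p.Prime → (p : ℤ) ∣ 2 * (4 * a ^ 3 + 27 * b ^ 2) → p ∣ Q)
    (hlam : ∀ p : ℕ, p.Prime → ¬ p ∣ Q → lam p = ap a b p / Real.sqrt p)
    (d : ℤ) (hd : Squarefree d) (F : ℂ → ℂ) (hF : IsLFun (a * d ^ 2) (b * d ^ 3) F)
    (s : ℂ) (hs : 1 / 4 < s.re) :
    analyticOrderAt F (s + 1 / 2) = analyticOrderAt (T.ell d) s := by
  rw [Pool.Agent.Y203.QTZ5.Z5 a b hab Q lam T hQ hlam d hd F hF s hs]
  have hmem : {s : ℂ | 1 / 4 < s.re} ∈ 𝓝 s :=
    (isOpen_lt continuous_const continuous_re).mem_nhds hs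
  have h3 : AnalyticAt ℂ (T.ell d) s := (Pool.Agent.Y703.QT8.T8a T d hd).1.analyticAt _
  have h4 : AnalyticAt ℂ (Pool.Agent.Y180.QT12b2.Ep T d) s :=
    (Pool.Agent.Y180.QT12b2.Ep_diff T hd).analyticAt hmem
  have e : T.Lq d = T.ell d * Pool.Agent.Y180.QT12b2.Ep T d := rfl
  rw [e, analyticOrderAt_mul h3 h4, h4.analyticOrderAt_eq_zero.2 (Ep_ne T hd hs.le), add_zero]

/-- the zeros near `1` of `F` are those of `ell` near `1/2` -/
theorem zdisc_eq {F ell : ℂ → ℂ} (hF : Differentiable ℂ F) {κ : ℝ} (hκ : κ < 1 / 4)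
    (h : ∀ s : ℂ, 1 / 4 < s.re → analyticOrderAt F (s + 1 / 2) = analyticOrderAt ell s) :
    zdisc F κ = ∑' s : ℂ, if ‖s - 1 / 2‖ ≤ κ then ((analyticOrderAt ell s : ℕ∞) : ℝ≥0∞) else 0 := by
  unfold zdisc
  rw [← (Equiv.addRight (1 / 2 : ℂ)).tsum_eq]
  refine tsum_congr fun s => ?_
  have e1 : (Equiv.addRight (1 / 2 : ℂ)) s = s + 1 / 2 := rfl
  have e2 : (s + 1 / 2 - 1 : ℂ) = s - 1 / 2 := by ring
  rw [e1, e2]
  by_cases hs : ‖s - 1 / 2‖ ≤ κ
  · have hre : 1 / 4 < s.re := by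
      have h3 := (Complex.abs_re_le_norm (s - 1 / 2)).trans hs
      have h4 : (s - 1 / 2).re = s.re - 1 / 2 := by simp
      rw [h4] at h3
      have := (abs_le.1 h3).1
      linarith
    rw [if_pos hs]
    by_cases h0 : F (s + 1 / 2) = 0
    · rw [if_pos ⟨h0, hs⟩, h s hre]
    · rw [if_neg (by tauto), ← h s hre, (hF.analyticAt _).analyticOrderAt_eq_zero.2 h0,
        ENat.toENNReal_zero]
  · rw [if_neg hs, if_neg (by tauto)]

/-- if the numbers of zeros in finite sets are bounded, then the number of zeros is attained -/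
theorem exists_count {ell : ℂ → ℂ} {κ : ℝ} {N : ℕ} (hN : ∀ n : ℕ, Near ell κ n → n ≤ N) :
    ∃ n0 : ℕ, Near ell κ n0 ∧
      (∑' s : ℂ, if ‖s - 1 / 2‖ ≤ κ then ((analyticOrderAt ell s : ℕ∞) : ℝ≥0∞) else 0) = n0 := by
  classical
  have h0 : Near ell κ 0 := ⟨∅, fun _ => 0, by simp, by simp⟩
  obtain ⟨n0, hn0, hmax⟩ : ∃ n0 : ℕ, Near ell κ n0 ∧ ∀ n, Near ell κ n → n ≤ n0 :=
    ⟨Nat.findGreatest (Near ell κ) N, Nat.findGreatest_spec (m := 0) (Nat.zero_le _) h0,
      fun n hn => Nat.le_findGreatest (hN n hn) hn⟩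
  have hfin : ∀ s : ℂ, ‖s - 1 / 2‖ ≤ κ → analyticOrderAt ell s ≠ ⊤ := by
    intro s hs htop
    have : Near ell κ (n0 + 1) := ⟨{s}, fun _ => n0 + 1, by
      intro ρ hρ
      rw [Finset.mem_singleton] at hρ
      subst hρ
      exact ⟨hs, by rw [htop]; exact le_top⟩, by simp⟩
    have := hmax _ this
    omega
  refine ⟨n0, hn0, le_antisymm ?_ ?_⟩
  · rw [ENNReal.tsum_eq_iSup_sum]
    refine iSup_le fun s => ?_
    set S := s.filter (fun ρ : ℂ => ‖ρ - 1 / 2‖ ≤ κ) with hS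
    have h1 : Near ell κ (∑ ρ ∈ S, (analyticOrderAt ell ρ).toNat) := by
      refine ⟨S, fun ρ => (analyticOrderAt ell ρ).toNat, fun ρ hρ => ?_, rfl⟩
      have h2 := (Finset.mem_filter.1 hρ).2
      exact ⟨h2, (ENat.coe_toNat (hfin ρ h2)).le⟩
    have h2 := hmax _ h1
    rw [← Finset.sum_filter]
    calc ∑ ρ ∈ S, ((analyticOrderAt ell ρ : ℕ∞) : ℝ≥0∞)
        = ∑ ρ ∈ S, (((analyticOrderAt ell ρ).toNat : ℕ) : ℝ≥0∞) := by
          refine Finset.sum_congr rfl fun ρ hρ => ?_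
          have h3 := hfin ρ (Finset.mem_filter.1 hρ).2
          conv_lhs => rw [← ENat.coe_toNat h3]
          exact ENat.toENNReal_coe _
      _ = ((∑ ρ ∈ S, (analyticOrderAt ell ρ).toNat : ℕ) : ℝ≥0∞) := by push_cast; rfl
      _ ≤ (n0 : ℝ≥0∞) := by exact_mod_cast h2
  · obtain ⟨S, m, hS, hm⟩ := hn0
    calc (n0 : ℝ≥0∞) = ∑ ρ ∈ S, ((m ρ : ℕ) : ℝ≥0∞) := by rw [← hm]; push_cast; rfl
      _ ≤ ∑ ρ ∈ S, (if ‖ρ - 1 / 2‖ ≤ κ then ((analyticOrderAt ell ρ : ℕ∞) : ℝ≥0∞) else 0) := by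
          refine Finset.sum_le_sum fun ρ hρ => ?_
          rw [if_pos (hS ρ hρ).1]
          have := ENat.toENNReal_mono (hS ρ hρ).2
          simpa using this
      _ ≤ _ := ENNReal.sum_le_tsum _

/-- large exponential moments give a bound for each term -/
theorem near_bdd (T : Twists Q lam) {c : ℝ} {A : ℕ} (hc : 0 < c) {K C : ℝ}
    (h : ∀ (X : ℕ) (n : ℤ → ℕ), 3 ≤ X → 4 * K ≤ Real.log X →
      (∀ d ∈ sqf X, Near (T.ell d) (K / Real.log X) (n d)) →
      ∑ d ∈ sqf X, Real.exp (c * n d) ≤ C * X * Real.log X ^ A)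
    {X : ℕ} (hX : 3 ≤ X) (hK0 : 0 ≤ K) (hK : 4 * K ≤ Real.log X) {d0 : ℤ} (hd0 : d0 ∈ sqf X) :
    ∃ N : ℕ, ∀ n : ℕ, Near (T.ell d0) (K / Real.log X) n → n ≤ N := by
  classical
  set R : ℝ := C * X * Real.log X ^ A with hR
  refine ⟨⌈R / c⌉₊, fun n hn => ?_⟩
  have h1 := h X (fun d => if d = d0 then n else 0) hX hK (fun d _ => by
    by_cases hdd : d = d0
    · rw [if_pos hdd, hdd]; exact hn
    · rw [if_neg hdd]; exact ⟨∅, fun _ => 0, by simp, by simp⟩)
  have h2 : Real.exp (c * n) ≤ R := by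
    refine le_trans ?_ h1
    have h3 := Finset.single_le_sum (f := fun d : ℤ => Real.exp (c * ((if d = d0 then n else 0 : ℕ) : ℝ)))
      (fun d _ => (Real.exp_pos _).le) hd0
    simpa using h3
  have h3 : c * n ≤ R := by
    have := Real.add_one_le_exp (c * n)
    linarith
  have h4 : (n : ℝ) ≤ R / c := by rw [le_div_iff₀ hc]; linarith
  exact_mod_cast h4.trans (Nat.le_ceil _)

/-- a quantity with small exponential moments has small moments, over a single set -/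
theorem moments_gen (C c : ℝ) (A : ℕ) (hc : 0 < c) (hC : 0 ≤ C) (k B : ℕ) :
    ∃ C' : ℝ, ∀ (X : ℕ) (S : Finset ℤ) (x : ℤ → ℝ), 3 ≤ X → (∀ d, 0 ≤ x d) →
      ∑ d ∈ S, Real.exp (c * x d) ≤ C * X * Real.log X ^ A → ∑ d ∈ S, x d ^ k ≤
        C' * (S.card + X / Real.log X ^ B) * (1 + Real.log (Real.log X)) ^ k := by
  refine ⟨max ((2 * (A + B : ℕ) / c) ^ k) ((k.factorial * (2 / c) ^ k) * C),
    fun X S x hX hx h => ?_⟩
  have hl : 1 ≤ Real.log X := by
    rw [Real.le_log_iff_exp_le (by positivity)]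
    have h := Real.exp_one_lt_d9
    have : (3 : ℝ) ≤ X := by exact_mod_cast hX
    linarith
  have hl0 : 0 < Real.log X := by linarith
  have hll : 0 ≤ Real.log (Real.log X) := Real.log_nonneg hl
  have hX0 : (0 : ℝ) ≤ X := Nat.cast_nonneg X
  set L : ℝ := Real.log (Real.log X) with hL
  have hpt : ∀ d ∈ S, x d ^ k ≤ (2 * (A + B : ℕ) / c * L) ^ k +
      (k.factorial * (2 / c) ^ k) * (Real.exp (c * x d) / Real.log X ^ (A + B)) := by
    intro d hd
    have hx0 : (0 : ℝ) ≤ x d := hx d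
    have hE : (0 : ℝ) < Real.exp (c * x d) / Real.log X ^ (A + B) := by positivity
    by_cases hxL : x d ≤ 2 * (A + B : ℕ) / c * L
    · have h1 := pow_le_pow_left₀ hx0 hxL k
      have : 0 ≤ (k.factorial * (2 / c) ^ k) *
        (Real.exp (c * x d) / Real.log X ^ (A + B)) := by positivity
      linarith
    · push Not at hxL
      have h1 : x d ^ k ≤ (k.factorial * (2 / c) ^ k) * Real.exp (c / 2 * x d) := by
        have h2 := Real.pow_div_factorial_le_exp (c / 2 * x d) (by positivity) k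
        rw [div_le_iff₀ (by positivity)] at h2
        have h3 : x d ^ k = (2 / c) ^ k * (c / 2 * x d) ^ k := by
          rw [← mul_pow]
          congr 1
          field_simp
        rw [h3]
        calc (2 / c) ^ k * (c / 2 * x d) ^ k ≤ (2 / c) ^ k * (Real.exp (c / 2 * x d) * k.factorial) :=
              mul_le_mul_of_nonneg_left h2 (by positivity)
          _ = _ := by ring
      have h2 : Real.exp (c / 2 * x d) ≤ Real.exp (c * x d) / Real.log X ^ (A + B) := by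
        rw [le_div_iff₀ (by positivity)]
        have h3 : Real.log X ^ (A + B) = Real.exp ((A + B : ℕ) * L) := by
          rw [hL, Real.exp_nat_mul, Real.exp_log hl0]
        rw [h3, ← Real.exp_add]
        apply Real.exp_le_exp.2
        have h4 : (A + B : ℕ) * L ≤ c / 2 * x d := by
          have h5 : 2 * (A + B : ℕ) / c * L * (c / 2) ≤ x d * (c / 2) :=
            mul_le_mul_of_nonneg_right hxL.le (by positivity)
          have h6 : 2 * (A + B : ℕ) / c * L * (c / 2) = (A + B : ℕ) * L := by field_simp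
          linarith
        linarith
      have h3 := mul_le_mul_of_nonneg_left h2 (show (0 : ℝ) ≤ k.factorial * (2 / c) ^ k by positivity)
      have h4 : (0 : ℝ) ≤ (2 * (A + B : ℕ) / c * L) ^ k := by positivity
      linarith
  refine (Finset.sum_le_sum hpt).trans ?_
  rw [Finset.sum_add_distrib, Finset.sum_const, nsmul_eq_mul, ← Finset.mul_sum, ← Finset.sum_div]
  have h1 : (∑ d ∈ S, Real.exp (c * x d)) / Real.log X ^ (A + B) ≤ C * (X / Real.log X ^ B) := by
    rw [div_le_iff₀ (by positivity)]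
    refine h.trans (le_of_eq ?_)
    rw [pow_add]
    field_simp
  have hLk : L ^ k ≤ (1 + L) ^ k := pow_le_pow_left₀ hll (by linarith) k
  have h1k : (1 : ℝ) ≤ (1 + L) ^ k := one_le_pow₀ (by linarith)
  have hXB : 0 ≤ X / Real.log X ^ B := by positivity
  have h2 : (S.card : ℝ) * (2 * (A + B : ℕ) / c * L) ^ k ≤
      (2 * (A + B : ℕ) / c) ^ k * S.card * (1 + L) ^ k := by
    rw [mul_pow]
    calc (S.card : ℝ) * ((2 * (A + B : ℕ) / c) ^ k * L ^ k) =
          (2 * (A + B : ℕ) / c) ^ k * S.card * L ^ k := by ring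
      _ ≤ _ := mul_le_mul_of_nonneg_left hLk (by positivity)
  have h3 : (k.factorial * (2 / c) ^ k) *
      ((∑ d ∈ S, Real.exp (c * x d)) / Real.log X ^ (A + B)) ≤
      (k.factorial * (2 / c) ^ k) * C * (X / Real.log X ^ B) * (1 + L) ^ k := by
    calc _ ≤ (k.factorial * (2 / c) ^ k) * (C * (X / Real.log X ^ B)) :=
          mul_le_mul_of_nonneg_left h1 (by positivity)
      _ ≤ (k.factorial * (2 / c) ^ k) * (C * (X / Real.log X ^ B)) * (1 + L) ^ k :=
          le_mul_of_one_le_right (by positivity) h1k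
      _ = _ := by ring
  have h4 : (2 * (A + B : ℕ) / c) ^ k * S.card * (1 + L) ^ k ≤
      max ((2 * (A + B : ℕ) / c) ^ k) ((k.factorial * (2 / c) ^ k) * C) * S.card * (1 + L) ^ k := by
    gcongr
    exact le_max_left _ _
  have h5 : (k.factorial * (2 / c) ^ k) * C * (X / Real.log X ^ B) * (1 + L) ^ k ≤
      max ((2 * (A + B : ℕ) / c) ^ k) ((k.factorial * (2 / c) ^ k) * C) *
        (X / Real.log X ^ B) * (1 + L) ^ k := by
    gcongr
    exact le_max_right _ _
  calc _ ≤ _ := add_le_add (h2.trans h4) (h3.trans h5)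
    _ = _ := by ring

theorem isLFun_unique' {a b : ℤ} {F G : ℂ → ℂ} (hF : IsLFun a b F) (hG : IsLFun a b G) : F = G := by
  have hF' : AnalyticOnNhd ℂ F Set.univ := fun z _ => hF.1.analyticAt z
  have hG' : AnalyticOnNhd ℂ G Set.univ := fun z _ => hG.1.analyticAt z
  refine hF'.eq_of_eventuallyEq hG' (z₀ := 2) ?_
  have hmem : {s : ℂ | (3 : ℝ) / 2 < s.re} ∈ 𝓝 (2 : ℂ) :=
    (isOpen_lt continuous_const Complex.continuous_re).mem_nhds (by
      show (3 : ℝ) / 2 < (2 : ℂ).re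
      norm_num)
  filter_upwards [hmem] with s hs
  exact (hF.2 s hs).unique (hG.2 s hs)

theorem isLFun_to_four {a b m : ℤ} {F : ℂ → ℂ} (h : IsLFun (a * m ^ 2) (b * m ^ 3) F) :
    IsLFun (a * (4 * m) ^ 2) (b * (4 * m) ^ 3) F := by
  refine ⟨h.1, fun s hs => ?_⟩
  convert h.2 s hs using 1
  funext p
  by_cases hp : p.Prime
  swap
  · rw [if_neg (by tauto), if_neg (by tauto)]
  have hpi : Prime (p : ℤ) := Nat.prime_iff_prime_int.mp hp
  have e1 : 2 * (-4 * (a * (4 * m) ^ 2) ^ 3 - 27 * (b * (4 * m) ^ 3) ^ 2) =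
      2 ^ 12 * (2 * (-4 * (a * m ^ 2) ^ 3 - 27 * (b * m ^ 3) ^ 2)) := by ring
  by_cases h2 : p = 2
  · subst h2
    rw [if_neg, if_neg]
    · rintro ⟨-, h⟩
      exact h (Dvd.intro _ rfl)
    · rintro ⟨-, h⟩
      exact h (Dvd.intro _ rfl)
  have e2 : (p : ℤ) ∣ 2 * (-4 * (a * (4 * m) ^ 2) ^ 3 - 27 * (b * (4 * m) ^ 3) ^ 2) ↔
      (p : ℤ) ∣ 2 * (-4 * (a * m ^ 2) ^ 3 - 27 * (b * m ^ 3) ^ 2) := by
    rw [e1]
    constructor
    · intro h
      rcases hpi.dvd_or_dvd h with h | h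
      · have h6 := hpi.dvd_of_dvd_pow h
        have h7 : p ∣ 2 := by exact_mod_cast h6
        exact absurd ((Nat.prime_dvd_prime_iff_eq hp Nat.prime_two).1 h7) h2
      · exact h
    · exact fun h => h.mul_left _
  have e3 : ap (a * (4 * m) ^ 2) (b * (4 * m) ^ 3) p = ap (a * m ^ 2) (b * m ^ 3) p := by
    rw [← ap_four (a * m ^ 2) (b * m ^ 3) hp h2]
    congr 1 <;> ring
  have e4 : ∀ a b : ℤ, ((p : ℂ) - (Nat.card {q : ZMod p × ZMod p //
      q.2 ^ 2 = q.1 ^ 3 + (a : ZMod p) * q.1 + (b : ZMod p)} : ℂ)) = (ap a b p : ℂ) := by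
    intro a b
    unfold ap
    push_cast
    rfl
  simp only [e2, e4, e3]

theorem centralLaw_of {a b : ℤ} (hab : 4 * a ^ 3 + 27 * b ^ 2 ≠ 0) (h : HasTwists a b)
    (hL : ∀ d : ℤ, Squarefree d → ∃ F : ℂ → ℂ, IsLFun (a * d ^ 2) (b * d ^ 3) F) :
    CentralLaw a b := by
  classical
  obtain ⟨Q, lam, ⟨T⟩, hQ, hlam⟩ := h
  refine ⟨fun d hd => ?_, fun F hF => ?_⟩
  · obtain ⟨c1, -, c3⟩ := core_cases hd
    obtain ⟨F, hF⟩ := hL (core d) c1
    have hF' : IsLFun (a * d ^ 2) (b * d ^ 3) F := by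
      rcases c3 with h | h
      · rw [h]; exact hF
      · rw [h]; exact isLFun_to_four hF
    exact ⟨F, hF', fun G hG => isLFun_unique' hG hF'⟩
  obtain ⟨c, A, hc, hmom⟩ := near_moment T
  refine ⟨c, A, hc, fun K hK => ?_⟩
  obtain ⟨C, hC, hCm⟩ := hmom K hK
  have key : ∀ X : ℕ, 3 ≤ X → 4 * K < Real.log X → ∃ n0 : ℤ → ℕ,
      (∀ d ∈ fund X, zdisc (F d) (K / Real.log X) = n0 d ∧
        Near (T.ell (core d)) (K / Real.log X) (n0 d)) := by
    intro X hX hKX
    have hl0 : 0 < Real.log X := by linarith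
    have hκ : K / Real.log X < 1 / 4 := by
      rw [div_lt_iff₀ hl0]; linarith
    have h1 : ∀ d ∈ fund X, ∃ n0 : ℕ, zdisc (F d) (K / Real.log X) = n0 ∧
        Near (T.ell (core d)) (K / Real.log X) n0 := by
      intro d hd
      have hfd := isFund_of_mem hd
      obtain ⟨c1, -, -⟩ := core_cases hfd
      have hcF := isLFun_core hfd (hF d hfd)
      obtain ⟨N, hN⟩ := near_bdd T hc hCm hX hK hKX.le (core_mem hd)
      obtain ⟨n0, h2, h3⟩ := exists_count hN
      refine ⟨n0, ?_, h2⟩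
      rw [zdisc_eq (F := F d) (ell := T.ell (core d)) (hF d hfd).1 hκ
        (fun s hs => order_ell a b hab T hQ hlam (core d) c1 (F d) hcF s hs)]
      exact h3
    choose! n0 hn0 using h1
    exact ⟨n0, hn0⟩
  have hexp : ∀ X : ℕ, 3 ≤ X → 4 * K < Real.log X →
      ∑ d ∈ fund X, Real.exp (c * (zdisc (F d) (K / Real.log X)).toReal) ≤
        C * X * Real.log X ^ A := by
    intro X hX hKX
    obtain ⟨n0, hn0⟩ := key X hX hKX
    have hinj : Set.InjOn core (fund X : Set ℤ) := by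
      intro d hd e he hde
      have h1 := (core_cases (isFund_of_mem hd)).2.1
      have h2 := (core_cases (isFund_of_mem he)).2.1
      rw [← h1, ← h2, hde]
    have h1 : ∀ d ∈ fund X, Real.exp (c * (zdisc (F d) (K / Real.log X)).toReal) =
        Real.exp (c * n0 (uncore (core d))) := by
      intro d hd
      rw [(hn0 d hd).1, (core_cases (isFund_of_mem hd)).2.1, ENNReal.toReal_natCast]
    rw [Finset.sum_congr rfl h1,
      ← Finset.sum_image (f := fun m : ℤ => Real.exp (c * n0 (uncore m))) hinj]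
    have h2 := hCm X (fun m => if m ∈ (fund X).image core then n0 (uncore m) else 0) hX hKX.le
      (fun m _ => by
        by_cases hm : m ∈ (fund X).image core
        · rw [if_pos hm]
          obtain ⟨d, hd, rfl⟩ := Finset.mem_image.1 hm
          rw [(core_cases (isFund_of_mem hd)).2.1]
          exact (hn0 d hd).2
        · rw [if_neg hm]
          exact ⟨∅, fun _ => 0, by simp, by simp⟩)
    refine le_trans ?_ h2
    have hsub : (fund X).image core ⊆ sqf X := by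
      intro m hm
      obtain ⟨d, hd, rfl⟩ := Finset.mem_image.1 hm
      exact core_mem hd
    refine le_trans (le_of_eq ?_) (Finset.sum_le_sum_of_subset_of_nonneg hsub
      fun _ _ _ => (Real.exp_pos _).le)
    refine Finset.sum_congr rfl fun m hm => ?_
    rw [if_pos hm]
  refine ⟨⟨C, fun X hX hKX => ⟨fun d hd => ?_, hexp X hX hKX⟩⟩, fun k B => ?_⟩
  · obtain ⟨n0, hn0⟩ := key X hX hKX
    rw [(hn0 d hd).1]
    exact ENNReal.natCast_ne_top _
  · obtain ⟨C', hC'⟩ := moments_gen C c A hc hC.le k B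
    refine ⟨C', fun X S hX hKX hS => hC' X S _ hX (fun _ => ENNReal.toReal_nonneg) ?_⟩
    exact (Finset.sum_le_sum_of_subset_of_nonneg hS fun _ _ _ => (Real.exp_pos _).le).trans
      (hexp X hX hKX)

end

end Pool.Agent.Y19.QT
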