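import Pool.Agent.Y19.QT.Defs

set_option autoImplicit false

/-! Project QT: the closure argument. -/

namespace Pool.Agent.Y19.QT

open Complex MeasureTheory Filter Topology
open Pool.Agent.H306R2.RZ (js Gk)
open scoped ENNReal ComplexConjugate

noncomputable section

lemma psi_nonneg {x : ℝ} (hx : 0 ≤ x) : 0 ≤ psi x := by
  unfold psi
  positivity

lemma psi_le_inv (x : ℝ) : psi x ≤ x⁻¹ := min_le_left _ _

lemma psi_le_inv10 (x : ℝ) : psi x ≤ (x ^ 10)⁻¹ := min_le_right _ _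

/-- `ψ(d x) ≤ 2^11 ∑_{d ≤ m < 2d} ψ(m x)/m` -/
lemma psi_layer (x : ℝ) (hx : 0 < x) (d : ℕ) (hd : 1 ≤ d) :
    psi (d * x) ≤ 2 ^ 11 * ∑ m ∈ Finset.Ico d (2 * d), psi (m * x) / m := by
  have hd0 : (0 : ℝ) < d := by exact_mod_cast hd
  have h1 : ∀ m ∈ Finset.Ico d (2 * d), psi (d * x) / 2 ^ 10 / (2 * d) ≤ psi (m * x) / m := by
    intro m hm
    rw [Finset.mem_Ico] at hm
    have hm1 : (d : ℝ) ≤ m := by exact_mod_cast hm.1
    have hm2 : (m : ℝ) ≤ 2 * d := by exact_mod_cast hm.2.le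
    have hm0 : (0 : ℝ) < m := lt_of_lt_of_le hd0 hm1
    have h2 : psi (d * x) / 2 ^ 10 ≤ psi (m * x) := by
      unfold psi
      have hdx : 0 < d * x := by positivity
      have hmx : 0 < m * x := by positivity
      have hle : m * x ≤ 2 * (d * x) := by nlinarith
      refine le_min ?_ ?_
      · have e1 : (2 * (d * x))⁻¹ ≤ (m * x)⁻¹ := inv_anti₀ hmx hle
        have e2 : min (d * x)⁻¹ ((d * x) ^ 10)⁻¹ ≤ (d * x)⁻¹ := min_le_left _ _
        calc min (d * x)⁻¹ ((d * x) ^ 10)⁻¹ / 2 ^ 10 ≤ (d * x)⁻¹ / 2 ^ 10 := by gcongr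
          _ ≤ (2 * (d * x))⁻¹ := by
            rw [mul_inv 2 (d * x), div_eq_mul_inv, mul_comm]
            have h7 : (0 : ℝ) < (d * x)⁻¹ := by positivity
            exact mul_le_mul_of_nonneg_right (by norm_num) h7.le
          _ ≤ _ := e1
      · have e1 : ((2 * (d * x)) ^ 10)⁻¹ ≤ ((m * x) ^ 10)⁻¹ :=
          inv_anti₀ (by positivity) (by gcongr)
        have e2 : min (d * x)⁻¹ ((d * x) ^ 10)⁻¹ ≤ ((d * x) ^ 10)⁻¹ := min_le_right _ _
        calc min (d * x)⁻¹ ((d * x) ^ 10)⁻¹ / 2 ^ 10 ≤ ((d * x) ^ 10)⁻¹ / 2 ^ 10 := by gcongr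
          _ = ((2 * (d * x)) ^ 10)⁻¹ := by
            rw [mul_pow 2 (d * x), mul_inv (2 ^ 10), div_eq_mul_inv, mul_comm]
          _ ≤ _ := e1
    have h3 : 0 ≤ psi (d * x) := psi_nonneg (by positivity)
    calc psi (d * x) / 2 ^ 10 / (2 * d) ≤ psi (d * x) / 2 ^ 10 / m := by gcongr
      _ ≤ _ := by gcongr
  have h4 := Finset.sum_le_sum h1
  rw [Finset.sum_const, Nat.card_Ico, nsmul_eq_mul] at h4
  have h5 : ((2 * d - d : ℕ) : ℝ) = d := by
    have : 2 * d - d = d := by omega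
    rw [this]
  rw [h5] at h4
  have h6 : (d : ℝ) * (psi (d * x) / 2 ^ 10 / (2 * d)) = psi (d * x) / 2 ^ 11 := by
    field_simp
  rw [h6] at h4
  rw [div_le_iff₀ (by positivity)] at h4
  linarith

/-- the cumulative sums -/
def SS (N : ℤ → ℝ≥0∞) (M : ℕ) : ℝ≥0∞ := ∑ d ∈ sqf M, N d

lemma sum_psi_le (N : ℤ → ℝ≥0∞) (x : ℝ) (hx : 0 < x) :
    ∑' d : ℤ, (if Squarefree d.natAbs then ENNReal.ofReal (psi (|(d : ℝ)| * x)) * N d else 0) ≤
      2 ^ 11 * ∑' m : ℕ, ENNReal.ofReal (psi (m * x) / m) * SS N m := by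
  have h1 : ∀ d : ℤ, (if Squarefree d.natAbs then ENNReal.ofReal (psi (|(d : ℝ)| * x)) * N d else 0) ≤
      2 ^ 11 * ∑' m : ℕ, ENNReal.ofReal (psi (m * x) / m) *
        (if d ∈ sqf m then N d else 0) := by
    intro d
    split_ifs with hd
    · have hd1 : 1 ≤ d.natAbs := Nat.one_le_iff_ne_zero.2 (fun h => by
        rw [h] at hd; exact not_squarefree_zero hd)
      have h2 := psi_layer x hx d.natAbs hd1
      have h3 : ((d.natAbs : ℕ) : ℝ) = |(d : ℝ)| := by
        rw [Nat.cast_natAbs, Int.cast_abs]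
      rw [h3] at h2
      have h4 : ENNReal.ofReal (psi (|(d : ℝ)| * x)) ≤
          2 ^ 11 * ∑ m ∈ Finset.Ico d.natAbs (2 * d.natAbs), ENNReal.ofReal (psi (m * x) / m) := by
        rw [← ENNReal.ofReal_sum_of_nonneg]
        · have : (2 ^ 11 : ℝ≥0∞) = ENNReal.ofReal (2 ^ 11) := by
            rw [ENNReal.ofReal_pow (by norm_num)]; norm_num
          rw [this, ← ENNReal.ofReal_mul (by norm_num)]
          exact ENNReal.ofReal_le_ofReal h2
        · intro m _
          have := psi_nonneg (x := m * x) (by positivity)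
          positivity
      calc ENNReal.ofReal (psi (|(d : ℝ)| * x)) * N d
          ≤ (2 ^ 11 * ∑ m ∈ Finset.Ico d.natAbs (2 * d.natAbs), ENNReal.ofReal (psi (m * x) / m)) *
            N d := by gcongr
        _ = 2 ^ 11 * ∑ m ∈ Finset.Ico d.natAbs (2 * d.natAbs), ENNReal.ofReal (psi (m * x) / m) *
            N d := by rw [mul_assoc, Finset.sum_mul]
        _ = 2 ^ 11 * ∑ m ∈ Finset.Ico d.natAbs (2 * d.natAbs), ENNReal.ofReal (psi (m * x) / m) *
            (if d ∈ sqf m then N d else 0) := by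
            congr 1
            refine Finset.sum_congr rfl fun m hm => ?_
            rw [Finset.mem_Ico] at hm
            rw [if_pos]
            rw [mem_sqf]
            refine ⟨?_, Int.squarefree_natAbs.1 hd⟩
            rw [Int.abs_eq_natAbs]
            exact_mod_cast hm.1
        _ ≤ _ := by
            gcongr
            exact ENNReal.sum_le_tsum _
    · simp
  calc ∑' d : ℤ, (if Squarefree d.natAbs then ENNReal.ofReal (psi (|(d : ℝ)| * x)) * N d else 0)
      ≤ ∑' d : ℤ, 2 ^ 11 * ∑' m : ℕ, ENNReal.ofReal (psi (m * x) / m) *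
        (if d ∈ sqf m then N d else 0) := ENNReal.tsum_le_tsum h1
    _ = 2 ^ 11 * ∑' m : ℕ, ∑' d : ℤ, ENNReal.ofReal (psi (m * x) / m) *
        (if d ∈ sqf m then N d else 0) := by
        rw [ENNReal.tsum_mul_left, ENNReal.tsum_comm]
    _ = _ := by
        congr 1
        refine tsum_congr fun m => ?_
        rw [ENNReal.tsum_mul_left]
        congr 1
        unfold SS
        rw [tsum_eq_sum (s := sqf m)]
        · exact Finset.sum_congr rfl fun d hd => if_pos hd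
        · intro d hd
          exact if_neg hd

/-- weights -/
def hw (M m : ℕ) : ℝ := if m ≤ M then (m : ℝ)⁻¹ else (M : ℝ) * ((m : ℝ) - 1)⁻¹ - M * (m : ℝ)⁻¹

lemma hw_sum (M : ℕ) (hM : 1 ≤ M) :
    ∑' m : ℕ, ENNReal.ofReal (hw M m) ≤ ENNReal.ofReal (2 + Real.log M) := by
  have hM0 : (0 : ℝ) < M := by exact_mod_cast hM
  have hnn : ∀ m, 0 ≤ hw M m := by
    intro m
    unfold hw
    split_ifs with h
    · positivity
    · have : (M : ℝ) + 1 ≤ m := by exact_mod_cast (not_le.1 h)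
      have h1 : (0 : ℝ) < (m : ℝ) - 1 := by linarith
      have h2 : (m : ℝ)⁻¹ ≤ ((m : ℝ) - 1)⁻¹ := inv_anti₀ h1 (by linarith)
      nlinarith
  refine ENNReal.tsum_le_of_sum_range_le ?_
  intro n
  rw [← ENNReal.ofReal_sum_of_nonneg (fun m _ => hnn m)]
  apply ENNReal.ofReal_le_ofReal
  -- bound by range (M + 1 + n)
  have h1 : ∑ m ∈ Finset.range n, hw M m ≤ ∑ m ∈ Finset.range (M + 1 + n), hw M m :=
    Finset.sum_le_sum_of_subset_of_nonneg (Finset.range_mono (by omega)) (fun m _ _ => hnn m)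
  refine h1.trans ?_
  rw [Finset.sum_range_add]
  have h2 : ∑ m ∈ Finset.range (M + 1), hw M m ≤ 1 + Real.log M := by
    have h3 : ∑ m ∈ Finset.range (M + 1), hw M m = ∑ m ∈ Finset.range (M + 1), (m : ℝ)⁻¹ := by
      refine Finset.sum_congr rfl fun m hm => ?_
      unfold hw
      rw [if_pos (by rw [Finset.mem_range] at hm; omega)]
    rw [h3, Finset.sum_range_succ']
    have h4 := harmonic_le_one_add_log M
    unfold harmonic at h4
    push_cast at h4
    simpa using h4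
  have h5 : ∑ k ∈ Finset.range n, hw M (M + 1 + k) ≤ 1 := by
    have h6 : ∀ k ∈ Finset.range n, hw M (M + 1 + k) =
        (M : ℝ) * ((M : ℝ) + k)⁻¹ - M * ((M : ℝ) + (k + 1 : ℕ))⁻¹ := by
      intro k _
      unfold hw
      rw [if_neg (by omega)]
      push_cast
      congr 2
      · congr 1; ring
      · congr 1; ring
    rw [Finset.sum_congr rfl h6]
    have h7 := Finset.sum_range_sub' (fun k : ℕ => (M : ℝ) * ((M : ℝ) + k)⁻¹) n
    rw [h7]
    have h8 : (0 : ℝ) ≤ (M : ℝ) * ((M : ℝ) + n)⁻¹ := by positivity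
    have h9 : (M : ℝ) * ((M : ℝ) + (0 : ℕ))⁻¹ = 1 := by
      simp [hM0.ne']
    rw [h9]
    linarith
  linarith

lemma sum_psi_weight (X M : ℕ) (hX : 1 ≤ X) (hM : 1 ≤ M) (x : ℝ) (hx : 0 < x) (hxM : 1 ≤ x * M) :
    ∑' m : ℕ, ENNReal.ofReal (psi (m * x) / m) * ENNReal.ofReal (m * (1 + m / X) ^ 6) ≤
      ENNReal.ofReal (x⁻¹ * (1 + M / X) ^ 6 * (2 + Real.log M)) := by
  have hM0 : (0 : ℝ) < M := by exact_mod_cast hM
  have hX0 : (0 : ℝ) < X := by exact_mod_cast hX
  have key : ∀ m : ℕ, ENNReal.ofReal (psi (m * x) / m) * ENNReal.ofReal (m * (1 + m / X) ^ 6) ≤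
      ENNReal.ofReal (x⁻¹ * (1 + M / X) ^ 6) * ENNReal.ofReal (hw M m) := by
    intro m
    rcases Nat.eq_zero_or_pos m with hm | hm
    · subst hm; simp
    have hm0 : (0 : ℝ) < m := by exact_mod_cast hm
    have hpsi := psi_nonneg (x := m * x) (by positivity)
    rw [← ENNReal.ofReal_mul (by positivity), ← ENNReal.ofReal_mul (by positivity)]
    apply ENNReal.ofReal_le_ofReal
    have e1 : psi (m * x) / m * (m * (1 + m / X) ^ 6) = psi (m * x) * (1 + m / X) ^ 6 := by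
      field_simp
    rw [e1]
    unfold hw
    split_ifs with h
    · have hmM : (m : ℝ) ≤ M := by exact_mod_cast h
      calc psi (m * x) * (1 + m / X) ^ 6 ≤ (m * x)⁻¹ * (1 + M / X) ^ 6 := by
            gcongr
            exact psi_le_inv _
        _ = _ := by rw [mul_inv]; ring
    · have hmM : (M : ℝ) + 1 ≤ m := by exact_mod_cast (not_le.1 h)
      have hm1 : (0 : ℝ) < (m : ℝ) - 1 := by linarith
      have e2 : (1 + (m : ℝ) / X) ≤ (m / M) * (1 + M / X) := by
        have : (m : ℝ) / M * (1 + M / X) = m / M + m / X := by field_simp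
        rw [this]
        have : 1 ≤ (m : ℝ) / M := by rw [le_div_iff₀ hM0]; linarith
        linarith
      have e3 : psi (m * x) ≤ ((m * x) ^ 10)⁻¹ := psi_le_inv10 _
      have e4 : psi (m * x) * (1 + m / X) ^ 6 ≤
          ((m * x) ^ 10)⁻¹ * ((m / M) * (1 + M / X)) ^ 6 := by
        gcongr
      refine e4.trans ?_
      have e5 : (M : ℝ) * ((m : ℝ) - 1)⁻¹ - M * (m : ℝ)⁻¹ = M / (m * (m - 1)) := by
        field_simp
        ring
      rw [e5]
      have e6 : ((m * x) ^ 10)⁻¹ * ((m / M) * (1 + M / X)) ^ 6 =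
          x⁻¹ * (1 + M / X) ^ 6 * (((x * M) ^ 9)⁻¹ * (M ^ 3 / m ^ 4)) := by
        field_simp
      rw [e6]
      gcongr
      have e7 : ((x * M) ^ 9)⁻¹ ≤ 1 := inv_le_one_of_one_le₀ (one_le_pow₀ hxM)
      have e8 : (M : ℝ) ^ 3 / m ^ 4 ≤ M / (m * (m - 1)) := by
        rw [div_le_div_iff₀ (by positivity) (by positivity)]
        have f1 : (M : ℝ) ^ 2 ≤ m ^ 2 := by gcongr; linarith
        have f2 : (m : ℝ) * (m - 1) ≤ m ^ 2 := by nlinarith
        calc (M : ℝ) ^ 3 * (m * (m - 1)) = (M : ℝ) * ((M : ℝ) ^ 2 * (m * (m - 1))) := by ring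
          _ ≤ (M : ℝ) * ((m : ℝ) ^ 2 * (m : ℝ) ^ 2) := by gcongr
          _ = (M : ℝ) * (m : ℝ) ^ 4 := by ring
      calc ((x * M) ^ 9)⁻¹ * ((M : ℝ) ^ 3 / m ^ 4) ≤ 1 * (M ^ 3 / m ^ 4) := by gcongr
        _ ≤ _ := by rw [one_mul]; exact e8
  calc _ ≤ ∑' m : ℕ, ENNReal.ofReal (x⁻¹ * (1 + M / X) ^ 6) * ENNReal.ofReal (hw M m) :=
        ENNReal.tsum_le_tsum key
    _ = ENNReal.ofReal (x⁻¹ * (1 + M / X) ^ 6) * ∑' m : ℕ, ENNReal.ofReal (hw M m) :=
        ENNReal.tsum_mul_left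
    _ ≤ ENNReal.ofReal (x⁻¹ * (1 + M / X) ^ 6) * ENNReal.ofReal (2 + Real.log M) := by
        gcongr
        exact hw_sum M hM
    _ = _ := by rw [← ENNReal.ofReal_mul (by positivity)]

/-- number of primes `p ≤ P`, `p ∤ Q` -/
def prc (Q P : ℕ) : ℕ := ((Finset.range (P + 1)).filter (fun p => p.Prime ∧ ¬ p ∣ Q)).card

lemma prc_ge (Q : ℕ) (hQ : 0 < Q) : ∃ P0 : ℕ, ∀ P : ℕ, P0 ≤ P → Real.sqrt P ≤ prc Q P := by
  have h1 : ∀ P : ℕ, (Nat.primeCounting P : ℝ) - Q ≤ prc Q P := by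
    intro P
    have h2 : Nat.primeCounting P ≤ prc Q P + Q := by
      have h3 : Nat.primeCounting P = ((Finset.range (P + 1)).filter (fun p => p.Prime)).card := by
        rw [Nat.primeCounting, Nat.primeCounting', Nat.count_eq_card_filter_range]
      rw [h3]
      have h4 : (Finset.range (P + 1)).filter (fun p => p.Prime) ⊆
          ((Finset.range (P + 1)).filter (fun p => p.Prime ∧ ¬ p ∣ Q)) ∪ Q.divisors := by
        intro p hp
        rw [Finset.mem_filter] at hp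
        rw [Finset.mem_union, Finset.mem_filter, Nat.mem_divisors]
        by_cases h : p ∣ Q
        · right; exact ⟨h, hQ.ne'⟩
        · left; exact ⟨hp.1, hp.2, h⟩
      calc _ ≤ _ := Finset.card_le_card h4
        _ ≤ _ := Finset.card_union_le _ _
        _ ≤ _ := by
          unfold prc
          gcongr
          exact Nat.card_divisors_le_self Q
    have h5 : (Nat.primeCounting P : ℝ) ≤ prc Q P + Q := by exact_mod_cast h2
    linarith
  have h6 : ∀ᶠ x : ℝ in atTop, Real.log (x + 1) ≤ (1 / 32) * x ∧ Real.log x ≤ (1/8) * Real.sqrt x ∧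
      (Q : ℝ) ≤ Real.sqrt x := by
    have e1 : Tendsto (fun x : ℝ => Real.log x / x ^ (1/2 : ℝ)) atTop (𝓝 0) :=
      (isLittleO_log_rpow_atTop (by norm_num)).tendsto_div_nhds_zero
    have e2 : ∀ᶠ x : ℝ in atTop, Real.log x / x ^ (1/2 : ℝ) < 1/64 := by
      exact (tendsto_order.1 e1).2 _ (by norm_num)
    have e3 : ∀ᶠ x : ℝ in atTop, (Q : ℝ) ≤ Real.sqrt x :=
      Real.tendsto_sqrt_atTop.eventually_ge_atTop _
    have e4 : ∀ᶠ x : ℝ in atTop, Real.log (x+1) / (x+1) ^ (1/2 : ℝ) < 1/64 :=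
      (tendsto_atTop_add_const_right _ 1 tendsto_id).eventually e2
    filter_upwards [e2, e3, e4, eventually_ge_atTop (1 : ℝ)] with x g2 g3 g4 g1
    refine ⟨?_, ?_, g3⟩
    · rw [div_lt_iff₀ (by positivity)] at g4
      have : (x+1) ^ (1/2 : ℝ) ≤ x + 1 := by
        calc (x+1) ^ (1/2 : ℝ) ≤ (x+1) ^ (1 : ℝ) :=
              Real.rpow_le_rpow_of_exponent_le (by linarith) (by norm_num)
          _ = x + 1 := Real.rpow_one _
      nlinarith
    · rw [div_lt_iff₀ (by positivity), ← Real.sqrt_eq_rpow] at g2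
      have := Real.sqrt_nonneg x
      linarith
  obtain ⟨x0, hx0⟩ := eventually_atTop.1 h6
  refine ⟨max ⌈x0⌉₊ 2, fun P hP => ?_⟩
  have hP2 : 2 ≤ P := le_trans (le_max_right _ _) hP
  have hPx : x0 ≤ P := (Nat.le_ceil x0).trans (by exact_mod_cast (le_max_left _ _).trans hP)
  obtain ⟨g1, g2, g3⟩ := hx0 P hPx
  have hP0 : (2 : ℝ) ≤ P := by exact_mod_cast hP2
  have hlog : 0 < Real.log P := Real.log_pos (by linarith)
  have h7 := Chebyshev.pi_ge P
  have hlog2 : (1 / 2 : ℝ) ≤ Real.log 2 := by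
    have := Real.log_two_gt_d9
    linarith
  have hsq : Real.sqrt P * Real.sqrt P = P := Real.mul_self_sqrt (by linarith)
  have hs0 : 0 < Real.sqrt P := Real.sqrt_pos.2 (by linarith)
  have h8 : 2 * Real.sqrt P ≤ ((P : ℝ) * Real.log 2 - Real.log (P + 1)) / Real.log P := by
    rw [le_div_iff₀ hlog]
    calc 2 * Real.sqrt P * Real.log P ≤ 2 * Real.sqrt P * (1/8 * Real.sqrt P) := by gcongr
      _ = 1/4 * P := by rw [← hsq]; ring_nf; rw [Real.sq_sqrt (by positivity)]
      _ ≤ _ := by nlinarith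
  have h9 := h1 P
  linarith

lemma log_pow_le (k : ℕ) : ∃ C : ℝ, 1 ≤ C ∧ ∀ t : ℝ, 0 ≤ t → (1 + Real.log (1 + t)) ^ k ≤ C * (1 + t) := by
  refine ⟨(k + 2 : ℝ) ^ k, one_le_pow₀ (by have : (0:ℝ) ≤ k := Nat.cast_nonneg k; linarith), ?_⟩
  intro t ht
  rcases Nat.eq_zero_or_pos k with hk | hk
  · subst hk; simp; exact ht
  have hk0 : (0 : ℝ) < k := by exact_mod_cast hk
  have h1 : Real.log (1 + t) ≤ k * (1 + t) ^ (1 / (k : ℝ)) := by
    have := Real.log_le_rpow_div (x := 1 + t) (by linarith) (ε := 1 / (k : ℝ)) (by positivity)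
    calc Real.log (1 + t) ≤ (1 + t) ^ (1 / (k : ℝ)) / (1 / (k : ℝ)) := this
      _ = _ := by field_simp
  have h2 : 1 ≤ (1 + t) ^ (1 / (k : ℝ)) := Real.one_le_rpow (by linarith) (by positivity)
  have h3 : 0 ≤ Real.log (1 + t) := Real.log_nonneg (by linarith)
  have h4 : 1 + Real.log (1 + t) ≤ (k + 2) * (1 + t) ^ (1 / (k : ℝ)) := by nlinarith
  calc (1 + Real.log (1 + t)) ^ k ≤ ((k + 2) * (1 + t) ^ (1 / (k : ℝ))) ^ k := by gcongr
    _ = (k + 2) ^ k * (1 + t) := by
      rw [mul_pow, ← Real.rpow_natCast ((1 + t) ^ (1 / (k : ℝ))) k, ← Real.rpow_mul (by linarith)]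
      rw [one_div_mul_cancel hk0.ne', Real.rpow_one]

lemma SS_six (M : ℕ) (hM : 1 ≤ M) : SS (fun d => ENNReal.ofReal (|(d : ℝ)| ^ 6)) M ≤
    3 * ENNReal.ofReal ((M : ℝ) * (M : ℝ) ^ 6) := by
  unfold SS
  have h1 : ∀ d ∈ sqf M, ENNReal.ofReal (|(d : ℝ)| ^ 6) ≤ ENNReal.ofReal ((M : ℝ) ^ 6) := by
    intro d hd
    rw [mem_sqf] at hd
    apply ENNReal.ofReal_le_ofReal
    gcongr
    have : (|d| : ℤ) ≤ M := hd.1
    exact_mod_cast this
  calc _ ≤ ∑ d ∈ sqf M, ENNReal.ofReal ((M : ℝ) ^ 6) := Finset.sum_le_sum h1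
    _ = ((sqf M).card : ℝ≥0∞) * ENNReal.ofReal ((M : ℝ) ^ 6) := by
      rw [Finset.sum_const, nsmul_eq_mul]
    _ ≤ ((3 * M : ℕ) : ℝ≥0∞) * ENNReal.ofReal ((M : ℝ) ^ 6) := by
      gcongr
      calc (sqf M).card ≤ (Finset.Icc (-(M : ℤ)) M).card := Finset.card_filter_le _ _
        _ ≤ 3 * M := by rw [Int.card_Icc]; omega
    _ = _ := by
      rw [ENNReal.ofReal_mul (by positivity)]
      push_cast
      rw [ENNReal.ofReal_natCast]
      ring

/-- the closure argument, with polynomial dependence on the constant -/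
theorem closureH (c : ℝ) (A1 Q : ℕ) (hQ : 0 < Q) (hc : 1 ≤ c) :
    ∃ (C2 : ℝ) (A2 : ℕ), 0 < C2 ∧ ∀ C1 : ℝ, 1 ≤ C1 → ∀ (X : ℕ) (N : ℤ → ℝ≥0∞), 3 ≤ X →
    (∀ d : ℤ, Squarefree d → N d ≤ ENNReal.ofReal (C1 * |(d : ℝ)| ^ 6)) →
    (∀ (M P : ℕ) (Λ : ℝ), 1 ≤ M → 1 ≤ P → 1 ≤ Λ →
      (prc Q P : ℝ≥0∞) * SS N M ≤ ENNReal.ofReal (C1 * Real.log X ^ A1) *
        (ENNReal.ofReal (M * (P : ℝ) ^ 2) + ENNReal.ofReal ((P : ℝ) ^ 2 / c) *
          ∑' d : ℤ, if Squarefree d.natAbs then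
            ENNReal.ofReal (psi (|(d : ℝ)| * ((P : ℝ) ^ 2 / (c ^ 2 * M)))) *
              (ENNReal.ofReal (C1 * (1 + Λ) ^ 24) * N d +
                ENNReal.ofReal (C1 * Real.exp (-(Real.pi * Λ / 32)) * |(d : ℝ)| ^ 6)) else 0)) →
    SS N X ≤ ENNReal.ofReal (C2 * C1 ^ 8 * X * Real.log X ^ A2) := by
  obtain ⟨P0, hP0⟩ := prc_ge Q hQ
  set A3 : ℕ := A1 + 25 with hA3
  obtain ⟨CL, hCL1, hCL⟩ := log_pow_le (4 * A3)
  obtain ⟨k3, hk3⟩ : ∃ z : ℝ, z = 2 ^ 11 * 3 * c * 101 ^ 24 + (1 + 2 ^ 11 * 3) := ⟨_, rfl⟩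
  obtain ⟨k4, hk4⟩ : ∃ z : ℝ, z = 4 * k3 ^ 2 + 2 + P0 + ⌈c⌉₊ := ⟨_, rfl⟩
  have hk3p : 0 < k3 := by rw [hk3]; positivity
  have hk4p : 0 < k4 := by rw [hk4]; positivity
  refine ⟨64 * (k4 ^ 2 * CL), 4 * A3, by positivity, ?_⟩
  intro C1 hC1 X N hX hN6 hmain
  obtain ⟨C3, hC3⟩ : ∃ z : ℝ, z = C1 * C1 * 2 ^ 11 * 3 * c * 101 ^ 24 + C1 * (1 + C1 * 2 ^ 11 * 3) := ⟨_, rfl⟩
  have hC3p : 1 ≤ C3 := by
    have h1 : 0 ≤ C1 * C1 * 2 ^ 11 * 3 * c * 101 ^ 24 := by positivity
    have h2 : 1 ≤ C1 * (1 + C1 * 2 ^ 11 * 3) := by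
      have : 1 ≤ 1 + C1 * 2 ^ 11 * 3 := le_add_of_nonneg_right (by positivity)
      exact one_le_mul_of_one_le_of_one_le hC1 this
    linarith
  obtain ⟨C4, hC4⟩ : ∃ z : ℝ, z = 4 * C3 ^ 2 + 2 + P0 + ⌈c⌉₊ := ⟨_, rfl⟩
  have hC3k : C3 ≤ C1 ^ 2 * k3 := by
    have h0 : C1 ≤ C1 ^ 2 := le_self_pow₀ hC1 (by norm_num)
    have e : C3 = C1 ^ 2 * (2 ^ 11 * 3 * c * 101 ^ 24) + (C1 + C1 ^ 2 * (2 ^ 11 * 3)) := by
      rw [hC3]; ring
    have e2 : C1 ^ 2 * k3 = C1 ^ 2 * (2 ^ 11 * 3 * c * 101 ^ 24) +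
        (C1 ^ 2 + C1 ^ 2 * (2 ^ 11 * 3)) := by rw [hk3]; ring
    rw [e, e2]
    gcongr
  have hC4p : 0 < C4 := by rw [hC4]; positivity
  have hC4k : C4 ≤ C1 ^ 4 * k4 := by
    have h1 : 1 ≤ C1 ^ 4 := one_le_pow₀ hC1
    have h2 : C3 ^ 2 ≤ (C1 ^ 2 * k3) ^ 2 := by gcongr
    have h3 : (0 : ℝ) ≤ 2 + P0 + ⌈c⌉₊ := by positivity
    have h4 := mul_le_mul_of_nonneg_right h1 h3
    have e : C1 ^ 4 * k4 = 4 * (C1 ^ 2 * k3) ^ 2 + C1 ^ 4 * (2 + P0 + ⌈c⌉₊) := by
      rw [hk4]; ring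
    rw [e, hC4]
    linarith
  have hCC : 64 * (C4 ^ 2 * CL) ≤ 64 * (k4 ^ 2 * CL) * C1 ^ 8 := by
    have h2 : C4 ^ 2 ≤ (C1 ^ 4 * k4) ^ 2 := by
      have : 0 ≤ C4 := by rw [hC4]; positivity
      gcongr
    calc 64 * (C4 ^ 2 * CL) ≤ 64 * ((C1 ^ 4 * k4) ^ 2 * CL) := by gcongr
      _ = _ := by ring
  suffices hsuff : SS N X ≤ ENNReal.ofReal (64 * (C4 ^ 2 * CL) * X * Real.log X ^ (4 * A3)) by
    refine hsuff.trans (ENNReal.ofReal_le_ofReal ?_)
    have hlog : 0 ≤ Real.log X := Real.log_natCast_nonneg X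
    gcongr
  have hX0 : (0 : ℝ) < X := by exact_mod_cast (by omega : 0 < X)
  have hX3 : (3 : ℝ) ≤ X := by exact_mod_cast hX
  set L : ℝ := Real.log X with hL
  have hL1 : 1 ≤ L := by
    rw [hL, Real.le_log_iff_exp_le hX0]
    exact (Real.exp_one_lt_d9.le).trans (by linarith)
  -- the weights
  set W : ℕ → ℝ := fun m => (m : ℝ) * (1 + m / X) ^ 6 with hW
  have hW0 : ∀ m, 0 ≤ W m := fun m => by simp only [hW]; positivity
  have hWp : ∀ m, 1 ≤ m → 0 < W m := fun m hm => by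
    have : (0 : ℝ) < m := by exact_mod_cast hm
    simp only [hW]; positivity
  set Sinf : ℝ≥0∞ := ⨆ (M : ℕ) (_ : 1 ≤ M), SS N M / ENNReal.ofReal (W M) with hSinf
  have hS0 : ∀ m : ℕ, SS N m ≤ Sinf * ENNReal.ofReal (W m) := by
    intro m
    rcases Nat.eq_zero_or_pos m with hm | hm
    · subst hm
      have : SS N 0 = 0 := by
        unfold SS
        apply Finset.sum_eq_zero
        intro d hd
        rw [mem_sqf] at hd
        exfalso
        have h1 : d = 0 := by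
          have := hd.1
          simpa using this
        rw [h1] at hd
        exact not_squarefree_zero hd.2
      rw [this]; exact bot_le
    · have h1 : SS N m / ENNReal.ofReal (W m) ≤ Sinf := by
        rw [hSinf]
        exact le_iSup₂ (f := fun (M : ℕ) (_ : 1 ≤ M) => SS N M / ENNReal.ofReal (W M)) m hm
      rwa [ENNReal.div_le_iff_le_mul (Or.inl (by simpa using hWp m hm))
        (Or.inl ENNReal.ofReal_ne_top)] at h1
  have hSfin : Sinf ≤ ENNReal.ofReal (3 * C1 * (X : ℝ) ^ 6) := by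
    rw [hSinf]
    refine iSup₂_le fun M hM => ?_
    have hM0 : (0 : ℝ) < M := by exact_mod_cast hM
    rw [ENNReal.div_le_iff_le_mul (Or.inl (by simpa using hWp M hM))
        (Or.inl ENNReal.ofReal_ne_top)]
    have h1 : SS N M ≤ ENNReal.ofReal C1 * SS (fun d => ENNReal.ofReal (|(d : ℝ)| ^ 6)) M := by
      unfold SS
      rw [Finset.mul_sum]
      refine Finset.sum_le_sum fun d hd => ?_
      rw [mem_sqf] at hd
      rw [← ENNReal.ofReal_mul (by linarith)]
      exact hN6 d hd.2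
    refine h1.trans ?_
    calc ENNReal.ofReal C1 * SS (fun d => ENNReal.ofReal (|(d : ℝ)| ^ 6)) M
        ≤ ENNReal.ofReal C1 * (3 * ENNReal.ofReal ((M : ℝ) * (M : ℝ) ^ 6)) := by
          gcongr
          exact SS_six M hM
      _ = ENNReal.ofReal (C1 * (3 * ((M : ℝ) * (M : ℝ) ^ 6))) := by
          rw [ENNReal.ofReal_mul (p := C1) (by linarith), ENNReal.ofReal_mul (p := 3) (by norm_num)]
          norm_num
      _ ≤ ENNReal.ofReal (3 * C1 * (X : ℝ) ^ 6) * ENNReal.ofReal (W M) := by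
          rw [← ENNReal.ofReal_mul (by positivity)]
          apply ENNReal.ofReal_le_ofReal
          simp only [hW]
          have h2 : (M : ℝ) ^ 6 ≤ (X : ℝ) ^ 6 * (1 + M / X) ^ 6 := by
            rw [← mul_pow]
            gcongr
            have : (X : ℝ) * (1 + M / X) = X + M := by field_simp
            rw [this]; linarith
          calc C1 * (3 * ((M : ℝ) * (M : ℝ) ^ 6)) = 3 * C1 * M * M ^ 6 := by ring
            _ ≤ 3 * C1 * M * ((X : ℝ) ^ 6 * (1 + M / X) ^ 6) := by gcongr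
            _ = _ := by ring
  have hSne : Sinf ≠ ⊤ := ne_top_of_le_ne_top ENNReal.ofReal_ne_top hSfin
  -- the main inequality
  have hstep : ∀ M : ℕ, 1 ≤ M → SS N M / ENNReal.ofReal (W M) ≤
      ENNReal.ofReal (1 / 2) * (ENNReal.ofReal (C4 ^ 2 * CL * L ^ (4 * A3)) + Sinf) := by
    intro M hM
    have hM0 : (0 : ℝ) < M := by exact_mod_cast hM
    have hM1 : (1 : ℝ) ≤ M := by exact_mod_cast hM
    set l : ℝ := Real.log (M + X) with hl
    have hlL : L ≤ l := by
      rw [hL, hl]; apply Real.log_le_log hX0; linarith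
    have hl1 : 1 ≤ l := hL1.trans hlL
    have hlM : Real.log M ≤ l := by
      rw [hl]; apply Real.log_le_log hM0; linarith
    have hMX0 : (0 : ℝ) < M + X := by positivity
    set P : ℕ := ⌈(2 * C3 * l ^ A3) ^ 2⌉₊ + P0 + ⌈c⌉₊ with hP
    have hPle : (P : ℝ) ≤ C4 * l ^ (2 * A3) := by
      have h1 : (⌈(2 * C3 * l ^ A3) ^ 2⌉₊ : ℝ) ≤ (2 * C3 * l ^ A3) ^ 2 + 1 :=
        (Nat.ceil_lt_add_one (by positivity)).le
      have h2 : (2 * C3 * l ^ A3) ^ 2 = 4 * C3 ^ 2 * l ^ (2 * A3) := by ring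
      have h3 : 1 ≤ l ^ (2 * A3) := one_le_pow₀ hl1
      have h4 : (0 : ℝ) ≤ P0 := Nat.cast_nonneg _
      have h5 : (0 : ℝ) ≤ ⌈c⌉₊ := Nat.cast_nonneg _
      rw [hP, hC4]
      push_cast
      have h6 : (⌈(2 * C3 * l ^ A3) ^ 2⌉₊ : ℝ) ≤ 4 * C3 ^ 2 * l ^ (2 * A3) + 1 := by
        rw [← h2]; exact h1
      have h7 : 0 ≤ (2 + P0 + ⌈c⌉₊ : ℝ) := by positivity
      have h8 := mul_le_mul_of_nonneg_left h3 h7
      have h9 : (4 * C3 ^ 2 + 2 + P0 + ⌈c⌉₊) * l ^ (2 * A3) = 4 * C3 ^ 2 * l ^ (2 * A3) +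
          (2 + P0 + ⌈c⌉₊) * l ^ (2 * A3) := by ring
      rw [h9]
      linarith
    have hPpos : 1 ≤ P := by
      have : 1 ≤ ⌈c⌉₊ := Nat.one_le_ceil_iff.2 (by linarith)
      omega
    have hPc : c ≤ P := by
      calc c ≤ ⌈c⌉₊ := Nat.le_ceil c
        _ ≤ P := by rw [hP]; exact_mod_cast Nat.le_add_left _ _
    have hP0' : (0 : ℝ) < P := by exact_mod_cast hPpos
    have hprc : 2 * C3 * l ^ A3 ≤ prc Q P := by
      have h1 : Real.sqrt P ≤ prc Q P := hP0 P (by rw [hP]; omega)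
      refine le_trans ?_ h1
      rw [Real.le_sqrt (by positivity) (by positivity)]
      calc (2 * C3 * l ^ A3) ^ 2 ≤ ⌈(2 * C3 * l ^ A3) ^ 2⌉₊ := Nat.le_ceil _
        _ ≤ P := by rw [hP]; exact_mod_cast (by omega)
    set Λ : ℝ := 100 * l with hΛ
    have hΛ1 : 1 ≤ Λ := by rw [hΛ]; linarith
    have h1 := hmain M P Λ hM hPpos hΛ1
    set x : ℝ := (P : ℝ) ^ 2 / (c ^ 2 * M) with hx
    have hc0 : 0 < c := by linarith
    have hx0 : 0 < x := by rw [hx]; positivity
    have hxM : 1 ≤ x * M := by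
      have : x * M = (P : ℝ) ^ 2 / c ^ 2 := by rw [hx]; field_simp
      rw [this, le_div_iff₀ (by positivity), one_mul]
      gcongr
    -- the sum over d
    have hsum : (∑' d : ℤ, if Squarefree d.natAbs then
            ENNReal.ofReal (psi (|(d : ℝ)| * x)) *
              (ENNReal.ofReal (C1 * (1 + Λ) ^ 24) * N d +
                ENNReal.ofReal (C1 * Real.exp (-(Real.pi * Λ / 32)) * |(d : ℝ)| ^ 6)) else 0) ≤
        ENNReal.ofReal (C1 * (1 + Λ) ^ 24) * (2 ^ 11 * (Sinf *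
          ENNReal.ofReal (x⁻¹ * (1 + M / X) ^ 6 * (2 + Real.log M)))) +
        ENNReal.ofReal (C1 * Real.exp (-(Real.pi * Λ / 32))) * (2 ^ 11 * (3 *
          ENNReal.ofReal (x⁻¹ * (1 + M / (1 : ℕ)) ^ 6 * (2 + Real.log M)))) := by
      have e1 : ∀ d : ℤ, (if Squarefree d.natAbs then
            ENNReal.ofReal (psi (|(d : ℝ)| * x)) *
              (ENNReal.ofReal (C1 * (1 + Λ) ^ 24) * N d +
                ENNReal.ofReal (C1 * Real.exp (-(Real.pi * Λ / 32)) * |(d : ℝ)| ^ 6)) else 0) =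
          ENNReal.ofReal (C1 * (1 + Λ) ^ 24) * (if Squarefree d.natAbs then
            ENNReal.ofReal (psi (|(d : ℝ)| * x)) * N d else 0) +
          ENNReal.ofReal (C1 * Real.exp (-(Real.pi * Λ / 32))) * (if Squarefree d.natAbs then
            ENNReal.ofReal (psi (|(d : ℝ)| * x)) * ENNReal.ofReal (|(d : ℝ)| ^ 6) else 0) := by
        intro d
        split_ifs with hd
        · rw [ENNReal.ofReal_mul (p := C1 * Real.exp (-(Real.pi * Λ / 32))) (by positivity)]
          ring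
        · simp
      rw [tsum_congr e1, ENNReal.tsum_add, ENNReal.tsum_mul_left, ENNReal.tsum_mul_left]
      gcongr
      · refine (sum_psi_le N x hx0).trans ?_
        gcongr
        calc ∑' m : ℕ, ENNReal.ofReal (psi (m * x) / m) * SS N m
            ≤ ∑' m : ℕ, Sinf * (ENNReal.ofReal (psi (m * x) / m) *
                ENNReal.ofReal (m * (1 + m / X) ^ 6)) := by
              refine ENNReal.tsum_le_tsum fun m => ?_
              calc _ ≤ ENNReal.ofReal (psi (m * x) / m) * (Sinf * ENNReal.ofReal (W m)) := by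
                    gcongr
                    exact hS0 m
                _ = _ := by ring
          _ = Sinf * ∑' m : ℕ, (ENNReal.ofReal (psi (m * x) / m) *
                ENNReal.ofReal (m * (1 + m / X) ^ 6)) := ENNReal.tsum_mul_left
          _ ≤ _ := by
              gcongr
              exact sum_psi_weight X M (by omega) hM x hx0 hxM
      · refine (sum_psi_le _ x hx0).trans ?_
        gcongr
        calc ∑' m : ℕ, ENNReal.ofReal (psi (m * x) / m) *
              SS (fun d => ENNReal.ofReal (|(d : ℝ)| ^ 6)) m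
            ≤ ∑' m : ℕ, 3 * (ENNReal.ofReal (psi (m * x) / m) *
                ENNReal.ofReal (m * (1 + m / (1 : ℕ)) ^ 6)) := by
              refine ENNReal.tsum_le_tsum fun m => ?_
              rcases Nat.eq_zero_or_pos m with hm | hm
              · subst hm; simp
              calc _ ≤ ENNReal.ofReal (psi (m * x) / m) *
                    (3 * ENNReal.ofReal ((m : ℝ) * (m : ℝ) ^ 6)) := by
                    gcongr
                    exact SS_six m hm
                _ ≤ ENNReal.ofReal (psi (m * x) / m) *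
                    (3 * ENNReal.ofReal (m * (1 + m / (1 : ℕ)) ^ 6)) := by
                    gcongr
                    push_cast
                    linarith [div_one (m : ℝ)]
                _ = _ := by ring
          _ = 3 * ∑' m : ℕ, (ENNReal.ofReal (psi (m * x) / m) *
                ENNReal.ofReal (m * (1 + m / (1 : ℕ)) ^ 6)) := ENNReal.tsum_mul_left
          _ ≤ _ := by
              gcongr
              exact sum_psi_weight 1 M le_rfl hM x hx0 hxM
    have hlogM0 : 0 ≤ Real.log M := Real.log_nonneg hM1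
    have h2 : (prc Q P : ℝ≥0∞) * SS N M ≤
        ENNReal.ofReal (C3 * l ^ A3) * (ENNReal.ofReal (M * (P : ℝ) ^ 2) +
          ENNReal.ofReal (W M) * Sinf) := by
      refine h1.trans ?_
      calc ENNReal.ofReal (C1 * L ^ A1) * (ENNReal.ofReal (M * (P : ℝ) ^ 2) +
            ENNReal.ofReal ((P : ℝ) ^ 2 / c) * _)
          ≤ ENNReal.ofReal (C1 * L ^ A1) * (ENNReal.ofReal (M * (P : ℝ) ^ 2) +
            ENNReal.ofReal ((P : ℝ) ^ 2 / c) * (ENNReal.ofReal (C1 * (1 + Λ) ^ 24) * (2 ^ 11 * (Sinf *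
          ENNReal.ofReal (x⁻¹ * (1 + M / X) ^ 6 * (2 + Real.log M)))) +
        ENNReal.ofReal (C1 * Real.exp (-(Real.pi * Λ / 32))) * (2 ^ 11 * (3 *
          ENNReal.ofReal (x⁻¹ * (1 + M / (1 : ℕ)) ^ 6 * (2 + Real.log M)))))) := by
            gcongr
        _ = ENNReal.ofReal (C1 * L ^ A1) * (ENNReal.ofReal (M * (P : ℝ) ^ 2) +
            ENNReal.ofReal ((P : ℝ) ^ 2 / c * (C1 * Real.exp (-(Real.pi * Λ / 32))) * 2 ^ 11 * 3 *
              (x⁻¹ * (1 + M / (1 : ℕ)) ^ 6 * (2 + Real.log M)))) +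
            ENNReal.ofReal (C1 * L ^ A1 * ((P : ℝ) ^ 2 / c * (C1 * (1 + Λ) ^ 24) * 2 ^ 11 *
              (x⁻¹ * (1 + M / X) ^ 6 * (2 + Real.log M)))) * Sinf := by
            have e2 : (2 ^ 11 : ℝ≥0∞) = ENNReal.ofReal (2 ^ 11) := by
              rw [ENNReal.ofReal_pow (by norm_num)]; norm_num
            have e3 : (3 : ℝ≥0∞) = ENNReal.ofReal 3 := by norm_num
            rw [e2, e3]
            have p1 : 0 ≤ (P : ℝ) ^ 2 / c := by positivity
            have p2 : 0 ≤ C1 * Real.exp (-(Real.pi * Λ / 32)) := by positivity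
            have p3 : 0 ≤ C1 * (1 + Λ) ^ 24 := by positivity
            have p4 : 0 ≤ C1 * L ^ A1 := by positivity
            rw [ENNReal.ofReal_mul (p := (P : ℝ) ^ 2 / c * (C1 * Real.exp (-(Real.pi * Λ / 32))) * 2 ^ 11 * 3) (by positivity),
              ENNReal.ofReal_mul (p := (P : ℝ) ^ 2 / c * (C1 * Real.exp (-(Real.pi * Λ / 32))) * 2 ^ 11) (by positivity),
              ENNReal.ofReal_mul (p := (P : ℝ) ^ 2 / c * (C1 * Real.exp (-(Real.pi * Λ / 32)))) (by positivity),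
              ENNReal.ofReal_mul (p := (P : ℝ) ^ 2 / c) (by positivity),
              ENNReal.ofReal_mul (p := C1 * L ^ A1) (by positivity),
              ENNReal.ofReal_mul (p := (P : ℝ) ^ 2 / c * (C1 * (1 + Λ) ^ 24) * 2 ^ 11) (by positivity),
              ENNReal.ofReal_mul (p := (P : ℝ) ^ 2 / c * (C1 * (1 + Λ) ^ 24)) (by positivity),
              ENNReal.ofReal_mul (p := (P : ℝ) ^ 2 / c) (by positivity)]
            ring
        _ = ENNReal.ofReal (C1 * L ^ A1 * (M * (P : ℝ) ^ 2 +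
              (P : ℝ) ^ 2 / c * (C1 * Real.exp (-(Real.pi * Λ / 32))) * 2 ^ 11 * 3 *
              (x⁻¹ * (1 + M / (1 : ℕ)) ^ 6 * (2 + Real.log M)))) +
            ENNReal.ofReal (C1 * L ^ A1 * ((P : ℝ) ^ 2 / c * (C1 * (1 + Λ) ^ 24) * 2 ^ 11 *
              (x⁻¹ * (1 + M / X) ^ 6 * (2 + Real.log M)))) * Sinf := by
            rw [← ENNReal.ofReal_add (by positivity) (by positivity),
              ← ENNReal.ofReal_mul (by positivity)]
        _ ≤ ENNReal.ofReal (C3 * l ^ A3 * (M * (P : ℝ) ^ 2)) +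
            ENNReal.ofReal (C3 * l ^ A3 * (M * (1 + M / X) ^ 6)) * Sinf := by
            have hPx : (P : ℝ) ^ 2 / c * x⁻¹ = c * M := by
              rw [hx]; field_simp
            have hLA : L ^ A1 ≤ l ^ A1 := by gcongr
            have hlA : l ^ A1 ≤ l ^ A3 := pow_le_pow_right₀ hl1 (by omega)
            gcongr ENNReal.ofReal ?_ + ENNReal.ofReal ?_ * _
            · -- first
              have f1 : Real.exp (-(Real.pi * Λ / 32)) ≤ ((M + X : ℝ) ^ 9)⁻¹ := by
                have : ((M + X : ℝ) ^ 9)⁻¹ = Real.exp (-(9 * l)) := by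
                  rw [Real.exp_neg]
                  congr 1
                  rw [hl, mul_comm, Real.exp_mul, Real.exp_log hMX0]
                  norm_cast
                rw [this]
                apply Real.exp_le_exp.2
                rw [hΛ]
                have h3 := mul_le_mul_of_nonneg_right Real.pi_gt_three.le (by linarith : (0 : ℝ) ≤ l)
                have h4 : Real.pi * (100 * l) / 32 = 100 / 32 * (Real.pi * l) := by ring
                rw [h4]
                linarith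
              have f2 : (1 + (M : ℝ) / (1 : ℕ)) ^ 6 ≤ (M + X : ℝ) ^ 6 := by
                push_cast
                rw [div_one]
                exact pow_le_pow_left₀ (by positivity) (by linarith) 6
              have f3 : 2 + Real.log M ≤ (M + X : ℝ) := by
                have := Real.log_le_sub_one_of_pos hM0
                linarith
              have f4 : (P : ℝ) ^ 2 / c * (C1 * Real.exp (-(Real.pi * Λ / 32))) * 2 ^ 11 * 3 *
                  (x⁻¹ * (1 + M / (1 : ℕ)) ^ 6 * (2 + Real.log M)) ≤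
                  C1 * 2 ^ 11 * 3 * (M * (P : ℝ) ^ 2) := by
                have f5 : Real.exp (-(Real.pi * Λ / 32)) * (1 + (M : ℝ) / (1 : ℕ)) ^ 6 *
                    (2 + Real.log M) ≤ 1 := by
                  calc Real.exp (-(Real.pi * Λ / 32)) * (1 + (M : ℝ) / (1 : ℕ)) ^ 6 *
                    (2 + Real.log M) ≤ ((M + X : ℝ) ^ 9)⁻¹ * (M + X : ℝ) ^ 6 * (M + X : ℝ) := by
                        gcongr
                    _ = ((M + X : ℝ) ^ 2)⁻¹ := by field_simp
                    _ ≤ 1 := inv_le_one_of_one_le₀ (one_le_pow₀ (by linarith))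
                calc (P : ℝ) ^ 2 / c * (C1 * Real.exp (-(Real.pi * Λ / 32))) * 2 ^ 11 * 3 *
                  (x⁻¹ * (1 + M / (1 : ℕ)) ^ 6 * (2 + Real.log M))
                    = C1 * 2 ^ 11 * 3 * ((P : ℝ) ^ 2 / c * x⁻¹) *
                      (Real.exp (-(Real.pi * Λ / 32)) * (1 + (M : ℝ) / (1 : ℕ)) ^ 6 *
                    (2 + Real.log M)) := by ring
                  _ ≤ C1 * 2 ^ 11 * 3 * ((P : ℝ) ^ 2 / c * x⁻¹) * 1 := by gcongr
                  _ = C1 * 2 ^ 11 * 3 * (M * c) := by rw [hPx]; ring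
                  _ ≤ C1 * 2 ^ 11 * 3 * (M * (P : ℝ) ^ 2) := by
                    gcongr
                    have : (P : ℝ) ≤ (P : ℝ) ^ 2 := by
                      have : (1 : ℝ) ≤ P := by exact_mod_cast hPpos
                      exact le_self_pow₀ this (by norm_num)
                    linarith
              calc C1 * L ^ A1 * (M * (P : ℝ) ^ 2 + _) ≤
                  C1 * l ^ A3 * (M * (P : ℝ) ^ 2 + C1 * 2 ^ 11 * 3 * (M * (P : ℝ) ^ 2)) := by
                    gcongr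
                    exact hLA.trans hlA
                _ = (C1 * (1 + C1 * 2 ^ 11 * 3)) * l ^ A3 * (M * (P : ℝ) ^ 2) := by ring
                _ ≤ C3 * l ^ A3 * (M * (P : ℝ) ^ 2) := by
                    gcongr
                    rw [hC3]
                    have : 0 ≤ C1 * C1 * 2 ^ 11 * 3 * c * 101 ^ 24 := by positivity
                    linarith
            · -- second
              have g1 : 1 + Λ ≤ 101 * l := by rw [hΛ]; linarith
              have g2 : 2 + Real.log M ≤ 3 * l := by linarith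
              calc C1 * L ^ A1 * ((P : ℝ) ^ 2 / c * (C1 * (1 + Λ) ^ 24) * 2 ^ 11 *
                    (x⁻¹ * (1 + M / X) ^ 6 * (2 + Real.log M)))
                  = C1 * C1 * 2 ^ 11 * L ^ A1 * ((P : ℝ) ^ 2 / c * x⁻¹) * (1 + Λ) ^ 24 *
                    (2 + Real.log M) * (1 + M / X) ^ 6 := by ring
                _ ≤ C1 * C1 * 2 ^ 11 * l ^ A1 * ((P : ℝ) ^ 2 / c * x⁻¹) * (101 * l) ^ 24 *
                    (3 * l) * (1 + M / X) ^ 6 := by gcongr
                _ = (C1 * C1 * 2 ^ 11 * 3 * c * 101 ^ 24) * l ^ A3 * (M * (1 + M / X) ^ 6) := by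
                    rw [hPx, hA3]; ring
                _ ≤ C3 * l ^ A3 * (M * (1 + M / X) ^ 6) := by
                    gcongr
                    rw [hC3]
                    have : 0 ≤ C1 * (1 + C1 * 2 ^ 11 * 3) := by positivity
                    linarith
        _ = _ := by
            rw [ENNReal.ofReal_mul (p := C3 * l ^ A3) (by positivity),
              ENNReal.ofReal_mul (p := C3 * l ^ A3) (by positivity)]
            simp only [hW]
            ring
    -- divide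
    have hW1 := hWp M hM
    have h3 : ENNReal.ofReal (2 * (C3 * l ^ A3)) * SS N M ≤
        ENNReal.ofReal (C3 * l ^ A3) * (ENNReal.ofReal (M * (P : ℝ) ^ 2) +
          ENNReal.ofReal (W M) * Sinf) := by
      refine le_trans ?_ h2
      gcongr
      rw [← ENNReal.ofReal_natCast]
      apply ENNReal.ofReal_le_ofReal
      linarith
    have hD : 0 < C3 * l ^ A3 := by positivity
    have h4 : SS N M ≤ ENNReal.ofReal (1 / 2) * (ENNReal.ofReal (M * (P : ℝ) ^ 2) +
          ENNReal.ofReal (W M) * Sinf) := by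
      generalize C3 * l ^ A3 = D at hD h3
      generalize (ENNReal.ofReal (M * (P : ℝ) ^ 2) + ENNReal.ofReal (W M) * Sinf) = R at h3
      have e1 : ENNReal.ofReal (1 / (2 * D)) * (ENNReal.ofReal (2 * D) * SS N M) = SS N M := by
        rw [← mul_assoc, ← ENNReal.ofReal_mul (by positivity)]
        have : 1 / (2 * D) * (2 * D) = 1 := by field_simp
        rw [this, ENNReal.ofReal_one, one_mul]
      have e2 : ENNReal.ofReal (1 / (2 * D)) * (ENNReal.ofReal D * R) =
          ENNReal.ofReal (1 / 2) * R := by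
        rw [← mul_assoc, ← ENNReal.ofReal_mul (by positivity)]
        have : 1 / (2 * D) * D = 1 / 2 := by field_simp
        rw [this]
      rw [← e1, ← e2]
      gcongr
    rw [ENNReal.div_le_iff_le_mul (Or.inl (by simpa using hW1)) (Or.inl ENNReal.ofReal_ne_top)]
    refine h4.trans ?_
    rw [mul_assoc, add_mul, mul_comm (ENNReal.ofReal (W M)) Sinf]
    gcongr
    · -- M P² ≤ C5 L^.. W M
      rw [← ENNReal.ofReal_mul (by positivity)]
      apply ENNReal.ofReal_le_ofReal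
      have e1 : (P : ℝ) ^ 2 ≤ C4 ^ 2 * l ^ (4 * A3) := by
        calc (P : ℝ) ^ 2 ≤ (C4 * l ^ (2 * A3)) ^ 2 := by gcongr
          _ = C4 ^ 2 * l ^ (4 * A3) := by rw [mul_pow, ← pow_mul]; ring_nf
      have e2 : l ≤ L * (1 + Real.log (1 + M / X)) := by
        have e3 : l = L + Real.log (1 + M / X) := by
          rw [hl, hL, ← Real.log_mul hX0.ne' (by positivity)]
          congr 1
          field_simp
          ring
        have e4 : 0 ≤ Real.log (1 + M / X) := Real.log_nonneg (by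
          have : (0 : ℝ) ≤ M / X := by positivity
          linarith)
        rw [e3, mul_add, mul_one]
        exact add_le_add_right (le_mul_of_one_le_left e4 hL1) _
      have e5 : l ^ (4 * A3) ≤ L ^ (4 * A3) * (CL * (1 + M / X)) := by
        calc l ^ (4 * A3) ≤ (L * (1 + Real.log (1 + M / X))) ^ (4 * A3) := by gcongr
          _ = L ^ (4 * A3) * (1 + Real.log (1 + M / X)) ^ (4 * A3) := mul_pow _ _ _
          _ ≤ _ := by
            gcongr
            exact hCL _ (by positivity)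
      have e6 : (1 + (M : ℝ) / X) ≤ (1 + M / X) ^ 6 := by
        have h1 : (1 : ℝ) ≤ 1 + M / X := by
          have : (0 : ℝ) ≤ M / X := by positivity
          linarith
        exact le_self_pow₀ h1 (by norm_num)
      simp only [hW]
      calc (M : ℝ) * (P : ℝ) ^ 2 ≤ M * (C4 ^ 2 * (L ^ (4 * A3) * (CL * (1 + M / X) ^ 6))) := by
            gcongr
            calc (P : ℝ) ^ 2 ≤ C4 ^ 2 * l ^ (4 * A3) := e1
              _ ≤ C4 ^ 2 * (L ^ (4 * A3) * (CL * (1 + M / X))) := by gcongr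
              _ ≤ _ := by gcongr
        _ = _ := by ring
  have hfin : Sinf ≤ ENNReal.ofReal (C4 ^ 2 * CL * L ^ (4 * A3)) := by
    have h1 : Sinf ≤ ENNReal.ofReal (1 / 2) *
        (ENNReal.ofReal (C4 ^ 2 * CL * L ^ (4 * A3)) + Sinf) := by
      conv_lhs => rw [hSinf]
      exact iSup₂_le fun M hM => hstep M hM
    obtain ⟨r, hr⟩ : ∃ r : ℝ, 0 ≤ r ∧ Sinf = ENNReal.ofReal r :=
      ⟨Sinf.toReal, ENNReal.toReal_nonneg, (ENNReal.ofReal_toReal hSne).symm⟩
    rw [hr.2] at h1 ⊢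
    have hB : 0 ≤ C4 ^ 2 * CL * L ^ (4 * A3) := by positivity
    rw [← ENNReal.ofReal_add hB hr.1, ← ENNReal.ofReal_mul (by norm_num),
      ENNReal.ofReal_le_ofReal_iff (by have := hr.1; positivity)] at h1
    apply ENNReal.ofReal_le_ofReal
    linarith
  have h1 := hS0 X
  refine h1.trans ?_
  calc Sinf * ENNReal.ofReal (W X) ≤ ENNReal.ofReal (C4 ^ 2 * CL * L ^ (4 * A3)) *
      ENNReal.ofReal (W X) := by gcongr
    _ = _ := by
      rw [← ENNReal.ofReal_mul (by positivity)]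
      congr 1
      simp only [hW]
      rw [div_self hX0.ne']
      ring

end

end Pool.Agent.Y19.QT
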