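import Pool.Agent.Y19.QT.Defs

set_option autoImplicit false

/-! Project QT, part H (hybrid bounds, polynomial in the height): definition. -/

namespace Pool.Agent.Y19.QT

open Complex MeasureTheory
open scoped ENNReal

/-- `∫ |ℓ_d(σ+iy)|² (1+|y|)^24 e^{-(π-2θ)|y|} dy` -/
noncomputable def Twists.IIt {Q : ℕ} {lam : ℕ → ℝ} (T : Twists Q lam) (θ : ℝ) (d : ℤ) (σ : ℝ) : ℝ≥0∞ :=
  ∫⁻ y : ℝ, ‖T.ell d (σ + y * I)‖ₑ ^ 2 *
    ENNReal.ofReal ((1 + |y|) ^ 24 * Real.exp (-((Real.pi - 2 * θ) * |y|)))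

end Pool.Agent.Y19.QT
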