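import Pool.Agent.Y19.QT.Laws

set_option autoImplicit false

/-! Project QT: elliptic curves over multiquadratic fields (definitions). -/

namespace Pool.Agent.Y19.QT

open Complex NumberField IsDedekindDomain

noncomputable section

/-- the field `ℚ(√d_1, …, √d_n)` -/
def Kd {n : ℕ} (d : Fin n → ℤ) : IntermediateField ℚ ℂ :=
  IntermediateField.adjoin ℚ {z : ℂ | ∃ i, z ^ 2 = (d i : ℂ)}

/-- `d_1, …, d_n` are independent modulo squares, that is, `[ℚ(√d_1, …, √d_n) : ℚ] = 2ⁿ` -/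
def Indep {n : ℕ} (d : Fin n → ℤ) : Prop :=
  ∀ T : Finset (Fin n), T.Nonempty → ¬ IsSquare (∏ i ∈ T, d i)

/-- the group of `K`-rational points of `y² = x³ + a x + b` -/
abbrev EK (K : Type) [Field K] (a b : ℤ) : Type :=
  WeierstrassCurve.Affine.Point (WeierstrassCurve.toAffine
    ({ a₁ := 0, a₂ := 0, a₃ := 0, a₄ := (a : K), a₆ := (b : K) } : WeierstrassCurve K))

open Classical in
/-- the group `E(K)` is finitely generated -/
def FinGenK (K : Type) [Field K] (a b : ℤ) : Prop := Module.Finite ℤ (EK K a b)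

open Classical in
/-- the rank of the group `E(K)` -/
def rkK (K : Type) [Field K] (a b : ℤ) : ℕ := Module.finrank ℤ (EK K a b)

/-- the number `q_v` of elements of the residue field of a finite place `v` of `K` -/
def qv (K : Type) [Field K] (v : HeightOneSpectrum (𝓞 K)) : ℕ := Nat.card (𝓞 K ⧸ v.asIdeal)

/-- `a_v = q_v + 1 - #E(k_v)`, that is `q_v` minus the number of solutions `(x, y)` of
`y² = x³ + a x + b` in the residue field -/
def av (K : Type) [Field K] (a b : ℤ) (v : HeightOneSpectrum (𝓞 K)) : ℤ :=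
  (qv K v : ℤ) - Nat.card {x : (𝓞 K ⧸ v.asIdeal) × (𝓞 K ⧸ v.asIdeal) //
    x.2 ^ 2 = x.1 ^ 3 + (a : 𝓞 K ⧸ v.asIdeal) * x.1 + (b : 𝓞 K ⧸ v.asIdeal)}

open Classical in
/-- `F` is entire and is, for `Re s > 3/2`, the `L`-function of `E : y² = x³ + a x + b` over `K`
without the Euler factors at the places `v ∣ 2 (4a³ + 27b²) D` -/
def IsLFunK (K : Type) [Field K] (a b D : ℤ) (F : ℂ → ℂ) : Prop :=
  Differentiable ℂ F ∧ ∀ s : ℂ, (3 : ℝ) / 2 < s.re →
    HasProd (fun v : HeightOneSpectrum (𝓞 K) =>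
      if ((2 * (4 * a ^ 3 + 27 * b ^ 2) * D : ℤ) : 𝓞 K) ∈ v.asIdeal then 1 else
        (1 - (av K a b v : ℂ) * (qv K v : ℂ) ^ (-s) + (qv K v : ℂ) ^ (1 - 2 * s))⁻¹) (F s)

open Classical in
/-- the `n`-tuples `(d_1, …, d_n)` of squarefree integers, `|d_i| ≤ X`, which together with the
`e_1, …, e_m` are independent modulo squares -/
def tup {m : ℕ} (e : Fin m → ℤ) (n X : ℕ) : Finset (Fin n → ℤ) :=
  (Fintype.piFinset fun _ : Fin n => sqf X).filter fun d => Indep (Fin.append e d)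

end

end Pool.Agent.Y19.QT
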