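import Pool.Agent.Y19.QT.Forms

set_option autoImplicit false

/-! Project QT: the statements of the final results. -/

namespace Pool.Agent.Y19.QT

open Complex
open scoped ENNReal

noncomputable section

/-- `y² = x³ + a x + b` has `j`-invariant `0` or `1728`, or is a quadratic twist of the modular curve
`X₀(11) : y² = x³ - 13392 x - 1080432` or `X₀(14) : y² = x³ + 5805 x - 285714` -/
def Fam (a b : ℤ) : Prop :=
  (a ≠ 0 ∧ b = 0) ∨ (a = 0 ∧ b ≠ 0) ∨ ∃ h : ℤ, h ≠ 0 ∧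
    ((a = -13392 * h ^ 2 ∧ b = -1080432 * h ^ 3) ∨ (a = 5805 * h ^ 2 ∧ b = -285714 * h ^ 3))

/-- the rank of `E_d(ℚ)` plus the order of vanishing of `F` at `s = 1` -/
def rkord (a b : ℤ) (F : ℂ → ℂ) : ℕ :=
  Module.finrank ℤ (EQ a b) + (analyticOrderAt F 1).toNat

/-- The bounds for the ranks and the orders of vanishing in the family of the quadratic twists
`E_d : y² = x³ + a d² x + b d³` of `y² = x³ + a x + b`, for squarefree `d` (positive or negative):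
the groups `E_d(ℚ)` are finitely generated, `L(E_d, s)` is (uniquely) an entire function and is not
identically zero; the exponential moment of `rank + order` over `|d| ≤ X` is at most a power of
`log X`; for all `k`, `B` and for every set `S` of squarefree `d`, `|d| ≤ X`, the sum of the `k`-th
powers of `rank + order` over `S` is `O((|S| + X / (log X)^B) (1 + log log X)^k)`. -/
def TwistLaw (a b : ℤ) : Prop :=
  (∀ d : ℤ, Squarefree d → Module.Finite ℤ (EQ (a * d ^ 2) (b * d ^ 3)) ∧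
    ∃! F : ℂ → ℂ, IsLFun (a * d ^ 2) (b * d ^ 3) F) ∧
  ∀ F : ℤ → ℂ → ℂ, (∀ d : ℤ, Squarefree d → IsLFun (a * d ^ 2) (b * d ^ 3) (F d)) →
    (∀ d : ℤ, Squarefree d → analyticOrderAt (F d) 1 ≠ ⊤) ∧
    (∃ (C c : ℝ) (A : ℕ), 0 < c ∧ ∀ X : ℕ, 3 ≤ X →
      ∑ d ∈ sqf X, Real.exp (c * rkord (a * d ^ 2) (b * d ^ 3) (F d)) ≤ C * X * Real.log X ^ A) ∧
    ∀ k B : ℕ, ∃ C : ℝ, ∀ (X : ℕ) (S : Finset ℤ), 3 ≤ X → S ⊆ sqf X →
      ∑ d ∈ S, (rkord (a * d ^ 2) (b * d ^ 3) (F d) : ℝ) ^ k ≤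
        C * (S.card + X / Real.log X ^ B) * (1 + Real.log (Real.log X)) ^ k

/-- the number of zeros `ρ` of `F`, with multiplicities, in the region `Re ρ ≥ σ`, `|Im ρ| ≤ U` -/
def zcount (F : ℂ → ℂ) (σ U : ℝ) : ℝ≥0∞ :=
  ∑' ρ : ℂ, if F ρ = 0 ∧ σ ≤ ρ.re ∧ |ρ.im| ≤ U then ((analyticOrderAt F ρ : ℕ∞) : ℝ≥0∞) else 0

/-- The bounds for the zeros of the `L`-functions of the quadratic twists
`E_d : y² = x³ + a d² x + b d³` of `y² = x³ + a x + b`, for squarefree `d` (positive or negative), to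
the right of the critical line `Re s = 1`: `L(E_d, s)` is (uniquely) an entire function; the number of
zeros with `Re s ≥ σ`, `|Im s| ≤ U` of all the `L(E_d, s)`, `|d| ≤ X`, is at most
`C (1 + U)^B X^(1 - c (σ - 1)) (log X)^A` for all `σ ≥ 1`; for every `K` there is a `K'` such that for
all `|d| ≤ X` except `O(X / (log X)^K)` every zero `ρ` with `Re ρ > 3/4`, at any height, is nearer than
`K' (log log X + log (2 + |Im ρ|)) / log X` to the critical line. -/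
def DensityLaw (a b : ℤ) : Prop :=
  (∀ d : ℤ, Squarefree d → ∃! F : ℂ → ℂ, IsLFun (a * d ^ 2) (b * d ^ 3) F) ∧
  ∀ F : ℤ → ℂ → ℂ, (∀ d : ℤ, Squarefree d → IsLFun (a * d ^ 2) (b * d ^ 3) (F d)) →
    (∃ (C c : ℝ) (A B : ℕ), 0 < c ∧ ∀ (X : ℕ) (σ U : ℝ), 3 ≤ X → 1 ≤ σ → 0 ≤ U →
      ∑ d ∈ sqf X, zcount (F d) σ U ≤
        ENNReal.ofReal (C * (1 + U) ^ B * (X : ℝ) ^ (1 - c * (σ - 1)) * Real.log X ^ A)) ∧
    ∀ K : ℕ, ∃ C K' : ℝ, ∀ (X : ℕ) (S : Finset ℤ), 3 ≤ X → S ⊆ sqf X →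
      (∀ d ∈ S, ∃ ρ : ℂ, F d ρ = 0 ∧ 3 / 4 < ρ.re ∧
        K' * ((Real.log (Real.log X) + Real.log (2 + |ρ.im|)) / Real.log X) ≤ |ρ.re - 1|) →
      (S.card : ℝ) ≤ C * X / Real.log X ^ K

/-- `d` is a fundamental discriminant (the discriminant of a quadratic field) -/
def IsFund (d : ℤ) : Prop := d ≠ 1 ∧ ((d % 4 = 1 ∧ Squarefree d) ∨
  ∃ m : ℤ, d = 4 * m ∧ (m % 4 = 2 ∨ m % 4 = 3) ∧ Squarefree m)

open Classical in
/-- the fundamental discriminants `d` with `|d| ≤ X` -/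
def fund (X : ℕ) : Finset ℤ := (Finset.Icc (-(X : ℤ)) X).filter IsFund

/-- the number of zeros `ρ` of `F`, with multiplicities, with `|ρ - 1| ≤ r` -/
def zdisc (F : ℂ → ℂ) (r : ℝ) : ℝ≥0∞ :=
  ∑' ρ : ℂ, if F ρ = 0 ∧ ‖ρ - 1‖ ≤ r then ((analyticOrderAt F ρ : ℕ∞) : ℝ≥0∞) else 0

/-- The zeros of the `L`-functions of the twists `E_d` (isomorphic to `d y² = x³ + a x + b`), `d` a
fundamental discriminant, at and near the central point `1`: `L(E_d, s)` is (uniquely) an entire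
function; for `K ≥ 0` let `n_d` be the number of its zeros, with multiplicities, with
`|s - 1| ≤ K / log X` (for `K = 0` this is the order of vanishing at `1`); the exponential moment of
`n_d` over all `|d| ≤ X` is at most a power of `log X`, and for all `k`, `B` and for every set `S` of
fundamental discriminants `d`, `|d| ≤ X`, the sum of the `k`-th powers of `n_d` over `S` is
`O((|S| + X / (log X)^B) (1 + log log X)^k)`. -/
def CentralLaw (a b : ℤ) : Prop :=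
  (∀ d : ℤ, IsFund d → ∃! F : ℂ → ℂ, IsLFun (a * d ^ 2) (b * d ^ 3) F) ∧
  ∀ F : ℤ → ℂ → ℂ, (∀ d : ℤ, IsFund d → IsLFun (a * d ^ 2) (b * d ^ 3) (F d)) →
    ∃ (c : ℝ) (A : ℕ), 0 < c ∧ ∀ K : ℝ, 0 ≤ K →
      (∃ C : ℝ, ∀ X : ℕ, 3 ≤ X → 4 * K < Real.log X →
        (∀ d ∈ fund X, zdisc (F d) (K / Real.log X) ≠ ⊤) ∧
        ∑ d ∈ fund X, Real.exp (c * (zdisc (F d) (K / Real.log X)).toReal) ≤
          C * X * Real.log X ^ A) ∧
      ∀ k B : ℕ, ∃ C : ℝ, ∀ (X : ℕ) (S : Finset ℤ), 3 ≤ X → 4 * K < Real.log X → S ⊆ fund X →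
        ∑ d ∈ S, (zdisc (F d) (K / Real.log X)).toReal ^ k ≤
          C * (S.card + X / Real.log X ^ B) * (1 + Real.log (Real.log X)) ^ k

/-- Bounds of the quality of the Lindelöf hypothesis, with powers of logarithms, for almost all
quadratic twists: `L(E_d, s)` is (uniquely) an entire function; the sum over `|d| ≤ X` of
`sup_t |L(E_d, 1 + i t)|² / (2 + |t|)^B` is at most `C X (log X)^A` (the `t_d` are arbitrary); for every
`K` there is a `K'` such that for all `|d| ≤ X` except `O(X / (log X)^K)` and for all real `t` one has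
`|L(E_d, 1 + i t)| ≤ ((log X) (2 + |t|))^K'`. -/
def LindelofLaw (a b : ℤ) : Prop :=
  (∀ d : ℤ, Squarefree d → ∃! F : ℂ → ℂ, IsLFun (a * d ^ 2) (b * d ^ 3) F) ∧
  ∀ F : ℤ → ℂ → ℂ, (∀ d : ℤ, Squarefree d → IsLFun (a * d ^ 2) (b * d ^ 3) (F d)) →
    (∃ (C : ℝ) (A B : ℕ), ∀ (X : ℕ) (t : ℤ → ℝ), 3 ≤ X →
      ∑ d ∈ sqf X, ‖F d (1 + t d * I)‖ ^ 2 / (2 + |t d|) ^ B ≤ C * X * Real.log X ^ A) ∧
    ∀ K : ℕ, ∃ (C : ℝ) (K' : ℕ), ∀ (X : ℕ) (S : Finset ℤ), 3 ≤ X → S ⊆ sqf X →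
      (∀ d ∈ S, ∃ t : ℝ, (Real.log X * (2 + |t|)) ^ K' < ‖F d (1 + t * I)‖) →
      (S.card : ℝ) ≤ C * X / Real.log X ^ K

end

end Pool.Agent.Y19.QT
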