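import Pool.Agent.Y19.QT.Fin
import Pool.Agent.Y19.QT.Laws
import Pool.Agent.Y703.QT12
import Pool.Agent.Y153.QTN1
import Pool.Agent.Y812.QTN2
import Pool.Agent.TH942.FG

set_option autoImplicit false

/-! Project QT: the final form of the results on ranks and orders of vanishing in families of
quadratic twists. -/

namespace Pool.Agent.Y19.QT

open Complex Filter Topology

noncomputable section

/-- a function with values in `ℕ` and small exponential moments has small moments over all sets that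
are not too small -/
theorem momentsS (C c : ℝ) (A : ℕ) (hc : 0 < c) (x : ℤ → ℕ)
    (h : ∀ X : ℕ, 3 ≤ X → ∑ d ∈ sqf X, Real.exp (c * x d) ≤ C * X * Real.log X ^ A) (k B : ℕ) :
    ∃ C' : ℝ, ∀ (X : ℕ) (S : Finset ℤ), 3 ≤ X → S ⊆ sqf X → ∑ d ∈ S, (x d : ℝ) ^ k ≤
      C' * (S.card + X / Real.log X ^ B) * (1 + Real.log (Real.log X)) ^ k := by
  refine ⟨max ((2 * (A + B : ℕ) / c) ^ k) ((k.factorial * (2 / c) ^ k) * C), fun X S hX hS => ?_⟩
  have hl := one_le_log hX
  have hl0 : 0 < Real.log X := by linarith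
  have hll : 0 ≤ Real.log (Real.log X) := Real.log_nonneg hl
  have hX0 : (0 : ℝ) ≤ X := Nat.cast_nonneg X
  set L : ℝ := Real.log (Real.log X) with hL
  have hpt : ∀ d ∈ S, (x d : ℝ) ^ k ≤ (2 * (A + B : ℕ) / c * L) ^ k +
      (k.factorial * (2 / c) ^ k) * (Real.exp (c * x d) / Real.log X ^ (A + B)) := by
    intro d hd
    have hx0 : (0 : ℝ) ≤ x d := Nat.cast_nonneg _
    have hE : (0 : ℝ) < Real.exp (c * x d) / Real.log X ^ (A + B) := by positivity
    by_cases hx : (x d : ℝ) ≤ 2 * (A + B : ℕ) / c * L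
    · have h1 := pow_le_pow_left₀ hx0 hx k
      have : 0 ≤ (k.factorial * (2 / c) ^ k) *
        (Real.exp (c * x d) / Real.log X ^ (A + B)) := by positivity
      linarith
    · push Not at hx
      have h1 : (x d : ℝ) ^ k ≤ (k.factorial * (2 / c) ^ k) * Real.exp (c / 2 * x d) := by
        have h2 := Real.pow_div_factorial_le_exp (c / 2 * x d) (by positivity) k
        rw [div_le_iff₀ (by positivity)] at h2
        have h3 : (x d : ℝ) ^ k = (2 / c) ^ k * (c / 2 * x d) ^ k := by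
          rw [← mul_pow]
          congr 1
          field_simp
        rw [h3]
        calc (2 / c) ^ k * (c / 2 * x d) ^ k ≤ (2 / c) ^ k * (Real.exp (c / 2 * x d) * k.factorial) :=
              mul_le_mul_of_nonneg_left h2 (by positivity)
          _ = _ := by ring
      have h2 : Real.exp (c / 2 * x d) ≤ Real.exp (c * x d) / Real.log X ^ (A + B) := by
        rw [le_div_iff₀ (by positivity)]
        have h3 : Real.log X ^ (A + B) = Real.exp ((A + B : ℕ) * L) := by
          rw [hL, Real.exp_nat_mul, Real.exp_log hl0]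
        rw [h3, ← Real.exp_add]
        apply Real.exp_le_exp.2
        have h4 : (A + B : ℕ) * L ≤ c / 2 * x d := by
          have h5 : 2 * (A + B : ℕ) / c * L * (c / 2) ≤ x d * (c / 2) :=
            mul_le_mul_of_nonneg_right hx.le (by positivity)
          have h6 : 2 * (A + B : ℕ) / c * L * (c / 2) = (A + B : ℕ) * L := by field_simp
          linarith
        linarith
      have h3 := mul_le_mul_of_nonneg_left h2 (show (0 : ℝ) ≤ k.factorial * (2 / c) ^ k by positivity)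
      have h4 : (0 : ℝ) ≤ (2 * (A + B : ℕ) / c * L) ^ k := by positivity
      linarith
  refine (Finset.sum_le_sum hpt).trans ?_
  rw [Finset.sum_add_distrib, Finset.sum_const, nsmul_eq_mul, ← Finset.mul_sum, ← Finset.sum_div]
  have h0 : ∑ d ∈ S, Real.exp (c * x d) ≤ C * X * Real.log X ^ A :=
    (Finset.sum_le_sum_of_subset_of_nonneg hS fun _ _ _ => (Real.exp_pos _).le).trans (h X hX)
  have h1 : (∑ d ∈ S, Real.exp (c * x d)) / Real.log X ^ (A + B) ≤ C * (X / Real.log X ^ B) := by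
    rw [div_le_iff₀ (by positivity)]
    refine h0.trans (le_of_eq ?_)
    rw [pow_add]
    field_simp
  have hLk : L ^ k ≤ (1 + L) ^ k := pow_le_pow_left₀ hll (by linarith) k
  have h1k : (1 : ℝ) ≤ (1 + L) ^ k := one_le_pow₀ (by linarith)
  have hXB : 0 ≤ X / Real.log X ^ B := by positivity
  have hC0 : 0 ≤ C * (X / Real.log X ^ B) := by
    refine le_trans ?_ h1
    positivity
  have h2 : (S.card : ℝ) * (2 * (A + B : ℕ) / c * L) ^ k ≤
      (2 * (A + B : ℕ) / c) ^ k * S.card * (1 + L) ^ k := by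
    rw [mul_pow]
    calc (S.card : ℝ) * ((2 * (A + B : ℕ) / c) ^ k * L ^ k) =
          (2 * (A + B : ℕ) / c) ^ k * S.card * L ^ k := by ring
      _ ≤ _ := mul_le_mul_of_nonneg_left hLk (by positivity)
  have h3 : (k.factorial * (2 / c) ^ k) *
      ((∑ d ∈ S, Real.exp (c * x d)) / Real.log X ^ (A + B)) ≤
      (k.factorial * (2 / c) ^ k) * C * (X / Real.log X ^ B) * (1 + L) ^ k := by
    calc _ ≤ (k.factorial * (2 / c) ^ k) * (C * (X / Real.log X ^ B)) :=
          mul_le_mul_of_nonneg_left h1 (by positivity)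
      _ ≤ (k.factorial * (2 / c) ^ k) * (C * (X / Real.log X ^ B)) * (1 + L) ^ k :=
          le_mul_of_one_le_right (by positivity) h1k
      _ = _ := by ring
  have h4 : (2 * (A + B : ℕ) / c) ^ k * S.card * (1 + L) ^ k ≤
      max ((2 * (A + B : ℕ) / c) ^ k) ((k.factorial * (2 / c) ^ k) * C) * S.card * (1 + L) ^ k := by
    gcongr
    exact le_max_left _ _
  have h5 : (k.factorial * (2 / c) ^ k) * C * (X / Real.log X ^ B) * (1 + L) ^ k ≤
      max ((2 * (A + B : ℕ) / c) ^ k) ((k.factorial * (2 / c) ^ k) * C) *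
        (X / Real.log X ^ B) * (1 + L) ^ k := by
    gcongr
    exact le_max_right _ _
  calc _ ≤ _ := add_le_add (h2.trans h4) (h3.trans h5)
    _ = _ := by ring

theorem disc_ne {a b : ℤ} (hab : 4 * a ^ 3 + 27 * b ^ 2 ≠ 0) {d : ℤ} (hd : d ≠ 0) :
    4 * (a * d ^ 2) ^ 3 + 27 * (b * d ^ 3) ^ 2 ≠ 0 := by
  have e : 4 * (a * d ^ 2) ^ 3 + 27 * (b * d ^ 3) ^ 2 = d ^ 6 * (4 * a ^ 3 + 27 * b ^ 2) := by ring
  rw [e]
  exact mul_ne_zero (pow_ne_zero _ hd) hab

theorem fg_EQ {a b : ℤ} (hab : 4 * a ^ 3 + 27 * b ^ 2 ≠ 0) : Module.Finite ℤ (EQ a b) := by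
  rw [Module.Finite.iff_addGroup_fg]
  exact Pool.Agent.TH942.sfg (F := ℚ) (a := a) (b := b) (by exact_mod_cast hab)

theorem isLFun_unique {a b : ℤ} {F G : ℂ → ℂ} (hF : IsLFun a b F) (hG : IsLFun a b G) : F = G := by
  have hF' : AnalyticOnNhd ℂ F Set.univ := fun z _ => hF.1.analyticAt z
  have hG' : AnalyticOnNhd ℂ G Set.univ := fun z _ => hG.1.analyticAt z
  refine hF'.eq_of_eventuallyEq hG' (z₀ := 2) ?_
  have hmem : {s : ℂ | (3 : ℝ) / 2 < s.re} ∈ 𝓝 (2 : ℂ) :=
    (isOpen_lt continuous_const Complex.continuous_re).mem_nhds (by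
      show (3 : ℝ) / 2 < (2 : ℂ).re
      norm_num)
  filter_upwards [hmem] with s hs
  exact (hF.2 s hs).unique (hG.2 s hs)

theorem s_T12 : S_T12 := fun T => Pool.Agent.Y703.QT12.T12 T

theorem twistLaw_of {a b : ℤ} (hab : 4 * a ^ 3 + 27 * b ^ 2 ≠ 0) (h : HasTwists a b)
    (hL : ∀ d : ℤ, Squarefree d → ∃ F : ℂ → ℂ, IsLFun (a * d ^ 2) (b * d ^ 3) F) :
    TwistLaw a b := by
  obtain ⟨C, c, A, hc, hmom⟩ := expMom_of s_T12 a b hab h
  refine ⟨fun d hd => ⟨fg_EQ (disc_ne hab hd.ne_zero), ?_⟩, fun F hF => ⟨(hmom F hF).1, ?_, ?_⟩⟩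
  · obtain ⟨F, hF⟩ := hL d hd
    exact ⟨F, hF, fun G hG => isLFun_unique hG hF⟩
  · refine ⟨C, c, A, hc, fun X hX => ?_⟩
    have := (hmom F hF).2 X hX
    simpa only [rkord, Nat.cast_add] using this
  · intro k B
    refine momentsS C c A hc (fun d => rkord (a * d ^ 2) (b * d ^ 3) (F d)) (fun X hX => ?_) k B
    have := (hmom F hF).2 X hX
    simpa only [rkord, Nat.cast_add] using this

theorem twistLaw_congruent : TwistLaw (-1) 0 :=
  twistLaw_of (by norm_num) Pool.Agent.Y153.QTN1.N1.1 Pool.Agent.Y153.QTN1.N1.2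

theorem twistLaw_X014 : TwistLaw 5805 (-285714) :=
  twistLaw_of (by norm_num) Pool.Agent.Y812.QTN2.N2.1 Pool.Agent.Y812.QTN2.N2.2

theorem twistLaw_modular {a b : ℤ} (hab : 4 * a ^ 3 + 27 * b ^ 2 ≠ 0) (h : TwistsModular a b) :
    TwistLaw a b :=
  twistLaw_of hab (hasTwists_of a b hab h) (exists_LFun a b hab h)

end

end Pool.Agent.Y19.QT
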