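import Pool.Agent.Y19.QT.DefsK
import Pool.Agent.Y19.QT.Fin2
import Pool.Agent.W410.RS.MQ2
import Pool.Agent.W612.RS.Mq1

set_option autoImplicit false

/-! Project QT, multiquadratic fields: the field and the rank. -/

namespace Pool.Agent.Y19.QT

open Complex NumberField IsDedekindDomain

noncomputable section

theorem exists_sqrt (z : ℤ) : ∃ w : ℂ, w ^ 2 = (z : ℂ) :=
  IsAlgClosed.exists_pow_nat_eq _ two_pos

/-- a square root of `d i` -/
def r0 {n : ℕ} (d : Fin n → ℤ) (i : Fin n) : ℂ := (exists_sqrt (d i)).choose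

theorem r0_sq {n : ℕ} (d : Fin n → ℤ) (i : Fin n) : r0 d i ^ 2 = (d i : ℂ) :=
  (exists_sqrt (d i)).choose_spec

theorem Kd_eq {n : ℕ} (d : Fin n → ℤ) : Kd d = IntermediateField.adjoin ℚ (Set.range (r0 d)) := by
  apply le_antisymm
  · unfold Kd
    rw [IntermediateField.adjoin_le_iff]
    rintro z ⟨i, hz⟩
    have hm : r0 d i ∈ IntermediateField.adjoin ℚ (Set.range (r0 d)) :=
      IntermediateField.subset_adjoin _ _ ⟨i, rfl⟩
    rw [← r0_sq, sq_eq_sq_iff_eq_or_eq_neg] at hz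
    rcases hz with h | h
    · rw [h]; exact hm
    · rw [h]; exact neg_mem hm
  · rw [IntermediateField.adjoin_le_iff]
    rintro z ⟨i, rfl⟩
    exact IntermediateField.subset_adjoin _ _ ⟨i, r0_sq d i⟩

instance finDim_Kd {n : ℕ} (d : Fin n → ℤ) : FiniteDimensional ℚ (Kd d) := by
  rw [Kd_eq]
  apply IntermediateField.finiteDimensional_adjoin
  rintro x ⟨i, rfl⟩
  refine IsIntegral.of_pow two_pos ?_
  rw [r0_sq]
  exact isIntegral_algebraMap (R := ℚ) (A := ℂ) (x := ((d i : ℤ) : ℚ)) |> fun h => by simpa using h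

instance nf_Kd {n : ℕ} (d : Fin n → ℤ) : NumberField (Kd d) where
  to_charZero := inferInstance
  to_finiteDimensional := inferInstance

/-- a square root of `d i` in the field -/
def rt {n : ℕ} (d : Fin n → ℤ) (i : Fin n) : Kd d :=
  ⟨r0 d i, IntermediateField.subset_adjoin _ _ ⟨i, r0_sq d i⟩⟩

theorem rt_sq {n : ℕ} (d : Fin n → ℤ) (i : Fin n) : rt d i ^ 2 = (d i : Kd d) := by
  apply Subtype.ext
  push_cast
  exact r0_sq d i

theorem adjoin_any {n : ℕ} (d : Fin n → ℤ) (A : Algebra ℚ (Kd d)) :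
    IntermediateField.adjoin ℚ (Set.range (rt d)) = (⊤ : @IntermediateField ℚ (Kd d) _ _ A) := by
  have hA : A = (Kd d).algebra' := Subsingleton.elim _ _
  subst hA
  apply IntermediateField.lift_injective (Kd d)
  rw [IntermediateField.lift_adjoin, IntermediateField.lift_top]
  have h : (Subtype.val '' Set.range (rt d)) = Set.range (r0 d) := by
    ext z
    constructor
    · rintro ⟨_, ⟨i, rfl⟩, rfl⟩; exact ⟨i, rfl⟩
    · rintro ⟨i, rfl⟩; exact ⟨_, ⟨i, rfl⟩, rfl⟩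
  rw [h, ← Kd_eq]

theorem adjoin_rt {n : ℕ} (d : Fin n → ℤ) :
    IntermediateField.adjoin ℚ (Set.range (rt d)) = (⊤ : IntermediateField ℚ (Kd d)) :=
  adjoin_any d _

theorem mq2 : Pool.Agent.W307.RS.MQ2 := Pool.Agent.W410.RS.mq2_of Pool.Agent.W612.RS.mq1

open Classical in
/-- the Mordell-Weil theorem -/
theorem fg_gen (K : Type) [Field K] [NumberField K] {a b : ℤ} (hab : 4 * a ^ 3 + 27 * b ^ 2 ≠ 0) :
    FinGenK K a b := by
  unfold FinGenK
  rw [Module.Finite.iff_addGroup_fg]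
  exact Pool.Agent.TH942.sfg (F := K) (a := a) (b := b) (by exact_mod_cast hab)

theorem fg_EK {n : ℕ} (d : Fin n → ℤ) {a b : ℤ} (hab : 4 * a ^ 3 + 27 * b ^ 2 ≠ 0) :
    FinGenK (Kd d) a b := fg_gen (Kd d) hab

theorem Indep.ne {n : ℕ} {d : Fin n → ℤ} (h : Indep d) (i : Fin n) : d i ≠ 0 := by
  intro h0
  refine h {i} (Finset.singleton_nonempty i) ?_
  rw [Finset.prod_singleton, h0]
  exact ⟨0, rfl⟩

open Classical in
theorem rank_gen (K : Type) [Field K] [CharZero K] [Algebra ℚ K] {n : ℕ} (d : Fin n → ℤ)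
    (x : Fin n → K) (hx : ∀ i, x i ^ 2 = (d i : K))
    (hK : IntermediateField.adjoin ℚ (Set.range x) = ⊤) (hd : ∀ i, d i ≠ 0) {a b : ℤ}
    (hab : 4 * a ^ 3 + 27 * b ^ 2 ≠ 0) (hf : FinGenK K a b) :
    rkK K a b ≤ ∑ T : Finset (Fin n),
      Module.finrank ℤ (EQ (a * (∏ i ∈ T, d i) ^ 2) (b * (∏ i ∈ T, d i) ^ 3)) := by
  have h := mq2 K n x d hx hd hK a b hab
  unfold FinGenK at hf
  unfold rkK
  have h1 : Module.rank ℤ (EK K a b) = (Module.finrank ℤ (EK K a b) : Cardinal) :=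
    (Module.finrank_eq_rank ℤ _).symm
  have h2 : ∀ T : Finset (Fin n), Module.rank ℤ (Pool.Agent.W307.RT.Sh ((∏ i ∈ T, d i) ^ 2 * a)
      ((∏ i ∈ T, d i) ^ 3 * b)).toAffine.Point =
      (Module.finrank ℤ (EQ (a * (∏ i ∈ T, d i) ^ 2) (b * (∏ i ∈ T, d i) ^ 3)) : Cardinal) := by
    intro T
    have h3 : ∏ i ∈ T, d i ≠ 0 := Finset.prod_ne_zero_iff.2 fun i _ => hd i
    have hg := fg_EQ (disc_ne hab h3)
    rw [Module.finrank_eq_rank ℤ (EQ (a * (∏ i ∈ T, d i) ^ 2) (b * (∏ i ∈ T, d i) ^ 3))]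
    rw [mul_comm _ a, mul_comm _ b]
    unfold EQ Pool.Agent.W307.RT.Sh
    congr!
  have h4 : (Module.finrank ℤ (EK K a b) : Cardinal) ≤
      ((∑ T : Finset (Fin n), Module.finrank ℤ
        (EQ (a * (∏ i ∈ T, d i) ^ 2) (b * (∏ i ∈ T, d i) ^ 3)) : ℕ) : Cardinal) := by
    rw [← h1, Nat.cast_sum]
    refine le_trans h (le_of_eq (Finset.sum_congr rfl fun T _ => h2 T))
  exact_mod_cast h4

theorem rank_EK {n : ℕ} (d : Fin n → ℤ) (hd : ∀ i, d i ≠ 0) {a b : ℤ}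
    (hab : 4 * a ^ 3 + 27 * b ^ 2 ≠ 0) :
    rkK (Kd d) a b ≤ ∑ T : Finset (Fin n),
      Module.finrank ℤ (EQ (a * (∏ i ∈ T, d i) ^ 2) (b * (∏ i ∈ T, d i) ^ 3)) :=
  rank_gen (Kd d) d (rt d) (rt_sq d) (adjoin_rt d) hd hab (fg_EK d hab)

theorem isLFunK_unique {K : Type} [Field K] {a b D : ℤ} {F G : ℂ → ℂ} (hF : IsLFunK K a b D F)
    (hG : IsLFunK K a b D G) : F = G := by
  have hF' : AnalyticOnNhd ℂ F Set.univ := fun z _ => hF.1.analyticAt z
  have hG' : AnalyticOnNhd ℂ G Set.univ := fun z _ => hG.1.analyticAt z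
  refine hF'.eq_of_eventuallyEq hG' (z₀ := 2) ?_
  have hmem : {s : ℂ | (3 : ℝ) / 2 < s.re} ∈ nhds (2 : ℂ) :=
    (isOpen_lt continuous_const Complex.continuous_re).mem_nhds (by
      show (3 : ℝ) / 2 < (2 : ℂ).re
      norm_num)
  filter_upwards [hmem] with s hs
  exact (hF.2 s hs).unique (hG.2 s hs)

end

end Pool.Agent.Y19.QT
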