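import Pool.Agent.Y19.QT.LawsK
import Pool.Agent.Y19.QT.MF

set_option autoImplicit false

/-! Project QT, multiquadratic fields: assembly. -/

namespace Pool.Agent.Y19.QT

open Complex NumberField IsDedekindDomain

noncomputable section

def S_MQ1 : Prop := ∀ (a b : ℤ), 4 * a ^ 3 + 27 * b ^ 2 ≠ 0 → ∀ (n : ℕ) (d : Fin n → ℤ), Indep d →
    ∀ (G : Finset (Fin n) → ℂ → ℂ),
    (∀ T, IsLFun (a * (∏ i ∈ T, d i) ^ 2) (b * (∏ i ∈ T, d i) ^ 3) (G T)) →
    ∀ (K : Type) [Field K] [NumberField K] (x : Fin n → K), (∀ i, x i ^ 2 = (d i : K)) →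
    IntermediateField.adjoin ℚ (Set.range x) = ⊤ →
    ∃ F : ℂ → ℂ, IsLFunK K a b (∏ i, d i) F ∧
      ∀ s : ℂ, 1 / 2 < s.re → analyticOrderAt F s = ∑ T : Finset (Fin n), analyticOrderAt (G T) s

def S_MQ3 : Prop := ∀ (m : ℤ), m ≠ 0 → ∀ (n : ℕ) (T : Finset (Fin n)), T.Nonempty →
    ∀ (Cg : ℝ) (Ag : ℕ), ∃ (C : ℝ) (A : ℕ), ∀ (g : ℤ → ℝ), (∀ s, 0 ≤ g s) →
      (∀ X : ℕ, 3 ≤ X → ∑ s ∈ sqf X, g s ^ 2 ≤ Cg * X * Real.log X ^ Ag) →
      ∀ (sf : (Fin n → ℤ) → ℤ), (∀ d, (∀ i, d i ≠ 0) → Squarefree (sf d) ∧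
        ∃ k : ℤ, m * ∏ i ∈ T, d i = sf d * k ^ 2) →
      ∀ X : ℕ, 3 ≤ X → ∑ d ∈ Fintype.piFinset (fun _ : Fin n => sqf X), g (sf d) ≤
        C * (X : ℝ) ^ n * Real.log X ^ A

def S_MQ4 : Prop := ∀ (a b : ℤ), 4 * a ^ 3 + 27 * b ^ 2 ≠ 0 → ∀ (s k : ℤ), s ≠ 0 → k ≠ 0 →
    ∀ (F : ℂ → ℂ), IsLFun (a * s ^ 2) (b * s ^ 3) F →
    ∃ G : ℂ → ℂ, IsLFun (a * (s * k ^ 2) ^ 2) (b * (s * k ^ 2) ^ 3) G ∧
      ∀ z : ℂ, 1 / 2 < z.re → analyticOrderAt G z = analyticOrderAt F z

theorem exists_sf (z : ℤ) : ∃ s : ℤ, Squarefree s ∧ ∃ k : ℤ, z = s * k ^ 2 := by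
  rcases eq_or_ne z 0 with rfl | hz
  · exact ⟨1, squarefree_one, 0, by ring⟩
  obtain ⟨s, k, h1, h2⟩ := Nat.sq_mul_squarefree z.natAbs
  rcases Int.natAbs_eq z with h | h
  · refine ⟨s, Int.squarefree_natCast.2 h2, k, ?_⟩
    rw [h, ← h1]
    push_cast
    ring
  · refine ⟨-s, ?_, k, ?_⟩
    · rw [← Int.squarefree_natAbs, Int.natAbs_neg, Int.natAbs_natCast]
      exact h2
    rw [h, ← h1]
    push_cast
    ring

/-- the squarefree part -/
def sfd (z : ℤ) : ℤ := (exists_sf z).choose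

theorem sfd_spec (z : ℤ) : Squarefree (sfd z) ∧ ∃ k : ℤ, z = sfd z * k ^ 2 :=
  (exists_sf z).choose_spec

theorem prod_append {m n : ℕ} (e : Fin m → ℤ) (d : Fin n → ℤ) (T : Finset (Fin (m + n))) :
    ∏ i ∈ T, Fin.append e d i = (∏ i ∈ Finset.univ.filter (fun i => Fin.castAdd n i ∈ T), e i) *
      ∏ i ∈ Finset.univ.filter (fun i => Fin.natAdd m i ∈ T), d i := by
  have h : ∏ i ∈ T, Fin.append e d i = ∏ i, if i ∈ T then Fin.append e d i else 1 := by
    rw [Finset.prod_ite_mem, Finset.univ_inter]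
  rw [h, Fin.prod_univ_add, Finset.prod_filter, Finset.prod_filter]
  simp

theorem exp_sum_le {ι : Type} [Fintype ι] [Nonempty ι] (x : ι → ℝ) (hx : ∀ i, 0 ≤ x i) (c : ℝ)
    (hc : 0 ≤ c) : Real.exp (c * ∑ i, x i) ≤ ∑ i, Real.exp (Fintype.card ι * c * x i) := by
  obtain ⟨j, -, hj⟩ := Finset.exists_max_image Finset.univ x Finset.univ_nonempty
  have h1 : ∑ i, x i ≤ Fintype.card ι * x j := by
    have := Finset.sum_le_card_nsmul Finset.univ x (x j) fun i _ => hj i (Finset.mem_univ i)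
    simpa [nsmul_eq_mul] using this
  have h2 : Real.exp (c * ∑ i, x i) ≤ Real.exp (Fintype.card ι * c * x j) := by
    apply Real.exp_le_exp.2
    calc c * ∑ i, x i ≤ c * (Fintype.card ι * x j) := mul_le_mul_of_nonneg_left h1 hc
      _ = _ := by ring
  exact h2.trans (Finset.single_le_sum (f := fun i => Real.exp (Fintype.card ι * c * x i))
    (fun i _ => (Real.exp_pos _).le) (Finset.mem_univ j))

theorem card_sqf_le {X : ℕ} (hX : 3 ≤ X) : ((sqf X).card : ℝ) ≤ 3 * X := by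
  have h1 : (sqf X).card ≤ 2 * X + 1 := by
    refine (Finset.card_le_card (Finset.filter_subset _ _)).trans ?_
    rw [Int.card_Icc]
    omega
  have h2 : (sqf X).card ≤ 3 * X := by omega
  exact_mod_cast h2

theorem sqf_ne {X : ℕ} {d : ℤ} (h : d ∈ sqf X) : d ≠ 0 := (mem_sqf.1 h).2.ne_zero

/-- exponential moments over tuples, the orders of vanishing -/
theorem ordPart (h3 : S_MQ3) (o : ℤ → ℕ) (C0 c0 : ℝ) (A0 : ℕ) (hc0 : 0 < c0)
    (ho : ∀ X : ℕ, 3 ≤ X → ∑ s ∈ sqf X, Real.exp (c0 * o s) ≤ C0 * X * Real.log X ^ A0)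
    (m : ℕ) (e : Fin m → ℤ) (he : ∀ i, e i ≠ 0) (n : ℕ) (T : Finset (Fin (m + n))) (c : ℝ)
    (hc : 0 ≤ c) (hc' : 2 * c ≤ c0) :
    ∃ (C : ℝ) (A : ℕ), 0 ≤ C ∧ ∀ X : ℕ, 3 ≤ X →
      ∑ d ∈ Fintype.piFinset (fun _ : Fin n => sqf X),
        Real.exp (c * o (sfd (∏ i ∈ T, Fin.append e d i))) ≤ C * (X : ℝ) ^ n * Real.log X ^ A := by
  classical
  set U := Finset.univ.filter (fun i : Fin m => Fin.castAdd n i ∈ T) with hU
  set V := Finset.univ.filter (fun i : Fin n => Fin.natAdd m i ∈ T) with hV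
  have hp : ∀ d : Fin n → ℤ, ∏ i ∈ T, Fin.append e d i = (∏ i ∈ U, e i) * ∏ i ∈ V, d i :=
    fun d => prod_append e d T
  simp only [hp]
  rcases V.eq_empty_or_nonempty with hV0 | hV1
  · refine ⟨Real.exp (c * o (sfd (∏ i ∈ U, e i))) * 3 ^ n, 0, by positivity, fun X hX => ?_⟩
    rw [hV0]
    simp only [Finset.prod_empty, mul_one, Finset.sum_const, nsmul_eq_mul, pow_zero]
    rw [Fintype.card_piFinset, Finset.prod_const, Finset.card_univ, Fintype.card_fin]
    have h1 := pow_le_pow_left₀ (Nat.cast_nonneg _) (card_sqf_le hX) n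
    push_cast
    calc ((sqf X).card : ℝ) ^ n * Real.exp (c * o (sfd (∏ i ∈ U, e i))) ≤
          (3 * X) ^ n * Real.exp (c * o (sfd (∏ i ∈ U, e i))) :=
          mul_le_mul_of_nonneg_right h1 (Real.exp_pos _).le
      _ = _ := by rw [mul_pow]; ring
  · have hm : ∏ i ∈ U, e i ≠ 0 := Finset.prod_ne_zero_iff.2 fun i _ => he i
    obtain ⟨C, A, h⟩ := h3 (∏ i ∈ U, e i) hm n V hV1 C0 A0
    refine ⟨max C 0, A, le_max_right _ _, fun X hX => ?_⟩
    have h1 := h (fun s => Real.exp (c * o s)) (fun s => (Real.exp_pos _).le) (fun Y hY => ?_)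
      (fun d => sfd ((∏ i ∈ U, e i) * ∏ i ∈ V, d i)) (fun d _ => sfd_spec _) X hX
    · refine h1.trans ?_
      have hl := one_le_log hX
      gcongr
      exact le_max_left _ _
    · refine le_trans (Finset.sum_le_sum fun s _ => ?_) (ho Y hY)
      rw [← Real.exp_nat_mul]
      apply Real.exp_le_exp.2
      push_cast
      have : (0 : ℝ) ≤ o s := Nat.cast_nonneg _
      nlinarith

theorem omega_prod {N : ℕ} (D : Fin N → ℤ) (hD : ∀ i, D i ≠ 0) (T : Finset (Fin N)) :
    (∏ i ∈ T, D i).natAbs.primeFactors.card ≤ ∑ i, (D i).natAbs.primeFactors.card := by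
  classical
  refine le_trans ?_ (Finset.sum_le_sum_of_subset (Finset.subset_univ T))
  induction T using Finset.induction_on with
  | empty => simp
  | insert j T hj ih =>
    rw [Finset.prod_insert hj, Finset.sum_insert hj, Int.natAbs_mul,
      Nat.primeFactors_mul (Int.natAbs_ne_zero.2 (hD j))
        (Int.natAbs_ne_zero.2 (Finset.prod_ne_zero_iff.2 fun i _ => hD i))]
    exact (Finset.card_union_le _ _).trans (Nat.add_le_add_left ih _)

theorem append_ne {m n : ℕ} {e : Fin m → ℤ} {d : Fin n → ℤ} (he : ∀ i, e i ≠ 0)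
    (hd : ∀ i, d i ≠ 0) (i : Fin (m + n)) : Fin.append e d i ≠ 0 := by
  refine Fin.addCases (fun i => ?_) (fun i => ?_) i
  · rw [Fin.append_left]; exact he i
  · rw [Fin.append_right]; exact hd i

theorem rank_le_omega {a b : ℤ} (hab : 4 * a ^ 3 + 27 * b ^ 2 ≠ 0) {m : ℕ} (e : Fin m → ℤ)
    (he : ∀ i, e i ≠ 0) (n : ℕ) : ∃ B M : ℕ, ∀ d : Fin n → ℤ, (∀ i, d i ≠ 0) →
      rkK (Kd (Fin.append e d)) a b ≤ B + M * ∑ i, (d i).natAbs.primeFactors.card := by
  obtain ⟨B, hB⟩ := Pool.Agent.Y155.QT14.T14 a b hab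
  refine ⟨2 ^ (m + n) * (B + 12 * ∑ i, (e i).natAbs.primeFactors.card), 2 ^ (m + n) * 12,
    fun d hd => ?_⟩
  have hD := append_ne he hd
  refine (rank_EK (Fin.append e d) hD hab).trans ?_
  have h1 : ∀ T : Finset (Fin (m + n)), Module.finrank ℤ
      (EQ (a * (∏ i ∈ T, Fin.append e d i) ^ 2) (b * (∏ i ∈ T, Fin.append e d i) ^ 3)) ≤
      B + 12 * (∑ i, (e i).natAbs.primeFactors.card + ∑ i, (d i).natAbs.primeFactors.card) := by
    intro T
    refine (hB _ (Finset.prod_ne_zero_iff.2 fun i _ => hD i)).trans ?_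
    have h2 := omega_prod (Fin.append e d) hD T
    rw [Fin.sum_univ_add] at h2
    simp only [Fin.append_left, Fin.append_right] at h2
    omega
  refine (Finset.sum_le_sum fun T _ => h1 T).trans ?_
  rw [Finset.sum_const, Finset.card_univ, Fintype.card_finset, Fintype.card_fin, smul_eq_mul]
  apply le_of_eq
  ring

/-- exponential moments over tuples, the ranks -/
theorem rankPart {a b : ℤ} (hab : 4 * a ^ 3 + 27 * b ^ 2 ≠ 0) {m : ℕ} (e : Fin m → ℤ)
    (he : ∀ i, e i ≠ 0) (n : ℕ) : ∃ C c1 : ℝ, 0 ≤ C ∧ 0 < c1 ∧ ∀ c : ℝ, 0 ≤ c → c ≤ c1 →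
      ∀ X : ℕ, 3 ≤ X → ∑ d ∈ Fintype.piFinset (fun _ : Fin n => sqf X),
        Real.exp (c * rkK (Kd (Fin.append e d)) a b) ≤ C * (X : ℝ) ^ n * Real.log X ^ n := by
  classical
  obtain ⟨B, M, h⟩ := rank_le_omega hab e he n
  have hlog2 := Real.log_pos one_lt_two
  refine ⟨Real.exp B * 8 ^ n, min 1 (Real.log 2 / (M + 1)), by positivity,
    lt_min one_pos (by positivity), fun c hc hc1 X hX => ?_⟩
  have hca : c ≤ 1 := hc1.trans (min_le_left _ _)
  have hcb : c * M ≤ Real.log 2 := by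
    have h1 : c ≤ Real.log 2 / (M + 1) := hc1.trans (min_le_right _ _)
    rw [le_div_iff₀ (by positivity)] at h1
    nlinarith
  have hl := one_le_log hX
  have hpt : ∀ d ∈ Fintype.piFinset (fun _ : Fin n => sqf X),
      Real.exp (c * rkK (Kd (Fin.append e d)) a b) ≤
        Real.exp B * ∏ i, (2 : ℝ) ^ (d i).natAbs.primeFactors.card := by
    intro d hd
    have hd' : ∀ i, d i ≠ 0 := fun i => sqf_ne (Fintype.mem_piFinset.1 hd i)
    have h1 : (rkK (Kd (Fin.append e d)) a b : ℝ) ≤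
        B + M * ∑ i, ((d i).natAbs.primeFactors.card : ℝ) := by exact_mod_cast h d hd'
    have h2 : ∏ i, (2 : ℝ) ^ (d i).natAbs.primeFactors.card =
        Real.exp (Real.log 2 * ∑ i, ((d i).natAbs.primeFactors.card : ℝ)) := by
      rw [Finset.prod_pow_eq_pow_sum]
      have : (2 : ℝ) ^ (∑ i, (d i).natAbs.primeFactors.card) =
          Real.exp (((∑ i, (d i).natAbs.primeFactors.card : ℕ) : ℝ) * Real.log 2) := by
        rw [Real.exp_nat_mul, Real.exp_log two_pos]
      rw [this]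
      push_cast
      ring_nf
    rw [h2, ← Real.exp_add]
    apply Real.exp_le_exp.2
    have hw : (0 : ℝ) ≤ ∑ i, ((d i).natAbs.primeFactors.card : ℝ) :=
      Finset.sum_nonneg fun _ _ => Nat.cast_nonneg _
    calc c * (rkK (Kd (Fin.append e d)) a b : ℝ) ≤
          c * (B + M * ∑ i, ((d i).natAbs.primeFactors.card : ℝ)) :=
          mul_le_mul_of_nonneg_left h1 hc
      _ = c * B + (c * M) * ∑ i, ((d i).natAbs.primeFactors.card : ℝ) := by ring
      _ ≤ 1 * B + Real.log 2 * ∑ i, ((d i).natAbs.primeFactors.card : ℝ) := by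
          gcongr
      _ = _ := by ring
  refine (Finset.sum_le_sum hpt).trans ?_
  rw [← Finset.mul_sum, ← Finset.prod_univ_sum (fun _ : Fin n => sqf X)
    (fun (_ : Fin n) (d : ℤ) => (2 : ℝ) ^ d.natAbs.primeFactors.card), Finset.prod_const,
    Finset.card_univ, Fintype.card_fin]
  have h4 := Pool.Agent.Y496.QT.T15 X hX
  have h5 : ∑ d ∈ sqf X, (2 : ℝ) ^ d.natAbs.primeFactors.card ≤ 8 * X * Real.log X := by
    refine h4.trans ?_
    have : (0 : ℝ) ≤ X := Nat.cast_nonneg X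
    nlinarith
  calc _ ≤ Real.exp B * (8 * X * Real.log X) ^ n := by
        apply mul_le_mul_of_nonneg_left _ (Real.exp_pos _).le
        exact pow_le_pow_left₀ (Finset.sum_nonneg fun _ _ => by positivity) h5 n
    _ = _ := by rw [mul_pow, mul_pow]; ring

/-- a function with values in `ℕ` and small exponential moments has small moments over all sets that
are not too small -/
theorem momentsG {ι : Type} (P : ℕ → Finset ι) (V : ℕ → ℝ) (hV : ∀ X, 0 ≤ V X) (C c : ℝ) (A : ℕ)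
    (hc : 0 < c) (x : ι → ℕ)
    (h : ∀ X : ℕ, 3 ≤ X → ∑ d ∈ P X, Real.exp (c * x d) ≤ C * V X * Real.log X ^ A) (k B : ℕ) :
    ∃ C' : ℝ, ∀ (X : ℕ) (S : Finset ι), 3 ≤ X → S ⊆ P X → ∑ d ∈ S, (x d : ℝ) ^ k ≤
      C' * (S.card + V X / Real.log X ^ B) * (1 + Real.log (Real.log X)) ^ k := by
  refine ⟨max ((2 * (A + B : ℕ) / c) ^ k) ((k.factorial * (2 / c) ^ k) * C), fun X S hX hS => ?_⟩
  have hl := one_le_log hX
  have hl0 : 0 < Real.log X := by linarith
  have hll : 0 ≤ Real.log (Real.log X) := Real.log_nonneg hl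
  have hX0 : 0 ≤ V X := hV X
  set L : ℝ := Real.log (Real.log X) with hL
  have hpt : ∀ d ∈ S, (x d : ℝ) ^ k ≤ (2 * (A + B : ℕ) / c * L) ^ k +
      (k.factorial * (2 / c) ^ k) * (Real.exp (c * x d) / Real.log X ^ (A + B)) := by
    intro d hd
    have hx0 : (0 : ℝ) ≤ x d := Nat.cast_nonneg _
    have hE : (0 : ℝ) < Real.exp (c * x d) / Real.log X ^ (A + B) := by positivity
    by_cases hx : (x d : ℝ) ≤ 2 * (A + B : ℕ) / c * L
    · have h1 := pow_le_pow_left₀ hx0 hx k
      have : 0 ≤ (k.factorial * (2 / c) ^ k) *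
        (Real.exp (c * x d) / Real.log X ^ (A + B)) := by positivity
      linarith
    · push Not at hx
      have h1 : (x d : ℝ) ^ k ≤ (k.factorial * (2 / c) ^ k) * Real.exp (c / 2 * x d) := by
        have h2 := Real.pow_div_factorial_le_exp (c / 2 * x d) (by positivity) k
        rw [div_le_iff₀ (by positivity)] at h2
        have h3 : (x d : ℝ) ^ k = (2 / c) ^ k * (c / 2 * x d) ^ k := by
          rw [← mul_pow]
          congr 1
          field_simp
        rw [h3]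
        calc (2 / c) ^ k * (c / 2 * x d) ^ k ≤ (2 / c) ^ k * (Real.exp (c / 2 * x d) * k.factorial) :=
              mul_le_mul_of_nonneg_left h2 (by positivity)
          _ = _ := by ring
      have h2 : Real.exp (c / 2 * x d) ≤ Real.exp (c * x d) / Real.log X ^ (A + B) := by
        rw [le_div_iff₀ (by positivity)]
        have h3 : Real.log X ^ (A + B) = Real.exp ((A + B : ℕ) * L) := by
          rw [hL, Real.exp_nat_mul, Real.exp_log hl0]
        rw [h3, ← Real.exp_add]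
        apply Real.exp_le_exp.2
        have h4 : (A + B : ℕ) * L ≤ c / 2 * x d := by
          have h5 : 2 * (A + B : ℕ) / c * L * (c / 2) ≤ x d * (c / 2) :=
            mul_le_mul_of_nonneg_right hx.le (by positivity)
          have h6 : 2 * (A + B : ℕ) / c * L * (c / 2) = (A + B : ℕ) * L := by field_simp
          linarith
        linarith
      have h3 := mul_le_mul_of_nonneg_left h2 (show (0 : ℝ) ≤ k.factorial * (2 / c) ^ k by positivity)
      have h4 : (0 : ℝ) ≤ (2 * (A + B : ℕ) / c * L) ^ k := by positivity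
      linarith
  refine (Finset.sum_le_sum hpt).trans ?_
  rw [Finset.sum_add_distrib, Finset.sum_const, nsmul_eq_mul, ← Finset.mul_sum, ← Finset.sum_div]
  have h0 : ∑ d ∈ S, Real.exp (c * x d) ≤ C * V X * Real.log X ^ A :=
    (Finset.sum_le_sum_of_subset_of_nonneg hS fun _ _ _ => (Real.exp_pos _).le).trans (h X hX)
  have h1 : (∑ d ∈ S, Real.exp (c * x d)) / Real.log X ^ (A + B) ≤ C * (V X / Real.log X ^ B) := by
    rw [div_le_iff₀ (by positivity)]
    refine h0.trans (le_of_eq ?_)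
    rw [pow_add]
    field_simp
  have hLk : L ^ k ≤ (1 + L) ^ k := pow_le_pow_left₀ hll (by linarith) k
  have h1k : (1 : ℝ) ≤ (1 + L) ^ k := one_le_pow₀ (by linarith)
  have hXB : 0 ≤ V X / Real.log X ^ B := by positivity
  have hC0 : 0 ≤ C * (V X / Real.log X ^ B) := by
    refine le_trans ?_ h1
    positivity
  have h2 : (S.card : ℝ) * (2 * (A + B : ℕ) / c * L) ^ k ≤
      (2 * (A + B : ℕ) / c) ^ k * S.card * (1 + L) ^ k := by
    rw [mul_pow]
    calc (S.card : ℝ) * ((2 * (A + B : ℕ) / c) ^ k * L ^ k) =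
          (2 * (A + B : ℕ) / c) ^ k * S.card * L ^ k := by ring
      _ ≤ _ := mul_le_mul_of_nonneg_left hLk (by positivity)
  have h3 : (k.factorial * (2 / c) ^ k) *
      ((∑ d ∈ S, Real.exp (c * x d)) / Real.log X ^ (A + B)) ≤
      (k.factorial * (2 / c) ^ k) * C * (V X / Real.log X ^ B) * (1 + L) ^ k := by
    calc _ ≤ (k.factorial * (2 / c) ^ k) * (C * (V X / Real.log X ^ B)) :=
          mul_le_mul_of_nonneg_left h1 (by positivity)
      _ ≤ (k.factorial * (2 / c) ^ k) * (C * (V X / Real.log X ^ B)) * (1 + L) ^ k :=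
          le_mul_of_one_le_right (by positivity) h1k
      _ = _ := by ring
  have h4 : (2 * (A + B : ℕ) / c) ^ k * S.card * (1 + L) ^ k ≤
      max ((2 * (A + B : ℕ) / c) ^ k) ((k.factorial * (2 / c) ^ k) * C) * S.card * (1 + L) ^ k := by
    gcongr
    exact le_max_left _ _
  have h5 : (k.factorial * (2 / c) ^ k) * C * (V X / Real.log X ^ B) * (1 + L) ^ k ≤
      max ((2 * (A + B : ℕ) / c) ^ k) ((k.factorial * (2 / c) ^ k) * C) *
        (V X / Real.log X ^ B) * (1 + L) ^ k := by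
    gcongr
    exact le_max_right _ _
  calc _ ≤ _ := add_le_add (h2.trans h4) (h3.trans h5)
    _ = _ := by ring

/-- the `L`-functions of all the twists, expressed by those with squarefree parameter -/
theorem exists_GZ (h4 : S_MQ4) {a b : ℤ} (hab : 4 * a ^ 3 + 27 * b ^ 2 ≠ 0) (L : ℤ → ℂ → ℂ)
    (hL : ∀ d : ℤ, Squarefree d → IsLFun (a * d ^ 2) (b * d ^ 3) (L d)) (z : ℤ) (hz : z ≠ 0) :
    ∃ G : ℂ → ℂ, IsLFun (a * z ^ 2) (b * z ^ 3) G ∧
      ∀ w : ℂ, 1 / 2 < w.re → analyticOrderAt G w = analyticOrderAt (L (sfd z)) w := by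
  obtain ⟨h1, k, hk⟩ := sfd_spec z
  have hk0 : k ≠ 0 := by
    rintro rfl
    apply hz
    rw [hk]
    ring
  obtain ⟨G, hG1, hG2⟩ := h4 a b hab (sfd z) k h1.ne_zero hk0 (L (sfd z)) (hL _ h1)
  rw [← hk] at hG1
  exact ⟨G, hG1, hG2⟩

theorem exists_FK (h1 : S_MQ1) (h4 : S_MQ4) {a b : ℤ} (hab : 4 * a ^ 3 + 27 * b ^ 2 ≠ 0)
    (L : ℤ → ℂ → ℂ) (hL : ∀ d : ℤ, Squarefree d → IsLFun (a * d ^ 2) (b * d ^ 3) (L d)) {N : ℕ}
    (D : Fin N → ℤ) (hD : Indep D) : ∃ F : ℂ → ℂ, IsLFunK (Kd D) a b (∏ i, D i) F ∧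
      ∀ w : ℂ, 1 / 2 < w.re → analyticOrderAt F w =
        ∑ T : Finset (Fin N), analyticOrderAt (L (sfd (∏ i ∈ T, D i))) w := by
  have h5 : ∀ T : Finset (Fin N), ∏ i ∈ T, D i ≠ 0 :=
    fun T => Finset.prod_ne_zero_iff.2 fun i _ => hD.ne i
  choose G hG1 hG2 using fun T => exists_GZ h4 hab L hL (∏ i ∈ T, D i) (h5 T)
  obtain ⟨F, hF1, hF2⟩ := h1 a b hab N D hD G hG1 (Kd D) (rt D) (rt_sq D) (adjoin_rt D)
  exact ⟨F, hF1, fun w hw => by rw [hF2 w hw]; exact Finset.sum_congr rfl fun T _ => hG2 T w hw⟩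

theorem toNat_sum {ι : Type} (S : Finset ι) (f : ι → ℕ∞) (hf : ∀ i, f i ≠ ⊤) :
    (∑ i ∈ S, f i).toNat = ∑ i ∈ S, (f i).toNat ∧ ∑ i ∈ S, f i ≠ ⊤ := by
  classical
  have h : ∑ i ∈ S, f i = ((∑ i ∈ S, (f i).toNat : ℕ) : ℕ∞) := by
    rw [Nat.cast_sum]
    exact Finset.sum_congr rfl fun i _ => (ENat.coe_toNat (hf i)).symm
  rw [h]
  exact ⟨ENat.toNat_coe _, ENat.coe_ne_top _⟩

theorem multiLaw_of (h1 : S_MQ1) (h3 : S_MQ3) (h4 : S_MQ4) {a b : ℤ}
    (hab : 4 * a ^ 3 + 27 * b ^ 2 ≠ 0) (hT : HasTwists a b)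
    (hL : ∀ d : ℤ, Squarefree d → ∃ F : ℂ → ℂ, IsLFun (a * d ^ 2) (b * d ^ 3) F) :
    MultiLaw a b := by
  classical
  choose! L hL using hL
  obtain ⟨C0, c0, A0, hc0, hmom⟩ := expMom_of s_T12 a b hab hT
  obtain ⟨htop, hexp⟩ := hmom L hL
  have hone : (1 : ℝ) / 2 < (1 : ℂ).re := by norm_num
  intro m e n
  have hex := fun (d : Fin n → ℤ) (hd : Indep (Fin.append e d)) =>
    exists_FK h1 h4 hab L hL (Fin.append e d) hd
  refine ⟨fun d hd => ⟨fg_EK _ hab, ?_⟩, fun F hF => ?_⟩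
  · obtain ⟨F, hF, -⟩ := hex d hd
    exact ⟨F, hF, fun G hG => isLFunK_unique hG hF⟩
  have hord : ∀ d : Fin n → ℤ, Indep (Fin.append e d) → analyticOrderAt (F d) 1 =
      ∑ T : Finset (Fin (m + n)), analyticOrderAt (L (sfd (∏ i ∈ T, Fin.append e d i))) 1 := by
    intro d hd
    obtain ⟨G, hG, hG2⟩ := hex d hd
    rw [isLFunK_unique (hF d hd) hG]
    exact hG2 1 hone
  have hord' : ∀ d : Fin n → ℤ, Indep (Fin.append e d) → analyticOrderAt (F d) 1 ≠ ⊤ ∧
      (analyticOrderAt (F d) 1).toNat = ∑ T : Finset (Fin (m + n)),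
        (analyticOrderAt (L (sfd (∏ i ∈ T, Fin.append e d i))) 1).toNat := by
    intro d hd
    rw [hord d hd]
    have := toNat_sum Finset.univ (fun T : Finset (Fin (m + n)) =>
      analyticOrderAt (L (sfd (∏ i ∈ T, Fin.append e d i))) 1) fun T => htop _ (sfd_spec _).1
    exact ⟨this.2, this.1⟩
  have hmain : ∃ (C c : ℝ) (A : ℕ), 0 < c ∧ ∀ X : ℕ, 3 ≤ X → ∑ d ∈ tup e n X,
      Real.exp (c * rkordK (Kd (Fin.append e d)) a b (F d)) ≤
        C * (X : ℝ) ^ n * Real.log X ^ A := by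
    by_cases he : ∀ i, e i ≠ 0
    · obtain ⟨C1, c1, hC1, hc1, hrk⟩ := rankPart hab e he n
      set M : ℝ := (Fintype.card (Finset (Fin (m + n))) : ℝ) with hM
      have hM0 : 0 < M := by rw [hM]; exact_mod_cast Fintype.card_pos
      set c : ℝ := min (c1 / 2) (c0 / (4 * M)) with hc
      have hcpos : 0 < c := lt_min (by positivity) (by positivity)
      have hca : 2 * c ≤ c1 := by
        have := min_le_left (c1 / 2) (c0 / (4 * M))
        linarith
      have hcb : 2 * (M * (2 * c)) ≤ c0 := by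
        have h5 := min_le_right (c1 / 2) (c0 / (4 * M))
        rw [← hc, le_div_iff₀ (by positivity)] at h5
        linarith
      set o : ℤ → ℕ := fun s => if Squarefree s then (analyticOrderAt (L s) 1).toNat else 0 with ho
      have ho1 : ∀ X : ℕ, 3 ≤ X → ∑ s ∈ sqf X, Real.exp (c0 * o s) ≤
          C0 * X * Real.log X ^ A0 := by
        intro X hX
        refine le_trans (Finset.sum_le_sum fun s hs => ?_) (hexp X hX)
        have hs1 : Squarefree s := (mem_sqf.1 hs).2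
        apply Real.exp_le_exp.2
        rw [ho]
        simp only [if_pos hs1]
        have : (0 : ℝ) ≤ Module.finrank ℤ (EQ (a * s ^ 2) (b * s ^ 3)) := Nat.cast_nonneg _
        apply mul_le_mul_of_nonneg_left _ hc0.le
        linarith
      choose C2 A2 hC2 h2 using fun T => ordPart h3 o C0 c0 A0 hc0 ho1 m e he n T (M * (2 * c))
        (by positivity) hcb
      set A : ℕ := n + ∑ T, A2 T with hA
      refine ⟨C1 + ∑ T, C2 T, c, A, hcpos, fun X hX => ?_⟩
      have hl := one_le_log hX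
      have hX0 : (0 : ℝ) ≤ (X : ℝ) ^ n := by positivity
      have hpt : ∀ d ∈ tup e n X, Real.exp (c * rkordK (Kd (Fin.append e d)) a b (F d)) ≤
          Real.exp (2 * c * rkK (Kd (Fin.append e d)) a b) +
          ∑ T : Finset (Fin (m + n)),
            Real.exp (M * (2 * c) * o (sfd (∏ i ∈ T, Fin.append e d i))) := by
        intro d hd
        have hd1 : Indep (Fin.append e d) := (Finset.mem_filter.1 hd).2
        have e1 : (rkordK (Kd (Fin.append e d)) a b (F d) : ℝ) =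
            rkK (Kd (Fin.append e d)) a b +
            ∑ T : Finset (Fin (m + n)), (o (sfd (∏ i ∈ T, Fin.append e d i)) : ℝ) := by
          unfold rkordK
          rw [(hord' d hd1).2, ho]
          push_cast
          congr 1
          refine Finset.sum_congr rfl fun T _ => ?_
          rw [if_pos (sfd_spec _).1]
        rw [e1]
        set r : ℝ := (rkK (Kd (Fin.append e d)) a b : ℝ) with hr
        set w : ℝ := ∑ T : Finset (Fin (m + n)), (o (sfd (∏ i ∈ T, Fin.append e d i)) : ℝ) with hw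
        have hr0 : 0 ≤ r := Nat.cast_nonneg _
        have hw0 : 0 ≤ w := Finset.sum_nonneg fun _ _ => Nat.cast_nonneg _
        have h5 : Real.exp (2 * c * w) ≤ ∑ T : Finset (Fin (m + n)),
            Real.exp (M * (2 * c) * o (sfd (∏ i ∈ T, Fin.append e d i))) :=
          exp_sum_le (fun T : Finset (Fin (m + n)) => (o (sfd (∏ i ∈ T, Fin.append e d i)) : ℝ))
            (fun _ => Nat.cast_nonneg _) (2 * c) (by positivity)
        have h6 : Real.exp (c * (r + w)) ≤ Real.exp (2 * c * r) + Real.exp (2 * c * w) := by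
          rcases le_total r w with h | h
          · have : Real.exp (c * (r + w)) ≤ Real.exp (2 * c * w) := by
              apply Real.exp_le_exp.2
              nlinarith
            have := Real.exp_pos (2 * c * r)
            linarith
          · have : Real.exp (c * (r + w)) ≤ Real.exp (2 * c * r) := by
              apply Real.exp_le_exp.2
              nlinarith
            have := Real.exp_pos (2 * c * w)
            linarith
        linarith
      refine (Finset.sum_le_sum hpt).trans ?_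
      rw [Finset.sum_add_distrib, Finset.sum_comm, add_mul, add_mul, Finset.sum_mul,
        Finset.sum_mul]
      have hsub : tup e n X ⊆ Fintype.piFinset (fun _ : Fin n => sqf X) :=
        Finset.filter_subset _ _
      refine add_le_add ?_ (Finset.sum_le_sum fun T _ => ?_)
      · refine (Finset.sum_le_sum_of_subset_of_nonneg hsub fun _ _ _ =>
          (Real.exp_pos _).le).trans ?_
        refine (hrk (2 * c) (by positivity) hca X hX).trans ?_
        exact mul_le_mul_of_nonneg_left (pow_le_pow_right₀ hl (by omega)) (by positivity)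
      · refine (Finset.sum_le_sum_of_subset_of_nonneg hsub fun _ _ _ =>
          (Real.exp_pos _).le).trans ?_
        refine (h2 T X hX).trans ?_
        have h7 : A2 T ≤ A := by
          have := Finset.single_le_sum (f := A2) (fun _ _ => Nat.zero_le _) (Finset.mem_univ T)
          omega
        exact mul_le_mul_of_nonneg_left (pow_le_pow_right₀ hl h7) (mul_nonneg (hC2 T) hX0)
    · refine ⟨0, 1, 0, one_pos, fun X hX => ?_⟩
      have : tup e n X = ∅ := by
        rw [Finset.eq_empty_iff_forall_notMem]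
        intro d hd
        apply he
        intro i
        have := (Finset.mem_filter.1 hd).2.ne (Fin.castAdd n i)
        rwa [Fin.append_left] at this
      rw [this]
      simp
  refine ⟨fun d hd => (hord' d hd).1, hmain, fun k B => ?_⟩
  obtain ⟨C, c, A, hc, hm⟩ := hmain
  exact momentsG (fun X => tup e n X) (fun X => (X : ℝ) ^ n) (fun X => by positivity) C c A hc
    (fun d => rkordK (Kd (Fin.append e d)) a b (F d)) hm k B

end

end Pool.Agent.Y19.QT
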