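import Pool.Agent.Y19.QT.GoldDef
import Pool.Agent.Y19.QT.MA
import Pool.Agent.Y763.QTPAR

set_option autoImplicit false

/-! Project QT: the distribution of the analytic ranks. -/

namespace Pool.Agent.Y19.QT

open Classical in
theorem Nr_sum (F : ℤ → ℂ → ℂ) (X : ℕ) (I : Finset ℕ) : ∑ r ∈ I, (Nr F r X : ℝ) =
    (((sqf X).filter fun d => ∃ r ∈ I, analyticOrderAt (F d) 1 = (r : ℕ∞)).card : ℝ) := by
  have h : ∑ r ∈ I, Nr F r X =
      ((sqf X).filter fun d => ∃ r ∈ I, analyticOrderAt (F d) 1 = (r : ℕ∞)).card := by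
    unfold Nr
    rw [← Finset.card_biUnion]
    · congr 1
      ext d
      simp only [Finset.mem_biUnion, Finset.mem_filter]
      constructor
      · rintro ⟨r, hr, hd, h⟩
        exact ⟨hd, r, hr, h⟩
      · rintro ⟨hd, r, hr, h⟩
        exact ⟨r, hr, hd, h⟩
    · intro r _ s _ hrs
      rw [Function.onFun, Finset.disjoint_left]
      intro d h1 h2
      rw [Finset.mem_filter] at h1 h2
      apply hrs
      have := h1.2.symm.trans h2.2
      exact_mod_cast this
  exact_mod_cast h

theorem goldfeldLaw_of {a b : ℤ} (hab : 4 * a ^ 3 + 27 * b ^ 2 ≠ 0) (hT : HasTwists a b)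
    (hL : ∀ d : ℤ, Squarefree d → ∃ F : ℂ → ℂ, IsLFun (a * d ^ 2) (b * d ^ 3) F)
    (hS : Pool.Agent.Y763.QTPAR.HasSgn a b) : GoldfeldLaw a b := by
  classical
  obtain ⟨C0, c0, A0, hc0, hmom⟩ := expMom_of s_T12 a b hab hT
  obtain ⟨C1, hpar⟩ := Pool.Agent.Y763.QTPAR.PAR_of hab hS
  refine ⟨fun d hd => ?_, fun F hF => ?_⟩
  · obtain ⟨F, hF⟩ := hL d hd
    exact ⟨F, hF, fun G hG => isLFun_unique hG hF⟩
  obtain ⟨htop, hexp⟩ := hmom F hF
  have hpar := hpar F hF
  set o : ℤ → ℕ := fun d => (analyticOrderAt (F d) 1).toNat with ho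
  have hoe : ∀ d : ℤ, Squarefree d → ∀ r : ℕ, analyticOrderAt (F d) 1 = (r : ℕ∞) ↔ o d = r := by
    intro d hd r
    rw [ho]
    constructor
    · intro h
      simp only [h, ENat.toNat_coe]
    · intro h
      simp only at h
      rw [← h, ENat.coe_toNat (htop d hd)]
  -- the tail
  have htail : ∀ (X : ℕ) (t : ℝ), 3 ≤ X → (((sqf X).filter fun d => t ≤ o d).card : ℝ) ≤
      max C0 0 * X * Real.log X ^ A0 * Real.exp (-(c0 * t)) := by
    intro X t hX
    have hl := one_le_log hX
    have h1 : (((sqf X).filter fun d => t ≤ o d).card : ℝ) * Real.exp (c0 * t) ≤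
        C0 * X * Real.log X ^ A0 := by
      refine le_trans ?_ (hexp X hX)
      rw [← nsmul_eq_mul, ← Finset.sum_const]
      refine le_trans (Finset.sum_le_sum fun d hd => ?_)
        (Finset.sum_le_sum_of_subset_of_nonneg (Finset.filter_subset (fun d => t ≤ (o d : ℝ)) _)
          fun _ _ _ => (Real.exp_pos _).le)
      apply Real.exp_le_exp.2
      apply mul_le_mul_of_nonneg_left _ hc0.le
      have h2 : t ≤ o d := (Finset.mem_filter.1 hd).2
      have h3 : (0 : ℝ) ≤ Module.finrank ℤ (EQ (a * d ^ 2) (b * d ^ 3)) := Nat.cast_nonneg _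
      have h4 : ((analyticOrderAt (F d) 1).toNat : ℝ) = o d := rfl
      linarith
    have h5 : (0 : ℝ) < Real.exp (c0 * t) := Real.exp_pos _
    have h6 : C0 * X * Real.log X ^ A0 ≤ max C0 0 * X * Real.log X ^ A0 := by
      gcongr
      exact le_max_left _ _
    calc (((sqf X).filter fun d => t ≤ o d).card : ℝ) =
          (((sqf X).filter fun d => t ≤ o d).card : ℝ) * Real.exp (c0 * t) *
            Real.exp (-(c0 * t)) := by
          rw [mul_assoc, ← Real.exp_add, add_neg_cancel, Real.exp_zero, mul_one]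
      _ ≤ _ := mul_le_mul_of_nonneg_right (h1.trans h6) (Real.exp_pos _).le
  -- the parities
  have hsplit : ∀ (X : ℕ) (e : ℕ), 3 ≤ X → e < 2 →
      |(((sqf X).filter fun d => o d % 2 = e).card : ℝ) - (sqf X).card / 2| ≤
        |C1| / 2 * Real.sqrt X := by
    intro X e hX he
    have h1 := hpar X (by omega)
    have h2 : (((sqf X).filter fun d => o d % 2 = 0).card : ℝ) +
        ((sqf X).filter fun d => o d % 2 = 1).card = (sqf X).card := by
      have h3 := Finset.card_filter_add_card_filter_not (s := sqf X) (fun d => o d % 2 = 0)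
      have h4 : (sqf X).filter (fun d => ¬ o d % 2 = 0) = (sqf X).filter (fun d => o d % 2 = 1) := by
        apply Finset.filter_congr
        intro d _
        omega
      rw [h4] at h3
      exact_mod_cast h3
    have h5 : ∑ d ∈ sqf X, (-1 : ℝ) ^ (analyticOrderAt (F d) 1).toNat =
        (((sqf X).filter fun d => o d % 2 = 0).card : ℝ) -
          ((sqf X).filter fun d => o d % 2 = 1).card := by
      have e1 : ∀ d : ℤ, (-1 : ℝ) ^ (analyticOrderAt (F d) 1).toNat =
          (if o d % 2 = 0 then (1 : ℝ) else 0) - (if o d % 2 = 1 then (1 : ℝ) else 0) := by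
        intro d
        rcases Nat.mod_two_eq_zero_or_one (o d) with h | h
        · have h6 : Even (analyticOrderAt (F d) 1).toNat := Nat.even_iff.2 h
          rw [h6.neg_one_pow, if_pos h, if_neg (by omega)]
          norm_num
        · have h6 : Odd (analyticOrderAt (F d) 1).toNat := Nat.odd_iff.2 h
          rw [h6.neg_one_pow, if_neg (by omega), if_pos h]
          norm_num
      rw [Finset.sum_congr rfl fun d _ => e1 d, Finset.sum_sub_distrib, Finset.sum_boole,
        Finset.sum_boole]
    rw [h5] at h1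
    have h7 : C1 * Real.sqrt X ≤ |C1| * Real.sqrt X :=
      mul_le_mul_of_nonneg_right (le_abs_self _) (Real.sqrt_nonneg _)
    have h8 := abs_le.1 h1
    interval_cases e
    · rw [abs_le]
      constructor <;> linarith
    · rw [abs_le]
      constructor <;> linarith
  -- the sums of the `N_r`
  have hNr : ∀ (e : ℕ) (R : ℝ) (X : ℕ), 0 ≤ R → (NrSum F e R X : ℝ) =
      (((sqf X).filter fun d => o d % 2 = e ∧ (o d : ℝ) ≤ R).card : ℝ) := by
    intro e R X hR
    have h1 : (NrSum F e R X : ℝ) =
        ∑ r ∈ (Finset.range (⌊R⌋₊ + 1)).filter (fun r => r % 2 = e), (Nr F r X : ℝ) := by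
      unfold NrSum
      push_cast
      rfl
    rw [h1, Nr_sum]
    congr 2
    apply Finset.filter_congr
    intro d hd
    have hsq := (mem_sqf.1 hd).2
    constructor
    · rintro ⟨r, hr, h⟩
      rw [hoe d hsq] at h
      rw [Finset.mem_filter, Finset.mem_range] at hr
      rw [h]
      exact ⟨hr.2, (Nat.le_floor_iff hR).1 (by omega)⟩
    · rintro ⟨h, h'⟩
      refine ⟨o d, ?_, (hoe d hsq _).2 rfl⟩
      rw [Finset.mem_filter, Finset.mem_range]
      exact ⟨Nat.lt_succ_of_le ((Nat.le_floor_iff hR).2 h'), h⟩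
  have hdiff : ∀ (e : ℕ) (R : ℝ) (X : ℕ), 0 ≤ R →
      |(NrSum F e R X : ℝ) - ((sqf X).filter fun d => o d % 2 = e).card| ≤
        ((sqf X).filter fun d => R < o d).card := by
    intro e R X hR
    rw [hNr e R X hR]
    have h1 : ((sqf X).filter fun d => o d % 2 = e ∧ (o d : ℝ) ≤ R).card ≤
        ((sqf X).filter fun d => o d % 2 = e).card :=
      Finset.card_le_card fun d hd => by
        rw [Finset.mem_filter] at hd ⊢
        exact ⟨hd.1, hd.2.1⟩
    have h2 : ((sqf X).filter fun d => o d % 2 = e).card ≤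
        ((sqf X).filter fun d => o d % 2 = e ∧ (o d : ℝ) ≤ R).card +
          ((sqf X).filter fun d => R < (o d : ℝ)).card := by
      refine le_trans (Finset.card_le_card fun d hd => ?_) (Finset.card_union_le _ _)
      rw [Finset.mem_filter] at hd
      rw [Finset.mem_union, Finset.mem_filter, Finset.mem_filter]
      rcases le_or_gt (o d : ℝ) R with h | h
      · exact Or.inl ⟨hd.1, hd.2, h⟩
      · exact Or.inr ⟨hd.1, h⟩
    have h1' : (((sqf X).filter fun d => o d % 2 = e ∧ (o d : ℝ) ≤ R).card : ℝ) ≤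
        ((sqf X).filter fun d => o d % 2 = e).card := by exact_mod_cast h1
    have h2' : (((sqf X).filter fun d => o d % 2 = e).card : ℝ) ≤
        ((sqf X).filter fun d => o d % 2 = e ∧ (o d : ℝ) ≤ R).card +
          ((sqf X).filter fun d => R < (o d : ℝ)).card := by exact_mod_cast h2
    rw [abs_le]
    constructor <;> linarith
  refine ⟨⟨max C0 0, c0, A0, hc0, fun X r hX => ?_⟩, ⟨|C1| / 2, fun X hX => ?_⟩, fun B => ?_⟩
  · rw [Nr_sum]
    have h1 := Finset.card_filter_add_card_filter_not (s := sqf X)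
      (fun d => ∃ i ∈ Finset.range r, analyticOrderAt (F d) 1 = (i : ℕ∞))
    have h2 : (((sqf X).filter fun d =>
        ∃ i ∈ Finset.range r, analyticOrderAt (F d) 1 = (i : ℕ∞)).card : ℝ) +
        ((sqf X).filter fun d =>
          ¬ ∃ i ∈ Finset.range r, analyticOrderAt (F d) 1 = (i : ℕ∞)).card = (sqf X).card := by
      exact_mod_cast h1
    have h3 : ((sqf X).filter fun d =>
          ¬ ∃ i ∈ Finset.range r, analyticOrderAt (F d) 1 = (i : ℕ∞)).card ≤
        ((sqf X).filter fun d => (r : ℝ) ≤ o d).card := by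
      apply Finset.card_le_card
      intro d hd
      rw [Finset.mem_filter] at hd ⊢
      refine ⟨hd.1, ?_⟩
      by_contra hlt
      push Not at hlt
      apply hd.2
      refine ⟨o d, Finset.mem_range.2 (by exact_mod_cast hlt), ?_⟩
      exact (hoe d (mem_sqf.1 hd.1).2 _).2 rfl
    have h4 : (((sqf X).filter fun d =>
          ¬ ∃ i ∈ Finset.range r, analyticOrderAt (F d) 1 = (i : ℕ∞)).card : ℝ) ≤
        ((sqf X).filter fun d => (r : ℝ) ≤ o d).card := by exact_mod_cast h3
    have h5 := htail X r hX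
    linarith
  · refine ⟨∑ d ∈ sqf X, (o d : ℝ), fun R hR e he => ?_⟩
    have hR0 : 0 ≤ R := le_trans (Finset.sum_nonneg fun _ _ => Nat.cast_nonneg _) hR
    have h1 := hdiff e R X hR0
    have h2 : (sqf X).filter (fun d => R < (o d : ℝ)) = ∅ := by
      rw [Finset.filter_eq_empty_iff]
      intro d hd
      rw [not_lt]
      exact (Finset.single_le_sum (f := fun d => (o d : ℝ)) (fun _ _ => Nat.cast_nonneg _) hd).trans hR
    rw [h2, Finset.card_empty, Nat.cast_zero] at h1
    have h3 := hsplit X e hX he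
    have h4 := abs_nonpos_iff.1 h1
    have h5 : (NrSum F e R X : ℝ) = ((sqf X).filter fun d => o d % 2 = e).card := by linarith
    rw [h5]
    exact h3
  · set K : ℝ := (A0 + B) / c0 with hK
    set D : ℝ := |C1| / 2 * (2 ^ B * B.factorial) with hD
    refine ⟨max C0 0 + D, K, fun X R hX hR e he => ?_⟩
    have hl := one_le_log hX
    have hl0 : 0 < Real.log X := by linarith
    have hll : 0 ≤ Real.log (Real.log X) := Real.log_nonneg hl
    have hX0 : (0 : ℝ) < X := by exact_mod_cast (by omega : 0 < X)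
    have hR0 : 0 ≤ R := le_trans (by positivity) hR
    have h1 := hdiff e R X hR0
    have h2 := hsplit X e hX he
    have h3 : (((sqf X).filter fun d => R < (o d : ℝ)).card : ℝ) ≤
        max C0 0 * X / Real.log X ^ B := by
      have h4 : ((sqf X).filter fun d => R < (o d : ℝ)).card ≤
          ((sqf X).filter fun d => R ≤ (o d : ℝ)).card :=
        Finset.card_le_card fun d hd => by
          rw [Finset.mem_filter] at hd ⊢
          exact ⟨hd.1, hd.2.le⟩
      have h4' : (((sqf X).filter fun d => R < (o d : ℝ)).card : ℝ) ≤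
          ((sqf X).filter fun d => R ≤ (o d : ℝ)).card := by exact_mod_cast h4
      refine h4'.trans ((htail X R hX).trans ?_)
      have h5 : Real.exp (-(c0 * R)) ≤ (Real.log X ^ (A0 + B))⁻¹ := by
        have h6 : Real.log X ^ (A0 + B) = Real.exp ((A0 + B : ℕ) * Real.log (Real.log X)) := by
          rw [Real.exp_nat_mul, Real.exp_log hl0]
        rw [h6, ← Real.exp_neg]
        apply Real.exp_le_exp.2
        have h7 : c0 * (K * Real.log (Real.log X)) ≤ c0 * R := mul_le_mul_of_nonneg_left hR hc0.le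
        have h8 : c0 * (K * Real.log (Real.log X)) = (A0 + B : ℕ) * Real.log (Real.log X) := by
          rw [hK]
          push_cast
          field_simp
        linarith
      calc max C0 0 * X * Real.log X ^ A0 * Real.exp (-(c0 * R)) ≤
            max C0 0 * X * Real.log X ^ A0 * (Real.log X ^ (A0 + B))⁻¹ :=
            mul_le_mul_of_nonneg_left h5 (by positivity)
        _ = max C0 0 * X / Real.log X ^ B := by
            rw [pow_add]
            field_simp
    have h9 : Real.sqrt X ≤ (2 ^ B * B.factorial) * X / Real.log X ^ B := by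
      have h10 := Real.pow_div_factorial_le_exp (Real.log X / 2) (by positivity) B
      have h11 : Real.exp (Real.log X / 2) = Real.sqrt X := by
        rw [Real.sqrt_eq_rpow, Real.rpow_def_of_pos hX0]
        ring_nf
      rw [h11, div_le_iff₀ (by positivity), div_pow, div_le_iff₀ (by positivity)] at h10
      rw [le_div_iff₀ (by positivity)]
      have h12 := Real.mul_self_sqrt hX0.le
      have h13 := Real.sqrt_nonneg (X : ℝ)
      calc Real.sqrt X * Real.log X ^ B ≤ Real.sqrt X * (Real.sqrt X * B.factorial * 2 ^ B) :=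
            mul_le_mul_of_nonneg_left h10 h13
        _ = (Real.sqrt X * Real.sqrt X) * (B.factorial * 2 ^ B) := by ring
        _ = _ := by rw [h12]; ring
    have h14 : |C1| / 2 * Real.sqrt X ≤ D * X / Real.log X ^ B := by
      calc |C1| / 2 * Real.sqrt X ≤ |C1| / 2 * ((2 ^ B * B.factorial) * X / Real.log X ^ B) :=
            mul_le_mul_of_nonneg_left h9 (by positivity)
        _ = _ := by rw [hD]; ring
    have h15 : |(NrSum F e R X : ℝ) - (sqf X).card / 2| ≤
        |(NrSum F e R X : ℝ) - ((sqf X).filter fun d => o d % 2 = e).card| +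
        |(((sqf X).filter fun d => o d % 2 = e).card : ℝ) - (sqf X).card / 2| := by
      have := abs_add_le ((NrSum F e R X : ℝ) - ((sqf X).filter fun d => o d % 2 = e).card)
        ((((sqf X).filter fun d => o d % 2 = e).card : ℝ) - (sqf X).card / 2)
      simpa using this
    calc |(NrSum F e R X : ℝ) - (sqf X).card / 2| ≤
          max C0 0 * X / Real.log X ^ B + D * X / Real.log X ^ B := by linarith
      _ = _ := by ring

theorem goldfeldLaw_fam {a b : ℤ} (h : Fam a b) : GoldfeldLaw a b :=
  goldfeldLaw_of h.disc h.data.1 h.data.2 (Pool.Agent.Y763.QTPAR.Fam_sgn h)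

theorem goldfeldLaw_modular {a b : ℤ} (hab : 4 * a ^ 3 + 27 * b ^ 2 ≠ 0) (h : TwistsModular a b) :
    GoldfeldLaw a b :=
  goldfeldLaw_of hab (hasTwists_of a b hab h) (exists_LFun a b hab h)
    (Pool.Agent.Y763.QTPAR.sgn_of_twistsModular hab h)

end Pool.Agent.Y19.QT
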