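import Pool.Agent.Y19.QT.Laws

set_option autoImplicit false

/-! Project QT: the statement of the results on the distribution of the analytic ranks. -/

namespace Pool.Agent.Y19.QT

open Classical in
/-- `N_r(X)`: the number of squarefree `d`, `|d| ≤ X`, for which `F d` has a zero of order exactly `r`
at `s = 1` -/
noncomputable def Nr (F : ℤ → ℂ → ℂ) (r X : ℕ) : ℕ :=
  ((sqf X).filter fun d => analyticOrderAt (F d) 1 = (r : ℕ∞)).card

/-- the sum of `N_r(X)` over the `r ≤ R` with `r ≡ e (mod 2)` -/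
noncomputable def NrSum (F : ℤ → ℂ → ℂ) (e : ℕ) (R : ℝ) (X : ℕ) : ℕ :=
  ∑ r ∈ (Finset.range (⌊R⌋₊ + 1)).filter (fun r => r % 2 = e), Nr F r X

/-- The distribution of the analytic ranks of the quadratic twists `E_d` of `E : y² = x³ + a x + b`;
`S(X)` is the number of the squarefree `d`, `|d| ≤ X`, and `N_r(X)` the number of those with analytic rank
`r`.  `L(E_d, s)` is (uniquely) an entire function.  For `r ≥ 0` and `X ≥ 3` there are at most
`C X (log X)^A e^{-c r}` of these `d` with analytic rank at least `r`.  For each `B` there are `C`, `K`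
such that for both parities `e = 0`, `1` and all `R ≥ K log log X` the sum of `N_r(X)` over the `r ≤ R`
with `r ≡ e (mod 2)` is `S(X) / 2 + O(X / (log X)^B)`; it is `S(X) / 2 + O(√X)` for all large `R`. -/
def GoldfeldLaw (a b : ℤ) : Prop :=
  (∀ d : ℤ, Squarefree d → ∃! F : ℂ → ℂ, IsLFun (a * d ^ 2) (b * d ^ 3) F) ∧
  ∀ F : ℤ → ℂ → ℂ, (∀ d : ℤ, Squarefree d → IsLFun (a * d ^ 2) (b * d ^ 3) (F d)) →
    (∃ (C c : ℝ) (A : ℕ), 0 < c ∧ ∀ (X r : ℕ), 3 ≤ X →
      ((sqf X).card : ℝ) - ∑ i ∈ Finset.range r, (Nr F i X : ℝ) ≤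
        C * X * Real.log X ^ A * Real.exp (-(c * r))) ∧
    (∃ C : ℝ, ∀ X : ℕ, 3 ≤ X → ∃ R₀ : ℝ, ∀ R : ℝ, R₀ ≤ R → ∀ e < 2,
      |(NrSum F e R X : ℝ) - (sqf X).card / 2| ≤ C * Real.sqrt X) ∧
    ∀ B : ℕ, ∃ C K : ℝ, ∀ (X : ℕ) (R : ℝ), 3 ≤ X → K * Real.log (Real.log X) ≤ R → ∀ e < 2,
      |(NrSum F e R X : ℝ) - (sqf X).card / 2| ≤ C * X / Real.log X ^ B

end Pool.Agent.Y19.QT
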