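import Pool.Agent.Y19.QT.DefsK

set_option autoImplicit false

/-! Project QT: the statement of the results over multiquadratic fields. -/

namespace Pool.Agent.Y19.QT

open Complex
open scoped ENNReal

noncomputable section

/-- the rank of `E(K)` plus the order of vanishing of `F` at `s = 1` -/
def rkordK (K : Type) [Field K] (a b : ℤ) (F : ℂ → ℂ) : ℕ :=
  rkK K a b + (analyticOrderAt F 1).toNat

/-- The bounds for the ranks and the orders of vanishing of `E : y² = x³ + a x + b` over the fields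
`K = K₀(√d_1, …, √d_n)`, where `K₀ = ℚ(√e_1, …, √e_m)` is fixed (for example `K₀ = ℚ`, `m = 0`) and the
`n`-tuple `(d_1, …, d_n)` of squarefree integers with `[K : K₀] = 2ⁿ` varies: `E(K)` is finitely
generated, `L(E/K, s)` is (uniquely) an entire function and not identically zero; the exponential moment
of `rank + order` over the tuples with `|d_i| ≤ X` is at most `C Xⁿ (log X)^A`; for all `k`, `B` and every
set `S` of such tuples the sum of the `k`-th powers of `rank + order` over `S` is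
`O((|S| + Xⁿ / (log X)^B) (1 + log log X)^k)`. -/
def MultiLaw (a b : ℤ) : Prop := ∀ (m : ℕ) (e : Fin m → ℤ) (n : ℕ),
  (∀ d : Fin n → ℤ, Indep (Fin.append e d) → FinGenK (Kd (Fin.append e d)) a b ∧
    ∃! F : ℂ → ℂ, IsLFunK (Kd (Fin.append e d)) a b (∏ i, Fin.append e d i) F) ∧
  ∀ F : (Fin n → ℤ) → ℂ → ℂ, (∀ d, Indep (Fin.append e d) →
      IsLFunK (Kd (Fin.append e d)) a b (∏ i, Fin.append e d i) (F d)) →
    (∀ d, Indep (Fin.append e d) → analyticOrderAt (F d) 1 ≠ ⊤) ∧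
    (∃ (C c : ℝ) (A : ℕ), 0 < c ∧ ∀ X : ℕ, 3 ≤ X → ∑ d ∈ tup e n X,
      Real.exp (c * rkordK (Kd (Fin.append e d)) a b (F d)) ≤ C * (X : ℝ) ^ n * Real.log X ^ A) ∧
    ∀ k B : ℕ, ∃ C : ℝ, ∀ (X : ℕ) (S : Finset (Fin n → ℤ)), 3 ≤ X → S ⊆ tup e n X →
      ∑ d ∈ S, (rkordK (Kd (Fin.append e d)) a b (F d) : ℝ) ^ k ≤
        C * (S.card + (X : ℝ) ^ n / Real.log X ^ B) * (1 + Real.log (Real.log X)) ^ k

/-- The bounds for the zeros of the `L`-functions of the quadratic twists `E_{d₀}` of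
`E : y² = x³ + a x + b` over the fields `K = K₀(√d_1, …, √d_n)`, where `K₀ = ℚ(√e_1, …, √e_m)` is fixed
and the squarefree integer `d₀` and the `n`-tuple `(d_1, …, d_n)` of squarefree integers with
`[K : K₀] = 2ⁿ` vary: `L(E_{d₀}/K, s)` is (uniquely) an entire function; the number of zeros with
`Re s ≥ σ`, `|Im s| ≤ U` of all the `L(E_{d₀}/K, s)` with `|d_i| ≤ X` is at most
`C (1 + U)^B X^(n + 1 - c (σ - 1)) (log X)^A` for all `σ ≥ 1`; for every `k` there is a `k'` such that for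
all these pairs `(d₀, K)` except `O(X^(n + 1) / (log X)^k)` every zero `ρ` with `Re ρ > 3/4`, at any
height, is nearer than `k' (log log X + log (2 + |Im ρ|)) / log X` to the critical line. -/
def MultiDensityLaw (a b : ℤ) : Prop := ∀ (m : ℕ) (e : Fin m → ℤ) (n : ℕ),
  (∀ (d₀ : ℤ) (d : Fin n → ℤ), d₀ ≠ 0 → Indep (Fin.append e d) → ∃! F : ℂ → ℂ,
    IsLFunK (Kd (Fin.append e d)) (a * d₀ ^ 2) (b * d₀ ^ 3) (∏ i, Fin.append e d i) F) ∧
  ∀ F : ℤ → (Fin n → ℤ) → ℂ → ℂ, (∀ d₀ d, d₀ ≠ 0 → Indep (Fin.append e d) →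
      IsLFunK (Kd (Fin.append e d)) (a * d₀ ^ 2) (b * d₀ ^ 3) (∏ i, Fin.append e d i) (F d₀ d)) →
    (∃ (C c : ℝ) (A B : ℕ), 0 < c ∧ ∀ (X : ℕ) (σ U : ℝ), 3 ≤ X → 1 ≤ σ → 0 ≤ U →
      ∑ d₀ ∈ sqf X, ∑ d ∈ tup e n X, zcount (F d₀ d) σ U ≤
        ENNReal.ofReal (C * (1 + U) ^ B * (X : ℝ) ^ (n + 1 - c * (σ - 1)) * Real.log X ^ A)) ∧
    ∀ k : ℕ, ∃ C k' : ℝ, ∀ (X : ℕ) (S : Finset (ℤ × (Fin n → ℤ))), 3 ≤ X →
      S ⊆ sqf X ×ˢ tup e n X →
      (∀ d ∈ S, ∃ ρ : ℂ, F d.1 d.2 ρ = 0 ∧ 3 / 4 < ρ.re ∧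
        k' * ((Real.log (Real.log X) + Real.log (2 + |ρ.im|)) / Real.log X) ≤ |ρ.re - 1|) →
      (S.card : ℝ) ≤ C * (X : ℝ) ^ (n + 1) / Real.log X ^ k

end

end Pool.Agent.Y19.QT
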