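import Pool.Agent.Y19.QT.DefsK

set_option autoImplicit false

/-! Project QT: the Lindelöf bound over multiquadratic fields (definition of the law). -/

namespace Pool.Agent.Y19.QT

open Complex NumberField

noncomputable section

/-- The Lindelöf bound with powers of logarithms over all multiquadratic fields.  Let `K` be a number
field of degree `2ⁿ` generated by square roots `x_i` of integers `e_i` (`n = 0`: `K = ℚ`),
`E : y² = x³ + a x + b`, and for squarefree `d` (positive or negative) let `E_d` be the twist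
`y² = x³ + a d² x + b d³` over `K`, `L(E_d/K, s) = F_d(s)` its `L`-function without the Euler factors at the
places dividing `2 (4a³ + 27b²) d ∏ e_i`, centre `s = 1`.
* `F_d` exists (uniquely) as an entire function;
* `∑_{|d| ≤ X} sup_t |F_d(1 + i t)|^(2 / 2ⁿ) / (2 + |t|)^B ≤ C X (log X)^A` (the `t_d` are arbitrary);
* for `0 ≤ β` at most `C X^(1 - 2 β / 2ⁿ) (log X)^A` of the `|d| ≤ X` have
  `|F_d(1 + i t)| > X^β (2 + |t|)^B` for some real `t`;
* for every `k` there is a `k'` such that for all `|d| ≤ X` except `O(X / (log X)^k)` and all real `t` one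
  has `|F_d(1 + i t)| ≤ ((log X) (2 + |t|))^k'`. -/
def MultiLindelofLaw (a b : ℤ) : Prop :=
  ∀ (n : ℕ) (e : Fin n → ℤ), Indep e → ∀ (K : Type) [Field K] [NumberField K] (x : Fin n → K),
    (∀ i, x i ^ 2 = (e i : K)) → IntermediateField.adjoin ℚ (Set.range x) = ⊤ →
    (∀ d : ℤ, Squarefree d → ∃! F : ℂ → ℂ, IsLFunK K (a * d ^ 2) (b * d ^ 3) (∏ i, e i) F) ∧
    ∀ F : ℤ → ℂ → ℂ, (∀ d : ℤ, Squarefree d →
      IsLFunK K (a * d ^ 2) (b * d ^ 3) (∏ i, e i) (F d)) →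
      (∃ (C : ℝ) (A B : ℕ), (∀ (X : ℕ) (t : ℤ → ℝ), 3 ≤ X →
        ∑ d ∈ sqf X, ‖F d (1 + t d * I)‖ ^ ((2 : ℝ) / 2 ^ n) / (2 + |t d|) ^ B ≤
          C * X * Real.log X ^ A) ∧
        ∀ (X : ℕ) (β : ℝ) (S : Finset ℤ), 3 ≤ X → 0 ≤ β → S ⊆ sqf X →
          (∀ d ∈ S, ∃ t : ℝ, (X : ℝ) ^ β * (2 + |t|) ^ B < ‖F d (1 + t * I)‖) →
          (S.card : ℝ) ≤ C * (X : ℝ) ^ (1 - 2 * β / 2 ^ n) * Real.log X ^ A) ∧
      ∀ k : ℕ, ∃ (C : ℝ) (k' : ℕ), ∀ (X : ℕ) (S : Finset ℤ), 3 ≤ X → S ⊆ sqf X →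
        (∀ d ∈ S, ∃ t : ℝ, (Real.log X * (2 + |t|)) ^ k' < ‖F d (1 + t * I)‖) →
        (S.card : ℝ) ≤ C * X / Real.log X ^ k

end

end Pool.Agent.Y19.QT
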