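import Pool.Agent.Y19.QT.Sec
import Pool.Agent.Y46.QTH8
import Pool.Agent.Helper655.DUA4

set_option autoImplicit false

/-! Project QT: a maximal inequality for the second moment on the critical line. -/

namespace Pool.Agent.Y19.QT

open Complex Filter Topology MeasureTheory
open Pool.Agent.H306R2.RZ (js Gk)
open scoped ENNReal ComplexConjugate

noncomputable section

variable {Q : ℕ} {lam : ℕ → ℝ}

/-- the angle `π/2 - π/(16(n+1))` -/
def thn (n : ℕ) : ℝ := Real.pi / 2 - Real.pi / 16 / (n + 1)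

lemma thn_ge (n : ℕ) : th0 ≤ thn n := by
  unfold th0 thn
  have hpi := Real.pi_pos
  have : Real.pi / 16 / (n + 1) ≤ Real.pi / 16 := by
    apply div_le_self (by positivity)
    have : (0 : ℝ) ≤ n := Nat.cast_nonneg n
    linarith
  linarith

lemma thn_lt (n : ℕ) : thn n < Real.pi / 2 := by
  unfold thn
  have hpi := Real.pi_pos
  have : 0 < Real.pi / 16 / ((n : ℝ) + 1) := by positivity
  linarith

lemma thn_inv (n : ℕ) : (Real.pi / 2 - thn n)⁻¹ = 16 / Real.pi * (n + 1) := by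
  unfold thn
  have hpi := Real.pi_pos
  have : Real.pi / 2 - (Real.pi / 2 - Real.pi / 16 / ((n : ℝ) + 1)) =
      Real.pi / 16 / ((n : ℝ) + 1) := by ring
  rw [this]
  field_simp

/-- a weight on the vertical line is dominated by exponentials -/
lemma weight_le (M : ℕ) (y : ℝ) : ENNReal.ofReal (((1 + |y|) ^ M)⁻¹) ≤
    ∑' n : ℕ, ENNReal.ofReal (((n : ℝ) + 1) ^ M)⁻¹ * ENNReal.ofReal (2 ^ M * Real.exp (Real.pi / 8)) *
      ENNReal.ofReal (Real.exp (-((Real.pi - 2 * thn n) * |y|))) := by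
  refine le_trans ?_ (ENNReal.le_tsum ⌊|y|⌋₊)
  set n := ⌊|y|⌋₊ with hn
  have hpi := Real.pi_pos
  have h0 : (n : ℝ) ≤ |y| := Nat.floor_le (abs_nonneg y)
  have h1 : |y| < n + 1 := Nat.lt_floor_add_one _
  have hn0 : (0 : ℝ) ≤ n := Nat.cast_nonneg n
  rw [← ENNReal.ofReal_mul (by positivity), ← ENNReal.ofReal_mul (by positivity)]
  apply ENNReal.ofReal_le_ofReal
  have e1 : (Real.pi - 2 * thn n) * |y| = Real.pi / 8 * (|y| / (n + 1)) := by
    unfold thn
    field_simp
    ring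
  have h2 : |y| / (n + 1) ≤ 1 := by rw [div_le_one (by positivity)]; exact h1.le
  have h3 : 1 ≤ Real.exp (Real.pi / 8) * Real.exp (-((Real.pi - 2 * thn n) * |y|)) := by
    rw [← Real.exp_add, e1]
    apply Real.one_le_exp
    have : Real.pi / 8 * (|y| / (n + 1)) ≤ Real.pi / 8 * 1 := by gcongr
    linarith
  have h4 : ((1 + |y|) ^ M)⁻¹ ≤ (((n : ℝ) + 1) ^ M)⁻¹ := by
    apply inv_anti₀ (by positivity)
    exact pow_le_pow_left₀ (by positivity) (by linarith) M
  have h5 : (1 : ℝ) ≤ 2 ^ M := one_le_pow₀ (by norm_num)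
  calc ((1 + |y|) ^ M)⁻¹ ≤ (((n : ℝ) + 1) ^ M)⁻¹ * 1 * 1 := by linarith
    _ ≤ (((n : ℝ) + 1) ^ M)⁻¹ * 2 ^ M *
        (Real.exp (Real.pi / 8) * Real.exp (-((Real.pi - 2 * thn n) * |y|))) := by gcongr
    _ = _ := by ring

/-- the weighted mean square near the critical line -/
def WW (T : Twists Q lam) (d : ℤ) (r : ℝ) (M : ℕ) : ℝ≥0∞ :=
  ∫⁻ σ in Set.Icc (1 / 2 - r) (1 / 2 + r), ∫⁻ y : ℝ, ‖T.ell d (σ + y * I)‖ₑ ^ 2 *
    ENNReal.ofReal (((1 + |y|) ^ M)⁻¹)

theorem WW_le (T : Twists Q lam) : ∃ (C : ℝ) (A B : ℕ), 0 < C ∧ ∀ X : ℕ, 3 ≤ X →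
    2 ≤ Real.log X → ∑ d ∈ sqf X, WW T d (1 / Real.log X) (B + 2) ≤
      ENNReal.ofReal (C * X * Real.log X ^ A) := by
  obtain ⟨C1, hC1, h8⟩ := Pool.Agent.Y46.QTH8.H8b T
  obtain ⟨C2, A, B, hC2, h11⟩ := H11 T
  have hpi := Real.pi_pos
  have hsum : Summable fun n : ℕ => 1 / ((n : ℝ) + 1) ^ 2 := by
    have h := (summable_nat_add_iff (f := fun n : ℕ => 1 / (n : ℝ) ^ 2) 1).2
      (Real.summable_one_div_nat_pow.2 (by norm_num))
    simpa using h
  set Z : ℝ := ∑' n : ℕ, 1 / ((n : ℝ) + 1) ^ 2 with hZ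
  have hZ0 : 0 ≤ Z := tsum_nonneg fun n => by positivity
  refine ⟨2 * (2 ^ (B + 2) * Real.exp (Real.pi / 8) * (C1 * Real.exp 4) *
    (C2 * (16 / Real.pi) ^ B)) * (Z + 1), A, B, by positivity, fun X hX hL2 => ?_⟩
  have hX0 : (0 : ℝ) < X := by exact_mod_cast (by omega : 0 < X)
  set L := Real.log X with hLdef
  have hL0 : 0 < L := by linarith
  set σ' : ℝ := 1 / 2 + 1 / L with hσ'
  have hr2 : 1 / L ≤ 1 / 2 := by
    rw [div_le_div_iff₀ hL0 (by norm_num)]
    linarith
  have hr0 : 0 < 1 / L := by positivity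
  have hσ'1 : σ' ≤ 1 := by linarith
  -- each `σ`, each `d`
  have hin : ∀ d ∈ sqf X, ∀ σ ∈ Set.Icc (1 / 2 - 1 / L) (1 / 2 + 1 / L),
      ∫⁻ y : ℝ, ‖T.ell d (σ + y * I)‖ₑ ^ 2 * ENNReal.ofReal (((1 + |y|) ^ (B + 2))⁻¹) ≤
      ∑' n : ℕ, ENNReal.ofReal (((n : ℝ) + 1) ^ (B + 2))⁻¹ *
        ENNReal.ofReal (2 ^ (B + 2) * Real.exp (Real.pi / 8)) *
        (ENNReal.ofReal (C1 * Real.exp 4) * NN σ' (thn n) (T.q d)⁻¹ (T.Gf d)) := by
    intro d hd σ hσ
    obtain ⟨hσ1, hσ2⟩ := hσ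
    obtain ⟨hdX, hsq⟩ := mem_sqf.1 hd
    have hell : Continuous fun y : ℝ => T.ell d (σ + y * I) :=
      (Pool.Agent.Y703.QT8.T8a T d hsq).1.continuous.comp (by fun_prop)
    calc ∫⁻ y : ℝ, ‖T.ell d (σ + y * I)‖ₑ ^ 2 * ENNReal.ofReal (((1 + |y|) ^ (B + 2))⁻¹)
        ≤ ∫⁻ y : ℝ, ∑' n : ℕ, ENNReal.ofReal (((n : ℝ) + 1) ^ (B + 2))⁻¹ *
          ENNReal.ofReal (2 ^ (B + 2) * Real.exp (Real.pi / 8)) *
          (‖T.ell d (σ + y * I)‖ₑ ^ 2 *
            ENNReal.ofReal (Real.exp (-((Real.pi - 2 * thn n) * |y|)))) := by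
          refine lintegral_mono fun y => ?_
          calc _ ≤ ‖T.ell d (σ + y * I)‖ₑ ^ 2 * ∑' n : ℕ, ENNReal.ofReal (((n : ℝ) + 1) ^ (B + 2))⁻¹ *
                ENNReal.ofReal (2 ^ (B + 2) * Real.exp (Real.pi / 8)) *
                ENNReal.ofReal (Real.exp (-((Real.pi - 2 * thn n) * |y|))) := by
                gcongr
                exact weight_le _ _
            _ = _ := by
                rw [← ENNReal.tsum_mul_left]
                refine tsum_congr fun n => ?_
                ring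
      _ = ∑' n : ℕ, ∫⁻ y : ℝ, ENNReal.ofReal (((n : ℝ) + 1) ^ (B + 2))⁻¹ *
          ENNReal.ofReal (2 ^ (B + 2) * Real.exp (Real.pi / 8)) *
          (‖T.ell d (σ + y * I)‖ₑ ^ 2 *
            ENNReal.ofReal (Real.exp (-((Real.pi - 2 * thn n) * |y|)))) := by
          refine lintegral_tsum fun n => Measurable.aemeasurable ?_
          have m1 : Measurable fun y : ℝ => ‖T.ell d (σ + y * I)‖ₑ ^ 2 :=
            (hell.measurable.enorm).pow_const 2
          have m2 : Measurable fun y : ℝ =>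
              ENNReal.ofReal (Real.exp (-((Real.pi - 2 * thn n) * |y|))) :=
            ENNReal.measurable_ofReal.comp (by fun_prop)
          exact (m1.mul m2).const_mul _
      _ ≤ _ := by
          refine ENNReal.tsum_le_tsum fun n => ?_
          rw [lintegral_const_mul' _ _ (ENNReal.mul_ne_top ENNReal.ofReal_ne_top
            ENNReal.ofReal_ne_top)]
          gcongr
          have habs : |σ - 1 / 2| ≤ σ' - 1 / 2 := by
            rw [abs_le, hσ']
            constructor <;> linarith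
          have hth : 0 < thn n := by
            have := thn_ge n
            have h2 : 0 < th0 := by unfold th0; positivity
            linarith
          refine (h8 (thn n) d σ σ' hth (thn_lt n) hsq (by linarith) (by linarith) hσ'1
            habs).trans ?_
          gcongr
          have hd1 : (1 : ℝ) ≤ |(d : ℝ)| := by
            have : d ≠ 0 := hsq.ne_zero
            exact_mod_cast Int.one_le_abs this
          have hdX' : |(d : ℝ)| ≤ X := by exact_mod_cast hdX
          calc |(d : ℝ)| ^ (2 * (σ' - σ)) ≤ |(d : ℝ)| ^ (4 / L) := by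
                apply Real.rpow_le_rpow_of_exponent_le hd1
                have : 4 / L = 2 * (1 / L + 1 / L) := by ring
                rw [this, hσ']
                linarith
            _ ≤ (X : ℝ) ^ (4 / L) := by
                apply Real.rpow_le_rpow (by positivity) hdX' (by positivity)
            _ = Real.exp 4 := by
                rw [Real.rpow_def_of_pos hX0, ← hLdef]
                congr 1
                field_simp
  have hW : ∀ d ∈ sqf X, WW T d (1 / L) (B + 2) ≤ ENNReal.ofReal (2 * (1 / L)) *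
      ∑' n : ℕ, ENNReal.ofReal (((n : ℝ) + 1) ^ (B + 2))⁻¹ *
        ENNReal.ofReal (2 ^ (B + 2) * Real.exp (Real.pi / 8)) *
        (ENNReal.ofReal (C1 * Real.exp 4) * NN σ' (thn n) (T.q d)⁻¹ (T.Gf d)) := by
    intro d hd
    unfold WW
    refine (setLIntegral_mono' measurableSet_Icc fun σ hσ => hin d hd σ hσ).trans ?_
    rw [setLIntegral_const, Real.volume_Icc, mul_comm]
    have : 1 / 2 + 1 / L - (1 / 2 - 1 / L) = 2 * (1 / L) := by ring
    rw [this]
  refine (Finset.sum_le_sum hW).trans ?_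
  rw [← Finset.mul_sum, ← Summable.tsum_finsetSum (fun _ _ => ENNReal.summable)]
  have hn : ∀ n : ℕ, ∑ d ∈ sqf X, ENNReal.ofReal (((n : ℝ) + 1) ^ (B + 2))⁻¹ *
        ENNReal.ofReal (2 ^ (B + 2) * Real.exp (Real.pi / 8)) *
        (ENNReal.ofReal (C1 * Real.exp 4) * NN σ' (thn n) (T.q d)⁻¹ (T.Gf d)) ≤
      ENNReal.ofReal (2 ^ (B + 2) * Real.exp (Real.pi / 8) * (C1 * Real.exp 4) *
        (C2 * (16 / Real.pi) ^ B) * X * L ^ A * (1 / ((n : ℝ) + 1) ^ 2)) := by
    intro n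
    rw [← Finset.mul_sum, ← Finset.mul_sum]
    have h1 := h11 X σ' (thn n) hX (by rw [hσ']) hσ'1 (thn_ge n) (thn_lt n)
    refine (mul_le_mul_right (mul_le_mul_right h1 _) _).trans (le_of_eq ?_)
    rw [← ENNReal.ofReal_mul (by positivity), ← ENNReal.ofReal_mul (by positivity),
      ← ENNReal.ofReal_mul (by positivity)]
    congr 1
    rw [thn_inv, mul_pow, pow_add, ← hLdef]
    field_simp
  refine (mul_le_mul_right (ENNReal.tsum_le_tsum hn) _).trans ?_
  rw [← ENNReal.ofReal_tsum_of_nonneg (fun n => by positivity) (hsum.mul_left _),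
    ← ENNReal.ofReal_mul (by positivity)]
  apply ENNReal.ofReal_le_ofReal
  rw [tsum_mul_left, ← hZ]
  have hk : 0 ≤ 2 ^ (B + 2) * Real.exp (Real.pi / 8) * (C1 * Real.exp 4) *
        (C2 * (16 / Real.pi) ^ B) * X * L ^ A := by positivity
  have hL1 : 1 / L ≤ 1 := by linarith
  calc 2 * (1 / L) * (2 ^ (B + 2) * Real.exp (Real.pi / 8) * (C1 * Real.exp 4) *
        (C2 * (16 / Real.pi) ^ B) * X * L ^ A * Z)
      ≤ 2 * 1 * (2 ^ (B + 2) * Real.exp (Real.pi / 8) * (C1 * Real.exp 4) *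
        (C2 * (16 / Real.pi) ^ B) * X * L ^ A * (Z + 1)) := by
        gcongr
        linarith
    _ = _ := by ring

/-- pointwise bound on the critical line by the mean square -/
theorem pt_le (T : Twists Q lam) {d : ℤ} (hd : Squarefree d) {r : ℝ} (hr0 : 0 < r) (hr1 : r ≤ 1)
    (M : ℕ) (t : ℝ) :
    ENNReal.ofReal (Real.pi * r ^ 2) * ‖T.ell d (1 / 2 + t * I)‖ₑ ^ 2 ≤
      ENNReal.ofReal ((2 + |t|) ^ M) * WW T d r M := by
  classical
  have hell := (Pool.Agent.Y703.QT8.T8a T d hd).1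
  set g : ℂ → ℂ := fun z => T.ell d z ^ 2 with hg
  have hgd : Differentiable ℂ g := hell.pow 2
  have h1 := Pool.Agent.Helper655.DU.A4.cp_mv (g := g) hgd.continuous.measurable
    (w := 1 / 2 + t * I) hr0 hgd.differentiableOn
  have e1 : ‖g (1 / 2 + t * I)‖ₑ = ‖T.ell d (1 / 2 + t * I)‖ₑ ^ 2 := by
    simp only [hg]
    rw [enorm_pow]
  rw [← e1]
  refine h1.trans ?_
  set G : ℝ × ℝ → ℝ≥0∞ := fun p => (Set.Icc (1 / 2 - r) (1 / 2 + r)).indicator
    (fun σ : ℝ => ENNReal.ofReal ((2 + |t|) ^ M) * (‖T.ell d (σ + p.2 * I)‖ₑ ^ 2 *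
      ENNReal.ofReal (((1 + |p.2|) ^ M)⁻¹))) p.1 with hG
  have hcont : Continuous fun p : ℝ × ℝ => T.ell d ((p.1 : ℂ) + p.2 * I) :=
    hell.continuous.comp (by fun_prop)
  have hGm : Measurable G := by
    have h2 : Measurable fun p : ℝ × ℝ => ENNReal.ofReal ((2 + |t|) ^ M) *
        (‖T.ell d ((p.1 : ℂ) + p.2 * I)‖ₑ ^ 2 * ENNReal.ofReal (((1 + |p.2|) ^ M)⁻¹)) := by
      have m1 : Measurable fun p : ℝ × ℝ => ‖T.ell d ((p.1 : ℂ) + p.2 * I)‖ₑ ^ 2 :=
        (hcont.measurable.enorm).pow_const 2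
      have m2 : Measurable fun p : ℝ × ℝ => ENNReal.ofReal (((1 + |p.2|) ^ M)⁻¹) :=
        ENNReal.measurable_ofReal.comp (by fun_prop)
      exact (m1.mul m2).const_mul _
    have h3 : G = (Set.Icc (1 / 2 - r) (1 / 2 + r) ×ˢ Set.univ).indicator
        (fun p : ℝ × ℝ => ENNReal.ofReal ((2 + |t|) ^ M) *
        (‖T.ell d ((p.1 : ℂ) + p.2 * I)‖ₑ ^ 2 * ENNReal.ofReal (((1 + |p.2|) ^ M)⁻¹))) := by
      funext p
      simp only [hG, Set.indicator_apply, Set.mem_prod, Set.mem_univ, and_true]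
    rw [h3]
    exact h2.indicator (measurableSet_Icc.prod MeasurableSet.univ)
  have h2 : ∫⁻ z in Metric.ball (1 / 2 + t * I : ℂ) r, ‖g z‖ₑ ≤
      ∫⁻ z : ℂ, G (Complex.measurableEquivRealProd z) := by
    rw [← lintegral_indicator Metric.isOpen_ball.measurableSet]
    refine lintegral_mono fun z => ?_
    by_cases hz : z ∈ Metric.ball (1 / 2 + t * I : ℂ) r
    · rw [Set.indicator_of_mem hz]
      rw [Metric.mem_ball, dist_eq_norm] at hz
      have hre : |z.re - 1 / 2| ≤ r := by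
        have h3 := (Complex.abs_re_le_norm (z - (1 / 2 + t * I))).trans hz.le
        have h4 : (z - (1 / 2 + t * I)).re = z.re - 1 / 2 := by simp
        rwa [h4] at h3
      have him : |z.im - t| ≤ r := by
        have h3 := (Complex.abs_im_le_norm (z - (1 / 2 + t * I))).trans hz.le
        have h4 : (z - (1 / 2 + t * I)).im = z.im - t := by simp
        rwa [h4] at h3
      have hz1 : z.re ∈ Set.Icc (1 / 2 - r) (1 / 2 + r) := by
        obtain ⟨h5, h6⟩ := abs_le.1 hre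
        exact ⟨by linarith, by linarith⟩
      have e2 : G (Complex.measurableEquivRealProd z) = ENNReal.ofReal ((2 + |t|) ^ M) *
          (‖T.ell d z‖ₑ ^ 2 * ENNReal.ofReal (((1 + |z.im|) ^ M)⁻¹)) := by
        have e3 : (Complex.measurableEquivRealProd z) = (z.re, z.im) := rfl
        rw [e3]
        simp only [hG]
        rw [Set.indicator_of_mem hz1]
        rw [Complex.re_add_im]
      rw [e2]
      have hy : |z.im| ≤ |t| + 1 := by
        have h5 : |z.im| ≤ |z.im - t| + |t| := by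
          calc |z.im| = |(z.im - t) + t| := by ring_nf
            _ ≤ _ := abs_add_le _ _
        linarith
      have h6 : (1 : ℝ≥0∞) ≤ ENNReal.ofReal ((2 + |t|) ^ M) *
          ENNReal.ofReal (((1 + |z.im|) ^ M)⁻¹) := by
        rw [← ENNReal.ofReal_mul (by positivity), ← ENNReal.ofReal_one]
        apply ENNReal.ofReal_le_ofReal
        rw [← div_eq_mul_inv, one_le_div (by positivity)]
        exact pow_le_pow_left₀ (by positivity) (by linarith) M
      calc ‖g z‖ₑ = ‖T.ell d z‖ₑ ^ 2 * 1 := by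
            simp only [hg]
            rw [enorm_pow, mul_one]
        _ ≤ ‖T.ell d z‖ₑ ^ 2 * (ENNReal.ofReal ((2 + |t|) ^ M) *
          ENNReal.ofReal (((1 + |z.im|) ^ M)⁻¹)) := by gcongr
        _ = _ := by ring
    · rw [Set.indicator_of_notMem hz]
      exact bot_le
  refine h2.trans ?_
  rw [Complex.volume_preserving_equiv_real_prod.lintegral_comp_emb
    Complex.measurableEquivRealProd.measurableEmbedding, Measure.volume_eq_prod,
    lintegral_prod _ hGm.aemeasurable]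
  have h3 : ∀ σ : ℝ, ∫⁻ y : ℝ, G (σ, y) = (Set.Icc (1 / 2 - r) (1 / 2 + r)).indicator
      (fun σ : ℝ => ENNReal.ofReal ((2 + |t|) ^ M) * ∫⁻ y : ℝ, ‖T.ell d (σ + y * I)‖ₑ ^ 2 *
      ENNReal.ofReal (((1 + |y|) ^ M)⁻¹)) σ := by
    intro σ
    simp only [hG, Set.indicator_apply]
    split_ifs with hσ
    · rw [lintegral_const_mul' _ _ ENNReal.ofReal_ne_top]
    · simp
  rw [lintegral_congr h3, lintegral_indicator measurableSet_Icc,
    lintegral_const_mul' _ _ ENNReal.ofReal_ne_top]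
  exact le_rfl

end

end Pool.Agent.Y19.QT
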