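import Pool.Agent.Y19.QT.Lin
import Pool.Agent.Y19.QT.Fac
import Pool.Agent.Y19.QT.Laws
import Pool.Agent.Y180.QT12b2b

set_option autoImplicit false

/-! Project QT: the Lindelöf bound, with powers of logarithms, for almost all twists. -/

namespace Pool.Agent.Y19.QT

open Complex Filter Topology MeasureTheory
open Pool.Agent.Y705.QT
open scoped ENNReal

noncomputable section

variable {Q : ℕ} {lam : ℕ → ℝ}

/-- `F_d` is bounded by `ell_d` on the critical line -/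
theorem F_le_ell (a b : ℤ) (hab : 4 * a ^ 3 + 27 * b ^ 2 ≠ 0) (T : Twists Q lam)
    (hQ : ∀ p : ℕ, p.Prime → (p : ℤ) ∣ 2 * (4 * a ^ 3 + 27 * b ^ 2) → p ∣ Q)
    (hlam : ∀ p : ℕ, p.Prime → ¬ p ∣ Q → lam p = ap a b p / Real.sqrt p)
    (d : ℤ) (hd : Squarefree d) (F : ℂ → ℂ) (hF : IsLFun (a * d ^ 2) (b * d ^ 3) F) (t : ℝ) :
    ‖F (1 + t * I)‖ ≤ 16 ^ Q.primeFactors.card * T.c * ‖T.ell d (1 / 2 + t * I)‖ := by
  obtain ⟨S, hS, hS2, hfac⟩ := Lq_fac a b hab T hQ hlam d hd F hF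
  have hre : (1 / 2 + t * I : ℂ).re = 1 / 2 := by simp
  have h1 := hfac (1 / 2 + t * I) (by rw [hre]; norm_num)
  have e1 : (1 / 2 + t * I + 1 / 2 : ℂ) = 1 + t * I := by ring
  rw [e1] at h1
  have hre1 : (1 + t * I : ℂ).re = 1 := by simp
  have h2 : (1 / 16 : ℝ) ^ Q.primeFactors.card ≤
      ‖∏ p ∈ S, pf (a * d ^ 2) (b * d ^ 3) (1 + t * I) p‖ := by
    rw [norm_prod]
    calc (1 / 16 : ℝ) ^ Q.primeFactors.card ≤ (1 / 16 : ℝ) ^ S.card :=
          pow_le_pow_of_le_one (by norm_num) (by norm_num) (Finset.card_le_card hS)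
      _ = ∏ _p ∈ S, (1 / 16 : ℝ) := by rw [Finset.prod_const]
      _ ≤ _ := Finset.prod_le_prod (fun _ _ => by norm_num) fun p hp =>
          pf_lb _ _ (Nat.prime_of_mem_primeFactors (hS hp)) (hS2 p hp) _ hre1
  have h3 : ‖T.Lq d (1 / 2 + t * I)‖ ≤ ‖T.ell d (1 / 2 + t * I)‖ * T.c := by
    have e : T.Lq d (1 / 2 + t * I) =
        T.ell d (1 / 2 + t * I) * Pool.Agent.Y180.QT12b2.Ep T d (1 / 2 + t * I) := rfl
    rw [e, norm_mul]
    exact mul_le_mul_of_nonneg_left (Pool.Agent.Y180.QT12b2.Ep_bound T hd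
      (by rw [hre]; norm_num)) (norm_nonneg _)
  rw [h1, norm_mul] at h3
  have h4 : ‖F (1 + t * I)‖ * (1 / 16 : ℝ) ^ Q.primeFactors.card ≤
      ‖T.ell d (1 / 2 + t * I)‖ * T.c :=
    (mul_le_mul_of_nonneg_left h2 (norm_nonneg _)).trans h3
  have h5 : ((1 / 16 : ℝ) ^ Q.primeFactors.card) * 16 ^ Q.primeFactors.card = 1 := by
    rw [← mul_pow]; norm_num
  calc ‖F (1 + t * I)‖ = ‖F (1 + t * I)‖ * ((1 / 16 : ℝ) ^ Q.primeFactors.card) *
        16 ^ Q.primeFactors.card := by rw [mul_assoc, h5, mul_one]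
    _ ≤ ‖T.ell d (1 / 2 + t * I)‖ * T.c * 16 ^ Q.primeFactors.card := by gcongr
    _ = _ := by ring

theorem isLFun_uniq {a b : ℤ} {F G : ℂ → ℂ} (hF : IsLFun a b F) (hG : IsLFun a b G) : F = G := by
  have hF' : AnalyticOnNhd ℂ F Set.univ := fun z _ => hF.1.analyticAt z
  have hG' : AnalyticOnNhd ℂ G Set.univ := fun z _ => hG.1.analyticAt z
  refine hF'.eq_of_eventuallyEq hG' (z₀ := 2) ?_
  have hmem : {s : ℂ | (3 : ℝ) / 2 < s.re} ∈ 𝓝 (2 : ℂ) :=
    (isOpen_lt continuous_const Complex.continuous_re).mem_nhds (by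
      show (3 : ℝ) / 2 < (2 : ℂ).re
      norm_num)
  filter_upwards [hmem] with s hs
  exact (hF.2 s hs).unique (hG.2 s hs)

theorem lindelofLaw_of {a b : ℤ} (hab : 4 * a ^ 3 + 27 * b ^ 2 ≠ 0) (h : HasTwists a b)
    (hL : ∀ d : ℤ, Squarefree d → ∃ F : ℂ → ℂ, IsLFun (a * d ^ 2) (b * d ^ 3) F) :
    LindelofLaw a b := by
  obtain ⟨Q, lam, ⟨T⟩, hQ, hlam⟩ := h
  refine ⟨fun d hd => ?_, fun F hF => ?_⟩
  · obtain ⟨F, hF⟩ := hL d hd
    exact ⟨F, hF, fun G hG => isLFun_uniq hG hF⟩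
  obtain ⟨C, A, B, hC, hW⟩ := WW_le T
  set k : ℝ := (16 ^ Q.primeFactors.card * T.c) ^ 2 / Real.pi with hk
  have hpi := Real.pi_pos
  have hTc := T.one_le_c
  have hk0 : 0 < k := by rw [hk]; positivity
  have hmax : ∀ (X : ℕ) (t : ℤ → ℝ), 3 ≤ X →
      ∑ d ∈ sqf X, ‖F d (1 + t d * I)‖ ^ 2 / (2 + |t d|) ^ (B + 2) ≤
        (k * 9 * (C * 8 * 3 ^ A)) * X * Real.log X ^ (A + 2) := by
    intro X t hX
    have hX0 : (0 : ℝ) < X := by exact_mod_cast (by omega : 0 < X)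
    have hX3 : (3 : ℝ) ≤ X := by exact_mod_cast hX
    have hl1 : 1 ≤ Real.log X := by
      rw [Real.le_log_iff_exp_le hX0]
      have h := Real.exp_one_lt_d9
      linarith
    set L8 : ℝ := Real.log ((8 * X : ℕ) : ℝ) with hL8
    have e8 : L8 = Real.log 8 + Real.log X := by
      rw [hL8]
      push_cast
      rw [Real.log_mul (by norm_num) hX0.ne']
    have h8a : Real.log 8 ≤ 2 * Real.log X := by
      have h3 : 2 * Real.log X = Real.log ((X : ℝ) ^ 2) := by rw [Real.log_pow]; push_cast; ring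
      rw [h3]
      apply Real.log_le_log (by norm_num)
      nlinarith
    have h8b : 1 ≤ Real.log 8 := by
      rw [Real.le_log_iff_exp_le (by norm_num)]
      have h := Real.exp_one_lt_d9
      linarith
    have hL2 : 2 ≤ L8 := by rw [e8]; linarith
    have hL3 : L8 ≤ 3 * Real.log X := by rw [e8]; linarith
    have hL0 : 0 < L8 := by linarith
    have hW' := hW (8 * X) (by omega) hL2
    have hsub : sqf X ⊆ sqf (8 * X) := by
      intro d hd
      rw [mem_sqf] at hd ⊢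
      refine ⟨hd.1.trans ?_, hd.2⟩
      push_cast
      have : (0 : ℤ) ≤ X := Int.natCast_nonneg X
      linarith
    have hr1 : 1 / L8 ≤ 1 := by rw [div_le_one hL0]; linarith
    have hpt : ∀ d ∈ sqf X, ENNReal.ofReal (‖F d (1 + t d * I)‖ ^ 2 / (2 + |t d|) ^ (B + 2)) ≤
        ENNReal.ofReal (k * L8 ^ 2) * WW T d (1 / L8) (B + 2) := by
      intro d hd
      have hsq : Squarefree d := (mem_sqf.1 hd).2
      have h1 := F_le_ell a b hab T hQ hlam d hsq (F d) (hF d hsq) (t d)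
      have h2 := pt_le T hsq (r := 1 / L8) (by positivity) hr1 (B + 2) (t d)
      set e : ℂ := T.ell d (1 / 2 + t d * I) with he
      have ht0 : 0 < (2 + |t d|) ^ (B + 2) := by positivity
      calc ENNReal.ofReal (‖F d (1 + t d * I)‖ ^ 2 / (2 + |t d|) ^ (B + 2))
          ≤ ENNReal.ofReal ((16 ^ Q.primeFactors.card * T.c * ‖e‖) ^ 2 / (2 + |t d|) ^ (B + 2)) := by
            apply ENNReal.ofReal_le_ofReal
            gcongr
        _ = ENNReal.ofReal (k * L8 ^ 2 / (2 + |t d|) ^ (B + 2)) *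
            (ENNReal.ofReal (Real.pi * (1 / L8) ^ 2) * ‖e‖ₑ ^ 2) := by
            rw [← ofReal_norm_eq_enorm, ← ENNReal.ofReal_pow (norm_nonneg _),
              ← ENNReal.ofReal_mul (by positivity), ← ENNReal.ofReal_mul (by positivity)]
            congr 1
            rw [hk]
            field_simp
        _ ≤ ENNReal.ofReal (k * L8 ^ 2 / (2 + |t d|) ^ (B + 2)) *
            (ENNReal.ofReal ((2 + |t d|) ^ (B + 2)) * WW T d (1 / L8) (B + 2)) := by gcongr
        _ = _ := by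
            rw [← mul_assoc, ← ENNReal.ofReal_mul (by positivity)]
            congr 2
            field_simp
    have hsum : ENNReal.ofReal (∑ d ∈ sqf X, ‖F d (1 + t d * I)‖ ^ 2 / (2 + |t d|) ^ (B + 2)) ≤
        ENNReal.ofReal (k * L8 ^ 2 * (C * (8 * X : ℕ) * L8 ^ A)) := by
      rw [ENNReal.ofReal_sum_of_nonneg (fun _ _ => by positivity)]
      calc _ ≤ ∑ d ∈ sqf X, ENNReal.ofReal (k * L8 ^ 2) * WW T d (1 / L8) (B + 2) :=
            Finset.sum_le_sum hpt
        _ ≤ ∑ d ∈ sqf (8 * X), ENNReal.ofReal (k * L8 ^ 2) * WW T d (1 / L8) (B + 2) :=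
            Finset.sum_le_sum_of_subset hsub
        _ = ENNReal.ofReal (k * L8 ^ 2) * ∑ d ∈ sqf (8 * X), WW T d (1 / L8) (B + 2) := by
            rw [Finset.mul_sum]
        _ ≤ ENNReal.ofReal (k * L8 ^ 2) * ENNReal.ofReal (C * (8 * X : ℕ) * L8 ^ A) := by gcongr
        _ = _ := (ENNReal.ofReal_mul (by positivity)).symm
    refine ((ENNReal.ofReal_le_ofReal_iff (by positivity)).1 hsum).trans ?_
    push_cast
    calc k * L8 ^ 2 * (C * (8 * (X : ℝ)) * L8 ^ A)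
        ≤ k * (3 * Real.log X) ^ 2 * (C * (8 * (X : ℝ)) * (3 * Real.log X) ^ A) := by gcongr
      _ = _ := by ring
  refine ⟨⟨_, A + 2, B + 2, hmax⟩, fun K => ?_⟩
  refine ⟨k * 9 * (C * 8 * 3 ^ A), A + B + K + 2, fun X S hX hS hSt => ?_⟩
  have hX0 : (0 : ℝ) < X := by exact_mod_cast (by omega : 0 < X)
  have hX3 : (3 : ℝ) ≤ X := by exact_mod_cast hX
  have hl1 : 1 ≤ Real.log X := by
    rw [Real.le_log_iff_exp_le hX0]
    have h := Real.exp_one_lt_d9
    linarith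
  have hl0 : 0 < Real.log X := by linarith
  choose! t ht using hSt
  have h1 := hmax X t hX
  have h2 : ∀ d ∈ S, Real.log X ^ (A + 2 + K) ≤
      ‖F d (1 + t d * I)‖ ^ 2 / (2 + |t d|) ^ (B + 2) := by
    intro d hd
    have h3 := (ht d hd).le
    have ht1 : (1 : ℝ) ≤ 2 + |t d| := by have := abs_nonneg (t d); linarith
    rw [le_div_iff₀ (by positivity)]
    calc Real.log X ^ (A + 2 + K) * (2 + |t d|) ^ (B + 2)
        ≤ Real.log X ^ (2 * (A + B + K + 2)) * (2 + |t d|) ^ (2 * (A + B + K + 2)) := by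
          gcongr
          · omega
          · omega
      _ = ((Real.log X * (2 + |t d|)) ^ (A + B + K + 2)) ^ 2 := by
          rw [← mul_pow, ← pow_mul]
          congr 1
          ring
      _ ≤ _ := pow_le_pow_left₀ (by positivity) h3 2
  have h3 : S.card * Real.log X ^ (A + 2 + K) ≤
      (k * 9 * (C * 8 * 3 ^ A)) * X * Real.log X ^ (A + 2) := by
    calc S.card * Real.log X ^ (A + 2 + K) = ∑ _d ∈ S, Real.log X ^ (A + 2 + K) := by
          rw [Finset.sum_const, nsmul_eq_mul]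
      _ ≤ ∑ d ∈ S, ‖F d (1 + t d * I)‖ ^ 2 / (2 + |t d|) ^ (B + 2) := Finset.sum_le_sum h2
      _ ≤ ∑ d ∈ sqf X, ‖F d (1 + t d * I)‖ ^ 2 / (2 + |t d|) ^ (B + 2) :=
          Finset.sum_le_sum_of_subset_of_nonneg hS fun _ _ _ => by positivity
      _ ≤ _ := h1
  rw [le_div_iff₀ (by positivity)]
  have h4 : 0 < Real.log X ^ (A + 2) := by positivity
  rw [pow_add] at h3
  refine le_of_mul_le_mul_right ?_ h4
  calc S.card * Real.log X ^ K * Real.log X ^ (A + 2) =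
        S.card * (Real.log X ^ (A + 2) * Real.log X ^ K) := by ring
    _ ≤ _ := h3

end

end Pool.Agent.Y19.QT
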