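import Pool.Agent.Y180.QT12d1

set_option autoImplicit false

/-!
Project QT: several zeros near `1/2` force a large mean value (generalisation of
`Pool.Agent.Y180.QT12d1` from one zero of order `r` to `r` zeros in a small disc).
-/

namespace Pool.Agent.Y19.QT.Low

open Complex MeasureTheory Filter Topology
open scoped ENNReal
open Pool.Agent.Y180.QT12d1

/-- at least `r` zeros (with multiplicities) in the closed disc of radius `κ` around `1/2` -/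
def Near (f : ℂ → ℂ) (κ : ℝ) (r : ℕ) : Prop :=
  ∃ (S : Finset ℂ) (m : ℂ → ℕ), (∀ ρ ∈ S, ‖ρ - 1 / 2‖ ≤ κ ∧ (m ρ : ℕ∞) ≤ analyticOrderAt f ρ) ∧
    ∑ ρ ∈ S, m ρ = r

/-- division by several zeros -/
theorem exists_quots {U : Set ℂ} (hU : IsOpen U) (m : ℂ → ℕ) (S : Finset ℂ) :
    ∀ {L : ℂ → ℂ}, DifferentiableOn ℂ L U →
      (∀ ρ ∈ S, ρ ∈ U ∧ (m ρ : ℕ∞) ≤ analyticOrderAt L ρ) →
      ∃ g : ℂ → ℂ, DifferentiableOn ℂ g U ∧ ∀ z ∈ U, L z = (∏ ρ ∈ S, (z - ρ) ^ m ρ) * g z := by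
  classical
  induction S using Finset.induction_on with
  | empty => intro L hL _; exact ⟨L, hL, fun z _ => by simp⟩
  | insert a S ha ih =>
    intro L hL h
    obtain ⟨g, hg, hLg⟩ := ih hL fun ρ hρ => h ρ (Finset.mem_insert_of_mem hρ)
    obtain ⟨haU, hao⟩ := h a (Finset.mem_insert_self a S)
    set P : ℂ → ℂ := fun z => ∏ ρ ∈ S, (z - ρ) ^ m ρ with hP
    have hPd : Differentiable ℂ P := by
      rw [hP]
      refine Differentiable.fun_finset_prod fun ρ _ => ?_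
      fun_prop
    have hPa : P a ≠ 0 := by
      rw [hP]
      refine Finset.prod_ne_zero_iff.2 fun ρ hρ => pow_ne_zero _ (sub_ne_zero.2 ?_)
      rintro rfl
      exact ha hρ
    have hga : AnalyticAt ℂ g a := hg.analyticAt (hU.mem_nhds haU)
    have hev : L =ᶠ[𝓝 a] P * g := by
      filter_upwards [hU.mem_nhds haU] with z hz
      exact hLg z hz
    have hord : (m a : ℕ∞) ≤ analyticOrderAt g a := by
      rw [analyticOrderAt_congr hev, analyticOrderAt_mul (hPd.analyticAt a) hga,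
        (hPd.analyticAt a).analyticOrderAt_eq_zero.2 hPa, zero_add] at hao
      exact hao
    obtain ⟨g', hg', hgg⟩ := exists_quot hU haU hg hord
    refine ⟨g', hg', fun z hz => ?_⟩
    rw [hLg z hz, hgg z hz, Finset.prod_insert ha]
    ring

/-- step A -/
theorem stepA {L M : ℂ → ℂ} {δ : ℝ} {r : ℕ} (hδ : 0 < δ)
    (hL : DifferentiableOn ℂ L (Metric.ball (1 / 2) (20 * δ)))
    (hM : DifferentiableOn ℂ M (Metric.ball (1 / 2) (20 * δ)))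
    (hr : Near L (δ / 20) r) {R : ℝ} (hR1 : 5 * δ ≤ R) (hR2 : R ≤ 8 * δ) :
    ENNReal.ofReal (2 * Real.pi) * ENNReal.ofReal ((79 / 21) ^ r * ‖L (1 / 2 + δ) * M (1 / 2 + δ)‖) ≤
      ∫⁻ θ in Set.Ioo (-Real.pi) Real.pi, ‖L (1 / 2 + δ + ((R * Real.cos θ : ℝ) +
        (R * Real.sin θ : ℝ) * I))‖ₑ * ‖M (1 / 2 + δ + ((R * Real.cos θ : ℝ) +
        (R * Real.sin θ : ℝ) * I))‖ₑ := by
  obtain ⟨S, m, hS, hSr⟩ := hr
  obtain ⟨g, hg1, hg2⟩ := exists_quots Metric.isOpen_ball m S hL fun ρ hρ => by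
    refine ⟨?_, (hS ρ hρ).2⟩
    rw [Metric.mem_ball, dist_eq_norm]
    have := (hS ρ hρ).1
    linarith
  have hR0 : 0 < R := by linarith
  have hsub : Metric.closedBall (1 / 2 + δ : ℂ) R ⊆ Metric.ball (1 / 2 : ℂ) (20 * δ) := by
    intro z hz
    rw [Metric.mem_closedBall, dist_eq_norm] at hz
    rw [Metric.mem_ball, dist_eq_norm]
    calc ‖z - 1 / 2‖ = ‖(z - (1 / 2 + δ)) + δ‖ := by congr 1; ring
      _ ≤ ‖z - (1 / 2 + δ)‖ + ‖(δ : ℂ)‖ := norm_add_le _ _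
      _ ≤ R + δ := by
        rw [Complex.norm_real, Real.norm_eq_abs, abs_of_pos hδ]
        linarith
      _ < 20 * δ := by linarith
  have h1 := circle (H := fun z => g z * M z) hR0 ((hg1.mul hM).mono hsub)
  have hc : ∀ θ : ℝ, circleMap (1 / 2 + δ : ℂ) R θ = 1 / 2 + δ + ((R * Real.cos θ : ℝ) +
      (R * Real.sin θ : ℝ) * I) := by
    intro θ
    unfold circleMap
    rw [Complex.exp_mul_I]
    push_cast
    ring
  have h2 : ∀ θ : ℝ, ENNReal.ofReal ((79 / 20 * δ) ^ r) *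
      ‖g (circleMap (1 / 2 + δ : ℂ) R θ) * M (circleMap (1 / 2 + δ : ℂ) R θ)‖ₑ ≤
      ‖L (1 / 2 + δ + ((R * Real.cos θ : ℝ) + (R * Real.sin θ : ℝ) * I))‖ₑ *
        ‖M (1 / 2 + δ + ((R * Real.cos θ : ℝ) + (R * Real.sin θ : ℝ) * I))‖ₑ := by
    intro θ
    rw [← hc θ]
    set z := circleMap (1 / 2 + δ : ℂ) R θ with hz
    have hzs : z ∈ Metric.closedBall (1 / 2 + δ : ℂ) R :=
      Metric.sphere_subset_closedBall (circleMap_mem_sphere _ hR0.le θ)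
    have hzd : ‖z - (1 / 2 + δ)‖ = R := by
      have := circleMap_mem_sphere (1 / 2 + δ : ℂ) hR0.le θ
      rwa [mem_sphere_iff_norm] at this
    have hza : ∀ ρ ∈ S, 79 / 20 * δ ≤ ‖z - ρ‖ := by
      intro ρ hρ
      have h5 : ‖z - (1 / 2 + δ)‖ ≤ ‖z - ρ‖ + ‖ρ - 1 / 2‖ + ‖(δ : ℂ)‖ := by
        have : z - (1 / 2 + δ) = ((z - ρ) + (ρ - 1 / 2)) - δ := by ring
        rw [this]
        exact (norm_sub_le _ _).trans (by gcongr; exact norm_add_le _ _)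
      have h6 := (hS ρ hρ).1
      rw [hzd, Complex.norm_real, Real.norm_eq_abs, abs_of_pos hδ] at h5
      linarith
    have h6 : L z = (∏ ρ ∈ S, (z - ρ) ^ m ρ) * g z := hg2 z (hsub hzs)
    have h7 : (79 / 20 * δ) ^ r ≤ ‖∏ ρ ∈ S, (z - ρ) ^ m ρ‖ := by
      rw [norm_prod, ← hSr, ← Finset.prod_pow_eq_pow_sum]
      refine Finset.prod_le_prod (fun ρ _ => by positivity) fun ρ hρ => ?_
      rw [norm_pow]
      exact pow_le_pow_left₀ (by positivity) (hza ρ hρ) _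
    rw [h6, enorm_mul, enorm_mul, ← mul_assoc]
    gcongr
    rw [← ofReal_norm]
    exact ENNReal.ofReal_le_ofReal h7
  have h3 : ENNReal.ofReal ((79 / 21) ^ r * ‖L (1 / 2 + δ) * M (1 / 2 + δ)‖) ≤
      ENNReal.ofReal ((79 / 20 * δ) ^ r) * ‖g (1 / 2 + δ) * M (1 / 2 + δ)‖ₑ := by
    have h6 : L (1 / 2 + δ) = (∏ ρ ∈ S, ((1 / 2 + δ : ℂ) - ρ) ^ m ρ) * g (1 / 2 + δ) :=
      hg2 _ (hsub (Metric.mem_closedBall_self hR0.le))
    have h7 : ‖∏ ρ ∈ S, ((1 / 2 + δ : ℂ) - ρ) ^ m ρ‖ ≤ (21 / 20 * δ) ^ r := by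
      rw [norm_prod, ← hSr, ← Finset.prod_pow_eq_pow_sum]
      refine Finset.prod_le_prod (fun ρ _ => norm_nonneg _) fun ρ hρ => ?_
      rw [norm_pow]
      refine pow_le_pow_left₀ (norm_nonneg _) ?_ _
      have h8 := (hS ρ hρ).1
      calc ‖(1 / 2 + δ : ℂ) - ρ‖ = ‖(δ : ℂ) - (ρ - 1 / 2)‖ := by congr 1; ring
        _ ≤ ‖(δ : ℂ)‖ + ‖ρ - 1 / 2‖ := norm_sub_le _ _
        _ ≤ δ + δ / 20 := by
          rw [Complex.norm_real, Real.norm_eq_abs, abs_of_pos hδ]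
          linarith
        _ = _ := by ring
    rw [h6, ← ofReal_norm, ← ENNReal.ofReal_mul (by positivity)]
    apply ENNReal.ofReal_le_ofReal
    rw [mul_assoc (∏ ρ ∈ S, ((1 / 2 + δ : ℂ) - ρ) ^ m ρ), norm_mul (∏ ρ ∈ S, ((1 / 2 + δ : ℂ) - ρ) ^ m ρ)]
    calc (79 / 21 : ℝ) ^ r * (‖∏ ρ ∈ S, ((1 / 2 + δ : ℂ) - ρ) ^ m ρ‖ *
          ‖g (1 / 2 + δ) * M (1 / 2 + δ)‖)
        ≤ (79 / 21 : ℝ) ^ r * ((21 / 20 * δ) ^ r * ‖g (1 / 2 + δ) * M (1 / 2 + δ)‖) := by gcongr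
      _ = (79 / 20 * δ) ^ r * ‖g (1 / 2 + δ) * M (1 / 2 + δ)‖ := by
        rw [← mul_assoc, ← mul_pow]
        congr 2
        ring
  calc ENNReal.ofReal (2 * Real.pi) * ENNReal.ofReal ((79 / 21) ^ r *
        ‖L (1 / 2 + δ) * M (1 / 2 + δ)‖)
      ≤ ENNReal.ofReal (2 * Real.pi) * (ENNReal.ofReal ((79 / 20 * δ) ^ r) *
        ‖g (1 / 2 + δ) * M (1 / 2 + δ)‖ₑ) := by gcongr
    _ = ENNReal.ofReal ((79 / 20 * δ) ^ r) * (ENNReal.ofReal (2 * Real.pi) *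
        ‖g (1 / 2 + δ) * M (1 / 2 + δ)‖ₑ) := by ring
    _ ≤ ENNReal.ofReal ((79 / 20 * δ) ^ r) * ∫⁻ θ in Set.Ioo (-Real.pi) Real.pi,
        ‖g (circleMap (1 / 2 + δ : ℂ) R θ) * M (circleMap (1 / 2 + δ : ℂ) R θ)‖ₑ := by gcongr
    _ = ∫⁻ θ in Set.Ioo (-Real.pi) Real.pi, ENNReal.ofReal ((79 / 20 * δ) ^ r) *
        ‖g (circleMap (1 / 2 + δ : ℂ) R θ) * M (circleMap (1 / 2 + δ : ℂ) R θ)‖ₑ := by
        rw [lintegral_const_mul' _ _ ENNReal.ofReal_ne_top]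
    _ ≤ _ := lintegral_mono fun θ => h2 θ

/-- step B -/
theorem stepB {L M : ℂ → ℂ} {δ : ℝ} {r : ℕ} (hδ : 0 < δ)
    (hL : DifferentiableOn ℂ L (Metric.ball (1 / 2) (20 * δ)))
    (hM : DifferentiableOn ℂ M (Metric.ball (1 / 2) (20 * δ)))
    (hr : Near L (δ / 20) r) :
    ENNReal.ofReal (3 * δ * (5 * δ)) * (ENNReal.ofReal (2 * Real.pi) *
      ENNReal.ofReal ((79 / 21) ^ r * ‖L (1 / 2 + δ) * M (1 / 2 + δ)‖)) ≤
      ∫⁻ p in Sq δ, ‖L (pt δ p)‖ₑ * ‖M (pt δ p)‖ₑ := by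
  set Φ : ℝ × ℝ → ℝ≥0∞ := (Sq δ).indicator fun p => ‖L (pt δ p)‖ₑ * ‖M (pt δ p)‖ₑ with hΦ
  rw [← lintegral_indicator (measurableSet_Sq δ), ← hΦ, ← lintegral_comp_polarCoord_symm]
  set A : Set (ℝ × ℝ) := Set.Icc (5 * δ) (8 * δ) ×ˢ Set.Ioo (-Real.pi) Real.pi with hA
  have hAt : A ⊆ polarCoord.target := by
    rintro ⟨R, θ⟩ ⟨hR, hθ⟩
    rw [polarCoord_target]
    refine ⟨?_, hθ⟩
    have h1 : 5 * δ ≤ R := hR.1
    exact lt_of_lt_of_le (by positivity) h1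
  have hsq : ∀ R θ : ℝ, 5 * δ ≤ R → R ≤ 8 * δ → (R * Real.cos θ, R * Real.sin θ) ∈ Sq δ := by
    intro R θ h1 h2
    have hR0 : 0 ≤ R := by linarith
    refine ⟨abs_le.1 ?_, abs_le.1 ?_⟩
    · dsimp only
      rw [abs_mul, abs_of_nonneg hR0]
      exact (mul_le_of_le_one_right hR0 (Real.abs_cos_le_one θ)).trans h2
    · dsimp only
      rw [abs_mul, abs_of_nonneg hR0]
      exact (mul_le_of_le_one_right hR0 (Real.abs_sin_le_one θ)).trans h2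
  have hAm : MeasurableSet A := measurableSet_Icc.prod measurableSet_Ioo
  have h1 : ∫⁻ p in A, ENNReal.ofReal p.1 * (‖L (pt δ (p.1 * Real.cos p.2, p.1 * Real.sin p.2))‖ₑ *
      ‖M (pt δ (p.1 * Real.cos p.2, p.1 * Real.sin p.2))‖ₑ) ≤
      ∫⁻ p in polarCoord.target, ENNReal.ofReal p.1 • Φ (polarCoord.symm p) := by
    refine le_trans (le_of_eq ?_) (lintegral_mono_set hAt)
    refine setLIntegral_congr_fun hAm ?_
    rintro ⟨R, θ⟩ ⟨hR, hθ⟩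
    dsimp only
    rw [polarCoord_symm_apply, hΦ, Set.indicator_of_mem (hsq R θ hR.1 hR.2), smul_eq_mul]
  refine le_trans ?_ h1
  have hcont : ContinuousOn (fun p : ℝ × ℝ => ((p.1 * Real.cos p.2, p.1 * Real.sin p.2) : ℝ × ℝ)) A :=
    (by fun_prop : Continuous (fun p : ℝ × ℝ =>
      ((p.1 * Real.cos p.2, p.1 * Real.sin p.2) : ℝ × ℝ))).continuousOn
  have hmaps : Set.MapsTo (fun p : ℝ × ℝ => ((p.1 * Real.cos p.2, p.1 * Real.sin p.2) : ℝ × ℝ)) A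
      (Sq δ) := by
    rintro ⟨R, θ⟩ ⟨hR, hθ⟩
    exact hsq R θ hR.1 hR.2
  have hmeas : AEMeasurable (fun p : ℝ × ℝ => ENNReal.ofReal p.1 *
      (‖L (pt δ (p.1 * Real.cos p.2, p.1 * Real.sin p.2))‖ₑ *
      ‖M (pt δ (p.1 * Real.cos p.2, p.1 * Real.sin p.2))‖ₑ))
      ((volume.restrict (Set.Icc (5 * δ) (8 * δ))).prod
        (volume.restrict (Set.Ioo (-Real.pi) Real.pi))) := by
    rw [Measure.prod_restrict]
    have hl := ((contOn hδ hL).comp hcont hmaps).aestronglyMeasurable hAm (μ := volume)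
    have hm := ((contOn hδ hM).comp hcont hmaps).aestronglyMeasurable hAm (μ := volume)
    exact (measurable_fst.ennreal_ofReal.aemeasurable).mul (hl.enorm.mul hm.enorm)
  rw [Measure.volume_eq_prod, ← Measure.prod_restrict, lintegral_prod _ hmeas]
  calc ENNReal.ofReal (3 * δ * (5 * δ)) * (ENNReal.ofReal (2 * Real.pi) *
        ENNReal.ofReal ((79 / 21) ^ r * ‖L (1 / 2 + δ) * M (1 / 2 + δ)‖))
      = ∫⁻ _ in Set.Icc (5 * δ) (8 * δ), ENNReal.ofReal (5 * δ) * (ENNReal.ofReal (2 * Real.pi) *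
        ENNReal.ofReal ((79 / 21) ^ r * ‖L (1 / 2 + δ) * M (1 / 2 + δ)‖)) := by
        rw [setLIntegral_const, Real.volume_Icc, ENNReal.ofReal_mul (by positivity)]
        rw [show 8 * δ - 5 * δ = 3 * δ by ring]
        ring
    _ ≤ _ := by
        refine setLIntegral_mono' measurableSet_Icc fun R hR => ?_
        dsimp only
        have hA2 := stepA hδ hL hM hr hR.1 hR.2
        rw [lintegral_const_mul' _ _ ENNReal.ofReal_ne_top]
        refine mul_le_mul' (ENNReal.ofReal_le_ofReal hR.1) ?_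
        exact hA2

end Pool.Agent.Y19.QT.Low
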