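import Pool.Agent.Y19.QT.MA
import Pool.Agent.Y19.QT.Fams
import Pool.Agent.Y73.QMQ1
import Pool.Agent.Y366.QMQ3
import Pool.Agent.Y914.QMQ4

set_option autoImplicit false

/-! Project QT, multiquadratic fields: the results on ranks and orders of vanishing. -/

namespace Pool.Agent.Y19.QT

theorem s_MQ1 : S_MQ1 := fun a b hab n d hd G hG K _ _ x hx hK =>
  Pool.Agent.Y73.QMQ1.MQ1 a b hab n d hd G hG K x hx hK

theorem s_MQ3 : S_MQ3 := Pool.Agent.Y366.QMQ3.MQ3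

theorem s_MQ4 : S_MQ4 := Pool.Agent.Y914.QMQ4.MQ4

theorem multiLaw_fam {a b : ℤ} (h : Fam a b) : MultiLaw a b :=
  multiLaw_of s_MQ1 s_MQ3 s_MQ4 h.disc h.data.1 h.data.2

theorem multiLaw_modular {a b : ℤ} (hab : 4 * a ^ 3 + 27 * b ^ 2 ≠ 0) (h : TwistsModular a b) :
    MultiLaw a b :=
  multiLaw_of s_MQ1 s_MQ3 s_MQ4 hab (hasTwists_of a b hab h) (exists_LFun a b hab h)

end Pool.Agent.Y19.QT
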