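import Pool.Agent.Y19.QT.MV
import Pool.Agent.Y19.QT.LawsL
import Pool.Agent.Y19.QT.Lin2
import Pool.Agent.Y19.QT.Fams
import Pool.Agent.Y19.QT.Fin

set_option autoImplicit false

/-! Project QT: the Lindelöf bound over multiquadratic fields. -/

namespace Pool.Agent.Y19.QT

open Complex NumberField
open Pool.Agent.Y705.QT (pf)

theorem Fam.twist {a b : ℤ} (h : Fam a b) {g : ℤ} (hg : g ≠ 0) : Fam (a * g ^ 2) (b * g ^ 3) := by
  rcases h with ⟨ha, rfl⟩ | ⟨rfl, hb⟩ | ⟨k, hk, ⟨rfl, rfl⟩ | ⟨rfl, rfl⟩⟩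
  · exact Or.inl ⟨mul_ne_zero ha (pow_ne_zero _ hg), by ring⟩
  · exact Or.inr (Or.inl ⟨by ring, mul_ne_zero hb (pow_ne_zero _ hg)⟩)
  · exact Or.inr (Or.inr ⟨k * g, mul_ne_zero hk hg, Or.inl ⟨by ring, by ring⟩⟩)
  · exact Or.inr (Or.inr ⟨k * g, mul_ne_zero hk hg, Or.inr ⟨by ring, by ring⟩⟩)

theorem pf_ub (a b : ℤ) {p : ℕ} (hp : p.Prime) (hp2 : p ≠ 2) (s : ℂ) (hs : s.re = 1) :
    ‖pf a b s p‖ ≤ 4 := by
  have hp0 : (0 : ℝ) < p := by exact_mod_cast hp.pos
  have hp1 : (2 : ℝ) ≤ p := by exact_mod_cast hp.two_le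
  have hh := Pool.Agent.Y203.QTZ5.hasse a b hp hp2
  have h1 : ‖(p : ℂ) ^ (-s)‖ = (p : ℝ)⁻¹ := by
    rw [norm_natCast_cpow_of_pos hp.pos, neg_re, hs, Real.rpow_neg_one]
  have h2 : ‖(p : ℂ) ^ (1 - 2 * s)‖ = (p : ℝ)⁻¹ := by
    rw [norm_natCast_cpow_of_pos hp.pos]
    have : (1 - 2 * s).re = -1 := by
      simp [hs]
      norm_num
    rw [this, Real.rpow_neg_one]
  have h3 : ‖(ap a b p : ℂ)‖ ≤ 2 * Real.sqrt p := by
    rw [Complex.norm_intCast]
    exact hh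
  have h4 : Real.sqrt p ≤ p := by
    rw [Real.sqrt_le_left hp0.le]
    nlinarith
  unfold pf
  calc ‖(1 : ℂ) - (ap a b p : ℂ) * (p : ℂ) ^ (-s) + (p : ℂ) ^ (1 - 2 * s)‖
      ≤ ‖(1 : ℂ)‖ + ‖(ap a b p : ℂ) * (p : ℂ) ^ (-s)‖ + ‖(p : ℂ) ^ (1 - 2 * s)‖ :=
        (norm_add_le _ _).trans (add_le_add_left (norm_sub_le _ _) _)
    _ ≤ 1 + 2 * Real.sqrt p * (p : ℝ)⁻¹ + (p : ℝ)⁻¹ := by
        rw [norm_one, norm_mul, h1, h2]
        gcongr
    _ ≤ 4 := by
        have h5 : Real.sqrt p * (p : ℝ)⁻¹ ≤ 1 := by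
          rw [← div_eq_mul_inv, div_le_one hp0]
          exact h4
        have h6 : (p : ℝ)⁻¹ ≤ 1 := inv_le_one_of_one_le₀ (by linarith)
        linarith

/-- the `L`-function over `K` as a product -/
theorem multi_fac {a b : ℤ} (hab : 4 * a ^ 3 + 27 * b ^ 2 ≠ 0)
    (hL : ∀ g : ℤ, g ≠ 0 → LindelofLaw (a * g ^ 2) (b * g ^ 3)) {n : ℕ} {e : Fin n → ℤ} (he : Indep e)
    (K : Type) [Field K] [NumberField K] (x : Fin n → K) (hx : ∀ i, x i ^ 2 = (e i : K))
    (hK : IntermediateField.adjoin ℚ (Set.range x) = ⊤)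
    (G : Finset (Fin n) → ℤ → ℂ → ℂ) (hG : ∀ T, ∀ d : ℤ, Squarefree d →
      IsLFun (a * (∏ i ∈ T, e i) ^ 2 * d ^ 2) (b * (∏ i ∈ T, e i) ^ 3 * d ^ 3) (G T d))
    (d : ℤ) (hd : Squarefree d) :
    ∃ F : ℂ → ℂ, IsLFunK K (a * d ^ 2) (b * d ^ 3) (∏ i, e i) F ∧ ∀ s : ℂ, s.re = 1 →
      ‖F s‖ ≤ ∏ T : Finset (Fin n), (4 ^ (∏ i, e i).natAbs.primeFactors.card * ‖G T d s‖) := by
  have hab' : 4 * (a * d ^ 2) ^ 3 + 27 * (b * d ^ 3) ^ 2 ≠ 0 := by
    have : 4 * (a * d ^ 2) ^ 3 + 27 * (b * d ^ 3) ^ 2 = (4 * a ^ 3 + 27 * b ^ 2) * d ^ 6 := by ring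
    rw [this]
    exact mul_ne_zero hab (pow_ne_zero _ hd.ne_zero)
  obtain ⟨S, hS, hS2, hF⟩ := MQ1V (a * d ^ 2) (b * d ^ 3) hab' n e he (fun T => G T d) (fun T => by
    have h := hG T d hd
    have e1 : a * (∏ i ∈ T, e i) ^ 2 * d ^ 2 = a * d ^ 2 * (∏ i ∈ T, e i) ^ 2 := by ring
    have e2 : b * (∏ i ∈ T, e i) ^ 3 * d ^ 3 = b * d ^ 3 * (∏ i ∈ T, e i) ^ 3 := by ring
    rw [e1, e2] at h
    exact h) K x hx hK
  refine ⟨_, hF, fun s hs => ?_⟩
  rw [norm_prod]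
  refine Finset.prod_le_prod (fun _ _ => norm_nonneg _) fun T _ => ?_
  rw [norm_mul, mul_comm, norm_prod]
  refine mul_le_mul_of_nonneg_right ?_ (norm_nonneg _)
  calc ∏ p ∈ S T, ‖pf (a * d ^ 2 * (∏ i ∈ T, e i) ^ 2) (b * d ^ 3 * (∏ i ∈ T, e i) ^ 3) s p‖
      ≤ ∏ p ∈ S T, (4 : ℝ) := Finset.prod_le_prod (fun _ _ => norm_nonneg _) fun p hp =>
        pf_ub _ _ (Nat.prime_of_mem_primeFactors (hS T hp)) (hS2 T p hp) s hs
    _ = 4 ^ (S T).card := by rw [Finset.prod_const]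
    _ ≤ _ := pow_le_pow_right₀ (by norm_num) (Finset.card_le_card (hS T))

/-- the arithmetic-geometric mean inequality -/
theorem amgm {n : ℕ} (y : Finset (Fin n) → ℝ) (hy : ∀ T, 0 ≤ y T) :
    (∏ T, y T) ^ ((2 : ℝ) / 2 ^ n) ≤ ∑ T, y T ^ 2 := by
  classical
  have hN : (Fintype.card (Finset (Fin n)) : ℝ) = 2 ^ n := by
    rw [Fintype.card_finset, Fintype.card_fin]
    push_cast
    rfl
  have hpos : (0 : ℝ) < 2 ^ n := by positivity
  have h := Real.geom_mean_le_arith_mean_weighted Finset.univ (fun _ : Finset (Fin n) => (1 : ℝ) / 2 ^ n)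
    (fun T => y T ^ 2) (fun _ _ => by positivity) (by
      rw [Finset.sum_const, Finset.card_univ, nsmul_eq_mul, hN]
      field_simp) (fun T _ => by positivity)
  have e1 : (∏ T, y T) ^ ((2 : ℝ) / 2 ^ n) = ∏ T, (y T ^ 2) ^ ((1 : ℝ) / 2 ^ n) := by
    rw [← Real.finset_prod_rpow _ _ (fun T _ => hy T)]
    refine Finset.prod_congr rfl fun T _ => ?_
    have e2 : y T ^ 2 = y T ^ (2 : ℝ) := by
      rw [← Real.rpow_natCast]
      norm_num
    rw [e2, ← Real.rpow_mul (hy T)]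
    congr 1
    ring
  rw [e1]
  refine h.trans ?_
  refine Finset.sum_le_sum fun T _ => ?_
  have : (1 : ℝ) / 2 ^ n ≤ 1 := by
    rw [div_le_one hpos]
    exact one_le_pow₀ (by norm_num)
  calc (1 : ℝ) / 2 ^ n * y T ^ 2 ≤ 1 * y T ^ 2 := mul_le_mul_of_nonneg_right this (by positivity)
    _ = _ := one_mul _

theorem multiLindelof_of {a b : ℤ} (hab : 4 * a ^ 3 + 27 * b ^ 2 ≠ 0)
    (hL : ∀ g : ℤ, g ≠ 0 → LindelofLaw (a * g ^ 2) (b * g ^ 3)) : MultiLindelofLaw a b := by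
  classical
  intro n e he K _ _ x hx hK
  have hne : ∀ T : Finset (Fin n), ∏ i ∈ T, e i ≠ 0 :=
    fun T => Finset.prod_ne_zero_iff.2 fun i _ => he.ne i
  have hex : ∀ T : Finset (Fin n), ∃ G : ℤ → ℂ → ℂ, ∀ d : ℤ, Squarefree d →
      IsLFun (a * (∏ i ∈ T, e i) ^ 2 * d ^ 2) (b * (∏ i ∈ T, e i) ^ 3 * d ^ 3) (G d) := by
    intro T
    have h := (hL _ (hne T)).1
    choose! G hG using fun d (hd : Squarefree d) => (h d hd).exists
    exact ⟨G, hG⟩
  choose G hG using hex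
  have hfac := fun d (hd : Squarefree d) => multi_fac hab hL he K x hx hK G hG d hd
  refine ⟨fun d hd => ?_, fun F hF => ?_⟩
  · obtain ⟨F, hF, -⟩ := hfac d hd
    exact ⟨F, hF, fun H hH => isLFunK_unique hH hF⟩
  -- the bound for `F`
  set M : ℝ := 4 ^ (∏ i, e i).natAbs.primeFactors.card with hM
  have hM1 : 1 ≤ M := one_le_pow₀ (by norm_num)
  have hM0 : 0 < M := by linarith
  have hbd : ∀ d : ℤ, Squarefree d → ∀ t : ℝ,
      ‖F d (1 + t * I)‖ ≤ ∏ T : Finset (Fin n), (M * ‖G T d (1 + t * I)‖) := by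
    intro d hd t
    obtain ⟨H, hH, hb⟩ := hfac d hd
    rw [isLFunK_unique (hF d hd) hH]
    exact hb _ (by simp)
  choose C0 A0 B0 h0 using fun T : Finset (Fin n) => ((hL _ (hne T)).2 (G T) (hG T)).1
  have h0' : ∀ T, ∀ (X : ℕ) (t : ℤ → ℝ), 3 ≤ X →
      ∑ d ∈ sqf X, ‖G T d (1 + t d * I)‖ ^ 2 / (2 + |t d|) ^ (∑ T, B0 T) ≤
        |C0 T| * X * Real.log X ^ (∑ T, A0 T) := by
    intro T X t hX
    have hX0 : (0 : ℝ) < X := by exact_mod_cast (by omega : 0 < X)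
    have hl1 := one_le_log hX
    calc _ ≤ ∑ d ∈ sqf X, ‖G T d (1 + t d * I)‖ ^ 2 / (2 + |t d|) ^ (B0 T) := by
          refine Finset.sum_le_sum fun d _ => ?_
          have ht1 : (1 : ℝ) ≤ 2 + |t d| := by have := abs_nonneg (t d); linarith
          have : B0 T ≤ ∑ T, B0 T :=
            Finset.single_le_sum (f := B0) (fun _ _ => Nat.zero_le _) (Finset.mem_univ T)
          gcongr
      _ ≤ C0 T * X * Real.log X ^ (A0 T) := h0 T X t hX
      _ ≤ |C0 T| * X * Real.log X ^ (A0 T) := by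
          gcongr
          exact le_abs_self _
      _ ≤ _ := by
          have : A0 T ≤ ∑ T, A0 T :=
            Finset.single_le_sum (f := A0) (fun _ _ => Nat.zero_le _) (Finset.mem_univ T)
          gcongr
  set A : ℕ := ∑ T, A0 T with hA
  set B : ℕ := ∑ T, B0 T with hB
  set C : ℝ := M ^ 2 * ∑ T, |C0 T| with hC
  have hC0 : 0 ≤ C := by rw [hC]; positivity
  have hN0 : (0 : ℝ) < 2 ^ n := by positivity
  have hmax : ∀ (X : ℕ) (t : ℤ → ℝ), 3 ≤ X →
      ∑ d ∈ sqf X, ‖F d (1 + t d * I)‖ ^ ((2 : ℝ) / 2 ^ n) / (2 + |t d|) ^ B ≤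
        C * X * Real.log X ^ A := by
    intro X t hX
    calc _ ≤ ∑ d ∈ sqf X, (∑ T : Finset (Fin n), (M * ‖G T d (1 + t d * I)‖) ^ 2) /
          (2 + |t d|) ^ B := by
          refine Finset.sum_le_sum fun d hd => ?_
          have hsq := (mem_sqf.1 hd).2
          have h1 := hbd d hsq (t d)
          have ht1 : (0 : ℝ) < 2 + |t d| := by have := abs_nonneg (t d); linarith
          gcongr
          refine (Real.rpow_le_rpow (norm_nonneg _) h1 (by positivity)).trans ?_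
          exact amgm _ fun T => by positivity
      _ = ∑ d ∈ sqf X, ∑ T : Finset (Fin n),
          M ^ 2 * (‖G T d (1 + t d * I)‖ ^ 2 / (2 + |t d|) ^ B) := by
          refine Finset.sum_congr rfl fun d _ => ?_
          rw [Finset.sum_div]
          refine Finset.sum_congr rfl fun T _ => ?_
          rw [mul_pow, mul_div_assoc]
      _ = ∑ T : Finset (Fin n), M ^ 2 *
          ∑ d ∈ sqf X, ‖G T d (1 + t d * I)‖ ^ 2 / (2 + |t d|) ^ B := by
          rw [Finset.sum_comm]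
          refine Finset.sum_congr rfl fun T _ => ?_
          rw [Finset.mul_sum]
      _ ≤ ∑ T : Finset (Fin n), M ^ 2 * (|C0 T| * X * Real.log X ^ A) := by
          refine Finset.sum_le_sum fun T _ => ?_
          exact mul_le_mul_of_nonneg_left (h0' T X t hX) (by positivity)
      _ = C * X * Real.log X ^ A := by
          rw [hC, Finset.mul_sum, Finset.sum_mul, Finset.sum_mul]
          refine Finset.sum_congr rfl fun T _ => ?_
          ring
  have hn1 : (1 : ℝ) ≤ 2 ^ n := one_le_pow₀ (by norm_num)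
  have hmax1 : ∀ (X : ℕ) (t : ℤ → ℝ), 3 ≤ X →
      ∑ d ∈ sqf X, ‖F d (1 + t d * I)‖ ^ ((2 : ℝ) / 2 ^ n) / (2 + |t d|) ^ (B * 2 ^ n) ≤
        C * X * Real.log X ^ A := by
    intro X t hX
    refine le_trans (Finset.sum_le_sum fun d _ => ?_) (hmax X t hX)
    have ht1 : (1 : ℝ) ≤ 2 + |t d| := by have := abs_nonneg (t d); linarith
    have : B ≤ B * 2 ^ n := Nat.le_mul_of_pos_right _ (by positivity)
    gcongr
  refine ⟨⟨C, A, B * 2 ^ n, hmax1, fun X β S hX hβ hS hSt => ?_⟩, fun k => ?_⟩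
  · -- large values
    have hX0 : (0 : ℝ) < X := by exact_mod_cast (by omega : 0 < X)
    have hl1 := one_le_log hX
    choose! t ht using hSt
    have h1 := hmax X t hX
    have hS' : (S.card : ℝ) * (X : ℝ) ^ (2 * β / 2 ^ n) ≤ C * X * Real.log X ^ A := by
      calc (S.card : ℝ) * (X : ℝ) ^ (2 * β / 2 ^ n) = ∑ _d ∈ S, (X : ℝ) ^ (2 * β / 2 ^ n) := by
            rw [Finset.sum_const, nsmul_eq_mul]
        _ ≤ ∑ d ∈ S, ‖F d (1 + t d * I)‖ ^ ((2 : ℝ) / 2 ^ n) / (2 + |t d|) ^ B := by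
            refine Finset.sum_le_sum fun d hd => ?_
            have h3 := (ht d hd).le
            have ht1 : (1 : ℝ) ≤ 2 + |t d| := by have := abs_nonneg (t d); linarith
            have ht0 : (0 : ℝ) < 2 + |t d| := by linarith
            rw [le_div_iff₀ (by positivity)]
            have h4 : (X : ℝ) ^ (2 * β / 2 ^ n) * (2 + |t d|) ^ B ≤
                ((X : ℝ) ^ β * (2 + |t d|) ^ (B * 2 ^ n)) ^ ((2 : ℝ) / 2 ^ n) := by
              rw [Real.mul_rpow (by positivity) (by positivity), ← Real.rpow_mul hX0.le]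
              have e1 : β * (2 / 2 ^ n) = 2 * β / 2 ^ n := by ring
              rw [e1]
              refine mul_le_mul_of_nonneg_left ?_ (by positivity)
              rw [← Real.rpow_natCast (2 + |t d|) (B * 2 ^ n), ← Real.rpow_mul ht0.le]
              have e2 : ((B * 2 ^ n : ℕ) : ℝ) * (2 / 2 ^ n) = ((2 * B : ℕ) : ℝ) := by
                push_cast
                field_simp
              rw [e2, Real.rpow_natCast]
              exact pow_le_pow_right₀ ht1 (by omega)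
            exact h4.trans (Real.rpow_le_rpow (by positivity) h3 (by positivity))
        _ ≤ ∑ d ∈ sqf X, ‖F d (1 + t d * I)‖ ^ ((2 : ℝ) / 2 ^ n) / (2 + |t d|) ^ B :=
            Finset.sum_le_sum_of_subset_of_nonneg hS fun _ _ _ => by positivity
        _ ≤ _ := h1
    have h5 : (X : ℝ) ^ (1 - 2 * β / 2 ^ n) = X / (X : ℝ) ^ (2 * β / 2 ^ n) := by
      rw [Real.rpow_sub hX0, Real.rpow_one]
    have h6 : (0 : ℝ) < (X : ℝ) ^ (2 * β / 2 ^ n) := Real.rpow_pos_of_pos hX0 _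
    rw [h5]
    have h7 : C * (X / (X : ℝ) ^ (2 * β / 2 ^ n)) * Real.log X ^ A =
        (C * X * Real.log X ^ A) / (X : ℝ) ^ (2 * β / 2 ^ n) := by ring
    rw [h7, le_div_iff₀ h6]
    exact hS'
  · -- almost all
    choose C1 k1 h1 using fun T : Finset (Fin n) => ((hL _ (hne T)).2 (G T) (hG T)).2 k
    obtain ⟨m, hm⟩ : ∃ m : ℕ, M ^ Fintype.card (Finset (Fin n)) ≤ (2 : ℝ) ^ m := by
      obtain ⟨m, hm⟩ := pow_unbounded_of_one_lt (M ^ Fintype.card (Finset (Fin n)))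
        (one_lt_two : (1 : ℝ) < 2)
      exact ⟨m, hm.le⟩
    refine ⟨∑ T, C1 T, ∑ T, k1 T + m, fun X S hX hS hSt => ?_⟩
    have hX0 : (0 : ℝ) < X := by exact_mod_cast (by omega : 0 < X)
    have hl1 := one_le_log hX
    set ST : Finset (Fin n) → Finset ℤ := fun T => S.filter fun d =>
      ∃ t : ℝ, (Real.log X * (2 + |t|)) ^ k1 T < ‖G T d (1 + t * I)‖ with hST
    have hcov : S ⊆ Finset.univ.biUnion ST := by
      intro d hd
      obtain ⟨t, ht⟩ := hSt d hd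
      rw [Finset.mem_biUnion]
      by_contra hcon
      push Not at hcon
      have h2 : ∀ T : Finset (Fin n), ‖G T d (1 + t * I)‖ ≤ (Real.log X * (2 + |t|)) ^ k1 T := by
        intro T
        by_contra h3
        push Not at h3
        exact hcon T (Finset.mem_univ _) (Finset.mem_filter.2 ⟨hd, t, h3⟩)
      have h3 := hbd d (mem_sqf.1 (hS hd)).2 t
      have hL2 : (2 : ℝ) ≤ Real.log X * (2 + |t|) := by
        have := abs_nonneg t
        nlinarith
      have hL1 : (1 : ℝ) ≤ Real.log X * (2 + |t|) := by linarith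
      have h4 : ∏ T : Finset (Fin n), (M * ‖G T d (1 + t * I)‖) ≤
          (Real.log X * (2 + |t|)) ^ (∑ T, k1 T + m) := by
        calc _ ≤ ∏ T : Finset (Fin n), (M * (Real.log X * (2 + |t|)) ^ k1 T) :=
              Finset.prod_le_prod (fun _ _ => by positivity) fun T _ =>
                mul_le_mul_of_nonneg_left (h2 T) hM0.le
          _ = M ^ Fintype.card (Finset (Fin n)) * (Real.log X * (2 + |t|)) ^ (∑ T, k1 T) := by
              rw [Finset.prod_mul_distrib, Finset.prod_const, Finset.card_univ,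
                Finset.prod_pow_eq_pow_sum]
          _ ≤ (Real.log X * (2 + |t|)) ^ m * (Real.log X * (2 + |t|)) ^ (∑ T, k1 T) := by
              refine mul_le_mul_of_nonneg_right (hm.trans ?_) (by positivity)
              exact pow_le_pow_left₀ (by norm_num) hL2 m
          _ = _ := by rw [← pow_add, add_comm m]
      exact absurd (ht.trans_le (h3.trans h4)) (lt_irrefl _)
    have hcard : ∀ T, ((ST T).card : ℝ) ≤ C1 T * X / Real.log X ^ k := fun T =>
      h1 T X (ST T) hX ((Finset.filter_subset _ _).trans hS) fun d hd => (Finset.mem_filter.1 hd).2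
    calc (S.card : ℝ) ≤ ((Finset.univ.biUnion ST).card : ℝ) := by
          exact_mod_cast Finset.card_le_card hcov
      _ ≤ ((∑ T, (ST T).card : ℕ) : ℝ) := by exact_mod_cast Finset.card_biUnion_le
      _ = ∑ T, ((ST T).card : ℝ) := by push_cast; rfl
      _ ≤ ∑ T, C1 T * X / Real.log X ^ k := Finset.sum_le_sum fun T _ => hcard T
      _ = (∑ T, C1 T) * X / Real.log X ^ k := by
          rw [Finset.sum_mul, Finset.sum_div]

theorem multiLindelof_fam {a b : ℤ} (h : Fam a b) : MultiLindelofLaw a b :=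
  multiLindelof_of h.disc fun _ hg =>
    lindelofLaw_of (h.twist hg).disc (h.twist hg).data.1 (h.twist hg).data.2

theorem multiLindelof_modular {a b : ℤ} (hab : 4 * a ^ 3 + 27 * b ^ 2 ≠ 0) (h : TwistsModular a b) :
    MultiLindelofLaw a b :=
  multiLindelof_of hab fun g hg => by
    have h1 := twistsModular_twist h hg
    have h2 : 4 * (a * g ^ 2) ^ 3 + 27 * (b * g ^ 3) ^ 2 ≠ 0 := by
      have : 4 * (a * g ^ 2) ^ 3 + 27 * (b * g ^ 3) ^ 2 = (4 * a ^ 3 + 27 * b ^ 2) * g ^ 6 := by ring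
      rw [this]
      exact mul_ne_zero hab (pow_ne_zero _ hg)
    exact lindelofLaw_of h2 (hasTwists_of _ _ h2 h1) (exists_LFun _ _ h2 h1)

end Pool.Agent.Y19.QT
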