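import Pool.Agent.Y19.QT.ZD
import Pool.Agent.Y19.QT.ZD2
import Pool.Agent.Y19.QT.Fin2

set_option autoImplicit false

/-! Project QT: the final form of the results on the zeros of the `L`-functions of the quadratic
twists. -/

namespace Pool.Agent.Y19.QT

open Complex Filter Topology MeasureTheory
open scoped ENNReal

noncomputable section

theorem one_le_zcount {F : ℂ → ℂ} (hF : Differentiable ℂ F) {ρ : ℂ} (h0 : F ρ = 0) {σ U : ℝ}
    (h1 : σ ≤ ρ.re) (h2 : |ρ.im| ≤ U) : 1 ≤ zcount F σ U := by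
  unfold zcount
  refine le_trans ?_ (ENNReal.le_tsum ρ)
  rw [if_pos ⟨h0, h1, h2⟩]
  have h3 : analyticOrderAt F ρ ≠ 0 := by
    rw [Ne, (hF.analyticAt ρ).analyticOrderAt_eq_zero]
    exact fun h => h h0
  have h4 : (1 : ℕ∞) ≤ analyticOrderAt F ρ := ENat.one_le_iff_ne_zero.2 h3
  have h5 := ENat.toENNReal_mono h4
  simpa using h5

theorem densityLaw_of {a b : ℤ} (hab : 4 * a ^ 3 + 27 * b ^ 2 ≠ 0) (h : HasTwists a b)
    (hL : ∀ d : ℤ, Squarefree d → ∃ F : ℂ → ℂ, IsLFun (a * d ^ 2) (b * d ^ 3) F) :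
    DensityLaw a b := by
  obtain ⟨Q, lam, ⟨T⟩, hQ, hlam⟩ := h
  refine ⟨fun d hd => ?_, fun F hF => ?_⟩
  · obtain ⟨F, hF⟩ := hL d hd
    exact ⟨F, hF, fun G hG => isLFun_unique hG hF⟩
  obtain ⟨C, c, A, B, hC, hc, hT⟩ := density_T T
  have hden : ∀ (X : ℕ) (σ U : ℝ), 3 ≤ X → 1 ≤ σ → 0 ≤ U →
      ∑ d ∈ sqf X, zcount (F d) σ U ≤
        ENNReal.ofReal (C * (1 + U) ^ B * (X : ℝ) ^ (1 - c * (σ - 1)) * Real.log X ^ A) := by
    intro X σ U hX hσ hU
    have h1 := hT X (σ - 1 / 2) U hX (by linarith) hU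
    have e : σ - 1 / 2 - 1 / 2 = σ - 1 := by ring
    rw [e] at h1
    refine le_trans (le_of_eq (Finset.sum_congr rfl fun d hd => ?_)) h1
    exact zcount_eq a b hab T hQ hlam d (mem_sqf.1 hd).2 (F d) (hF d (mem_sqf.1 hd).2) σ U
      (by linarith)
  refine ⟨⟨C, c, A, B, hc, hden⟩, fun K => ?_⟩
  set W : ℕ := A + K + B + 2 with hW
  refine ⟨C * ∑' n : ℕ, 1 / ((n : ℝ) + 1) ^ 2, (W : ℝ) / c, fun X S hX hS hSρ => ?_⟩
  have hl := one_le_log hX
  have hl0 : 0 < Real.log X := by linarith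
  have hX0 : (0 : ℝ) < X := by exact_mod_cast (by omega : 0 < X)
  set L : ℝ := Real.log X with hLdef
  have hll : 0 ≤ Real.log L := Real.log_nonneg hl
  set η : ℕ → ℝ := fun n => (W : ℝ) / c * ((Real.log L + Real.log (n + 1)) / L) with hη
  have hη0 : ∀ n, 0 ≤ η n := by
    intro n
    have h1 : 0 ≤ Real.log ((n : ℝ) + 1) := Real.log_nonneg (by
      have : (0 : ℝ) ≤ n := Nat.cast_nonneg n
      linarith)
    simp only [hη]
    positivity
  have hone : ∀ d ∈ S, ∃ n : ℕ, 1 ≤ zcount (F d) (1 + η n) n := by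
    intro d hd
    have hsq : Squarefree d := (mem_sqf.1 (hS hd)).2
    obtain ⟨ρ, h0, h1, h3⟩ := hSρ d hd
    refine ⟨⌈|ρ.im|⌉₊, ?_⟩
    have h2 : |ρ.im| ≤ (⌈|ρ.im|⌉₊ : ℝ) := Nat.le_ceil _
    have h3' : η ⌈|ρ.im|⌉₊ ≤ |ρ.re - 1| := by
      refine le_trans ?_ h3
      simp only [hη]
      have h4 := Nat.ceil_lt_add_one (abs_nonneg ρ.im)
      have h5 : Real.log ((⌈|ρ.im|⌉₊ : ℝ) + 1) ≤ Real.log (2 + |ρ.im|) :=
        Real.log_le_log (by positivity) (by linarith)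
      gcongr
    generalize ⌈|ρ.im|⌉₊ = n at h2 h3'
    rcases le_total 1 ρ.re with h | h
    · rw [abs_of_nonneg (by linarith)] at h3'
      exact one_le_zcount (hF d hsq).1 h0 (by linarith) h2
    · rw [abs_of_nonpos (by linarith)] at h3'
      have hs1 : (ρ - 1 / 2).re = ρ.re - 1 / 2 := by simp
      have e1 : F d (ρ - 1 / 2 + 1 / 2) = 0 := by rw [sub_add_cancel]; exact h0
      have h4 := (zero_iff a b hab T hQ hlam d hsq (F d) (hF d hsq) (ρ - 1 / 2)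
        (by rw [hs1]; linarith)).1 e1
      have h5 := Lq_zero_symm T hsq (s := ρ - 1 / 2) (by rw [hs1]; linarith)
        (by rw [hs1]; linarith) h4
      have hs2 : (1 - (ρ - 1 / 2)).re = 3 / 2 - ρ.re := by
        rw [Complex.sub_re, hs1, Complex.one_re]; ring
      have h6 := (zero_iff a b hab T hQ hlam d hsq (F d) (hF d hsq) (1 - (ρ - 1 / 2))
        (by rw [hs2]; linarith)).2 h5
      have e2 : (1 - (ρ - 1 / 2) + 1 / 2 : ℂ) = 2 - ρ := by ring
      rw [e2] at h6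
      refine one_le_zcount (hF d hsq).1 h6 ?_ ?_
      · have : (2 - ρ).re = 2 - ρ.re := by simp
        rw [this]; linarith
      · have : (2 - ρ).im = -ρ.im := by simp
        rw [this, abs_neg]; exact h2
  have hterm : ∀ n : ℕ, C * (1 + (n : ℝ)) ^ B * (X : ℝ) ^ (1 - c * (1 + η n - 1)) * L ^ A ≤
      C * X / L ^ K * (1 / ((n : ℝ) + 1) ^ 2) := by
    intro n
    have hn : (1 : ℝ) ≤ n + 1 := by
      have : (0 : ℝ) ≤ n := Nat.cast_nonneg n
      linarith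
    have hn0 : (0 : ℝ) < n + 1 := by linarith
    have e1 : (X : ℝ) ^ (1 - c * (1 + η n - 1)) = X * ((L ^ W)⁻¹ * (((n : ℝ) + 1) ^ W)⁻¹) := by
      have e2 : 1 - c * (1 + η n - 1) = 1 + -(c * η n) := by ring
      rw [e2, Real.rpow_add hX0, Real.rpow_one, Real.rpow_neg hX0.le, ← mul_inv]
      congr 2
      rw [Real.rpow_def_of_pos hX0, ← hLdef]
      have e3 : L * (c * η n) = Real.log L * W + Real.log ((n : ℝ) + 1) * W := by
        simp only [hη]
        field_simp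
      rw [e3, Real.exp_add, Real.exp_mul, Real.exp_log hl0, Real.exp_mul, Real.exp_log hn0,
        Real.rpow_natCast, Real.rpow_natCast]
    rw [e1]
    have e5 : (L ^ W)⁻¹ * L ^ A ≤ (L ^ K)⁻¹ := by
      have : L ^ W = L ^ A * L ^ K * L ^ (B + 2) := by rw [hW]; ring
      rw [this]
      have h1 : (1 : ℝ) ≤ L ^ (B + 2) := one_le_pow₀ hl
      have h2 : 0 < L ^ A := by positivity
      have h3 : 0 < L ^ K := by positivity
      rw [inv_mul_le_iff₀ (by positivity)]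
      have h4 : L ^ A * L ^ K * L ^ (B + 2) * (L ^ K)⁻¹ = L ^ A * L ^ (B + 2) := by field_simp
      rw [h4]
      exact le_mul_of_one_le_right h2.le h1
    have e6 : (((n : ℝ) + 1) ^ W)⁻¹ * ((n : ℝ) + 1) ^ B ≤ 1 / ((n : ℝ) + 1) ^ 2 := by
      have : ((n : ℝ) + 1) ^ W = ((n : ℝ) + 1) ^ B * ((n : ℝ) + 1) ^ 2 * ((n : ℝ) + 1) ^ (A + K) := by
        rw [hW]; ring
      rw [this]
      have h1 : (1 : ℝ) ≤ ((n : ℝ) + 1) ^ (A + K) := one_le_pow₀ hn
      have h2 : 0 < ((n : ℝ) + 1) ^ B := by positivity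
      have h3 : 0 < ((n : ℝ) + 1) ^ 2 := by positivity
      rw [inv_mul_le_iff₀ (by positivity)]
      have h4 : ((n : ℝ) + 1) ^ B * ((n : ℝ) + 1) ^ 2 * ((n : ℝ) + 1) ^ (A + K) *
          (1 / ((n : ℝ) + 1) ^ 2) = ((n : ℝ) + 1) ^ B * ((n : ℝ) + 1) ^ (A + K) := by field_simp
      rw [h4]
      exact le_mul_of_one_le_right h2.le h1
    calc C * (1 + (n : ℝ)) ^ B * (X * ((L ^ W)⁻¹ * (((n : ℝ) + 1) ^ W)⁻¹)) * L ^ A
        = C * X * ((L ^ W)⁻¹ * L ^ A) * ((((n : ℝ) + 1) ^ W)⁻¹ * ((n : ℝ) + 1) ^ B) := by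
          rw [add_comm (1 : ℝ) n]; ring
      _ ≤ C * X * (L ^ K)⁻¹ * (1 / ((n : ℝ) + 1) ^ 2) := by gcongr
      _ = _ := by ring
  have hsum : Summable fun n : ℕ => 1 / ((n : ℝ) + 1) ^ 2 := by
    have h := (summable_nat_add_iff (f := fun n : ℕ => 1 / (n : ℝ) ^ 2) 1).2
      (Real.summable_one_div_nat_pow.2 (by norm_num))
    simpa using h
  have hcard : (S.card : ℝ≥0∞) ≤
      ENNReal.ofReal (C * X / L ^ K * ∑' n : ℕ, 1 / ((n : ℝ) + 1) ^ 2) := by
    calc (S.card : ℝ≥0∞) = ∑ d ∈ S, (1 : ℝ≥0∞) := by simp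
      _ ≤ ∑ d ∈ S, ∑' n : ℕ, zcount (F d) (1 + η n) n := Finset.sum_le_sum fun d hd => by
          obtain ⟨n, hn⟩ := hone d hd
          exact hn.trans (ENNReal.le_tsum n)
      _ = ∑' n : ℕ, ∑ d ∈ S, zcount (F d) (1 + η n) n :=
          (Summable.tsum_finsetSum (fun _ _ => ENNReal.summable)).symm
      _ ≤ ∑' n : ℕ, ENNReal.ofReal (C * X / L ^ K * (1 / ((n : ℝ) + 1) ^ 2)) := by
          refine ENNReal.tsum_le_tsum fun n => ?_
          refine (Finset.sum_le_sum_of_subset hS).trans ?_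
          refine (hden X (1 + η n) n hX (by linarith [hη0 n]) (Nat.cast_nonneg n)).trans ?_
          exact ENNReal.ofReal_le_ofReal (hterm n)
      _ = ENNReal.ofReal (∑' n : ℕ, C * X / L ^ K * (1 / ((n : ℝ) + 1) ^ 2)) :=
          (ENNReal.ofReal_tsum_of_nonneg (fun n => by positivity) (hsum.mul_left _)).symm
      _ = _ := by rw [tsum_mul_left]
  have hts : 0 ≤ ∑' n : ℕ, 1 / ((n : ℝ) + 1) ^ 2 := tsum_nonneg fun n => by positivity
  have hcard' : (S.card : ℝ) ≤ C * X / L ^ K * ∑' n : ℕ, 1 / ((n : ℝ) + 1) ^ 2 := by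
    rw [← ENNReal.ofReal_natCast] at hcard
    exact (ENNReal.ofReal_le_ofReal_iff (by positivity)).1 hcard
  refine hcard'.trans (le_of_eq ?_)
  ring

theorem densityLaw_congruent : DensityLaw (-1) 0 :=
  densityLaw_of (by norm_num) Pool.Agent.Y153.QTN1.N1.1 Pool.Agent.Y153.QTN1.N1.2

theorem densityLaw_X014 : DensityLaw 5805 (-285714) :=
  densityLaw_of (by norm_num) Pool.Agent.Y812.QTN2.N2.1 Pool.Agent.Y812.QTN2.N2.2

theorem densityLaw_modular {a b : ℤ} (hab : 4 * a ^ 3 + 27 * b ^ 2 ≠ 0) (h : TwistsModular a b) :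
    DensityLaw a b :=
  densityLaw_of hab (hasTwists_of a b hab h) (exists_LFun a b hab h)

end

end Pool.Agent.Y19.QT
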