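import Pool.Agent.Y19.QT.MA
import Pool.Agent.Y19.QT.ZD3

set_option autoImplicit false

/-! Project QT, multiquadratic fields: the zeros. -/

namespace Pool.Agent.Y19.QT

open Complex Filter Topology MeasureTheory
open scoped ENNReal

noncomputable section

def S_MQ3b : Prop := ∀ (m : ℤ), m ≠ 0 → ∀ (n : ℕ) (T : Finset (Fin n)), T.Nonempty → ∀ (Ag : ℕ),
    ∃ (C : ℝ) (A : ℕ), ∀ (V δ : ℝ), 0 ≤ V → 0 ≤ δ → δ ≤ 1 / 2 → ∀ (g : ℤ → ℝ), (∀ s, 0 ≤ g s) →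
      (∀ X : ℕ, 3 ≤ X → ∑ s ∈ sqf X, g s ^ 2 ≤ V * (X : ℝ) ^ (1 - δ) * Real.log X ^ Ag) →
      ∀ (sf : (Fin n → ℤ) → ℤ), (∀ d, (∀ i, d i ≠ 0) → Squarefree (sf d) ∧
        ∃ k : ℤ, m * ∏ i ∈ T, d i = sf d * k ^ 2) →
      ∀ X : ℕ, 3 ≤ X → ∑ d ∈ Fintype.piFinset (fun _ : Fin n => sqf X), g (sf d) ≤
        C * Real.sqrt V * (X : ℝ) ^ (n - δ / 2) * Real.log X ^ A

/-- the number of zeros of one `L`-function -/
theorem zcount_pt {Q : ℕ} {lam : ℕ → ℝ} (T : Twists Q lam) : ∃ C : ℝ, 0 < C ∧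
    ∀ (d : ℤ) (σ U : ℝ), Squarefree d → 1 / 2 ≤ σ → 0 ≤ U → zcount (T.Lq d) σ U ≤
      ENNReal.ofReal (C * (1 + U) ^ 2 * (Real.log (|(d : ℝ)| + 1) + 1)) := by
  classical
  obtain ⟨-, C, hC, h⟩ := Pool.Agent.Y500.QTZ4.Z4 T
  refine ⟨16 * C, by positivity, fun d σ U hd hσ hU => ?_⟩
  unfold zcount
  rw [ENNReal.tsum_eq_iSup_sum]
  refine iSup_le fun s => ?_
  set S : Finset ℂ := s.filter (fun ρ => T.Lq d ρ = 0 ∧ σ ≤ ρ.re ∧ |ρ.im| ≤ U) with hS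
  have hmem : ∀ ρ ∈ S, T.Lq d ρ = 0 ∧ σ ≤ ρ.re ∧ |ρ.im| ≤ U := fun ρ hρ => (Finset.mem_filter.1 hρ).2
  have e1 : (∑ ρ ∈ s, if T.Lq d ρ = 0 ∧ σ ≤ ρ.re ∧ |ρ.im| ≤ U then
      ((analyticOrderAt (T.Lq d) ρ : ℕ∞) : ℝ≥0∞) else 0) =
      ENNReal.ofReal (∑ ρ ∈ S, ((analyticOrderAt (T.Lq d) ρ).toNat : ℝ)) := by
    rw [ENNReal.ofReal_sum_of_nonneg (fun _ _ => Nat.cast_nonneg _), hS, Finset.sum_filter]
    refine Finset.sum_congr rfl fun ρ _ => ?_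
    split_ifs with hρ
    · have h2 := order_Lq_ne_top T hd hρ.1 (hσ.trans hρ.2.1)
      rw [ENNReal.ofReal_natCast]
      conv_lhs => rw [← ENat.coe_toNat h2]
      exact ENat.toENNReal_coe _
    · rfl
  rw [e1]
  apply ENNReal.ofReal_le_ofReal
  set K : Finset ℤ := Finset.Icc (-⌈4 * U⌉) ⌈4 * U⌉ with hK
  have hmap : ∀ ρ ∈ S, ⌊4 * ρ.im⌋ ∈ K := by
    intro ρ hρ
    have h1 := abs_le.1 (hmem ρ hρ).2.2
    rw [hK, Finset.mem_Icc]
    constructor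
    · rw [Int.le_floor]
      push_cast
      have := Int.le_ceil (4 * U)
      linarith
    · have h2 : (⌊4 * ρ.im⌋ : ℝ) ≤ (⌈4 * U⌉ : ℝ) :=
        (Int.floor_le _).trans (by have := Int.le_ceil (4 * U); linarith)
      exact_mod_cast h2
  have hlog : 0 ≤ Real.log (|(d : ℝ)| + 1) := Real.log_nonneg (by linarith [abs_nonneg (d : ℝ)])
  have hceil := Int.ceil_lt_add_one (4 * U)
  have hceil0 : (0 : ℤ) ≤ ⌈4 * U⌉ := Int.ceil_nonneg (by positivity)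
  rw [← Finset.sum_fiberwise_of_maps_to hmap]
  have hk : ∀ k ∈ K, ∑ ρ ∈ S.filter (fun ρ => ⌊4 * ρ.im⌋ = k),
      ((analyticOrderAt (T.Lq d) ρ).toNat : ℝ) ≤ C * (2 * (1 + U) * (Real.log (|(d : ℝ)| + 1) + 1)) := by
    intro k hk
    have hk1 := Finset.mem_Icc.1 hk
    have hka : |(k : ℝ)| ≤ 4 * U + 1 := by
      rw [abs_le]
      have h1 : (-⌈4 * U⌉ : ℝ) ≤ k := by exact_mod_cast hk1.1
      have h2 : (k : ℝ) ≤ ⌈4 * U⌉ := by exact_mod_cast hk1.2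
      constructor <;> linarith
    refine ((h d ((k : ℝ) / 4) _ hd fun ρ hρ => ?_).2).trans ?_
    · obtain ⟨h1, h2⟩ := Finset.mem_filter.1 hρ
      obtain ⟨h3, h4, -⟩ := hmem ρ h1
      refine ⟨h3, hσ.trans h4, ?_⟩
      have h5 := Int.floor_le (4 * ρ.im)
      have h6 := Int.lt_floor_add_one (4 * ρ.im)
      rw [h2] at h5 h6
      rw [abs_le]
      constructor <;> linarith
    · apply mul_le_mul_of_nonneg_left _ hC.le
      rw [abs_div, abs_of_pos (show (0 : ℝ) < 4 by norm_num)]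
      nlinarith [mul_nonneg hU hlog]
  refine (Finset.sum_le_sum hk).trans ?_
  rw [Finset.sum_const, nsmul_eq_mul]
  have hcard : (K.card : ℝ) ≤ 8 * (1 + U) := by
    rw [hK, Int.card_Icc]
    have h1 : ((⌈4 * U⌉ + 1 - -⌈4 * U⌉).toNat : ℤ) = 2 * ⌈4 * U⌉ + 1 := by omega
    have h2 : (((⌈4 * U⌉ + 1 - -⌈4 * U⌉).toNat : ℕ) : ℝ) = 2 * (⌈4 * U⌉ : ℝ) + 1 := by
      exact_mod_cast h1
    rw [h2]
    linarith
  calc (K.card : ℝ) * (C * (2 * (1 + U) * (Real.log (|(d : ℝ)| + 1) + 1))) ≤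
        8 * (1 + U) * (C * (2 * (1 + U) * (Real.log (|(d : ℝ)| + 1) + 1))) := by
        gcongr
    _ = _ := by ring

/-- mean squares of the numbers of zeros -/
theorem density_sq {a b : ℤ} (hab : 4 * a ^ 3 + 27 * b ^ 2 ≠ 0) (hT : HasTwists a b)
    (L : ℤ → ℂ → ℂ) (hL : ∀ d : ℤ, Squarefree d → IsLFun (a * d ^ 2) (b * d ^ 3) (L d)) :
    (∀ (s : ℤ) (σ U : ℝ), Squarefree s → 1 ≤ σ → 0 ≤ U → zcount (L s) σ U ≠ ⊤) ∧
    (∀ (s : ℤ) (σ U : ℝ), Squarefree s → 3 / 2 < σ → zcount (L s) σ U = 0) ∧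
    ∃ (C c : ℝ) (A B : ℕ), 0 < C ∧ 0 < c ∧ c ≤ 1 ∧ ∀ (X : ℕ) (σ U : ℝ), 3 ≤ X → 1 ≤ σ → 0 ≤ U →
      ∑ s ∈ sqf X, (zcount (L s) σ U).toReal ^ 2 ≤
        C * (1 + U) ^ B * (X : ℝ) ^ (1 - c * (σ - 1)) * Real.log X ^ A := by
  obtain ⟨Q, lam, ⟨T⟩, hQ, hlam⟩ := hT
  have heq : ∀ (s : ℤ) (σ U : ℝ), Squarefree s → 1 ≤ σ →
      zcount (L s) σ U = zcount (T.Lq s) (σ - 1 / 2) U := fun s σ U hs hσ =>
    zcount_eq a b hab T hQ hlam s hs (L s) (hL s hs) σ U (by linarith)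
  obtain ⟨C1, hC1, hpt⟩ := zcount_pt T
  obtain ⟨C, c, A, B, hC, hc, hden⟩ := density_T T
  have hpt' : ∀ (s : ℤ) (σ U : ℝ), Squarefree s → 1 ≤ σ → 0 ≤ U → zcount (L s) σ U ≤
      ENNReal.ofReal (C1 * (1 + U) ^ 2 * (Real.log (|(s : ℝ)| + 1) + 1)) := by
    intro s σ U hs hσ hU
    rw [heq s σ U hs hσ]
    exact hpt s _ U hs (by linarith) hU
  refine ⟨fun s σ U hs hσ hU => ne_top_of_le_ne_top ENNReal.ofReal_ne_top (hpt' s σ U hs hσ hU),
    fun s σ U hs hσ => ?_, 3 * C1 * C, min c 1, A + 1, B + 2, by positivity,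
    lt_min hc one_pos, min_le_right _ _, fun X σ U hX hσ hU => ?_⟩
  · rw [heq s σ U hs (by linarith)]
    unfold zcount
    rw [ENNReal.tsum_eq_zero]
    intro ρ
    rw [if_neg]
    rintro ⟨h0, h1, -⟩
    exact (Pool.Agent.Y500.QTZ4.Z4 T).1 s ρ hs (by linarith) h0
  have hl := one_le_log hX
  have hl0 : 0 ≤ Real.log X := by linarith
  have hX1 : (1 : ℝ) ≤ X := by exact_mod_cast (by omega : 1 ≤ X)
  have hX3 : (3 : ℝ) ≤ X := by exact_mod_cast hX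
  have hg : ∀ s ∈ sqf X, (zcount (L s) σ U).toReal ≤ 3 * C1 * (1 + U) ^ 2 * Real.log X := by
    intro s hs
    have hs1 := mem_sqf.1 hs
    have h1 := hpt' s σ U hs1.2 hσ hU
    have hlog : 0 ≤ Real.log (|(s : ℝ)| + 1) := Real.log_nonneg (by linarith [abs_nonneg (s : ℝ)])
    have h2 := ENNReal.toReal_le_of_le_ofReal (by positivity) h1
    refine h2.trans ?_
    have h3 : Real.log (|(s : ℝ)| + 1) ≤ 2 * Real.log X := by
      have h4 : |(s : ℝ)| ≤ X := by exact_mod_cast hs1.1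
      have h5 : |(s : ℝ)| + 1 ≤ (X : ℝ) ^ 2 := by nlinarith
      have h6 := Real.log_le_log (by linarith [abs_nonneg (s : ℝ)]) h5
      rw [Real.log_pow] at h6
      exact_mod_cast h6
    have h7 : Real.log (|(s : ℝ)| + 1) + 1 ≤ 3 * Real.log X := by linarith
    calc C1 * (1 + U) ^ 2 * (Real.log (|(s : ℝ)| + 1) + 1) ≤ C1 * (1 + U) ^ 2 * (3 * Real.log X) := by
          gcongr
      _ = _ := by ring
  have hsum : ∑ s ∈ sqf X, (zcount (L s) σ U).toReal ≤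
      C * (1 + U) ^ B * (X : ℝ) ^ (1 - c * (σ - 1)) * Real.log X ^ A := by
    have h1 := hden X (σ - 1 / 2) U hX (by linarith) hU
    have e : σ - 1 / 2 - 1 / 2 = σ - 1 := by ring
    rw [e] at h1
    have h2 : ∑ s ∈ sqf X, zcount (L s) σ U ≤
        ENNReal.ofReal (C * (1 + U) ^ B * (X : ℝ) ^ (1 - c * (σ - 1)) * Real.log X ^ A) := by
      refine le_trans (le_of_eq (Finset.sum_congr rfl fun s hs => ?_)) h1
      exact heq s σ U (mem_sqf.1 hs).2 hσ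
    have h3 := ENNReal.toReal_le_of_le_ofReal (by positivity) h2
    rwa [ENNReal.toReal_sum (fun s hs => ne_top_of_le_ne_top ENNReal.ofReal_ne_top
      (hpt' s σ U (mem_sqf.1 hs).2 hσ hU))] at h3
  have hrp : (X : ℝ) ^ (1 - c * (σ - 1)) ≤ (X : ℝ) ^ (1 - min c 1 * (σ - 1)) := by
    apply Real.rpow_le_rpow_of_exponent_le hX1
    have h1 : min c 1 * (σ - 1) ≤ c * (σ - 1) :=
      mul_le_mul_of_nonneg_right (min_le_left _ _) (by linarith)
    linarith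
  calc ∑ s ∈ sqf X, (zcount (L s) σ U).toReal ^ 2 ≤
        ∑ s ∈ sqf X, (3 * C1 * (1 + U) ^ 2 * Real.log X) * (zcount (L s) σ U).toReal := by
        refine Finset.sum_le_sum fun s hs => ?_
        rw [sq]
        exact mul_le_mul_of_nonneg_right (hg s hs) ENNReal.toReal_nonneg
    _ = (3 * C1 * (1 + U) ^ 2 * Real.log X) * ∑ s ∈ sqf X, (zcount (L s) σ U).toReal := by
        rw [Finset.mul_sum]
    _ ≤ (3 * C1 * (1 + U) ^ 2 * Real.log X) *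
          (C * (1 + U) ^ B * (X : ℝ) ^ (1 - min c 1 * (σ - 1)) * Real.log X ^ A) := by
        apply mul_le_mul_of_nonneg_left _ (by positivity)
        refine hsum.trans ?_
        gcongr
    _ = _ := by ring

/-- sums over all `(d₀, d)` -/
theorem sum_cons {n X : ℕ} (f : ℤ → (Fin n → ℤ) → ℝ) :
    ∑ d₀ ∈ sqf X, ∑ d ∈ Fintype.piFinset (fun _ : Fin n => sqf X), f d₀ d =
      ∑ D ∈ Fintype.piFinset (fun _ : Fin (n + 1) => sqf X), f (D 0) (fun i => D i.succ) := by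
  rw [← Finset.sum_product']
  refine Finset.sum_bij' (fun p _ => Fin.cons p.1 p.2) (fun D _ => (D 0, fun i => D i.succ))
    ?_ ?_ ?_ ?_ ?_
  · rintro ⟨x, d⟩ hp
    obtain ⟨h1, h2⟩ := Finset.mem_product.1 hp
    rw [Fintype.mem_piFinset] at h2 ⊢
    intro i
    refine Fin.cases ?_ (fun i => ?_) i
    · simpa using h1
    · simpa using h2 i
  · intro D hD
    rw [Fintype.mem_piFinset] at hD
    rw [Finset.mem_product, Fintype.mem_piFinset]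
    exact ⟨hD 0, fun i => hD i.succ⟩
  · rintro ⟨x, d⟩ _
    simp
  · intro D _
    funext i
    refine Fin.cases ?_ (fun i => ?_) i
    · simp
    · simp
  · rintro ⟨x, d⟩ _
    simp

/-- the sums of the numbers of zeros over the tuples -/
theorem zPart (h3 : S_MQ3b) (L : ℤ → ℂ → ℂ)
    (hzero : ∀ (s : ℤ) (σ U : ℝ), Squarefree s → 3 / 2 < σ → zcount (L s) σ U = 0)
    (C0 c0 : ℝ) (A0 B0 : ℕ) (hC0 : 0 < C0) (hc0 : 0 < c0) (hc1 : c0 ≤ 1)
    (hsq : ∀ (X : ℕ) (σ U : ℝ), 3 ≤ X → 1 ≤ σ → 0 ≤ U →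
      ∑ s ∈ sqf X, (zcount (L s) σ U).toReal ^ 2 ≤
        C0 * (1 + U) ^ B0 * (X : ℝ) ^ (1 - c0 * (σ - 1)) * Real.log X ^ A0)
    (m : ℕ) (e : Fin m → ℤ) (he : ∀ i, e i ≠ 0) (n : ℕ) (T : Finset (Fin (m + n))) :
    ∃ (C : ℝ) (A : ℕ), 0 ≤ C ∧ ∀ (X : ℕ) (σ U : ℝ), 3 ≤ X → 1 ≤ σ → 0 ≤ U →
      ∑ d₀ ∈ sqf X, ∑ d ∈ Fintype.piFinset (fun _ : Fin n => sqf X),
        (zcount (L (sfd (d₀ * ∏ i ∈ T, Fin.append e d i))) σ U).toReal ≤
          C * (1 + U) ^ B0 * (X : ℝ) ^ (n + 1 - c0 / 2 * (σ - 1)) * Real.log X ^ A := by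
  classical
  set U' := Finset.univ.filter (fun i : Fin m => Fin.castAdd n i ∈ T) with hU'
  set V := Finset.univ.filter (fun i : Fin n => Fin.natAdd m i ∈ T) with hV
  set W : Finset (Fin (n + 1)) := insert 0 (V.map (Fin.succEmb n)) with hW
  have hp : ∀ (d₀ : ℤ) (D : Fin (n + 1) → ℤ), d₀ = D 0 →
      d₀ * ∏ i ∈ T, Fin.append e (fun i => D i.succ) i = (∏ i ∈ U', e i) * ∏ i ∈ W, D i := by
    intro d₀ D h0
    rw [prod_append, hW, Finset.prod_insert, Finset.prod_map, h0]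
    · simp only [Fin.coe_succEmb]
      ring
    · simp [Fin.succ_ne_zero]
  have hm : ∏ i ∈ U', e i ≠ 0 := Finset.prod_ne_zero_iff.2 fun i _ => he i
  obtain ⟨C, A, h⟩ := h3 (∏ i ∈ U', e i) hm (n + 1) W ⟨0, Finset.mem_insert_self _ _⟩ A0
  refine ⟨max C 0 * (1 + C0), A, by positivity, fun X σ U hX hσ hU => ?_⟩
  have hl := one_le_log hX
  have hX0 : (0 : ℝ) ≤ X := Nat.cast_nonneg X
  have hR : 0 ≤ max C 0 * (1 + C0) * (1 + U) ^ B0 * (X : ℝ) ^ ((n : ℝ) + 1 - c0 / 2 * (σ - 1)) *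
      Real.log X ^ A := by positivity
  rcases lt_or_ge (3 / 2) σ with h32 | h32
  · refine le_trans (le_of_eq ?_) hR
    refine Finset.sum_eq_zero fun d₀ _ => Finset.sum_eq_zero fun d _ => ?_
    rw [hzero _ σ U (sfd_spec _).1 h32]
    rfl
  rw [sum_cons (fun d₀ d => (zcount (L (sfd (d₀ * ∏ i ∈ T, Fin.append e d i))) σ U).toReal)]
  have e1 : ∀ D : Fin (n + 1) → ℤ,
      (zcount (L (sfd (D 0 * ∏ i ∈ T, Fin.append e (fun i => D i.succ) i))) σ U).toReal =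
      (fun s => (zcount (L s) σ U).toReal) (sfd ((∏ i ∈ U', e i) * ∏ i ∈ W, D i)) := by
    intro D
    rw [hp (D 0) D rfl]
  simp only [e1]
  have h1 := h (C0 * (1 + U) ^ B0) (c0 * (σ - 1)) (by positivity)
    (mul_nonneg hc0.le (by linarith)) (by nlinarith)
    (fun s => (zcount (L s) σ U).toReal) (fun s => ENNReal.toReal_nonneg)
    (fun Y hY => hsq Y σ U hY hσ hU) (fun D => sfd ((∏ i ∈ U', e i) * ∏ i ∈ W, D i))
    (fun D _ => sfd_spec _) X hX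
  refine h1.trans ?_
  have e2 : (((n + 1 : ℕ) : ℝ) - c0 * (σ - 1) / 2) = (n : ℝ) + 1 - c0 / 2 * (σ - 1) := by
    push_cast
    ring
  rw [e2]
  have hU1 : (1 : ℝ) ≤ (1 + U) ^ B0 := one_le_pow₀ (by linarith)
  have h5 : Real.sqrt (C0 * (1 + U) ^ B0) ≤ (1 + C0) * (1 + U) ^ B0 := by
    have h6 := Real.sq_sqrt (show 0 ≤ C0 * (1 + U) ^ B0 by positivity)
    have h7 := Real.sqrt_nonneg (C0 * (1 + U) ^ B0)
    nlinarith [sq_nonneg (Real.sqrt (C0 * (1 + U) ^ B0) - 1)]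
  calc C * Real.sqrt (C0 * (1 + U) ^ B0) * (X : ℝ) ^ ((n : ℝ) + 1 - c0 / 2 * (σ - 1)) *
        Real.log X ^ A ≤ max C 0 * ((1 + C0) * (1 + U) ^ B0) *
          (X : ℝ) ^ ((n : ℝ) + 1 - c0 / 2 * (σ - 1)) * Real.log X ^ A := by
        gcongr
        exact le_max_left _ _
    _ = _ := by ring

theorem zcount_alt {F : ℂ → ℂ} (hF : Differentiable ℂ F) (σ U : ℝ) : zcount F σ U =
    ∑' ρ : ℂ, if σ ≤ ρ.re ∧ |ρ.im| ≤ U then ((analyticOrderAt F ρ : ℕ∞) : ℝ≥0∞) else 0 := by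
  unfold zcount
  refine tsum_congr fun ρ => ?_
  by_cases h0 : F ρ = 0
  · simp only [h0, true_and]
  · have h1 : analyticOrderAt F ρ = 0 := (hF.analyticAt ρ).analyticOrderAt_eq_zero.2 h0
    simp only [h0, h1, false_and, if_false]
    split_ifs <;> simp

theorem toENNReal_sum {ι : Type} (S : Finset ι) (f : ι → ℕ∞) :
    ((∑ i ∈ S, f i : ℕ∞) : ℝ≥0∞) = ∑ i ∈ S, ((f i : ℕ∞) : ℝ≥0∞) :=
  map_sum ENat.toENNRealRingHom f S

theorem zcount_sum {ι : Type} [Fintype ι] {F : ℂ → ℂ} {G : ι → ℂ → ℂ} (hF : Differentiable ℂ F)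
    (hG : ∀ i, Differentiable ℂ (G i)) (σ U : ℝ)
    (h : ∀ w : ℂ, σ ≤ w.re → analyticOrderAt F w = ∑ i, analyticOrderAt (G i) w) :
    zcount F σ U = ∑ i, zcount (G i) σ U := by
  rw [zcount_alt hF]
  simp only [fun i => zcount_alt (hG i) σ U]
  rw [← Summable.tsum_finsetSum (fun _ _ => ENNReal.summable)]
  refine tsum_congr fun ρ => ?_
  by_cases hρ : σ ≤ ρ.re ∧ |ρ.im| ≤ U
  · simp only [if_pos hρ]
    rw [h ρ hρ.1, toENNReal_sum]
  · simp only [if_neg hρ, Finset.sum_const_zero]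

theorem exists_FK' (h1 : S_MQ1) (h4 : S_MQ4) {a b : ℤ} (hab : 4 * a ^ 3 + 27 * b ^ 2 ≠ 0)
    (L : ℤ → ℂ → ℂ) (hL : ∀ d : ℤ, Squarefree d → IsLFun (a * d ^ 2) (b * d ^ 3) (L d)) {N : ℕ}
    (D : Fin N → ℤ) (hD : Indep D) (z : ℤ) (hz : z ≠ 0) : ∃ F : ℂ → ℂ,
      IsLFunK (Kd D) (a * z ^ 2) (b * z ^ 3) (∏ i, D i) F ∧ ∀ w : ℂ, 1 / 2 < w.re →
        analyticOrderAt F w =
          ∑ T : Finset (Fin N), analyticOrderAt (L (sfd (z * ∏ i ∈ T, D i))) w := by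
  have h5 : ∀ T : Finset (Fin N), z * ∏ i ∈ T, D i ≠ 0 :=
    fun T => mul_ne_zero hz (Finset.prod_ne_zero_iff.2 fun i _ => hD.ne i)
  choose G hG1 hG2 using fun T => exists_GZ h4 hab L hL (z * ∏ i ∈ T, D i) (h5 T)
  have hdisc : 4 * (a * z ^ 2) ^ 3 + 27 * (b * z ^ 3) ^ 2 ≠ 0 := by
    have e : 4 * (a * z ^ 2) ^ 3 + 27 * (b * z ^ 3) ^ 2 = (4 * a ^ 3 + 27 * b ^ 2) * z ^ 6 := by ring
    rw [e]
    exact mul_ne_zero hab (pow_ne_zero _ hz)
  obtain ⟨F, hF1, hF2⟩ := h1 (a * z ^ 2) (b * z ^ 3) hdisc N D hD G (fun T => by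
    have := hG1 T
    rw [mul_pow, mul_pow, ← mul_assoc, ← mul_assoc] at this
    exact this) (Kd D) (rt D) (rt_sq D) (adjoin_rt D)
  exact ⟨F, hF1, fun w hw => by rw [hF2 w hw]; exact Finset.sum_congr rfl fun T _ => hG2 T w hw⟩

/-- the symmetry of the zeros -/
theorem zero_refl {a b : ℤ} (hab : 4 * a ^ 3 + 27 * b ^ 2 ≠ 0) (hT : HasTwists a b)
    (L : ℤ → ℂ → ℂ) (hL : ∀ d : ℤ, Squarefree d → IsLFun (a * d ^ 2) (b * d ^ 3) (L d))
    (s : ℤ) (hs : Squarefree s) (ρ : ℂ) (h0 : L s ρ = 0) (h1 : 3 / 4 < ρ.re) (h2 : ρ.re ≤ 1) :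
    L s (2 - ρ) = 0 := by
  obtain ⟨Q, lam, ⟨T⟩, hQ, hlam⟩ := hT
  have hs1 : (ρ - 1 / 2).re = ρ.re - 1 / 2 := by simp
  have e1 : L s (ρ - 1 / 2 + 1 / 2) = 0 := by rw [sub_add_cancel]; exact h0
  have h4 := (zero_iff a b hab T hQ hlam s hs (L s) (hL s hs) (ρ - 1 / 2)
    (by rw [hs1]; linarith)).1 e1
  have h5 := Lq_zero_symm T hs (s := ρ - 1 / 2) (by rw [hs1]; linarith)
    (by rw [hs1]; linarith) h4
  have hs2 : (1 - (ρ - 1 / 2)).re = 3 / 2 - ρ.re := by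
    rw [Complex.sub_re, hs1, Complex.one_re]; ring
  have h6 := (zero_iff a b hab T hQ hlam s hs (L s) (hL s hs) (1 - (ρ - 1 / 2))
    (by rw [hs2]; linarith)).2 h5
  have e2 : (1 - (ρ - 1 / 2) + 1 / 2 : ℂ) = 2 - ρ := by ring
  rwa [e2] at h6

/-- from a density bound to the zeros near the line, for general families -/
theorem near_of_density {ι : Type} (P : ℕ → Finset ι) (V c C : ℝ) (A B : ℕ) (hV : 0 ≤ V) (hc : 0 < c)
    (hC : 0 ≤ C) (G : ℝ → ℝ → ι → ℝ≥0∞)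
    (hG : ∀ (X : ℕ) (σ U : ℝ), 3 ≤ X → 1 ≤ σ → 0 ≤ U → ∑ d ∈ P X, G σ U d ≤
      ENNReal.ofReal (C * (1 + U) ^ B * (X : ℝ) ^ (V - c * (σ - 1)) * Real.log X ^ A)) (K : ℕ) :
    ∃ C' K' : ℝ, ∀ (X : ℕ) (S : Finset ι), 3 ≤ X → S ⊆ P X →
      (∀ d ∈ S, ∃ N : ℕ,
        1 ≤ G (1 + K' * ((Real.log (Real.log X) + Real.log (N + 1)) / Real.log X)) N d) →
      (S.card : ℝ) ≤ C' * (X : ℝ) ^ V / Real.log X ^ K := by
  set W : ℕ := A + K + B + 2 with hW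
  refine ⟨C * ∑' n : ℕ, 1 / ((n : ℝ) + 1) ^ 2, (W : ℝ) / c, fun X S hX hS hone => ?_⟩
  have hl := one_le_log hX
  have hl0 : 0 < Real.log X := by linarith
  have hX0 : (0 : ℝ) < X := by exact_mod_cast (by omega : 0 < X)
  set L : ℝ := Real.log X with hLdef
  have hll : 0 ≤ Real.log L := Real.log_nonneg hl
  set η : ℕ → ℝ := fun n => (W : ℝ) / c * ((Real.log L + Real.log (n + 1)) / L) with hη
  have hη0 : ∀ n, 0 ≤ η n := by
    intro n
    have h1 : 0 ≤ Real.log ((n : ℝ) + 1) := Real.log_nonneg (by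
      have : (0 : ℝ) ≤ n := Nat.cast_nonneg n
      linarith)
    simp only [hη]
    positivity
  have hterm : ∀ n : ℕ, C * (1 + (n : ℝ)) ^ B * (X : ℝ) ^ (V - c * (1 + η n - 1)) * L ^ A ≤
      C * (X : ℝ) ^ V / L ^ K * (1 / ((n : ℝ) + 1) ^ 2) := by
    intro n
    have hn : (1 : ℝ) ≤ n + 1 := by
      have : (0 : ℝ) ≤ n := Nat.cast_nonneg n
      linarith
    have hn0 : (0 : ℝ) < n + 1 := by linarith
    have e1 : (X : ℝ) ^ (V - c * (1 + η n - 1)) =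
        (X : ℝ) ^ V * ((L ^ W)⁻¹ * (((n : ℝ) + 1) ^ W)⁻¹) := by
      have e2 : V - c * (1 + η n - 1) = V + -(c * η n) := by ring
      rw [e2, Real.rpow_add hX0, Real.rpow_neg hX0.le, ← mul_inv]
      congr 2
      rw [Real.rpow_def_of_pos hX0, ← hLdef]
      have e3 : L * (c * η n) = Real.log L * W + Real.log ((n : ℝ) + 1) * W := by
        simp only [hη]
        field_simp
      rw [e3, Real.exp_add, Real.exp_mul, Real.exp_log hl0, Real.exp_mul, Real.exp_log hn0,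
        Real.rpow_natCast, Real.rpow_natCast]
    rw [e1]
    have e5 : (L ^ W)⁻¹ * L ^ A ≤ (L ^ K)⁻¹ := by
      have : L ^ W = L ^ A * L ^ K * L ^ (B + 2) := by rw [hW]; ring
      rw [this]
      have h1 : (1 : ℝ) ≤ L ^ (B + 2) := one_le_pow₀ hl
      have h2 : 0 < L ^ A := by positivity
      have h3 : 0 < L ^ K := by positivity
      rw [inv_mul_le_iff₀ (by positivity)]
      have h4 : L ^ A * L ^ K * L ^ (B + 2) * (L ^ K)⁻¹ = L ^ A * L ^ (B + 2) := by field_simp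
      rw [h4]
      exact le_mul_of_one_le_right h2.le h1
    have e6 : (((n : ℝ) + 1) ^ W)⁻¹ * ((n : ℝ) + 1) ^ B ≤ 1 / ((n : ℝ) + 1) ^ 2 := by
      have : ((n : ℝ) + 1) ^ W = ((n : ℝ) + 1) ^ B * ((n : ℝ) + 1) ^ 2 * ((n : ℝ) + 1) ^ (A + K) := by
        rw [hW]; ring
      rw [this]
      have h1 : (1 : ℝ) ≤ ((n : ℝ) + 1) ^ (A + K) := one_le_pow₀ hn
      have h2 : 0 < ((n : ℝ) + 1) ^ B := by positivity
      have h3 : 0 < ((n : ℝ) + 1) ^ 2 := by positivity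
      rw [inv_mul_le_iff₀ (by positivity)]
      have h4 : ((n : ℝ) + 1) ^ B * ((n : ℝ) + 1) ^ 2 * ((n : ℝ) + 1) ^ (A + K) *
          (1 / ((n : ℝ) + 1) ^ 2) = ((n : ℝ) + 1) ^ B * ((n : ℝ) + 1) ^ (A + K) := by field_simp
      rw [h4]
      exact le_mul_of_one_le_right h2.le h1
    calc C * (1 + (n : ℝ)) ^ B * ((X : ℝ) ^ V * ((L ^ W)⁻¹ * (((n : ℝ) + 1) ^ W)⁻¹)) * L ^ A
        = C * (X : ℝ) ^ V * ((L ^ W)⁻¹ * L ^ A) * ((((n : ℝ) + 1) ^ W)⁻¹ * ((n : ℝ) + 1) ^ B) := by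
          rw [add_comm (1 : ℝ) n]; ring
      _ ≤ C * (X : ℝ) ^ V * (L ^ K)⁻¹ * (1 / ((n : ℝ) + 1) ^ 2) := by gcongr
      _ = _ := by ring
  have hsum : Summable fun n : ℕ => 1 / ((n : ℝ) + 1) ^ 2 := by
    have h := (summable_nat_add_iff (f := fun n : ℕ => 1 / (n : ℝ) ^ 2) 1).2
      (Real.summable_one_div_nat_pow.2 (by norm_num))
    simpa using h
  have hcard : (S.card : ℝ≥0∞) ≤
      ENNReal.ofReal (C * (X : ℝ) ^ V / L ^ K * ∑' n : ℕ, 1 / ((n : ℝ) + 1) ^ 2) := by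
    calc (S.card : ℝ≥0∞) = ∑ d ∈ S, (1 : ℝ≥0∞) := by simp
      _ ≤ ∑ d ∈ S, ∑' n : ℕ, G (1 + η n) n d := Finset.sum_le_sum fun d hd => by
          obtain ⟨n, hn⟩ := hone d hd
          exact hn.trans (ENNReal.le_tsum (f := fun n : ℕ => G (1 + η n) n d) n)
      _ = ∑' n : ℕ, ∑ d ∈ S, G (1 + η n) n d :=
          (Summable.tsum_finsetSum (fun _ _ => ENNReal.summable)).symm
      _ ≤ ∑' n : ℕ, ENNReal.ofReal (C * (X : ℝ) ^ V / L ^ K * (1 / ((n : ℝ) + 1) ^ 2)) := by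
          refine ENNReal.tsum_le_tsum fun n => ?_
          refine (Finset.sum_le_sum_of_subset hS).trans ?_
          refine (hG X (1 + η n) n hX (by linarith [hη0 n]) (Nat.cast_nonneg n)).trans ?_
          exact ENNReal.ofReal_le_ofReal (hterm n)
      _ = ENNReal.ofReal (∑' n : ℕ, C * (X : ℝ) ^ V / L ^ K * (1 / ((n : ℝ) + 1) ^ 2)) :=
          (ENNReal.ofReal_tsum_of_nonneg (fun n => by positivity) (hsum.mul_left _)).symm
      _ = _ := by rw [tsum_mul_left]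
  have hts : 0 ≤ ∑' n : ℕ, 1 / ((n : ℝ) + 1) ^ 2 := tsum_nonneg fun n => by positivity
  have hcard' : (S.card : ℝ) ≤ C * (X : ℝ) ^ V / L ^ K * ∑' n : ℕ, 1 / ((n : ℝ) + 1) ^ 2 := by
    rw [← ENNReal.ofReal_natCast] at hcard
    exact (ENNReal.ofReal_le_ofReal_iff (by positivity)).1 hcard
  refine hcard'.trans (le_of_eq ?_)
  ring

theorem multiDensity_of (h1 : S_MQ1) (h3 : S_MQ3b) (h4 : S_MQ4) {a b : ℤ}
    (hab : 4 * a ^ 3 + 27 * b ^ 2 ≠ 0) (hT : HasTwists a b)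
    (hL : ∀ d : ℤ, Squarefree d → ∃ F : ℂ → ℂ, IsLFun (a * d ^ 2) (b * d ^ 3) F) :
    MultiDensityLaw a b := by
  classical
  choose! L hL using hL
  obtain ⟨hfin, hzero, C0, c0, A0, B0, hC0, hc0, hc1, hsq⟩ := density_sq hab hT L hL
  intro m e n
  have hex := fun (d₀ : ℤ) (d : Fin n → ℤ) (h0 : d₀ ≠ 0) (hd : Indep (Fin.append e d)) =>
    exists_FK' h1 h4 hab L hL (Fin.append e d) hd d₀ h0
  refine ⟨fun d₀ d h0 hd => ?_, fun F hF => ?_⟩
  · obtain ⟨F, hF, -⟩ := hex d₀ d h0 hd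
    exact ⟨F, hF, fun G hG => isLFunK_unique hG hF⟩
  set G : ℝ → ℝ → ℤ × (Fin n → ℤ) → ℝ≥0∞ := fun σ U p =>
    ∑ T : Finset (Fin (m + n)), zcount (L (sfd (p.1 * ∏ i ∈ T, Fin.append e p.2 i))) σ U with hG
  have hord : ∀ (d₀ : ℤ) (d : Fin n → ℤ), d₀ ≠ 0 → Indep (Fin.append e d) → ∀ w : ℂ, 1 / 2 < w.re →
      analyticOrderAt (F d₀ d) w = ∑ T : Finset (Fin (m + n)),
        analyticOrderAt (L (sfd (d₀ * ∏ i ∈ T, Fin.append e d i))) w := by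
    intro d₀ d h0 hd w hw
    obtain ⟨F', hF', h5⟩ := hex d₀ d h0 hd
    rw [isLFunK_unique (hF d₀ d h0 hd) hF']
    exact h5 w hw
  have hbound : ∃ (C : ℝ) (A : ℕ), 0 ≤ C ∧ ∀ (X : ℕ) (σ U : ℝ), 3 ≤ X → 1 ≤ σ → 0 ≤ U →
      ∑ p ∈ sqf X ×ˢ tup e n X, G σ U p ≤ ENNReal.ofReal
        (C * (1 + U) ^ B0 * (X : ℝ) ^ ((n : ℝ) + 1 - c0 / 2 * (σ - 1)) * Real.log X ^ A) := by
    by_cases he : ∀ i, e i ≠ 0
    · choose C1 A1 hC1 hz using fun T => zPart h3 L hzero C0 c0 A0 B0 hC0 hc0 hc1 hsq m e he n T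
      refine ⟨∑ T, C1 T, ∑ T, A1 T, Finset.sum_nonneg fun T _ => hC1 T, fun X σ U hX hσ hU => ?_⟩
      have hl := one_le_log hX
      have e1 : ∀ (s : ℤ), Squarefree s →
          zcount (L s) σ U = ENNReal.ofReal (zcount (L s) σ U).toReal := fun s hs =>
        (ENNReal.ofReal_toReal (hfin s σ U hs hσ hU)).symm
      have e2 : ∑ p ∈ sqf X ×ˢ tup e n X, G σ U p = ENNReal.ofReal
          (∑ p ∈ sqf X ×ˢ tup e n X, ∑ T : Finset (Fin (m + n)),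
            (zcount (L (sfd (p.1 * ∏ i ∈ T, Fin.append e p.2 i))) σ U).toReal) := by
        rw [ENNReal.ofReal_sum_of_nonneg
          (fun _ _ => Finset.sum_nonneg fun _ _ => ENNReal.toReal_nonneg)]
        refine Finset.sum_congr rfl fun p _ => ?_
        rw [ENNReal.ofReal_sum_of_nonneg (fun _ _ => ENNReal.toReal_nonneg), hG]
        exact Finset.sum_congr rfl fun T _ => e1 _ (sfd_spec _).1
      rw [e2]
      apply ENNReal.ofReal_le_ofReal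
      rw [Finset.sum_comm, Finset.sum_mul, Finset.sum_mul, Finset.sum_mul]
      refine Finset.sum_le_sum fun T _ => ?_
      have h5 : ∑ p ∈ sqf X ×ˢ tup e n X,
          (zcount (L (sfd (p.1 * ∏ i ∈ T, Fin.append e p.2 i))) σ U).toReal ≤
          ∑ d₀ ∈ sqf X, ∑ d ∈ Fintype.piFinset (fun _ : Fin n => sqf X),
            (zcount (L (sfd (d₀ * ∏ i ∈ T, Fin.append e d i))) σ U).toReal := by
        rw [Finset.sum_product]
        refine Finset.sum_le_sum fun d₀ _ => ?_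
        exact Finset.sum_le_sum_of_subset_of_nonneg (Finset.filter_subset _ _)
          fun _ _ _ => ENNReal.toReal_nonneg
      refine h5.trans ((hz T X σ U hX hσ hU).trans ?_)
      have h6 : Real.log X ^ A1 T ≤ Real.log X ^ (∑ T, A1 T) :=
        pow_le_pow_right₀ hl (Finset.single_le_sum (f := fun T => A1 T)
          (fun _ _ => Nat.zero_le _) (Finset.mem_univ T))
      have h7 := hC1 T
      gcongr
    · refine ⟨0, 0, le_rfl, fun X σ U hX hσ hU => ?_⟩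
      have h5 : tup e n X = ∅ := by
        rw [Finset.eq_empty_iff_forall_notMem]
        intro d hd
        have h6 : Indep (Fin.append e d) := (Finset.mem_filter.1 hd).2
        apply he
        intro i
        have h7 := h6.ne (Fin.castAdd n i)
        rwa [Fin.append_left] at h7
      rw [h5, Finset.product_empty, Finset.sum_empty]
      exact zero_le
  obtain ⟨C, A, hC, hb⟩ := hbound
  have hzc : ∀ (X : ℕ) (σ U : ℝ), 1 ≤ σ → ∀ p ∈ sqf X ×ˢ tup e n X,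
      zcount (F p.1 p.2) σ U = G σ U p := by
    intro X σ U hσ p hp
    obtain ⟨hp1, hp2⟩ := Finset.mem_product.1 hp
    have h5 : Indep (Fin.append e p.2) := (Finset.mem_filter.1 hp2).2
    have h6 : p.1 ≠ 0 := sqf_ne hp1
    exact zcount_sum (hF p.1 p.2 h6 h5).1 (fun T => (hL _ (sfd_spec _).1).1) σ U
      fun w hw => hord p.1 p.2 h6 h5 w (by linarith)
  refine ⟨⟨C, c0 / 2, A, B0, by positivity, fun X σ U hX hσ hU => ?_⟩, fun k => ?_⟩
  · refine le_trans (le_of_eq ?_) (hb X σ U hX hσ hU)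
    rw [Finset.sum_product]
    refine Finset.sum_congr rfl fun d₀ hd₀ => Finset.sum_congr rfl fun d hd => ?_
    exact hzc X σ U hσ (d₀, d) (Finset.mem_product.2 ⟨hd₀, hd⟩)
  · obtain ⟨C', K', h5⟩ := near_of_density (fun X => sqf X ×ˢ tup e n X) ((n : ℝ) + 1) (c0 / 2) C A B0
      (by positivity) (by positivity) hC G hb k
    refine ⟨C', max K' 0, fun X S hX hS hSρ => ?_⟩
    have h6 := h5 X S hX hS fun p hp => ?_
    · refine h6.trans (le_of_eq ?_)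
      have : (X : ℝ) ^ ((n : ℝ) + 1) = (X : ℝ) ^ (n + 1) := by
        rw [← Real.rpow_natCast]
        push_cast
        rfl
      rw [this]
    · have hl := one_le_log hX
      have hl0 : 0 < Real.log X := by linarith
      have hll : 0 ≤ Real.log (Real.log X) := Real.log_nonneg hl
      obtain ⟨hp1, hp2⟩ := Finset.mem_product.1 (hS hp)
      have hi : Indep (Fin.append e p.2) := (Finset.mem_filter.1 hp2).2
      have hp0 : p.1 ≠ 0 := sqf_ne hp1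
      obtain ⟨ρ, h0, h1', h3'⟩ := hSρ p hp
      have ho : analyticOrderAt (F p.1 p.2) ρ ≠ 0 := by
        rw [Ne, ((hF p.1 p.2 hp0 hi).1.analyticAt ρ).analyticOrderAt_eq_zero]
        exact fun h => h h0
      rw [hord p.1 p.2 hp0 hi ρ (by linarith)] at ho
      obtain ⟨T, hT0⟩ : ∃ T : Finset (Fin (m + n)),
          analyticOrderAt (L (sfd (p.1 * ∏ i ∈ T, Fin.append e p.2 i))) ρ ≠ 0 := by
        by_contra hcon
        push Not at hcon
        exact ho (Finset.sum_eq_zero fun T _ => hcon T)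
      have hs : Squarefree (sfd (p.1 * ∏ i ∈ T, Fin.append e p.2 i)) := (sfd_spec _).1
      have hdiff := (hL _ hs).1
      have h7 : L (sfd (p.1 * ∏ i ∈ T, Fin.append e p.2 i)) ρ = 0 := by
        by_contra hne
        exact hT0 ((hdiff.analyticAt ρ).analyticOrderAt_eq_zero.2 hne)
      refine ⟨⌈|ρ.im|⌉₊, ?_⟩
      have h2 : |ρ.im| ≤ (⌈|ρ.im|⌉₊ : ℝ) := Nat.le_ceil _
      have hη : K' * ((Real.log (Real.log X) + Real.log ((⌈|ρ.im|⌉₊ : ℝ) + 1)) / Real.log X) ≤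
          |ρ.re - 1| := by
        refine le_trans ?_ h3'
        have h8 := Nat.ceil_lt_add_one (abs_nonneg ρ.im)
        have h9 : Real.log ((⌈|ρ.im|⌉₊ : ℝ) + 1) ≤ Real.log (2 + |ρ.im|) :=
          Real.log_le_log (by positivity) (by linarith)
        have h10 : 0 ≤ Real.log ((⌈|ρ.im|⌉₊ : ℝ) + 1) := Real.log_nonneg (by
          have : (0 : ℝ) ≤ (⌈|ρ.im|⌉₊ : ℝ) := Nat.cast_nonneg _
          linarith)
        calc K' * ((Real.log (Real.log X) + Real.log ((⌈|ρ.im|⌉₊ : ℝ) + 1)) / Real.log X) ≤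
              max K' 0 * ((Real.log (Real.log X) + Real.log ((⌈|ρ.im|⌉₊ : ℝ) + 1)) / Real.log X) :=
              mul_le_mul_of_nonneg_right (le_max_left _ _) (by positivity)
          _ ≤ _ := by gcongr
      have hsingle : zcount (L (sfd (p.1 * ∏ i ∈ T, Fin.append e p.2 i)))
          (1 + K' * ((Real.log (Real.log X) + Real.log ((⌈|ρ.im|⌉₊ : ℝ) + 1)) / Real.log X))
          (⌈|ρ.im|⌉₊ : ℝ) ≤ G (1 + K' * ((Real.log (Real.log X) +
            Real.log ((⌈|ρ.im|⌉₊ : ℝ) + 1)) / Real.log X)) (⌈|ρ.im|⌉₊ : ℝ) p :=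
        Finset.single_le_sum (f := fun T : Finset (Fin (m + n)) =>
          zcount (L (sfd (p.1 * ∏ i ∈ T, Fin.append e p.2 i)))
          (1 + K' * ((Real.log (Real.log X) + Real.log ((⌈|ρ.im|⌉₊ : ℝ) + 1)) / Real.log X))
          (⌈|ρ.im|⌉₊ : ℝ)) (fun _ _ => zero_le) (Finset.mem_univ T)
      refine le_trans ?_ hsingle
      rcases le_total 1 ρ.re with h | h
      · rw [abs_of_nonneg (show 0 ≤ ρ.re - 1 by linarith)] at hη
        exact one_le_zcount hdiff h7 (by linarith) h2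
      · rw [abs_of_nonpos (show ρ.re - 1 ≤ 0 by linarith)] at hη
        have h8 := zero_refl hab hT L hL _ hs ρ h7 h1' h
        refine one_le_zcount hdiff h8 ?_ ?_
        · have : (2 - ρ).re = 2 - ρ.re := by simp
          rw [this]; linarith
        · have : (2 - ρ).im = -ρ.im := by simp
          rw [this, abs_neg]; exact h2

end

end Pool.Agent.Y19.QT
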