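import Pool.Agent.Y19.QT.MB
import Pool.Agent.Y19.QT.MD
import Pool.Agent.Y153.QMQ3b

set_option autoImplicit false

/-! Project QT, multiquadratic fields: the results on the zeros. -/

namespace Pool.Agent.Y19.QT

theorem s_MQ3b : S_MQ3b := Pool.Agent.Y153.QMQ3b.MQ3b

theorem multiDensity_fam {a b : ℤ} (h : Fam a b) : MultiDensityLaw a b :=
  multiDensity_of s_MQ1 s_MQ3b s_MQ4 h.disc h.data.1 h.data.2

theorem multiDensity_modular {a b : ℤ} (hab : 4 * a ^ 3 + 27 * b ^ 2 ≠ 0) (h : TwistsModular a b) :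
    MultiDensityLaw a b :=
  multiDensity_of s_MQ1 s_MQ3b s_MQ4 hab (hasTwists_of a b hab h) (exists_LFun a b hab h)

end Pool.Agent.Y19.QT
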