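import Pool.Agent.Y73.QMQ1
import Pool.Agent.Y19.QT.MF

/-! Project QT: the `L`-function of an elliptic curve over a multiquadratic field as an explicit product
(the proof is that of task MQ1 by helper73, `Pool.Agent.Y73.QMQ1`). -/

set_option autoImplicit false

namespace Pool.Agent.Y19.QT

open Complex NumberField IsDedekindDomain Filter
open Pool.Agent.Y73.QMQ1
open Pool.Agent.Y705.QT (pf pf_diff ap_twist)
open Pool.Agent.Y203.QTZ5 (pf_ne)
open Pool.Agent.H921R2.TatePole
open Pool.Agent.H82R3.EK (luc nm_cpow prime_cpow)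
open W165.CE (trace_good fac fac_sub_bound finite_bad intCast_mem_iff ap0)
open Pool.Agent.H306R2.RZ (js)

theorem MQ1V (a b : ℤ) (hab : 4 * a ^ 3 + 27 * b ^ 2 ≠ 0) (n : ℕ) (d : Fin n → ℤ) (hd : Indep d)
    (G : Finset (Fin n) → ℂ → ℂ)
    (hG : ∀ T, IsLFun (a * (∏ i ∈ T, d i) ^ 2) (b * (∏ i ∈ T, d i) ^ 3) (G T))
    (K : Type) [Field K] [NumberField K] (x : Fin n → K) (hx : ∀ i, x i ^ 2 = (d i : K))
    (hK : IntermediateField.adjoin ℚ (Set.range x) = ⊤) :
    ∃ S : Finset (Fin n) → Finset ℕ, (∀ T, S T ⊆ (∏ i, d i).natAbs.primeFactors) ∧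
      (∀ T, ∀ p ∈ S T, p ≠ 2) ∧
      IsLFunK K a b (∏ i, d i) (fun s => ∏ T : Finset (Fin n), (G T s *
        ∏ p ∈ S T, pf (a * (∏ i ∈ T, d i) ^ 2) (b * (∏ i ∈ T, d i) ^ 3) s p)) := by
  classical
  have hD0 : (∏ i, d i) ≠ 0 := Finset.prod_ne_zero_iff.2 fun i _ => d_ne_zero hd i
  set D : ℤ := ∏ i, d i with hD
  set e : Finset (Fin n) → ℤ := fun T => ∏ i ∈ T, d i with he
  set A : Finset (Fin n) → ℤ := fun T => a * (e T) ^ 2 with hA
  set B : Finset (Fin n) → ℤ := fun T => b * (e T) ^ 3 with hB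
  set M : Finset (Fin n) → ℤ := fun T => 2 * (-4 * (A T) ^ 3 - 27 * (B T) ^ 2) with hM
  have hMe : ∀ T, M T = -(2 * (4 * a ^ 3 + 27 * b ^ 2)) * (e T) ^ 6 := by
    intro T
    simp only [hM, hA, hB]
    ring
  have heD : ∀ T, e T ∣ D := fun T => Finset.prod_dvd_prod_of_subset _ _ _ (Finset.subset_univ T)
  set S : Finset (Fin n) → Finset ℕ := fun T =>
    D.natAbs.primeFactors.filter (fun p => ¬ (p : ℤ) ∣ M T) with hS
  have hSm : ∀ T q, q ∈ S T ↔ q ∈ D.natAbs.primeFactors ∧ ¬ (q : ℤ) ∣ M T := fun T q =>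
    Finset.mem_filter
  have hSp : ∀ T, ∀ q ∈ S T, q.Prime := fun T q hq =>
    Nat.prime_of_mem_primeFactors ((hSm T q).1 hq).1
  have hS2 : ∀ T, ∀ q ∈ S T, q ≠ 2 := by
    rintro T q hq rfl
    exact ((hSm T 2).1 hq).2 (dvd_mul_right _ _)
  set H : Finset (Fin n) → ℂ → ℂ := fun T s => G T s * ∏ p ∈ S T, pf (A T) (B T) s p with hH
  have hCd : ∀ T, Differentiable ℂ (fun s => ∏ p ∈ S T, pf (A T) (B T) s p) := fun T =>
    Differentiable.fun_finsetProd fun p hp => pf_diff (A T) (B T) (hSp T p hp)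
  have hHd : ∀ T, Differentiable ℂ (H T) := fun T => (hG T).1.mul (hCd T)
  refine ⟨S, fun T => Finset.filter_subset _ _, hS2, ?_⟩
  show IsLFunK K a b D (fun s => ∏ T, H T s)
  refine ⟨Differentiable.fun_finsetProd fun T _ => hHd T, ?_⟩
  · intro s hs
    have hs' : 1 / 2 < s.re := by linarith
    -- the Euler product over the primes
    have h1 : ∀ T, HasProd (fun p : ℕ => (if p.Prime ∧ ¬ (p : ℤ) ∣ M T then
        (pf (A T) (B T) s p)⁻¹ else 1) * (if p ∈ S T then pf (A T) (B T) s p else 1)) (H T s) := by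
      intro T
      have h2 := (hG T).2 s hs
      have h3 : HasProd (fun p => if p ∈ S T then pf (A T) (B T) s p else 1)
          (∏ p ∈ S T, pf (A T) (B T) s p) := by
        have h4 : HasProd (fun p => if p ∈ S T then pf (A T) (B T) s p else 1)
            (∏ p ∈ S T, if p ∈ S T then pf (A T) (B T) s p else 1) :=
          hasProd_prod_of_ne_finset_one (fun p hp => if_neg hp)
        rwa [Finset.prod_congr rfl fun p hp => if_pos hp] at h4
      have hpf : ∀ p : ℕ, pf (A T) (B T) s p = 1 - ((p : ℂ) - (Nat.card {q : ZMod p × ZMod p //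
            q.2 ^ 2 = q.1 ^ 3 + ((A T : ℤ) : ZMod p) * q.1 + ((B T : ℤ) : ZMod p)} : ℂ))
            * (p : ℂ) ^ (-s) + (p : ℂ) ^ (1 - 2 * s) := by
        intro p
        unfold pf ap
        push_cast
        rfl
      simp_rw [hpf] at h3 ⊢
      rw [show H T s = G T s * ∏ p ∈ S T, pf (A T) (B T) s p from rfl]
      simp_rw [hpf]
      exact h2.mul h3
    have h5 : HasProd (fun p : ℕ => ∏ T : Finset (Fin n), ((if p.Prime ∧ ¬ (p : ℤ) ∣ M T then
        (pf (A T) (B T) s p)⁻¹ else 1) * (if p ∈ S T then pf (A T) (B T) s p else 1)))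
        (∏ T, H T s) := hasProd_prod fun T _ => h1 T
    have h6 := (Function.Injective.hasProd_iff (g := fun p : Nat.Primes => (p : ℕ))
      Subtype.val_injective (by
        intro p hp
        have hp' : ¬ p.Prime := fun h => hp ⟨⟨p, h⟩, rfl⟩
        refine Finset.prod_eq_one fun T _ => ?_
        rw [if_neg (by tauto), if_neg (fun h => hp' (hSp T p h)), one_mul])).2 h5
    have h7 : ∀ p : Nat.Primes, ((fun p : ℕ => ∏ T : Finset (Fin n),
        ((if p.Prime ∧ ¬ (p : ℤ) ∣ M T then (pf (A T) (B T) s p)⁻¹ else 1) *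
          (if p ∈ S T then pf (A T) (B T) s p else 1))) ∘ fun p : Nat.Primes => (p : ℕ)) p =
        ∏ v : {v : HeightOneSpectrum (𝓞 K) // below v = p}, fK a b D s v.1 := by
      intro p
      show ∏ T : Finset (Fin n), ((if (p : ℕ).Prime ∧ ¬ ((p : ℕ) : ℤ) ∣ M T then
        (pf (A T) (B T) s p)⁻¹ else 1) * (if (p : ℕ) ∈ S T then pf (A T) (B T) s p else 1)) = _
      have hpi := Nat.prime_iff_prime_int.1 p.2
      by_cases hp : ((p : ℕ) : ℤ) ∣ 2 * (4 * a ^ 3 + 27 * b ^ 2) * D
      · rw [Finset.prod_eq_one, Finset.prod_eq_one]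
        · rintro ⟨v, rfl⟩ _
          exact fK_bad v s hp
        · intro T _
          by_cases h8 : ((p : ℕ) : ℤ) ∣ M T
          · rw [if_neg (by tauto), if_neg (fun h => ((hSm T p).1 h).2 h8), one_mul]
          · have h9 : ¬ ((p : ℕ) : ℤ) ∣ 2 * (4 * a ^ 3 + 27 * b ^ 2) := fun h => h8 (by
              rw [hMe]
              exact ((dvd_neg).2 h).mul_right _)
            have h10 : ((p : ℕ) : ℤ) ∣ D := (hpi.dvd_or_dvd hp).resolve_left h9
            have h11 : (p : ℕ) ∈ S T := (hSm T p).2 ⟨Nat.mem_primeFactors.2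
              ⟨p.2, Int.natCast_dvd.1 h10, Int.natAbs_ne_zero.2 hD0⟩, h8⟩
            rw [if_pos ⟨p.2, h8⟩, if_pos h11]
            exact inv_mul_cancel₀ (pf_ne _ _ p.2 (hS2 T p h11) s hs')
      · rw [local_prod hd hx hK a b s p hp]
        refine Finset.prod_congr rfl fun T _ => ?_
        have h8 : ¬ ((p : ℕ) : ℤ) ∣ M T := by
          rw [hMe]
          intro h
          rcases hpi.dvd_or_dvd h with h | h
          · exact hp ((dvd_neg.1 h).mul_right _)
          · exact hp (((hpi.dvd_of_dvd_pow h).trans (heD T)).mul_left _)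
        have h9 : (p : ℕ) ∉ S T := by
          intro h
          have h10 := Nat.dvd_of_mem_primeFactors ((hSm T p).1 h).1
          exact hp ((Int.natCast_dvd.2 h10).mul_left _)
        rw [if_pos ⟨p.2, h8⟩, if_neg h9, mul_one]
        congr 1
        have hp2 : (p : ℕ) ≠ 2 := by
          intro h
          apply hp
          rw [h]
          exact ((dvd_mul_right _ _).mul_right _)
        have hpe : ¬ ((p : ℕ) : ℤ) ∣ e T := fun h => hp ((h.trans (heD T)).mul_left _)
        have h10 := ap_twist a b (e T) p p.2 hp2 hpe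
        have h11 : (ap (A T) (B T) p : ℂ) =
            ((∏ i ∈ T, jacobiSym (d i) p : ℤ) : ℂ) * (ap a b p : ℂ) := by
          have h12 := congrArg (fun z : ℝ => (z : ℂ)) h10
          unfold js at h12
          rw [js_prod] at h12
          push_cast at h12 ⊢
          exact h12
        unfold pf
        rw [h11, prime_cpow _ p.2.ne_zero]
    have h6' : HasProd (fun p : Nat.Primes =>
        ∏ v : {v : HeightOneSpectrum (𝓞 K) // below v = p}, fK a b D s v.1) (∏ T, H T s) := by
      refine (congrArg (fun g => HasProd g (∏ T, H T s)) (funext h7)).mp h6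
    show HasProd (fK (K := K) a b D s) (∏ T, H T s)
    rw [← (Equiv.sigmaFiberEquiv (below (K := K))).hasProd_iff]
    refine HasProd.sigma_of_hasProd h6' (fun p => ?_) ?_
    · exact hasProd_fintype _
    · exact (Equiv.sigmaFiberEquiv (below (K := K))).multipliable_iff.2
        (multipliable_fK hab hD0 s hs)

end Pool.Agent.Y19.QT
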