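import Pool.Agent.Y19.QT.Defs
import Pool.Agent.Y496.QT3a
import Pool.Agent.Y705.QT0
import Pool.Agent.H505R2.DivB

set_option autoImplicit false

/-! Project QT, T6: the master inequality (tools). -/

namespace Pool.Agent.Y19.QT

open Complex MeasureTheory Filter Topology
open Pool.Agent.H306R2.RZ (js Gk)
open scoped ENNReal ComplexConjugate

noncomputable section

theorem tsum_lintegral_le {α ι : Type*} [MeasurableSpace α] (μ : Measure α) (f : ι → α → ℝ≥0∞) :
    ∑' k, ∫⁻ x, f k x ∂μ ≤ ∫⁻ x, ∑' k, f k x ∂μ := by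
  rw [ENNReal.tsum_eq_iSup_sum]
  refine iSup_le fun s => ?_
  have h1 : ∑ k ∈ s, ∫⁻ x, f k x ∂μ ≤ ∫⁻ x, ∑ k ∈ s, f k x ∂μ := by
    classical
    induction s using Finset.induction_on with
    | empty => simp
    | insert a s ha ih =>
      rw [Finset.sum_insert ha]
      have : (fun x => ∑ k ∈ insert a s, f k x) = fun x => f a x + ∑ k ∈ s, f k x := by
        funext x; rw [Finset.sum_insert ha]
      rw [this]
      calc _ ≤ ∫⁻ x, f a x ∂μ + ∫⁻ x, ∑ k ∈ s, f k x ∂μ := by gcongr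
        _ ≤ _ := le_lintegral_add _ _
  refine h1.trans (lintegral_mono fun x => ?_)
  exact ENNReal.sum_le_tsum s

theorem ray_re (θ u : ℝ) : (ray θ u).re = u * Real.cos θ := by
  unfold ray
  rw [Complex.re_ofReal_mul, Complex.exp_ofReal_mul_I_re]

theorem ray_conj_re (θ u : ℝ) : (conj (ray θ u)).re = u * Real.cos θ := by
  rw [Complex.conj_re, ray_re]

/-- terms of `AA` -/
def AAt (a : ℕ → ℝ) (b : ℕ) (R : ℝ) (w : ℂ) (m : ℕ × ℕ) : ℂ :=
  ((a m.1 * a m.2 *
    Real.exp (-(Real.pi * (R / ((b : ℝ) ^ 2 * (m.1 : ℝ) * (m.2 : ℝ))) ^ 2)) : ℝ) : ℂ) *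
    cexp (-(2 * Real.pi * b * ((m.1 : ℂ) * w + (m.2 : ℂ) * conj w)))

theorem AAt_norm (a : ℕ → ℝ) (b : ℕ) (R : ℝ) (w : ℂ) (ha : ∀ n, |a n| ≤ n) (m : ℕ × ℕ) :
    ‖AAt a b R w m‖ ≤ ((m.1 : ℝ) * Real.exp (-(2 * Real.pi * b * w.re) * m.1)) *
      ((m.2 : ℝ) * Real.exp (-(2 * Real.pi * b * w.re) * m.2)) := by
  unfold AAt
  rw [norm_mul, Complex.norm_exp, Complex.norm_real, Real.norm_eq_abs, abs_mul, abs_mul]
  have h1 : (-(2 * (Real.pi : ℂ) * b * ((m.1 : ℂ) * w + (m.2 : ℂ) * conj w))).re =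
      -(2 * Real.pi * b * w.re) * m.1 + -(2 * Real.pi * b * w.re) * m.2 := by
    have : (2 * (Real.pi : ℂ) * b * ((m.1 : ℂ) * w + (m.2 : ℂ) * conj w)) =
        ((2 * Real.pi * b * m.1 : ℝ) : ℂ) * w + ((2 * Real.pi * b * m.2 : ℝ) : ℂ) * conj w := by
      push_cast; ring
    rw [Complex.neg_re, this, Complex.add_re, Complex.re_ofReal_mul, Complex.re_ofReal_mul,
      Complex.conj_re]
    ring
  rw [h1, Real.exp_add]
  have h2 : |Real.exp (-(Real.pi * (R / ((b : ℝ) ^ 2 * (m.1 : ℝ) * (m.2 : ℝ))) ^ 2))| ≤ 1 := by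
    rw [abs_of_pos (Real.exp_pos _)]
    apply Real.exp_le_one_iff.2
    have : 0 ≤ Real.pi * (R / ((b : ℝ) ^ 2 * (m.1 : ℝ) * (m.2 : ℝ))) ^ 2 := by positivity
    linarith
  calc |a m.1| * |a m.2| * |Real.exp (-(Real.pi * (R / ((b : ℝ) ^ 2 * (m.1 : ℝ) * (m.2 : ℝ))) ^ 2))| *
        (Real.exp (-(2 * Real.pi * b * w.re) * m.1) * Real.exp (-(2 * Real.pi * b * w.re) * m.2))
      ≤ (m.1 : ℝ) * (m.2 : ℝ) * 1 *
        (Real.exp (-(2 * Real.pi * b * w.re) * m.1) * Real.exp (-(2 * Real.pi * b * w.re) * m.2)) := by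
        gcongr
        · exact ha _
        · exact ha _
    _ = _ := by ring

theorem AAt_summable (a : ℕ → ℝ) (b : ℕ) (R : ℝ) (w : ℂ) (ha : ∀ n, |a n| ≤ n) (hb : 0 < b)
    (hw : 0 < w.re) : Summable (AAt a b R w) := by
  have hb0 : (0 : ℝ) < b := by exact_mod_cast hb
  have h1 : Summable (fun n : ℕ => (n : ℝ) * Real.exp (-(2 * Real.pi * b * w.re) * n)) := by
    have := Real.summable_pow_mul_exp_neg_nat_mul 1 (r := 2 * Real.pi * b * w.re) (by positivity)
    simpa using this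
  have h2 := h1.mul_of_nonneg h1 (fun n => by positivity) (fun n => by positivity)
  exact Summable.of_norm_bounded h2 (fun m => AAt_norm a b R w ha m)

theorem AA_eq (a : ℕ → ℝ) (b : ℕ) (R : ℝ) (w : ℂ) : AA a b R w = ∑' m, AAt a b R w m := rfl

theorem AA_aemeas (a : ℕ → ℝ) (b : ℕ) (R θ u0 : ℝ) (ha : ∀ n, |a n| ≤ n) (hb : 0 < b)
    (hθ : 0 < Real.cos θ) (hu : 0 < u0) :
    AEMeasurable (fun u => AA a b R (ray θ u)) (volume.restrict (Set.Ioi u0)) := by
  have h1 : ∀ s : Finset (ℕ × ℕ), AEMeasurable (fun u : ℝ => ∑ m ∈ s, AAt a b R (ray θ u) m)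
      (volume.restrict (Set.Ioi u0)) := by
    intro s
    have : Continuous (fun u : ℝ => ∑ m ∈ s, AAt a b R (ray θ u) m) := by
      unfold AAt ray
      fun_prop
    exact this.aemeasurable
  refine aemeasurable_of_tendsto_metrizable_ae atTop h1 ?_
  rw [ae_restrict_iff' measurableSet_Ioi]
  refine Eventually.of_forall fun u hu' => ?_
  have hu1 : 0 < u := lt_trans hu hu'
  have hs := AAt_summable a b R (ray θ u) ha hb (by rw [ray_re]; positivity)
  exact hs.hasSum

theorem lam_sq_le {Q : ℕ} {lam : ℕ → ℝ} (H : Hecke Q lam) (n : ℕ) (hn : Squarefree n) :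
    |lam n| ≤ 2 ^ n.primeFactors.card := by
  induction n using Nat.strong_induction_on with
  | _ n ih =>
    rcases Nat.lt_or_ge n 2 with h | h
    · interval_cases n
      · rw [H.zero]; simp
      · rw [H.one]; simp
    · obtain ⟨m, hm⟩ := Nat.minFac_dvd n
      have hp := Nat.minFac_prime (show n ≠ 1 by omega)
      set p := n.minFac with hpd
      have hcop : p.Coprime m := by
        rw [hm] at hn
        exact Nat.coprime_of_squarefree_mul hn
      have hm0 : m ≠ 0 := by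
        rintro rfl
        omega
      have hlt : m < n := by
        have := hp.two_le
        rw [hm]
        nlinarith [Nat.pos_of_ne_zero hm0]
      have hsm : Squarefree m := by
        rw [hm] at hn
        exact hn.of_mul_right
      have h1 := ih m hlt hsm
      rw [hm, H.mul p m hcop, abs_mul, Nat.Coprime.primeFactors_mul hcop,
        Finset.card_union_of_disjoint hcop.disjoint_primeFactors, hp.primeFactors, pow_add]
      simp only [Finset.card_singleton, pow_one]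
      exact mul_le_mul (H.bound p hp) h1 (abs_nonneg _) (by positivity)

/-- the function `[n squarefree] A^{ω(n)} n^{-s}` -/
theorem sqf_sum (A : ℕ) (s : ℝ) (hs : 1 < s) :
    ∑' n : ℕ, ENNReal.ofReal (if Squarefree n then (A : ℝ) ^ n.primeFactors.card * (n : ℝ) ^ (-s)
      else 0) ≤ ENNReal.ofReal ((1 + 1 / (s - 1)) ^ A) := by
  set f : ℕ → ℝ := fun n => if Squarefree n then (A : ℝ) ^ n.primeFactors.card * (n : ℝ) ^ (-s)
      else 0 with hf
  have h0 : ∀ n, 0 ≤ f n := by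
    intro n
    simp only [hf]
    split_ifs
    · positivity
    · exact le_rfl
  have hT := Pool.Agent.Y705.QT0.T0 f A s hs h0 (by simp [hf]) (by simp [hf]) ?_ ?_
  · rw [← ENNReal.ofReal_tsum_of_nonneg h0 hT.1]
    exact ENNReal.ofReal_le_ofReal hT.2
  · intro m n hmn
    simp only [hf, Nat.squarefree_mul hmn]
    by_cases h1 : Squarefree m <;> by_cases h2 : Squarefree n <;> simp [h1, h2]
    rw [Nat.Coprime.primeFactors_mul hmn, Finset.card_union_of_disjoint hmn.disjoint_primeFactors,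
      pow_add, Real.mul_rpow (by positivity) (by positivity)]
    ring
  · intro p hp
    have hp0 : (0 : ℝ) < p := by exact_mod_cast hp.pos
    have hzero : ∀ k ∉ Finset.range 2, f (p ^ k) = 0 := by
      intro k hk
      simp only [hf]
      rw [if_neg]
      rw [Nat.squarefree_pow_iff hp.ne_one (by rw [Finset.mem_range] at hk; omega)]
      rw [Finset.mem_range] at hk
      omega
    refine ⟨summable_of_ne_finset_zero hzero, ?_⟩
    rw [tsum_eq_sum hzero, Finset.sum_range_succ, Finset.sum_range_one]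
    simp only [hf, pow_zero, pow_one]
    rw [if_pos squarefree_one, if_pos hp.squarefree, hp.primeFactors]
    simp only [Nat.primeFactors_one, Finset.card_empty, pow_zero, Nat.cast_one, Real.one_rpow,
      Finset.card_singleton, pow_one, mul_one]
    set x : ℝ := (p : ℝ) ^ (-s) with hx
    have hx0 : 0 < x := by positivity
    have hx1 : x < 1 := by
      rw [hx]
      exact Real.rpow_lt_one_of_one_lt_of_neg (by exact_mod_cast hp.one_lt) (by linarith)
    have h1x : 0 < 1 - x := by linarith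
    have h2 : 1 + x ≤ (1 - x)⁻¹ := by
      rw [le_inv_comm₀ (by positivity) h1x, inv_eq_one_div, le_div_iff₀ (by positivity)]
      nlinarith
    have h3 : 1 + A * x ≤ (1 + x) ^ A := one_add_mul_le_pow (by linarith) A
    calc 1 + (A : ℝ) * x ≤ (1 + x) ^ A := h3
      _ ≤ _ := by gcongr

theorem two_pow_omega_le (n : ℕ) (hn : n ≠ 0) : 2 ^ n.primeFactors.card ≤ n.divisors.card := by
  rw [Nat.card_divisors hn]
  rw [← Finset.prod_const]
  apply Finset.prod_le_prod'
  intro p hp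
  have := Nat.Prime.factorization_pos_of_dvd (Nat.prime_of_mem_primeFactors hp) hn
    (Nat.dvd_of_mem_primeFactors hp)
  omega

/-- decomposition `j = j₁ j₂²` -/
theorem sum_sq_decomp (g : ℤ → ℝ≥0∞) :
    ∑' j : ℤ, (if j = 0 then 0 else g j) ≤
      ∑' d : ℤ, ∑' r : ℕ, (if Squarefree d.natAbs ∧ r ≠ 0 then g (d * (r : ℤ) ^ 2) else 0) := by
  have hex : ∀ j : ℤ, j ≠ 0 → ∃ (d : ℤ) (r : ℕ), Squarefree d.natAbs ∧ r ≠ 0 ∧
      d * (r : ℤ) ^ 2 = j := by
    intro j hj
    obtain ⟨a, b, ha, hb, hab, hsq⟩ := Nat.sq_mul_squarefree_of_pos (Int.natAbs_pos.2 hj)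
    refine ⟨j.sign * a, b, ?_, by omega, ?_⟩
    · rw [Int.natAbs_mul, Int.natAbs_sign_of_ne_zero hj, one_mul, Int.natAbs_natCast]
      exact hsq
    · have h1 : ((b ^ 2 * a : ℕ) : ℤ) = (j.natAbs : ℤ) := by rw [hab]
      push_cast at h1
      calc j.sign * a * (b : ℤ) ^ 2 = j.sign * ((b : ℤ) ^ 2 * a) := by ring
        _ = j.sign * |j| := by rw [h1]
        _ = j := Int.sign_mul_abs j
  choose! D R hD hR hDR using hex
  set f : {j : ℤ // j ≠ 0} → ℤ × ℕ := fun j => (D j, R j) with hf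
  have hinj : Function.Injective f := by
    intro x y hxy
    simp only [hf, Prod.mk.injEq] at hxy
    apply Subtype.ext
    rw [← hDR x x.2, ← hDR y y.2, hxy.1, hxy.2]
  set h : ℤ × ℕ → ℝ≥0∞ := fun x => if Squarefree x.1.natAbs ∧ x.2 ≠ 0 then
    g (x.1 * (x.2 : ℤ) ^ 2) else 0 with hh
  have h1 : ∑' j : ℤ, (if j = 0 then 0 else g j) = ∑' j : {j : ℤ // j ≠ 0}, g j := by
    have h2 := tsum_subtype ({j : ℤ | j ≠ 0}) g
    refine Eq.trans ?_ h2.symm
    refine tsum_congr fun j => ?_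
    by_cases hj : j = 0
    · simp [hj]
    · simp [Set.indicator, hj]
  rw [h1, ← ENNReal.tsum_prod]
  calc ∑' j : {j : ℤ // j ≠ 0}, g j = ∑' j : {j : ℤ // j ≠ 0}, h (f j) := by
        refine tsum_congr fun j => ?_
        simp only [hh, hf]
        rw [if_pos ⟨hD j j.2, hR j j.2⟩, hDR j j.2]
    _ ≤ ∑' x : ℤ × ℕ, h x := ENNReal.tsum_comp_le_tsum_of_injective hinj h

theorem js_mul_sq (j : ℤ) (r n : ℕ) (hn : n ≠ 0) :
    js (j * (r : ℤ) ^ 2) n = if n.Coprime r then js j n else 0 := by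
  unfold js
  rw [jacobiSym.mul_left, jacobiSym.pow_left]
  split_ifs with h
  · have h1 : jacobiSym (r : ℤ) n ^ 2 = 1 := jacobiSym.sq_one (by
      rw [Int.gcd_natCast_natCast]; exact (Nat.coprime_comm.1 h))
    rw [h1, mul_one]
  · have h1 : jacobiSym (r : ℤ) n = 0 := by
      have : NeZero n := ⟨hn⟩
      rw [jacobiSym.eq_zero_iff_not_coprime, Int.gcd_natCast_natCast]
      exact fun h2 => h (Nat.coprime_comm.1 h2)
    rw [h1]; simp

theorem cof_sq (lam : ℕ → ℝ) (j : ℤ) (r b n : ℕ) :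
    cof lam (j * (r : ℤ) ^ 2) b n = cof lam j (b * r) n := by
  unfold cof
  by_cases hn : n = 0
  · subst hn
    have : flat lam 0 = 0 := by unfold flat; rw [if_neg not_squarefree_zero]
    simp [this]
  rw [js_mul_sq j r n hn]
  by_cases h1 : n.Coprime b
  · by_cases h2 : n.Coprime r
    · rw [if_pos h1, if_pos h2, if_pos (Nat.Coprime.mul_right h1 h2)]
    · rw [if_pos h1, if_neg h2, if_neg (fun h => h2 (Nat.Coprime.coprime_mul_left_right h)),
        mul_zero]
  · rw [if_neg h1, if_neg (fun h => h1 (Nat.Coprime.coprime_mul_right_right h))]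

theorem cof_abs {Q : ℕ} {lam : ℕ → ℝ} (H : Hecke Q lam) (j : ℤ) (b n : ℕ) :
    |cof lam j b n| ≤ n := by
  unfold cof
  split_ifs with h
  · rw [abs_mul]
    have h1 := Pool.Agent.Y496.QT.flat_abs H n
    have h2 := Pool.Agent.Y496.QT.js_abs j n
    calc |flat lam n| * |js j n| ≤ (n : ℝ) * 1 := by gcongr
      _ = n := mul_one _
  · simp

/-- `p² ∣ d r²` iff `p ∣ r` for `d` squarefree -/
theorem sq_dvd_iff {d : ℤ} (hd : Squarefree d.natAbs) {r p : ℕ} (hp : p.Prime) :
    ((p : ℤ) ^ 2 ∣ d * (r : ℤ) ^ 2) → p ∣ r := by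
  intro h
  by_contra hpr
  have h1 : p ^ 2 ∣ d.natAbs * r ^ 2 := by
    have := Int.natAbs_dvd_natAbs.2 h
    simpa [Int.natAbs_mul, Int.natAbs_pow] using this
  have h2 : (p ^ 2).Coprime (r ^ 2) :=
    Nat.Coprime.pow 2 2 ((Nat.Prime.coprime_iff_not_dvd hp).2 hpr)
  have h3 : p ^ 2 ∣ d.natAbs := h2.dvd_of_dvd_mul_right h1
  rw [sq] at h3
  have h4 := hd p h3
  exact hp.one_lt.ne' (Nat.isUnit_iff.1 h4)

theorem hb_abs_le {d : ℤ} (hd : Squarefree d.natAbs) (r b : ℕ) (hbs : Squarefree b) (hr : r ≠ 0) :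
    |hb (d * (r : ℤ) ^ 2) b| ≤ (Nat.gcd b r : ℝ) := by
  unfold hb
  rw [Finset.abs_prod]
  have hsq : Squarefree (Nat.gcd b r) := hbs.squarefree_of_dvd (Nat.gcd_dvd_left b r)
  have h1 : (Nat.gcd b r : ℝ) = ∏ p ∈ b.primeFactors, (if p ∣ r then (p : ℝ) else 1) := by
    have h2 := Nat.prod_primeFactors_of_squarefree hsq
    rw [Nat.primeFactors_gcd hbs.ne_zero hr] at h2
    have h3 : (Nat.gcd b r : ℝ) = ∏ p ∈ b.primeFactors ∩ r.primeFactors, (p : ℝ) := by
      exact (congrArg (Nat.cast (R := ℝ)) h2.symm).trans (Nat.cast_prod _ _)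
    rw [h3, ← Finset.prod_filter]
    congr 1
    ext p
    simp only [Finset.mem_inter, Finset.mem_filter, Nat.mem_primeFactors]
    constructor
    · rintro ⟨h4, h5⟩; exact ⟨h4, h5.2.1⟩
    · rintro ⟨h4, h5⟩; exact ⟨h4, h4.1, h5, hr⟩
  rw [h1]
  apply Finset.prod_le_prod
  · intro p _; positivity
  · intro p hp
    have hpp := Nat.prime_of_mem_primeFactors hp
    have hp1 : (1 : ℝ) ≤ p := by exact_mod_cast hpp.one_lt.le
    split_ifs with h2 h3 h3
    · rw [abs_of_nonneg (by linarith)]; linarith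
    · exact absurd (sq_dvd_iff hd hpp h2) h3
    · rw [abs_neg, abs_one]; exact hp1
    · simp

/-- sum over `b` -/
theorem sum_b (C7 : ℝ) (hC7 : 0 < C7) (hdiv : ∀ n : ℕ, n ≠ 0 → (n.divisors.card : ℝ) ≤ C7 * (n : ℝ) ^ ((1 : ℝ) / 14))
    {Q : ℕ} {lam : ℕ → ℝ} (H : Hecke Q lam) (σ : ℝ) (h1 : 1 / 2 < σ) (d : ℤ)
    (hd : Squarefree d.natAbs) (r : ℕ) (hr : r ≠ 0) :
    ∑' b : ℕ, ENNReal.ofReal (flat lam b ^ 2 * |hb (d * (r : ℤ) ^ 2) b| * (b : ℝ) ^ (-(2 * σ)) *
      4 ^ (b * r).primeFactors.card) ≤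
      ENNReal.ofReal (C7 ^ 7 * (r : ℝ) ^ ((1 : ℝ) / 2) * (1 + 1 / (2 * σ - 1)) ^ 16) := by
  have hr0 : (0 : ℝ) < r := by exact_mod_cast Nat.pos_of_ne_zero hr
  set h : ℕ → ℝ := fun n => if Squarefree n then ((16 : ℕ) : ℝ) ^ n.primeFactors.card * (n : ℝ) ^ (-(2 * σ))
      else 0 with hh
  have h0 : ∀ n, 0 ≤ h n := by
    intro n; simp only [hh]; split_ifs <;> positivity
  have hdr : (1 : ℝ) ≤ r.divisors.card := by
    have : 1 ≤ r.divisors.card := Finset.card_pos.2 ⟨1, Nat.one_mem_divisors.2 hr⟩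
    exact_mod_cast this
  have h2w : (2 : ℝ) ^ r.primeFactors.card ≤ r.divisors.card := by
    exact_mod_cast two_pow_omega_le r hr
  -- termwise bound
  have hterm : ∀ b : ℕ, flat lam b ^ 2 * |hb (d * (r : ℤ) ^ 2) b| * (b : ℝ) ^ (-(2 * σ)) *
      4 ^ (b * r).primeFactors.card ≤ (r.divisors.card : ℝ) ^ 6 * h (b / Nat.gcd b r) := by
    intro b
    by_cases hbs : Squarefree b
    · have hb0 : b ≠ 0 := hbs.ne_zero
      have hbR : (0 : ℝ) < b := by exact_mod_cast Nat.pos_of_ne_zero hb0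
      set g := Nat.gcd b r with hg
      have hg0 : g ≠ 0 := Nat.gcd_ne_zero_left hb0
      have hgR : (0 : ℝ) < g := by exact_mod_cast Nat.pos_of_ne_zero hg0
      obtain ⟨m, hm⟩ : g ∣ b := Nat.gcd_dvd_left b r
      have hm0 : m ≠ 0 := by rintro rfl; simp at hm; exact hb0 hm
      have hmR : (0 : ℝ) < m := by exact_mod_cast Nat.pos_of_ne_zero hm0
      have hbg : b / g = m := by rw [hm]; exact Nat.mul_div_cancel_left m (Nat.pos_of_ne_zero hg0)
      have hcop : g.Coprime m := by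
        rw [hm] at hbs; exact Nat.coprime_of_squarefree_mul hbs
      have hms : Squarefree m := by rw [hm] at hbs; exact hbs.of_mul_right
      rw [hbg]
      simp only [hh]
      rw [if_pos hms]
      have hfl : flat lam b ^ 2 ≤ 4 ^ b.primeFactors.card := by
        have : |flat lam b| ≤ 2 ^ b.primeFactors.card := by
          unfold flat
          rw [if_pos hbs]
          exact lam_sq_le H b hbs
        calc flat lam b ^ 2 = |flat lam b| ^ 2 := (sq_abs _).symm
          _ ≤ (2 ^ b.primeFactors.card) ^ 2 := by gcongr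
          _ = 4 ^ b.primeFactors.card := by rw [← pow_mul, mul_comm, pow_mul]; norm_num
      have hw1 : b.primeFactors.card = g.primeFactors.card + m.primeFactors.card := by
        conv_lhs => rw [hm]
        rw [hcop.primeFactors_mul, Finset.card_union_of_disjoint hcop.disjoint_primeFactors]
      have hw2 : g.primeFactors.card ≤ r.primeFactors.card :=
        Finset.card_le_card (Nat.primeFactors_mono (Nat.gcd_dvd_right b r) hr)
      have hw3 : (b * r).primeFactors.card ≤ b.primeFactors.card + r.primeFactors.card := by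
        rw [Nat.primeFactors_mul hb0 hr]; exact Finset.card_union_le _ _
      have hgb : (g : ℝ) * (b : ℝ) ^ (-(2 * σ)) ≤ (m : ℝ) ^ (-(2 * σ)) := by
        have e1 : (b : ℝ) = g * m := by rw [hm]; push_cast; ring
        rw [e1, Real.mul_rpow hgR.le hmR.le, ← mul_assoc]
        have e2 : (g : ℝ) * (g : ℝ) ^ (-(2 * σ)) ≤ 1 := by
          have e3 : (g : ℝ) * (g : ℝ) ^ (-(2 * σ)) = (g : ℝ) ^ (1 - 2 * σ) := by
            conv_lhs => lhs; rw [← Real.rpow_one (g : ℝ)]
            rw [← Real.rpow_add hgR]; rfl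
          rw [e3]
          exact Real.rpow_le_one_of_one_le_of_nonpos
            (by exact_mod_cast Nat.one_le_iff_ne_zero.2 hg0) (by linarith)
        calc (g : ℝ) * (g : ℝ) ^ (-(2 * σ)) * (m : ℝ) ^ (-(2 * σ)) ≤ 1 * (m : ℝ) ^ (-(2 * σ)) := by
              gcongr
          _ = _ := one_mul _
      have hhb := hb_abs_le hd r b hbs hr
      calc flat lam b ^ 2 * |hb (d * (r : ℤ) ^ 2) b| * (b : ℝ) ^ (-(2 * σ)) *
            4 ^ (b * r).primeFactors.card
          ≤ 4 ^ b.primeFactors.card * (g : ℝ) * (b : ℝ) ^ (-(2 * σ)) *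
            4 ^ (b.primeFactors.card + r.primeFactors.card) := by
            gcongr
            norm_num
        _ = 4 ^ b.primeFactors.card * 4 ^ (b.primeFactors.card + r.primeFactors.card) *
            ((g : ℝ) * (b : ℝ) ^ (-(2 * σ))) := by ring
        _ ≤ 4 ^ b.primeFactors.card * 4 ^ (b.primeFactors.card + r.primeFactors.card) *
            (m : ℝ) ^ (-(2 * σ)) := by gcongr
        _ = 16 ^ m.primeFactors.card * (m : ℝ) ^ (-(2 * σ)) *
            (16 ^ g.primeFactors.card * 4 ^ r.primeFactors.card) := by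
            have e16 : ∀ k : ℕ, (16 : ℝ) ^ k = 4 ^ k * 4 ^ k := fun k => by
              rw [← mul_pow]; norm_num
            rw [hw1, e16, e16]; ring
        _ ≤ 16 ^ m.primeFactors.card * (m : ℝ) ^ (-(2 * σ)) *
            (16 ^ r.primeFactors.card * 4 ^ r.primeFactors.card) := by
            gcongr
            norm_num
        _ = 16 ^ m.primeFactors.card * (m : ℝ) ^ (-(2 * σ)) * (2 ^ r.primeFactors.card) ^ 6 := by
            have e16 : ∀ k : ℕ, (16 : ℝ) ^ k = (2 ^ k) ^ 4 := fun k => by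
              rw [← pow_mul, mul_comm, pow_mul]; norm_num
            have e4 : ∀ k : ℕ, (4 : ℝ) ^ k = (2 ^ k) ^ 2 := fun k => by
              rw [← pow_mul, mul_comm, pow_mul]; norm_num
            rw [e16 r.primeFactors.card, e4]; ring
        _ ≤ 16 ^ m.primeFactors.card * (m : ℝ) ^ (-(2 * σ)) * (r.divisors.card : ℝ) ^ 6 := by
            gcongr
        _ = _ := by push_cast; ring
    · have : flat lam b = 0 := by unfold flat; rw [if_neg hbs]
      rw [this]
      have := h0 (b / Nat.gcd b r)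
      have h3 : 0 ≤ (r.divisors.card : ℝ) ^ 6 * h (b / Nat.gcd b r) := by positivity
      simpa using h3
  -- injection
  have hinj : ∑' b : ℕ, ENNReal.ofReal (if b = 0 then 0 else h (b / Nat.gcd b r)) ≤
      (r.divisors.card : ℝ≥0∞) * ∑' n : ℕ, ENNReal.ofReal (h n) := by
    set F : r.divisors × ℕ → ℝ≥0∞ := fun x => ENNReal.ofReal (h x.2) with hF
    have e1 : ∑' x : r.divisors × ℕ, F x = (r.divisors.card : ℝ≥0∞) * ∑' n : ℕ, ENNReal.ofReal (h n) := by
      rw [ENNReal.tsum_prod']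
      simp only [hF]
      rw [tsum_fintype, Finset.sum_const, nsmul_eq_mul]
      simp
    rw [← e1]
    have e2 : ∑' b : ℕ, ENNReal.ofReal (if b = 0 then 0 else h (b / Nat.gcd b r)) =
        ∑' b : {b : ℕ // b ≠ 0}, ENNReal.ofReal (h ((b : ℕ) / Nat.gcd b r)) := by
      have h2 := tsum_subtype ({b : ℕ | b ≠ 0}) (fun b => ENNReal.ofReal (h ((b : ℕ) / Nat.gcd b r)))
      refine Eq.trans ?_ h2.symm
      refine tsum_congr fun b => ?_
      by_cases hb : b = 0
      · simp [hb]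
      · simp [Set.indicator, hb]
    rw [e2]
    set ι : {b : ℕ // b ≠ 0} → r.divisors × ℕ := fun b =>
      (⟨Nat.gcd b r, Nat.mem_divisors.2 ⟨Nat.gcd_dvd_right _ _, hr⟩⟩, (b : ℕ) / Nat.gcd b r) with hι
    have hιinj : Function.Injective ι := by
      intro x y hxy
      simp only [hι, Prod.mk.injEq, Subtype.mk.injEq] at hxy
      apply Subtype.ext
      calc (x : ℕ) = Nat.gcd x r * ((x : ℕ) / Nat.gcd x r) :=
            (Nat.mul_div_cancel' (Nat.gcd_dvd_left _ _)).symm
        _ = Nat.gcd y r * ((y : ℕ) / Nat.gcd y r) := by rw [hxy.2, hxy.1]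
        _ = y := Nat.mul_div_cancel' (Nat.gcd_dvd_left _ _)
    exact ENNReal.tsum_comp_le_tsum_of_injective hιinj F
  calc ∑' b : ℕ, ENNReal.ofReal (flat lam b ^ 2 * |hb (d * (r : ℤ) ^ 2) b| * (b : ℝ) ^ (-(2 * σ)) *
      4 ^ (b * r).primeFactors.card)
      ≤ ∑' b : ℕ, ENNReal.ofReal ((r.divisors.card : ℝ) ^ 6) *
          ENNReal.ofReal (if b = 0 then 0 else h (b / Nat.gcd b r)) := by
        refine ENNReal.tsum_le_tsum fun b => ?_
        rw [← ENNReal.ofReal_mul (by positivity)]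
        apply ENNReal.ofReal_le_ofReal
        by_cases hb : b = 0
        · subst hb
          have : flat lam 0 = 0 := by unfold flat; rw [if_neg not_squarefree_zero]
          simp [this]
        · rw [if_neg hb]; exact hterm b
    _ = ENNReal.ofReal ((r.divisors.card : ℝ) ^ 6) *
          ∑' b : ℕ, ENNReal.ofReal (if b = 0 then 0 else h (b / Nat.gcd b r)) :=
        ENNReal.tsum_mul_left
    _ ≤ ENNReal.ofReal ((r.divisors.card : ℝ) ^ 6) *
          ((r.divisors.card : ℝ≥0∞) * ENNReal.ofReal ((1 + 1 / (2 * σ - 1)) ^ 16)) := by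
        gcongr
        refine hinj.trans ?_
        gcongr
        exact sqf_sum 16 (2 * σ) (by linarith)
    _ = ENNReal.ofReal ((r.divisors.card : ℝ) ^ 7 * (1 + 1 / (2 * σ - 1)) ^ 16) := by
        rw [← ENNReal.ofReal_natCast, ← ENNReal.ofReal_mul (by positivity),
          ← ENNReal.ofReal_mul (by positivity)]
        congr 1; ring
    _ ≤ _ := by
        apply ENNReal.ofReal_le_ofReal
        have h3 : 0 ≤ 1 / (2 * σ - 1) := by
          apply div_nonneg zero_le_one; linarith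
        gcongr
        calc (r.divisors.card : ℝ) ^ 7 ≤ (C7 * (r : ℝ) ^ ((1 : ℝ) / 14)) ^ 7 := by
              gcongr
              exact hdiv r hr
          _ = C7 ^ 7 * (r : ℝ) ^ ((1 : ℝ) / 2) := by
              rw [mul_pow, ← Real.rpow_natCast ((r : ℝ) ^ ((1 : ℝ) / 14)) 7,
                ← Real.rpow_mul hr0.le]
              norm_num

end

end Pool.Agent.Y19.QT
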