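import Pool.Agent.Y19.QT.Mas
import Pool.Agent.Y19.QT.DefsH
import Pool.Agent.Y496.QT3f

set_option autoImplicit false

/-! Project QT, T6/H6: the master inequality, with an arbitrary angle. -/

namespace Pool.Agent.Y19.QT

open Complex MeasureTheory Filter Topology
open Pool.Agent.H306R2.RZ (js Gk)
open scoped ENNReal ComplexConjugate

noncomputable section

/-- statement of T9a -/
def StT9a {Q : ℕ} {lam : ℕ → ℝ} (T : Twists Q lam) : Prop := ∃ (C : ℝ) (A : ℕ), 0 < C ∧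
    ∀ (d : ℤ) (B : ℕ), Squarefree d → 0 < B → ∃ U : ℂ → ℂ,
      DifferentiableOn ℂ U {s | 1 / 2 < s.re} ∧
      (∀ (σ : ℝ) (s : ℂ), 1 / 2 < σ → σ ≤ 1 → σ ≤ s.re →
        ‖U s‖ ≤ C * 2 ^ B.primeFactors.card * ((σ - 1 / 2)⁻¹) ^ A) ∧
      ∀ s : ℂ, 2 < s.re → ∑' n : ℕ, (cof lam d B n : ℂ) * (n : ℂ) ^ (-s) = T.ell d s * U s

/-- what is needed from T8a -/
def StT8a {Q : ℕ} {lam : ℕ → ℝ} (T : Twists Q lam) : Prop := ∀ d : ℤ, Squarefree d →
    Differentiable ℂ (T.ell d) ∧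
    (∀ s : ℂ, 2 < s.re → T.ell d s = ∑' n : ℕ, (T.cf d n : ℂ) * (n : ℂ) ^ (-s)) ∧
    (∀ s : ℂ, T.ell d (conj s) = conj (T.ell d s)) ∧
    ∃ C : ℝ, ∀ s : ℂ, 1 / 4 ≤ s.re → s.re ≤ 3 → ‖T.ell d s‖ ≤ C * Real.exp (Real.pi / 32 * |s.im|)

/-- the diagonal -/
theorem diagH {Q : ℕ} {lam : ℕ → ℝ} (H : Hecke Q lam) (θ σ u0 : ℝ)
    (hθ0 : 0 ≤ θ) (hθ : θ < Real.pi / 2) (h1 : 1 / 2 < σ) (h2 : σ ≤ 1)
    (hu : 0 < u0) :
    ∫⁻ u in Set.Ioi u0, (∑' n : ℕ, ENNReal.ofReal (flat lam n ^ 2 * n *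
      Real.exp (-(4 * Real.pi * n * (ray θ u).re)))) * ENNReal.ofReal (u ^ (2 * σ)) ≤
      ENNReal.ofReal (2 * ((Real.cos θ)⁻¹) ^ 3 * (1 + 1 / (2 * σ - 1)) ^ 4) := by
  have hcos0 : 0 < Real.cos θ := Real.cos_pos_of_mem_Ioo ⟨by linarith [Real.pi_pos], hθ⟩
  set κ : ℝ := (Real.cos θ)⁻¹ with hκ
  have hκ1 : 1 ≤ κ := (one_le_inv₀ hcos0).2 (Real.cos_le_one θ)
  have hκ0 : 0 < κ := by linarith
  have hterm : ∀ n : ℕ, ∫⁻ u in Set.Ioi u0, ENNReal.ofReal (flat lam n ^ 2 * n *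
      Real.exp (-(4 * Real.pi * n * (ray θ u).re))) * ENNReal.ofReal (u ^ (2 * σ)) ≤
      ENNReal.ofReal (2 * κ ^ 3) * ENNReal.ofReal (if Squarefree n then ((4 : ℕ) : ℝ) ^ n.primeFactors.card * (n : ℝ) ^ (-(2 * σ))
      else 0) := by
    intro n
    by_cases hn : Squarefree n
    · have hn0 : (0 : ℝ) < n := by
        have := hn.ne_zero
        exact_mod_cast Nat.pos_of_ne_zero this
      rw [if_pos hn]
      have hfl : flat lam n ^ 2 ≤ 4 ^ n.primeFactors.card := by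
        have : |flat lam n| ≤ 2 ^ n.primeFactors.card := by
          unfold flat
          rw [if_pos hn]
          exact Pool.Agent.Y19.QT.lam_sq_le H n hn
        calc flat lam n ^ 2 = |flat lam n| ^ 2 := (sq_abs _).symm
          _ ≤ (2 ^ n.primeFactors.card) ^ 2 := by gcongr
          _ = 4 ^ n.primeFactors.card := by rw [← pow_mul, mul_comm, pow_mul]; norm_num
      set r : ℝ := 4 * Real.pi * Real.cos θ * n with hrd
      have hr0 : 0 < r := by positivity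
      have hrn : (n : ℝ) / κ ≤ r := by
        rw [hrd, hκ, div_inv_eq_mul]
        have h1 : (n : ℝ) * Real.cos θ ≤ 4 * Real.pi * (n * Real.cos θ) := by
          have h2 : (1 : ℝ) ≤ 4 * Real.pi := by linarith [Real.pi_gt_three]
          have h3 : 0 ≤ (n : ℝ) * Real.cos θ := by positivity
          nlinarith
        linarith
      have hint : ∫ u in Set.Ioi (0 : ℝ), u ^ (2 * σ + 1 - 1) * Real.exp (-(r * u)) =
          (1 / r) ^ (2 * σ + 1) * Real.Gamma (2 * σ + 1) :=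
        Real.integral_rpow_mul_exp_neg_mul_Ioi (by linarith) hr0
      have hintg : IntegrableOn (fun u : ℝ => u ^ (2 * σ + 1 - 1) * Real.exp (-(r * u)))
          (Set.Ioi 0) := by
        by_contra hcon
        have h0 : ∫ u in Set.Ioi (0 : ℝ), u ^ (2 * σ + 1 - 1) * Real.exp (-(r * u)) = 0 :=
          integral_undef hcon
        rw [h0] at hint
        have : 0 < (1 / r) ^ (2 * σ + 1) * Real.Gamma (2 * σ + 1) :=
          mul_pos (by positivity) (Real.Gamma_pos_of_pos (by linarith))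
        linarith
      have hGam : Real.Gamma (2 * σ + 1) ≤ 2 := by
        have hc := Real.convexOn_Gamma
        have hmem2 : (2 : ℝ) ∈ Set.Ioi (0 : ℝ) := by norm_num
        have hmem3 : (3 : ℝ) ∈ Set.Ioi (0 : ℝ) := by norm_num
        have h5 := hc.2 hmem2 hmem3 (show (0 : ℝ) ≤ 2 - 2 * σ by linarith)
          (show (0 : ℝ) ≤ 2 * σ - 1 by linarith) (by ring)
        have h6 : Real.Gamma 2 = 1 := by
          have := Real.Gamma_nat_eq_factorial 1
          rw [Nat.factorial_one, Nat.cast_one] at this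
          rw [← this]; congr 1; norm_num
        have h7 : Real.Gamma 3 = 2 := by
          have := Real.Gamma_nat_eq_factorial 2
          have h9 : ((Nat.factorial 2 : ℕ) : ℝ) = 2 := by norm_num
          rw [h9] at this
          rw [← this]; congr 1; norm_num
        rw [h6, h7] at h5
        simp only [smul_eq_mul] at h5
        have h8 : (2 - 2 * σ) * 2 + (2 * σ - 1) * 3 = 2 * σ + 1 := by ring
        rw [h8] at h5
        linarith
      calc ∫⁻ u in Set.Ioi u0, ENNReal.ofReal (flat lam n ^ 2 * n *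
            Real.exp (-(4 * Real.pi * n * (ray θ u).re))) * ENNReal.ofReal (u ^ (2 * σ))
          ≤ ∫⁻ u in Set.Ioi (0 : ℝ), ENNReal.ofReal (4 ^ n.primeFactors.card * n) *
            ENNReal.ofReal (u ^ (2 * σ + 1 - 1) * Real.exp (-(r * u))) := by
            refine (setLIntegral_mono' measurableSet_Ioi fun u hu' => ?_).trans
              (lintegral_mono_set (Set.Ioi_subset_Ioi hu.le))
            have hu1 : 0 < u := lt_trans hu hu'
            rw [← ENNReal.ofReal_mul (by positivity), ← ENNReal.ofReal_mul (by positivity)]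
            apply ENNReal.ofReal_le_ofReal
            rw [ray_re]
            have e1 : -(4 * Real.pi * n * (u * Real.cos θ)) = -(r * u) := by rw [hrd]; ring
            have e2 : 2 * σ + 1 - 1 = 2 * σ := by ring
            rw [e1, e2]
            calc flat lam n ^ 2 * n * Real.exp (-(r * u)) * u ^ (2 * σ)
                ≤ 4 ^ n.primeFactors.card * n * Real.exp (-(r * u)) * u ^ (2 * σ) := by gcongr
              _ = _ := by ring
        _ = ENNReal.ofReal (4 ^ n.primeFactors.card * n) * ENNReal.ofReal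
            ((1 / r) ^ (2 * σ + 1) * Real.Gamma (2 * σ + 1)) := by
            rw [lintegral_const_mul' _ _ ENNReal.ofReal_ne_top, ← hint,
              ofReal_integral_eq_lintegral_ofReal hintg]
            rw [EventuallyLE, ae_restrict_iff' measurableSet_Ioi]
            refine Eventually.of_forall fun u hu' => ?_
            have hu1 : (0 : ℝ) < u := hu'
            simp only [Pi.zero_apply]
            positivity
        _ ≤ _ := by
            rw [← ENNReal.ofReal_mul (by positivity), ← ENNReal.ofReal_mul (by positivity)]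
            apply ENNReal.ofReal_le_ofReal
            have e1 : (1 / r) ^ (2 * σ + 1) ≤ κ ^ 3 * (1 / (n : ℝ)) ^ (2 * σ + 1) := by
              have h4 : 1 / r ≤ κ * (1 / (n : ℝ)) := by
                have h5 := one_div_le_one_div_of_le (by positivity : 0 < (n : ℝ) / κ) hrn
                calc 1 / r ≤ 1 / ((n : ℝ) / κ) := h5
                  _ = κ * (1 / (n : ℝ)) := by field_simp
              calc (1 / r) ^ (2 * σ + 1) ≤ (κ * (1 / (n : ℝ))) ^ (2 * σ + 1) :=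
                    Real.rpow_le_rpow (by positivity) h4 (by linarith)
                _ = κ ^ (2 * σ + 1) * (1 / (n : ℝ)) ^ (2 * σ + 1) :=
                    Real.mul_rpow (by positivity) (by positivity)
                _ ≤ κ ^ 3 * (1 / (n : ℝ)) ^ (2 * σ + 1) := by
                    gcongr
                    calc κ ^ (2 * σ + 1) ≤ κ ^ ((3 : ℕ) : ℝ) :=
                          Real.rpow_le_rpow_of_exponent_le hκ1 (by push_cast; linarith)
                      _ = κ ^ 3 := Real.rpow_natCast κ 3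
            have e2 : (n : ℝ) * (1 / (n : ℝ)) ^ (2 * σ + 1) = (n : ℝ) ^ (-(2 * σ)) := by
              rw [one_div, Real.inv_rpow hn0.le, ← Real.rpow_neg hn0.le]
              conv_lhs => lhs; rw [← Real.rpow_one (n : ℝ)]
              rw [← Real.rpow_add hn0]
              congr 1; ring
            have hG0 : 0 < Real.Gamma (2 * σ + 1) := Real.Gamma_pos_of_pos (by linarith)
            calc 4 ^ n.primeFactors.card * (n : ℝ) * ((1 / r) ^ (2 * σ + 1) * Real.Gamma (2 * σ + 1))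
                ≤ 4 ^ n.primeFactors.card * (n : ℝ) *
                  (κ ^ 3 * (1 / (n : ℝ)) ^ (2 * σ + 1) * 2) := by gcongr
              _ = 2 * κ ^ 3 * (4 ^ n.primeFactors.card *
                  ((n : ℝ) * (1 / (n : ℝ)) ^ (2 * σ + 1))) := by ring
              _ = _ := by rw [e2]; norm_num
    · have : flat lam n = 0 := by unfold flat; rw [if_neg hn]
      simp [this]
  have hmeas : ∀ n : ℕ, AEMeasurable (fun u : ℝ => ENNReal.ofReal (flat lam n ^ 2 * n *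
      Real.exp (-(4 * Real.pi * n * (ray θ u).re))) * ENNReal.ofReal (u ^ (2 * σ)))
      (volume.restrict (Set.Ioi u0)) := by
    intro n
    simp_rw [ray_re]
    apply Measurable.aemeasurable
    fun_prop
  calc ∫⁻ u in Set.Ioi u0, (∑' n : ℕ, ENNReal.ofReal (flat lam n ^ 2 * n *
      Real.exp (-(4 * Real.pi * n * (ray θ u).re)))) * ENNReal.ofReal (u ^ (2 * σ))
      = ∫⁻ u in Set.Ioi u0, ∑' n : ℕ, ENNReal.ofReal (flat lam n ^ 2 * n *
      Real.exp (-(4 * Real.pi * n * (ray θ u).re))) * ENNReal.ofReal (u ^ (2 * σ)) := by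
        simp_rw [ENNReal.tsum_mul_right]
    _ = ∑' n : ℕ, ∫⁻ u in Set.Ioi u0, ENNReal.ofReal (flat lam n ^ 2 * n *
      Real.exp (-(4 * Real.pi * n * (ray θ u).re))) * ENNReal.ofReal (u ^ (2 * σ)) :=
        lintegral_tsum hmeas
    _ ≤ ∑' n : ℕ, ENNReal.ofReal (2 * κ ^ 3) * ENNReal.ofReal (if Squarefree n then
          ((4 : ℕ) : ℝ) ^ n.primeFactors.card * (n : ℝ) ^ (-(2 * σ)) else 0) :=
        ENNReal.tsum_le_tsum hterm
    _ ≤ ENNReal.ofReal (2 * κ ^ 3) * ENNReal.ofReal ((1 + 1 / (2 * σ - 1)) ^ 4) := by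
        rw [ENNReal.tsum_mul_left]
        gcongr
        exact sqf_sum 4 (2 * σ) (by linarith)
    _ = _ := by
        rw [← ENNReal.ofReal_mul (by positivity)]

/-- statement of H5 -/
def StH5 : Prop := ∀ c3 : ℝ, 1 ≤ c3 → c3 ≤ 10 → ∃ C : ℝ, 0 < C ∧
    ∀ (a : ℕ → ℝ) (L : ℂ → ℂ) (σ R u0 CL θ : ℝ) (b : ℕ), 1 / 2 < σ → σ ≤ 1 → 0 < R → 0 < u0 →
      0 < b → th0 ≤ θ → θ < Real.pi / 2 →
      a 0 = 0 → (∀ n, |a n| ≤ n) → DifferentiableOn ℂ L {s | 1 / 2 < s.re} →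
      (∀ s : ℂ, σ ≤ s.re → s.re ≤ 3 →
        ‖L s‖ ≤ CL * Real.exp ((Real.pi - 2 * θ) / 4 * |s.im|)) →
      (∀ s : ℂ, 2 < s.re → L s = ∑' n : ℕ, (a n : ℂ) * (n : ℂ) ^ (-s)) →
      ∫⁻ u in Set.Ioi u0, ‖AA a b R (ray θ u)‖ₑ * ENNReal.ofReal (u ^ (2 * σ)) ≤
        ENNReal.ofReal (C * R ^ (-c3) * u0 ^ (1 - 2 * c3) * (b : ℝ) ^ (-(2 * σ))) *
          ∫⁻ y : ℝ, ‖L (σ + y * I)‖ₑ ^ 2 *
            ENNReal.ofReal ((1 + |y|) ^ 24 * Real.exp (-((Real.pi - 2 * θ) * |y|)))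

/-- one term of the off-diagonal -/
theorem AA_termH {Q : ℕ} {lam : ℕ → ℝ} (T : Twists Q lam) (θ : ℝ) (hθ0 : th0 ≤ θ)
    (hθ : θ < Real.pi / 2) (C5 : ℝ)
    (h51 : ∀ (a : ℕ → ℝ) (L : ℂ → ℂ) (σ R u0 CL : ℝ) (b : ℕ), 1 / 2 < σ → σ ≤ 1 → 0 < R → 0 < u0 → 0 < b →
      a 0 = 0 → (∀ n, |a n| ≤ n) → DifferentiableOn ℂ L {s | 1 / 2 < s.re} →
      (∀ s : ℂ, σ ≤ s.re → s.re ≤ 3 → ‖L s‖ ≤ CL * Real.exp ((Real.pi - 2 * θ) / 4 * |s.im|)) →
      (∀ s : ℂ, 2 < s.re → L s = ∑' n : ℕ, (a n : ℂ) * (n : ℂ) ^ (-s)) →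
      ∫⁻ u in Set.Ioi u0, ‖AA a b R (ray θ u)‖ₑ * ENNReal.ofReal (u ^ (2 * σ)) ≤
        ENNReal.ofReal (C5 * u0 * psi (R * u0 ^ 2) * (b : ℝ) ^ (-(2 * σ))) *
          ∫⁻ y : ℝ, ‖L (σ + y * I)‖ₑ ^ 2 *
            ENNReal.ofReal ((1 + |y|) ^ 24 * Real.exp (-((Real.pi - 2 * θ) * |y|))))
    (h8 : StT8a T) (h8e : ∀ d : ℤ, Squarefree d → ∃ C : ℝ, ∀ s : ℂ, 1 / 4 ≤ s.re → s.re ≤ 3 →
      ‖T.ell d s‖ ≤ C * Real.exp ((Real.pi - 2 * θ) / 4 * |s.im|)) (C9 : ℝ) (A9 : ℕ) (hC9 : 0 < C9)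
    (h9 : ∀ (d : ℤ) (B : ℕ), Squarefree d → 0 < B → ∃ U : ℂ → ℂ,
      DifferentiableOn ℂ U {s | 1 / 2 < s.re} ∧
      (∀ (σ : ℝ) (s : ℂ), 1 / 2 < σ → σ ≤ 1 → σ ≤ s.re →
        ‖U s‖ ≤ C9 * 2 ^ B.primeFactors.card * ((σ - 1 / 2)⁻¹) ^ A9) ∧
      ∀ s : ℂ, 2 < s.re → ∑' n : ℕ, (cof lam d B n : ℂ) * (n : ℂ) ^ (-s) = T.ell d s * U s)
    (σ K u0 : ℝ) (hσ : 1 / 2 < σ) (hσ1 : σ ≤ 1) (hK : 0 < K) (hu : 0 < u0) (d : ℤ)
    (hd : Squarefree d.natAbs) (r : ℕ) (hr : r ≠ 0) (b : ℕ) (hb : 0 < b) :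
    ∫⁻ u in Set.Ioi u0, ‖AA (cof lam (d * (r : ℤ) ^ 2) b) b (|((d * (r : ℤ) ^ 2 : ℤ) : ℝ)| * K)
        (ray θ u)‖ₑ * ENNReal.ofReal (u ^ (2 * σ)) ≤
      ENNReal.ofReal (C5 * u0 * psi (|((d * (r : ℤ) ^ 2 : ℤ) : ℝ)| * K * u0 ^ 2) *
        (b : ℝ) ^ (-(2 * σ))) *
        (ENNReal.ofReal (C9 ^ 2 * ((σ - 1 / 2)⁻¹) ^ (2 * A9) * 4 ^ (b * r).primeFactors.card) *
          T.IIt θ d σ) := by
  have hd' : Squarefree d := Int.squarefree_natAbs.1 hd
  have hd0 : d ≠ 0 := hd'.ne_zero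
  have hρ : 0 < (σ - 1 / 2)⁻¹ := inv_pos.2 (by linarith)
  obtain ⟨U, hU1, hU2, hU3⟩ := h9 d (b * r) hd' (Nat.mul_pos hb (Nat.pos_of_ne_zero hr))
  obtain ⟨he1, he2, he3, -⟩ := h8 d hd'
  obtain ⟨Ce, he4⟩ := h8e d hd'
  have hcof : cof lam (d * (r : ℤ) ^ 2) b = cof lam d (b * r) := by
    funext n; exact cof_sq lam d r b n
  have hR : 0 < |((d * (r : ℤ) ^ 2 : ℤ) : ℝ)| * K := by
    apply mul_pos _ hK
    rw [abs_pos]
    have : d * (r : ℤ) ^ 2 ≠ 0 := mul_ne_zero hd0 (pow_ne_zero _ (by exact_mod_cast hr))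
    exact_mod_cast this
  set D : ℝ := C9 * 2 ^ (b * r).primeFactors.card * ((σ - 1 / 2)⁻¹) ^ A9 with hD
  have hD0 : 0 ≤ D := by positivity
  have hCe : 0 ≤ Ce := by
    have := he4 (1 : ℂ) (by norm_num) (by norm_num)
    have h2 := norm_nonneg (T.ell d 1)
    simp only [Complex.one_im, abs_zero, mul_zero, Real.exp_zero, mul_one] at this
    linarith
  rw [hcof]
  refine (h51 (cof lam d (b * r)) (fun s => T.ell d s * U s) σ _ u0 (Ce * D) b hσ hσ1 hR hu hb ?_ ?_ ?_ ?_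
    ?_).trans ?_
  · unfold cof flat
    simp
  · exact cof_abs T.hecke d (b * r)
  · exact (he1.differentiableOn).mul hU1
  · intro s hs1 hs2
    rw [norm_mul]
    calc ‖T.ell d s‖ * ‖U s‖ ≤ (Ce * Real.exp ((Real.pi - 2 * θ) / 4 * |s.im|)) * D := by
          gcongr
          · exact he4 s (by linarith) hs2
          · exact hU2 σ s hσ hσ1 hs1
      _ = _ := by ring
  · intro s hs
    exact (hU3 s hs).symm
  · gcongr
    unfold Twists.IIt
    rw [← lintegral_const_mul' _ _ ENNReal.ofReal_ne_top]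
    refine lintegral_mono fun y => ?_
    have h1 : ‖U (σ + y * I)‖ ≤ D := hU2 σ _ hσ hσ1 (by simp)
    have h2 : ‖U (σ + y * I)‖ₑ ^ 2 ≤
        ENNReal.ofReal (C9 ^ 2 * ((σ - 1 / 2)⁻¹) ^ (2 * A9) * 4 ^ (b * r).primeFactors.card) := by
      have h3 : ‖U (σ + y * I)‖ₑ ≤ ENNReal.ofReal D := by
        rw [← ofReal_norm_eq_enorm]; exact ENNReal.ofReal_le_ofReal h1
      calc ‖U (σ + y * I)‖ₑ ^ 2 ≤ (ENNReal.ofReal D) ^ 2 := by gcongr
        _ = ENNReal.ofReal (D ^ 2) := by rw [ENNReal.ofReal_pow hD0]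
        _ = _ := by
          congr 1
          rw [hD, mul_pow, mul_pow, ← pow_mul, ← pow_mul, mul_comm A9 2,
            mul_comm (b * r).primeFactors.card 2, pow_mul (2 : ℝ) 2]
          norm_num
          ring
    simp only [enorm_mul, mul_pow]
    calc ‖T.ell d (σ + y * I)‖ₑ ^ 2 * ‖U (σ + y * I)‖ₑ ^ 2 *
          ENNReal.ofReal ((1 + |y|) ^ 24 * Real.exp (-((Real.pi - 2 * θ) * |y|)))
        ≤ ‖T.ell d (σ + y * I)‖ₑ ^ 2 *
          ENNReal.ofReal (C9 ^ 2 * ((σ - 1 / 2)⁻¹) ^ (2 * A9) * 4 ^ (b * r).primeFactors.card) *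
          ENNReal.ofReal ((1 + |y|) ^ 24 * Real.exp (-((Real.pi - 2 * θ) * |y|))) := by gcongr
      _ = _ := by ring

theorem psi_mul_le {x y : ℝ} (hx : 0 < x) (hy : 1 ≤ y) : psi (x * y) ≤ psi x * y⁻¹ := by
  have hy0 : 0 < y := by linarith
  unfold psi
  rcases le_total x⁻¹ ((x ^ 10)⁻¹) with h | h
  · rw [min_eq_left h]
    refine (min_le_left _ _).trans ?_
    rw [mul_inv]
  · rw [min_eq_right h]
    refine (min_le_right _ _).trans ?_
    rw [mul_pow, mul_inv]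
    gcongr
    exact le_self_pow₀ hy (by norm_num)

/-- H6 -/
theorem H6_of {Q : ℕ} {lam : ℕ → ℝ} (T : Twists Q lam) (h5 : StH5) (h8 : StT8a T)
    (h8e : ∀ (d : ℤ) (ε : ℝ), Squarefree d → 0 < ε → ∃ C : ℝ, ∀ s : ℂ, 1 / 4 ≤ s.re → s.re ≤ 3 →
      ‖T.ell d s‖ ≤ C * Real.exp (ε * |s.im|))
    (h9 : StT9a T) : ∃ (C : ℝ) (A : ℕ), 0 < C ∧
    ∀ (θ σ K u0 : ℝ), th0 ≤ θ → θ < Real.pi / 2 → 1 / 2 < σ → σ ≤ 1 → 0 < K → 0 < u0 →
      ∑' k : ℤ, ENNReal.ofReal (Real.exp (-(Real.pi * (k / K) ^ 2))) * NN σ θ u0 (G lam k) ≤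
        ENNReal.ofReal (C * ((Real.cos θ)⁻¹) ^ 3 * ((σ - 1 / 2)⁻¹) ^ A) * (ENNReal.ofReal K +
          ENNReal.ofReal (K * u0) * ∑' d : ℤ, if Squarefree d.natAbs then
            ENNReal.ofReal (psi (|(d : ℝ)| * K * u0 ^ 2)) * T.IIt θ d σ else 0) := by
  obtain ⟨C51, hC51, h51⟩ := h5 1 le_rfl (by norm_num)
  obtain ⟨C52, hC52, h52⟩ := h5 10 (by norm_num) le_rfl
  obtain ⟨C9, A9, hC9, h9'⟩ := h9
  obtain ⟨C7, hC7, hdiv⟩ := Pool.Agent.H505R2.div_bound (δ := (1 : ℝ) / 14) (by norm_num)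
  set C5 : ℝ := max C51 C52 with hC5
  have hC50 : 0 < C5 := lt_max_of_lt_left hC51
  have h5' : ∀ (θ : ℝ), th0 ≤ θ → θ < Real.pi / 2 →
      ∀ (a : ℕ → ℝ) (L : ℂ → ℂ) (σ R u0 CL : ℝ) (b : ℕ), 1 / 2 < σ → σ ≤ 1 → 0 < R → 0 < u0 → 0 < b →
      a 0 = 0 → (∀ n, |a n| ≤ n) → DifferentiableOn ℂ L {s | 1 / 2 < s.re} →
      (∀ s : ℂ, σ ≤ s.re → s.re ≤ 3 → ‖L s‖ ≤ CL * Real.exp ((Real.pi - 2 * θ) / 4 * |s.im|)) →
      (∀ s : ℂ, 2 < s.re → L s = ∑' n : ℕ, (a n : ℂ) * (n : ℂ) ^ (-s)) →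
      ∫⁻ u in Set.Ioi u0, ‖AA a b R (ray θ u)‖ₑ * ENNReal.ofReal (u ^ (2 * σ)) ≤
        ENNReal.ofReal (C5 * u0 * psi (R * u0 ^ 2) * (b : ℝ) ^ (-(2 * σ))) *
          ∫⁻ y : ℝ, ‖L (σ + y * I)‖ₑ ^ 2 *
            ENNReal.ofReal ((1 + |y|) ^ 24 * Real.exp (-((Real.pi - 2 * θ) * |y|))) := by
    intro θ hθ0 hθ a L σ R u0 CL b hσ hσ1 hR hu hb ha0 ha hL1 hL2 hL3
    have hb0 : (0 : ℝ) < b := by exact_mod_cast hb
    have e1 := h51 a L σ R u0 CL θ b hσ hσ1 hR hu hb hθ0 hθ ha0 ha hL1 hL2 hL3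
    have e2 := h52 a L σ R u0 CL θ b hσ hσ1 hR hu hb hθ0 hθ ha0 ha hL1 hL2 hL3
    rcases le_total (R * u0 ^ 2)⁻¹ (((R * u0 ^ 2) ^ 10)⁻¹) with h | h
    · refine e1.trans ?_
      gcongr ENNReal.ofReal ?_ * _
      have hp : psi (R * u0 ^ 2) = (R * u0 ^ 2)⁻¹ := min_eq_left h
      rw [hp]
      have g1 : R ^ (-(1 : ℝ)) = R⁻¹ := Real.rpow_neg_one R
      have g2 : u0 ^ (1 - 2 * (1 : ℝ)) = u0⁻¹ := by
        rw [show (1 : ℝ) - 2 * 1 = -1 by norm_num, Real.rpow_neg_one]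
      rw [g1, g2]
      have g3 : C5 * u0 * (R * u0 ^ 2)⁻¹ = C5 * R⁻¹ * u0⁻¹ := by field_simp
      rw [g3]
      gcongr
      exact le_max_left _ _
    · refine e2.trans ?_
      gcongr ENNReal.ofReal ?_ * _
      have hp : psi (R * u0 ^ 2) = ((R * u0 ^ 2) ^ 10)⁻¹ := min_eq_right h
      rw [hp]
      have g1 : R ^ (-(10 : ℝ)) = (R ^ 10)⁻¹ := by
        rw [Real.rpow_neg hR.le]
        norm_cast
      have g2 : u0 ^ (1 - 2 * (10 : ℝ)) = (u0 ^ 19)⁻¹ := by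
        rw [show (1 : ℝ) - 2 * 10 = -(19 : ℕ) by norm_num, Real.rpow_neg hu.le, Real.rpow_natCast]
      rw [g1, g2]
      have g3 : C5 * u0 * ((R * u0 ^ 2) ^ 10)⁻¹ = C5 * (R ^ 10)⁻¹ * (u0 ^ 19)⁻¹ := by field_simp
      rw [g3]
      gcongr
      exact le_max_right _ _
  have hSr : Summable (fun r : ℕ => (r : ℝ) ^ (-(3 / 2) : ℝ)) :=
    Real.summable_nat_rpow.2 (by norm_num)
  set Sr : ℝ := ∑' r : ℕ, (r : ℝ) ^ (-(3 / 2) : ℝ) with hSrd
  have hSr0 : 0 ≤ Sr := tsum_nonneg fun r => by positivity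
  set C6 : ℝ := C5 * C9 ^ 2 * C7 ^ 7 * Sr with hC6
  have hC60 : 0 ≤ C6 := by positivity
  refine ⟨C6 + 2, 2 * A9 + 16, by positivity, ?_⟩
  intro θ σ K u0 hθ0 hθ hσ hσ1 hK hu
  have hθp : 0 ≤ θ := by
    have : 0 < th0 := by unfold th0; positivity
    linarith
  set ρ : ℝ := (σ - 1 / 2)⁻¹ with hρd
  have hρ2 : 2 ≤ ρ := by
    rw [hρd, le_inv_comm₀ (by norm_num) (by linarith)]
    linarith
  have hρ1 : 1 + 1 / (2 * σ - 1) ≤ ρ := by
    have : 1 / (2 * σ - 1) = ρ / 2 := by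
      rw [hρd]
      have h0 : σ - 1 / 2 ≠ 0 := by linarith
      have h1 : 2 * σ - 1 ≠ 0 := by linarith
      field_simp
    rw [this]; linarith
  have hρ0 : 0 < 1 + 1 / (2 * σ - 1) := by
    have : 0 < 1 / (2 * σ - 1) := by apply div_pos one_pos; linarith
    linarith
  have hcos : 0 < Real.cos θ := Real.cos_pos_of_mem_Ioo ⟨by linarith [Real.pi_pos], hθ⟩
  set κ : ℝ := (Real.cos θ)⁻¹ with hκ
  have hκ1 : 1 ≤ κ := (one_le_inv₀ hcos).2 (Real.cos_le_one θ)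
  -- the off-diagonal function
  set cjb : ℤ → ℕ → ℝ := fun j b => flat lam b ^ 2 * |hb j b| with hcjb
  set g : ℤ → ℝ≥0∞ := fun j => ∑' b : ℕ, ENNReal.ofReal (cjb j b) *
    ∫⁻ u in Set.Ioi u0, ‖AA (cof lam j b) b (|(j : ℝ)| * K) (ray θ u)‖ₑ *
      ENNReal.ofReal (u ^ (2 * σ)) with hg
  have step1 : ∑' k : ℤ, ENNReal.ofReal (Real.exp (-(Real.pi * (k / K) ^ 2))) *
      NN σ θ u0 (G lam k) ≤ ENNReal.ofReal K * (ENNReal.ofReal (2 * κ ^ 3 * (1 + 1 / (2 * σ - 1)) ^ 4) +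
        ∑' j : ℤ, if j = 0 then 0 else g j) := by
    have e1 : ∀ k : ℤ, ENNReal.ofReal (Real.exp (-(Real.pi * (k / K) ^ 2))) *
        NN σ θ u0 (G lam k) = ∫⁻ u in Set.Ioi u0,
          ENNReal.ofReal (Real.exp (-(Real.pi * (k / K) ^ 2))) *
          (‖G lam k (ray θ u)‖ₑ ^ 2 * ENNReal.ofReal (u ^ (2 * σ))) := by
      intro k
      unfold NN
      rw [lintegral_const_mul' _ _ ENNReal.ofReal_ne_top]
    have hmD : Measurable (fun u : ℝ => (∑' n : ℕ, ENNReal.ofReal (flat lam n ^ 2 * n *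
        Real.exp (-(4 * Real.pi * n * (ray θ u).re)))) * ENNReal.ofReal (u ^ (2 * σ))) := by
      simp_rw [ray_re]
      refine Measurable.mul (Measurable.ennreal_tsum fun n => ?_) (by fun_prop)
      fun_prop
    have hmA : ∀ (j : ℤ) (b : ℕ), AEMeasurable (fun u : ℝ => ENNReal.ofReal (cjb j b) *
        (‖AA (cof lam j b) b (|(j : ℝ)| * K) (ray θ u)‖ₑ * ENNReal.ofReal (u ^ (2 * σ))))
        (volume.restrict (Set.Ioi u0)) := by
      intro j b
      rcases Nat.eq_zero_or_pos b with hb | hb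
      · subst hb
        have : cjb j 0 = 0 := by simp [hcjb, flat]
        rw [this]
        simp
      · have h1 := AA_aemeas (cof lam j b) b (|(j : ℝ)| * K) θ u0 (cof_abs T.hecke j b) hb hcos hu
        have h2 : AEMeasurable (fun u : ℝ => ENNReal.ofReal (u ^ (2 * σ)))
            (volume.restrict (Set.Ioi u0)) := by
          apply Measurable.aemeasurable; fun_prop
        exact (h1.enorm.mul h2).const_mul _
    calc ∑' k : ℤ, ENNReal.ofReal (Real.exp (-(Real.pi * (k / K) ^ 2))) * NN σ θ u0 (G lam k)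
        = ∑' k : ℤ, ∫⁻ u in Set.Ioi u0,
          ENNReal.ofReal (Real.exp (-(Real.pi * (k / K) ^ 2))) *
          (‖G lam k (ray θ u)‖ₑ ^ 2 * ENNReal.ofReal (u ^ (2 * σ))) := tsum_congr e1
      _ ≤ ∫⁻ u in Set.Ioi u0, ∑' k : ℤ,
          ENNReal.ofReal (Real.exp (-(Real.pi * (k / K) ^ 2))) *
          (‖G lam k (ray θ u)‖ₑ ^ 2 * ENNReal.ofReal (u ^ (2 * σ))) := tsum_lintegral_le _ _
      _ ≤ ∫⁻ u in Set.Ioi u0, ENNReal.ofReal K * ((∑' n : ℕ, ENNReal.ofReal (flat lam n ^ 2 * n *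
            Real.exp (-(4 * Real.pi * n * (ray θ u).re)))) * ENNReal.ofReal (u ^ (2 * σ)) +
            ∑' j : ℤ, if j = 0 then 0 else ∑' b : ℕ, ENNReal.ofReal (cjb j b) *
            (‖AA (cof lam j b) b (|(j : ℝ)| * K) (ray θ u)‖ₑ * ENNReal.ofReal (u ^ (2 * σ)))) := by
          refine setLIntegral_mono' measurableSet_Ioi fun u hu' => ?_
          have hu1 : 0 < u := lt_trans hu hu'
          have h3 := Pool.Agent.Y496.QT.T3 Q lam T.hecke K hK (ray θ u) (by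
            rw [ray_re]; positivity)
          calc ∑' k : ℤ, ENNReal.ofReal (Real.exp (-(Real.pi * (k / K) ^ 2))) *
                (‖G lam k (ray θ u)‖ₑ ^ 2 * ENNReal.ofReal (u ^ (2 * σ)))
              = (∑' k : ℤ, ENNReal.ofReal (Real.exp (-(Real.pi * (k / K) ^ 2))) *
                ‖G lam k (ray θ u)‖ₑ ^ 2) * ENNReal.ofReal (u ^ (2 * σ)) := by
                rw [← ENNReal.tsum_mul_right]
                exact tsum_congr fun k => by ring
            _ ≤ _ := by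
                refine (mul_le_mul_left h3 _).trans_eq ?_
                rw [mul_assoc, add_mul]
                congr 2
                rw [← ENNReal.tsum_mul_right]
                refine tsum_congr fun j => ?_
                split_ifs with hj
                · simp
                · rw [← ENNReal.tsum_mul_right]
                  exact tsum_congr fun b => by simp only [hcjb]; ring
      _ = ENNReal.ofReal K * ((∫⁻ u in Set.Ioi u0, (∑' n : ℕ, ENNReal.ofReal (flat lam n ^ 2 * n *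
            Real.exp (-(4 * Real.pi * n * (ray θ u).re)))) * ENNReal.ofReal (u ^ (2 * σ))) +
            ∑' j : ℤ, if j = 0 then 0 else g j) := by
          rw [lintegral_const_mul' _ _ ENNReal.ofReal_ne_top, lintegral_add_left hmD]
          congr 2
          rw [lintegral_tsum]
          · refine tsum_congr fun j => ?_
            split_ifs with hj
            · simp
            · simp only [hg]
              rw [lintegral_tsum (fun b => hmA j b)]
              refine tsum_congr fun b => ?_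
              rw [lintegral_const_mul' _ _ ENNReal.ofReal_ne_top]
          · intro j
            split_ifs with hj
            · exact aemeasurable_const
            · exact AEMeasurable.ennreal_tsum (fun b => hmA j b)
      _ ≤ _ := by
          gcongr
          exact diagH T.hecke θ σ u0 hθp hθ hσ hσ1 hu
  have step2 : ∑' j : ℤ, (if j = 0 then 0 else g j) ≤
      ENNReal.ofReal (C6 * ρ ^ (2 * A9 + 16) * u0) * ∑' d : ℤ, if Squarefree d.natAbs then
            ENNReal.ofReal (psi (|(d : ℝ)| * K * u0 ^ 2)) * T.IIt θ d σ else 0 := by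
    refine (sum_sq_decomp g).trans ?_
    rw [← ENNReal.tsum_mul_left]
    refine ENNReal.tsum_le_tsum fun d => ?_
    by_cases hd : Squarefree d.natAbs
    · rw [if_pos hd]
      have hd' : Squarefree d := Int.squarefree_natAbs.1 hd
      have hdpos : (0 : ℝ) < |(d : ℝ)| := by
        rw [abs_pos]; exact_mod_cast hd'.ne_zero
      set x : ℝ := |(d : ℝ)| * K * u0 ^ 2 with hx
      have hx0 : 0 < x := by positivity
      have hpx : 0 ≤ psi x := by unfold psi; positivity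
      have hterm : ∀ r : ℕ, (if Squarefree d.natAbs ∧ r ≠ 0 then g (d * (r : ℤ) ^ 2) else 0) ≤
          ENNReal.ofReal (C5 * u0 * psi x * (C9 ^ 2 * ρ ^ (2 * A9)) * (C7 ^ 7 * ρ ^ 16)) *
            T.IIt θ d σ * ENNReal.ofReal ((r : ℝ) ^ (-(3 / 2) : ℝ)) := by
        intro r
        split_ifs with hr
        · have hr0 : r ≠ 0 := hr.2
          have hrpos : (0 : ℝ) < r := by exact_mod_cast Nat.pos_of_ne_zero hr0
          have hr1 : (1 : ℝ) ≤ (r : ℝ) ^ 2 := by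
            have : (1 : ℝ) ≤ r := by exact_mod_cast Nat.one_le_iff_ne_zero.2 hr0
            exact one_le_pow₀ this
          have habs : |((d * (r : ℤ) ^ 2 : ℤ) : ℝ)| = |(d : ℝ)| * (r : ℝ) ^ 2 := by
            push_cast
            rw [abs_mul, abs_of_nonneg (by positivity : (0 : ℝ) ≤ (r : ℝ) ^ 2)]
          have hps : psi (|((d * (r : ℤ) ^ 2 : ℤ) : ℝ)| * K * u0 ^ 2) ≤ psi x * ((r : ℝ) ^ 2)⁻¹ := by
            have : |((d * (r : ℤ) ^ 2 : ℤ) : ℝ)| * K * u0 ^ 2 = x * (r : ℝ) ^ 2 := by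
              rw [habs, hx]; ring
            rw [this]
            exact psi_mul_le hx0 hr1
          have hb1 : ∀ b : ℕ, ENNReal.ofReal (cjb (d * (r : ℤ) ^ 2) b) *
              ∫⁻ u in Set.Ioi u0, ‖AA (cof lam (d * (r : ℤ) ^ 2) b) b
                (|((d * (r : ℤ) ^ 2 : ℤ) : ℝ)| * K) (ray θ u)‖ₑ * ENNReal.ofReal (u ^ (2 * σ)) ≤
              ENNReal.ofReal (C5 * u0 * (psi x * ((r : ℝ) ^ 2)⁻¹) * (C9 ^ 2 * ρ ^ (2 * A9))) *
                T.IIt θ d σ * ENNReal.ofReal (flat lam b ^ 2 * |hb (d * (r : ℤ) ^ 2) b| *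
                  (b : ℝ) ^ (-(2 * σ)) * 4 ^ (b * r).primeFactors.card) := by
            intro b
            rcases Nat.eq_zero_or_pos b with hbz | hbz
            · subst hbz
              have : cjb (d * (r : ℤ) ^ 2) 0 = 0 := by simp [hcjb, flat]
              rw [this]; simp
            · have h6 := AA_termH T θ hθ0 hθ C5 (h5' θ hθ0 hθ) h8
                (fun d hd => h8e d _ hd (by linarith)) C9 A9 hC9 h9' σ K u0 hσ hσ1 hK hu d hd r hr0 b hbz
              have hb0 : (0 : ℝ) < b := by exact_mod_cast hbz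
              calc ENNReal.ofReal (cjb (d * (r : ℤ) ^ 2) b) * _
                  ≤ ENNReal.ofReal (cjb (d * (r : ℤ) ^ 2) b) *
                  (ENNReal.ofReal (C5 * u0 * psi (|((d * (r : ℤ) ^ 2 : ℤ) : ℝ)| * K * u0 ^ 2) *
        (b : ℝ) ^ (-(2 * σ))) *
        (ENNReal.ofReal (C9 ^ 2 * ((σ - 1 / 2)⁻¹) ^ (2 * A9) * 4 ^ (b * r).primeFactors.card) *
          T.IIt θ d σ)) := by gcongr
                _ ≤ ENNReal.ofReal (cjb (d * (r : ℤ) ^ 2) b) *
                  (ENNReal.ofReal (C5 * u0 * (psi x * ((r : ℝ) ^ 2)⁻¹) *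
        (b : ℝ) ^ (-(2 * σ))) *
        (ENNReal.ofReal (C9 ^ 2 * ρ ^ (2 * A9) * 4 ^ (b * r).primeFactors.card) *
          T.IIt θ d σ)) := by gcongr
                _ = _ := by
                  have hc0 : 0 ≤ cjb (d * (r : ℤ) ^ 2) b := by simp only [hcjb]; positivity
                  have hl : ENNReal.ofReal (cjb (d * (r : ℤ) ^ 2) b) *
                    (ENNReal.ofReal (C5 * u0 * (psi x * ((r : ℝ) ^ 2)⁻¹) * (b : ℝ) ^ (-(2 * σ))) *
                    (ENNReal.ofReal (C9 ^ 2 * ρ ^ (2 * A9) * 4 ^ (b * r).primeFactors.card) *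
                      T.IIt θ d σ)) =
                    ENNReal.ofReal (cjb (d * (r : ℤ) ^ 2) b *
                    (C5 * u0 * (psi x * ((r : ℝ) ^ 2)⁻¹) * (b : ℝ) ^ (-(2 * σ))) *
                    (C9 ^ 2 * ρ ^ (2 * A9) * 4 ^ (b * r).primeFactors.card)) * T.IIt θ d σ := by
                    rw [ENNReal.ofReal_mul (p := cjb (d * (r : ℤ) ^ 2) b *
                      (C5 * u0 * (psi x * ((r : ℝ) ^ 2)⁻¹) * (b : ℝ) ^ (-(2 * σ)))) (by positivity),
                      ENNReal.ofReal_mul (p := cjb (d * (r : ℤ) ^ 2) b) hc0]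
                    ring
                  have hrr : ENNReal.ofReal (C5 * u0 * (psi x * ((r : ℝ) ^ 2)⁻¹) * (C9 ^ 2 * ρ ^ (2 * A9))) *
                    T.IIt θ d σ * ENNReal.ofReal (flat lam b ^ 2 * |hb (d * (r : ℤ) ^ 2) b| *
                    (b : ℝ) ^ (-(2 * σ)) * 4 ^ (b * r).primeFactors.card) =
                    ENNReal.ofReal (C5 * u0 * (psi x * ((r : ℝ) ^ 2)⁻¹) * (C9 ^ 2 * ρ ^ (2 * A9)) *
                    (flat lam b ^ 2 * |hb (d * (r : ℤ) ^ 2) b| *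
                    (b : ℝ) ^ (-(2 * σ)) * 4 ^ (b * r).primeFactors.card)) * T.IIt θ d σ := by
                    rw [ENNReal.ofReal_mul (p := C5 * u0 * (psi x * ((r : ℝ) ^ 2)⁻¹) * (C9 ^ 2 * ρ ^ (2 * A9)))
                      (by positivity)]
                    ring
                  rw [hl, hrr]
                  congr 2
                  simp only [hcjb]
                  ring
          simp only [hg]
          calc ∑' b : ℕ, ENNReal.ofReal (cjb (d * (r : ℤ) ^ 2) b) * _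
              ≤ ∑' b : ℕ, ENNReal.ofReal (C5 * u0 * (psi x * ((r : ℝ) ^ 2)⁻¹) * (C9 ^ 2 * ρ ^ (2 * A9))) *
                T.IIt θ d σ * ENNReal.ofReal (flat lam b ^ 2 * |hb (d * (r : ℤ) ^ 2) b| *
                  (b : ℝ) ^ (-(2 * σ)) * 4 ^ (b * r).primeFactors.card) :=
                ENNReal.tsum_le_tsum hb1
            _ = ENNReal.ofReal (C5 * u0 * (psi x * ((r : ℝ) ^ 2)⁻¹) * (C9 ^ 2 * ρ ^ (2 * A9))) *
                T.IIt θ d σ * ∑' b : ℕ, ENNReal.ofReal (flat lam b ^ 2 * |hb (d * (r : ℤ) ^ 2) b| *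
                  (b : ℝ) ^ (-(2 * σ)) * 4 ^ (b * r).primeFactors.card) := ENNReal.tsum_mul_left
            _ ≤ ENNReal.ofReal (C5 * u0 * (psi x * ((r : ℝ) ^ 2)⁻¹) * (C9 ^ 2 * ρ ^ (2 * A9))) *
                T.IIt θ d σ * ENNReal.ofReal (C7 ^ 7 * (r : ℝ) ^ ((1 : ℝ) / 2) * ρ ^ 16) := by
                gcongr
                refine (sum_b C7 (by linarith) hdiv T.hecke σ hσ d hd r hr0).trans ?_
                gcongr
            _ = _ := by
                have hl : ENNReal.ofReal (C5 * u0 * (psi x * ((r : ℝ) ^ 2)⁻¹) * (C9 ^ 2 * ρ ^ (2 * A9))) *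
                T.IIt θ d σ * ENNReal.ofReal (C7 ^ 7 * (r : ℝ) ^ ((1 : ℝ) / 2) * ρ ^ 16) =
                  ENNReal.ofReal (C5 * u0 * (psi x * ((r : ℝ) ^ 2)⁻¹) * (C9 ^ 2 * ρ ^ (2 * A9)) *
                    (C7 ^ 7 * (r : ℝ) ^ ((1 : ℝ) / 2) * ρ ^ 16)) * T.IIt θ d σ := by
                  rw [ENNReal.ofReal_mul (p := C5 * u0 * (psi x * ((r : ℝ) ^ 2)⁻¹) * (C9 ^ 2 * ρ ^ (2 * A9)))
                      (by positivity)]
                  ring
                have hrr : ENNReal.ofReal (C5 * u0 * psi x * (C9 ^ 2 * ρ ^ (2 * A9)) * (C7 ^ 7 * ρ ^ 16)) *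
                  T.IIt θ d σ * ENNReal.ofReal ((r : ℝ) ^ (-(3 / 2) : ℝ)) =
                  ENNReal.ofReal (C5 * u0 * psi x * (C9 ^ 2 * ρ ^ (2 * A9)) * (C7 ^ 7 * ρ ^ 16) *
                    (r : ℝ) ^ (-(3 / 2) : ℝ)) * T.IIt θ d σ := by
                  rw [ENNReal.ofReal_mul (p := C5 * u0 * psi x * (C9 ^ 2 * ρ ^ (2 * A9)) * (C7 ^ 7 * ρ ^ 16))
                      (by positivity)]
                  ring
                rw [hl, hrr]
                congr 2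
                have e1 : (r : ℝ) ^ (-(3 / 2) : ℝ) = ((r : ℝ) ^ 2)⁻¹ * (r : ℝ) ^ ((1 : ℝ) / 2) := by
                  rw [show (-(3 / 2) : ℝ) = -(2 : ℕ) + 1 / 2 by norm_num, Real.rpow_add hrpos,
                    Real.rpow_neg hrpos.le, Real.rpow_natCast]
                rw [e1]; ring
        · exact bot_le
      calc ∑' r : ℕ, (if Squarefree d.natAbs ∧ r ≠ 0 then g (d * (r : ℤ) ^ 2) else 0)
          ≤ ∑' r : ℕ, ENNReal.ofReal (C5 * u0 * psi x * (C9 ^ 2 * ρ ^ (2 * A9)) * (C7 ^ 7 * ρ ^ 16)) *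
            T.IIt θ d σ * ENNReal.ofReal ((r : ℝ) ^ (-(3 / 2) : ℝ)) := ENNReal.tsum_le_tsum hterm
        _ = ENNReal.ofReal (C5 * u0 * psi x * (C9 ^ 2 * ρ ^ (2 * A9)) * (C7 ^ 7 * ρ ^ 16)) *
            T.IIt θ d σ * ENNReal.ofReal Sr := by
            rw [ENNReal.tsum_mul_left, hSrd, ENNReal.ofReal_tsum_of_nonneg (fun r => by positivity) hSr]
        _ = ENNReal.ofReal (C5 * u0 * psi x * (C9 ^ 2 * ρ ^ (2 * A9)) * (C7 ^ 7 * ρ ^ 16) * Sr) *
            T.IIt θ d σ := by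
            rw [ENNReal.ofReal_mul (q := Sr) (by positivity)]
            ring
        _ = _ := by
            rw [← mul_assoc (ENNReal.ofReal (C6 * ρ ^ (2 * A9 + 16) * u0)),
              ← ENNReal.ofReal_mul (p := C6 * ρ ^ (2 * A9 + 16) * u0) (by positivity)]
            congr 2
            rw [hC6]; ring
    · rw [if_neg hd, mul_zero]
      simp [hd]
  calc ∑' k : ℤ, ENNReal.ofReal (Real.exp (-(Real.pi * (k / K) ^ 2))) * NN σ θ u0 (G lam k)
      ≤ ENNReal.ofReal K * (ENNReal.ofReal (2 * κ ^ 3 * (1 + 1 / (2 * σ - 1)) ^ 4) +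
        ENNReal.ofReal (C6 * ρ ^ (2 * A9 + 16) * u0) * ∑' d : ℤ, if Squarefree d.natAbs then
            ENNReal.ofReal (psi (|(d : ℝ)| * K * u0 ^ 2)) * T.IIt θ d σ else 0) := by
        refine step1.trans ?_
        gcongr
    _ ≤ ENNReal.ofReal K * (ENNReal.ofReal ((C6 + 2) * κ ^ 3 * ρ ^ (2 * A9 + 16)) +
        ENNReal.ofReal ((C6 + 2) * κ ^ 3 * ρ ^ (2 * A9 + 16) * u0) * ∑' d : ℤ, if Squarefree d.natAbs then
            ENNReal.ofReal (psi (|(d : ℝ)| * K * u0 ^ 2)) * T.IIt θ d σ else 0) := by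
        have hκ3 : 1 ≤ κ ^ 3 := one_le_pow₀ hκ1
        have q1 : 2 * κ ^ 3 * (1 + 1 / (2 * σ - 1)) ^ 4 ≤ (C6 + 2) * κ ^ 3 * ρ ^ (2 * A9 + 16) := by
          calc 2 * κ ^ 3 * (1 + 1 / (2 * σ - 1)) ^ 4 ≤ 2 * κ ^ 3 * ρ ^ 4 := by gcongr
            _ ≤ (C6 + 2) * κ ^ 3 * ρ ^ (2 * A9 + 16) := by
              gcongr
              · linarith
              · linarith
              · omega
        have q2 : C6 * ρ ^ (2 * A9 + 16) * u0 ≤ (C6 + 2) * κ ^ 3 * ρ ^ (2 * A9 + 16) * u0 := by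
          gcongr
          calc C6 ≤ C6 + 2 := by linarith
            _ ≤ (C6 + 2) * κ ^ 3 := le_mul_of_one_le_right (by positivity) hκ3
        gcongr ENNReal.ofReal K * (ENNReal.ofReal ?_ + ENNReal.ofReal ?_ * _)
    _ = _ := by
        rw [ENNReal.ofReal_mul (p := (C6 + 2) * κ ^ 3 * ρ ^ (2 * A9 + 16)) (q := u0) (by positivity),
          ENNReal.ofReal_mul hK.le]
        ring

end

end Pool.Agent.Y19.QT
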