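import Pool.Agent.Y19.QT.Mas2
import Pool.Agent.Y19.QT.Clo
import Pool.Agent.Y703.QT8
import Pool.Agent.Y784.QT9b
import Pool.Agent.Y141.QT7
import Pool.Agent.Y705.QT9a
import Pool.Agent.Y812.QTH5
import Pool.Agent.Y46.QTH8

set_option autoImplicit false

/-! Project QT, T11/H11: the second moment, with an arbitrary angle. -/

namespace Pool.Agent.Y19.QT

open Complex MeasureTheory Filter Topology
open Pool.Agent.H306R2.RZ (js Gk)
open scoped ENNReal ComplexConjugate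

noncomputable section

theorem H6 {Q : ℕ} {lam : ℕ → ℝ} (T : Twists Q lam) : ∃ (C : ℝ) (A : ℕ), 0 < C ∧
    ∀ (θ σ K u0 : ℝ), th0 ≤ θ → θ < Real.pi / 2 → 1 / 2 < σ → σ ≤ 1 → 0 < K → 0 < u0 →
      ∑' k : ℤ, ENNReal.ofReal (Real.exp (-(Real.pi * (k / K) ^ 2))) * NN σ θ u0 (G lam k) ≤
        ENNReal.ofReal (C * ((Real.cos θ)⁻¹) ^ 3 * ((σ - 1 / 2)⁻¹) ^ A) * (ENNReal.ofReal K +
          ENNReal.ofReal (K * u0) * ∑' d : ℤ, if Squarefree d.natAbs then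
            ENNReal.ofReal (psi (|(d : ℝ)| * K * u0 ^ 2)) * T.IIt θ d σ else 0) :=
  H6_of T (fun c3 h1 h2 => Pool.Agent.Y812.QTH5.H5 c3 h1 h2)
    (fun d hd => Pool.Agent.Y703.QT8.T8a T d hd)
    (fun d ε hd hε => Pool.Agent.Y46.QTH8.H8a T d hd ε hε)
    (Pool.Agent.Y705.QT.T9a T (fun d hd => (Pool.Agent.Y703.QT8.T8a T d hd).2.1))

theorem NN_anti (σ θ : ℝ) {u v : ℝ} (h : u ≤ v) (f : ℂ → ℂ) : NN σ θ v f ≤ NN σ θ u f :=
  lintegral_mono_set (Set.Ioi_subset_Ioi h)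

/-- the weight -/
theorem weightH : ∃ C : ℝ, 1 ≤ C ∧ ∀ θ Λ y : ℝ, th0 ≤ θ → θ < Real.pi / 2 → 1 ≤ Λ →
    (1 + |y|) ^ 24 * Real.exp (-((Real.pi - 2 * θ) * |y|)) ≤
      ((Real.pi / 2 - θ)⁻¹) ^ 24 * (1 + Λ) ^ 24 * Real.exp (-((Real.pi - 2 * θ) * |y|)) +
      C * ((Real.pi / 2 - θ)⁻¹) ^ 24 * Real.exp (-(Real.pi * Λ / 32)) *
        Real.exp (-((Real.pi - 2 * ((θ + Real.pi / 2) / 2)) * |y|)) := by
  set C0 : ℝ := 4 ^ 24 * (Nat.factorial 24 : ℕ) * Real.exp 1 with hC0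
  have hC00 : 0 ≤ C0 := by positivity
  refine ⟨C0 + 1, by linarith, ?_⟩
  intro θ Λ y hθ0 hθ hΛ
  set t : ℝ := |y| with ht
  have ht0 : 0 ≤ t := abs_nonneg y
  set ζ : ℝ := Real.pi / 2 - θ with hζ
  have hζ0 : 0 < ζ := by rw [hζ]; linarith
  have hζ1 : ζ ≤ 1 / 4 := by
    have h1 : th0 ≤ θ := hθ0
    unfold th0 at h1
    have := Real.pi_lt_four
    rw [hζ]; linarith
  have e0 : Real.pi - 2 * θ = 2 * ζ := by rw [hζ]; ring
  have e1 : Real.pi - 2 * ((θ + Real.pi / 2) / 2) = ζ := by rw [hζ]; ring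
  rw [e0, e1]
  have hζi : 1 ≤ ζ⁻¹ := (one_le_inv₀ hζ0).2 (by linarith)
  rcases le_total t (Λ / ζ) with h | h
  · have h1 : 1 + t ≤ ζ⁻¹ * (1 + Λ) := by
      have : Λ / ζ = ζ⁻¹ * Λ := by rw [div_eq_mul_inv, mul_comm]
      rw [this] at h
      linarith
    have h3 : (1 + t) ^ 24 * Real.exp (-(2 * ζ * t)) ≤
        (ζ⁻¹ * (1 + Λ)) ^ 24 * Real.exp (-(2 * ζ * t)) := by gcongr
    rw [mul_pow] at h3
    have h2 : 0 ≤ (C0 + 1) * ζ⁻¹ ^ 24 * Real.exp (-(Real.pi * Λ / 32)) * Real.exp (-(ζ * t)) := by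
      positivity
    linarith
  · have h3 : (1 + t) ^ 24 ≤ C0 * ζ⁻¹ ^ 24 * Real.exp (ζ / 4 * t) := by
      have h4 := Real.pow_div_factorial_le_exp (ζ / 4 * (1 + t)) (by positivity) 24
      rw [div_le_iff₀ (by positivity)] at h4
      have h5 : Real.exp (ζ / 4 * (1 + t)) ≤ Real.exp 1 * Real.exp (ζ / 4 * t) := by
        rw [← Real.exp_add]
        apply Real.exp_le_exp.2
        linarith
      have h6 : (1 + t) ^ 24 = 4 ^ 24 * ζ⁻¹ ^ 24 * (ζ / 4 * (1 + t)) ^ 24 := by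
        rw [← mul_pow, ← mul_pow]
        congr 1
        field_simp
      rw [h6, hC0]
      calc 4 ^ 24 * ζ⁻¹ ^ 24 * (ζ / 4 * (1 + t)) ^ 24
          ≤ 4 ^ 24 * ζ⁻¹ ^ 24 * (Real.exp (ζ / 4 * (1 + t)) * (Nat.factorial 24 : ℕ)) := by gcongr
        _ ≤ 4 ^ 24 * ζ⁻¹ ^ 24 * (Real.exp 1 * Real.exp (ζ / 4 * t) * (Nat.factorial 24 : ℕ)) := by
            gcongr
        _ = _ := by ring
    have h7 : Real.exp (-(2 * ζ * t)) = Real.exp (-(ζ / 4 * t)) *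
        Real.exp (-(3 * ζ / 4 * t)) * Real.exp (-(ζ * t)) := by
      rw [← Real.exp_add, ← Real.exp_add]; congr 1; ring
    have h8 : Real.exp (-(3 * ζ / 4 * t)) ≤ Real.exp (-(Real.pi * Λ / 32)) := by
      apply Real.exp_le_exp.2
      have h10 : Λ ≤ t * ζ := by rwa [div_le_iff₀ hζ0] at h
      have h11 := Real.pi_lt_four
      have h12 : Real.pi * Λ / 32 ≤ 3 / 4 * Λ := by nlinarith
      nlinarith
    have h9 : Real.exp (ζ / 4 * t) * Real.exp (-(ζ / 4 * t)) = 1 := by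
      rw [← Real.exp_add]; simp
    calc (1 + t) ^ 24 * Real.exp (-(2 * ζ * t))
        ≤ C0 * ζ⁻¹ ^ 24 * Real.exp (ζ / 4 * t) * Real.exp (-(2 * ζ * t)) := by gcongr
      _ = C0 * ζ⁻¹ ^ 24 * (Real.exp (ζ / 4 * t) * Real.exp (-(ζ / 4 * t))) *
          Real.exp (-(3 * ζ / 4 * t)) * Real.exp (-(ζ * t)) := by rw [h7]; ring
      _ = C0 * ζ⁻¹ ^ 24 * Real.exp (-(3 * ζ / 4 * t)) * Real.exp (-(ζ * t)) := by
          rw [h9, mul_one]
      _ ≤ (C0 + 1) * ζ⁻¹ ^ 24 * Real.exp (-(Real.pi * Λ / 32)) * Real.exp (-(ζ * t)) := by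
          gcongr
          linarith
      _ ≤ _ := by
          have : 0 ≤ ζ⁻¹ ^ 24 * (1 + Λ) ^ 24 * Real.exp (-(2 * ζ * t)) := by positivity
          linarith

theorem IIH_le {Q : ℕ} {lam : ℕ → ℝ} (T : Twists Q lam) : ∃ (C : ℝ) (B : ℕ), 1 ≤ C ∧
    ∀ (θ : ℝ) (d : ℤ) (σ Λ : ℝ), th0 ≤ θ → θ < Real.pi / 2 →
      Squarefree d → 1 / 2 < σ → σ ≤ 1 → 1 ≤ Λ →
      T.IIt θ d σ ≤ ENNReal.ofReal (C * ((Real.pi / 2 - θ)⁻¹) ^ B * (1 + Λ) ^ 24) *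
          NN σ θ (T.q d)⁻¹ (T.Gf d) +
        ENNReal.ofReal (C * ((Real.pi / 2 - θ)⁻¹) ^ B *
          Real.exp (-(Real.pi * Λ / 32)) * |(d : ℝ)| ^ 6) := by
  have hpi := Real.pi_pos
  have p0 : 0 < th0 := by unfold th0; positivity
  obtain ⟨Cw, hCw, hw⟩ := weightH
  obtain ⟨Ca, hCa, ha⟩ := Pool.Agent.Y46.QTH8.H8b T
  obtain ⟨Cc, Bc, hCc, hc⟩ := Pool.Agent.Y46.QTH8.H8c T
  refine ⟨Ca + Cw * Ca * Cc * 2 ^ Bc + 1, 24 + Bc, by
    have : 0 ≤ Cw * Ca * Cc * 2 ^ Bc := by positivity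
    linarith, ?_⟩
  intro θ d σ Λ hθ0 hθ hd h1 h2 hΛ
  set θ1 : ℝ := (θ + Real.pi / 2) / 2 with hθ1
  set ζ : ℝ := Real.pi / 2 - θ with hζ
  have hζ0 : 0 < ζ := by rw [hζ]; linarith
  have hζ1 : ζ ≤ 1 / 4 := by
    have h1 : th0 ≤ θ := hθ0
    unfold th0 at h1
    have := Real.pi_lt_four
    rw [hζ]; linarith
  have hζi : 1 ≤ ζ⁻¹ := (one_le_inv₀ hζ0).2 (by linarith)
  have hζ2 : Real.pi / 2 - θ1 = ζ / 2 := by rw [hζ, hθ1]; ring
  have p1 : 0 < θ1 := by rw [hθ1]; linarith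
  have p1' : θ1 < Real.pi / 2 := by rw [hθ1]; linarith
  have hexp : 2 * (σ - σ) = 0 := by ring
  have e1 := ha θ d σ σ (by linarith) hθ hd (by linarith) h2 h2 (by rw [abs_of_pos (by linarith)])
  have e2 := ha θ1 d σ σ p1 p1' hd (by linarith) h2 h2 (by rw [abs_of_pos (by linarith)])
  have e3 := hc θ1 d σ p1 p1' hd h1.le h2
  rw [hexp, Real.rpow_zero, mul_one] at e1 e2
  rw [hζ2] at e3
  have hmeas : Measurable (fun y : ℝ => ‖T.ell d (σ + y * I)‖ₑ ^ 2 *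
      ENNReal.ofReal (ζ⁻¹ ^ 24 * (1 + Λ) ^ 24 * Real.exp (-((Real.pi - 2 * θ) * |y|)))) := by
    have hcont : Continuous (fun y : ℝ => T.ell d (σ + y * I)) :=
      (Pool.Agent.Y703.QT8.T8a T d hd).1.continuous.comp (by fun_prop)
    refine Measurable.mul (hcont.measurable.enorm.pow_const 2) ?_
    fun_prop
  unfold Twists.IIt
  have hpt : ∀ y : ℝ, ‖T.ell d (σ + y * I)‖ₑ ^ 2 *
      ENNReal.ofReal ((1 + |y|) ^ 24 * Real.exp (-((Real.pi - 2 * θ) * |y|))) ≤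
      ‖T.ell d (σ + y * I)‖ₑ ^ 2 *
      ENNReal.ofReal (ζ⁻¹ ^ 24 * (1 + Λ) ^ 24 * Real.exp (-((Real.pi - 2 * θ) * |y|))) +
      ‖T.ell d (σ + y * I)‖ₑ ^ 2 *
      ENNReal.ofReal (Cw * ζ⁻¹ ^ 24 * Real.exp (-(Real.pi * Λ / 32)) *
        Real.exp (-((Real.pi - 2 * θ1) * |y|))) := by
    intro y
    rw [← mul_add, ← ENNReal.ofReal_add (by positivity) (by positivity)]
    gcongr
    exact hw θ Λ y hθ0 hθ hΛ
  calc ∫⁻ y : ℝ, ‖T.ell d (σ + y * I)‖ₑ ^ 2 *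
        ENNReal.ofReal ((1 + |y|) ^ 24 * Real.exp (-((Real.pi - 2 * θ) * |y|)))
      ≤ ∫⁻ y : ℝ, (‖T.ell d (σ + y * I)‖ₑ ^ 2 *
      ENNReal.ofReal (ζ⁻¹ ^ 24 * (1 + Λ) ^ 24 * Real.exp (-((Real.pi - 2 * θ) * |y|))) +
      ‖T.ell d (σ + y * I)‖ₑ ^ 2 *
      ENNReal.ofReal (Cw * ζ⁻¹ ^ 24 * Real.exp (-(Real.pi * Λ / 32)) *
        Real.exp (-((Real.pi - 2 * θ1) * |y|)))) := lintegral_mono hpt
    _ = (∫⁻ y : ℝ, ‖T.ell d (σ + y * I)‖ₑ ^ 2 *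
      ENNReal.ofReal (ζ⁻¹ ^ 24 * (1 + Λ) ^ 24 * Real.exp (-((Real.pi - 2 * θ) * |y|)))) +
      ∫⁻ y : ℝ, ‖T.ell d (σ + y * I)‖ₑ ^ 2 *
      ENNReal.ofReal (Cw * ζ⁻¹ ^ 24 * Real.exp (-(Real.pi * Λ / 32)) *
        Real.exp (-((Real.pi - 2 * θ1) * |y|))) := lintegral_add_left hmeas _
    _ = ENNReal.ofReal (ζ⁻¹ ^ 24 * (1 + Λ) ^ 24) * (∫⁻ y : ℝ, ‖T.ell d (σ + y * I)‖ₑ ^ 2 *
      ENNReal.ofReal (Real.exp (-((Real.pi - 2 * θ) * |y|)))) +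
      ENNReal.ofReal (Cw * ζ⁻¹ ^ 24 * Real.exp (-(Real.pi * Λ / 32))) *
      ∫⁻ y : ℝ, ‖T.ell d (σ + y * I)‖ₑ ^ 2 *
      ENNReal.ofReal (Real.exp (-((Real.pi - 2 * θ1) * |y|))) := by
        rw [← lintegral_const_mul' _ _ ENNReal.ofReal_ne_top,
          ← lintegral_const_mul' _ _ ENNReal.ofReal_ne_top]
        congr 1
        · refine lintegral_congr fun y => ?_
          rw [ENNReal.ofReal_mul (p := ζ⁻¹ ^ 24 * (1 + Λ) ^ 24) (by positivity)]; ring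
        · refine lintegral_congr fun y => ?_
          rw [ENNReal.ofReal_mul (p := Cw * ζ⁻¹ ^ 24 * Real.exp (-(Real.pi * Λ / 32)))
            (by positivity)]; ring
    _ ≤ ENNReal.ofReal (ζ⁻¹ ^ 24 * (1 + Λ) ^ 24) * (ENNReal.ofReal Ca *
        NN σ θ (T.q d)⁻¹ (T.Gf d)) +
      ENNReal.ofReal (Cw * ζ⁻¹ ^ 24 * Real.exp (-(Real.pi * Λ / 32))) * (ENNReal.ofReal Ca *
        ENNReal.ofReal (Cc * ((ζ / 2)⁻¹) ^ Bc * |(d : ℝ)| ^ 6)) := by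
        gcongr
        exact e2.trans (by gcongr)
    _ ≤ _ := by
        rw [← mul_assoc, ← ENNReal.ofReal_mul (by positivity),
          ← ENNReal.ofReal_mul (p := Ca) (by positivity), ← ENNReal.ofReal_mul (by positivity)]
        have hx : 0 ≤ Cw * Ca * Cc * 2 ^ Bc := by positivity
        have hz : ζ⁻¹ ^ 24 ≤ ζ⁻¹ ^ (24 + Bc) := pow_le_pow_right₀ hζi (by omega)
        gcongr ENNReal.ofReal ?_ * _ + ENNReal.ofReal ?_
        · calc ζ⁻¹ ^ 24 * (1 + Λ) ^ 24 * Ca = Ca * ζ⁻¹ ^ 24 * (1 + Λ) ^ 24 := by ring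
            _ ≤ _ := by
              gcongr
              linarith
        · have e4 : (ζ / 2)⁻¹ ^ Bc = 2 ^ Bc * ζ⁻¹ ^ Bc := by
            rw [← mul_pow]
            congr 1
            field_simp
          calc Cw * ζ⁻¹ ^ 24 * Real.exp (-(Real.pi * Λ / 32)) *
                (Ca * (Cc * (ζ / 2)⁻¹ ^ Bc * |(d : ℝ)| ^ 6))
              = Cw * Ca * Cc * 2 ^ Bc * ζ⁻¹ ^ (24 + Bc) * Real.exp (-(Real.pi * Λ / 32)) *
                |(d : ℝ)| ^ 6 := by rw [e4, pow_add]; ring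
            _ ≤ _ := by
              gcongr
              linarith

/-- H11: the second moment, with an arbitrary angle -/
theorem H11 {Q : ℕ} {lam : ℕ → ℝ} (T : Twists Q lam) : ∃ (C : ℝ) (A B : ℕ), 0 < C ∧
    ∀ (X : ℕ) (σ θ : ℝ), 3 ≤ X → 1 / 2 + 1 / Real.log X ≤ σ → σ ≤ 1 → th0 ≤ θ → θ < Real.pi / 2 →
      ∑ d ∈ sqf X, NN σ θ (T.q d)⁻¹ (T.Gf d) ≤
        ENNReal.ofReal (C * ((Real.pi / 2 - θ)⁻¹) ^ B * X * Real.log X ^ A) := by
  have hpi := Real.pi_pos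
  have p00 : 0 < th0 := by unfold th0; positivity
  obtain ⟨C6, A6, hC6, h6⟩ := H6 T
  obtain ⟨C9, A9, hC9, h9⟩ := Pool.Agent.Y784.QT9b.T9b T
  obtain ⟨C2, B2, hC2, h2⟩ := IIH_le T
  obtain ⟨C8, B8, hC8, h8⟩ := Pool.Agent.Y46.QTH8.H8c T
  set C10 : ℝ := C9 * (4 * Real.exp Real.pi) * C6 + C2 + C8 with hC10
  have hx0 : 0 < C9 * (4 * Real.exp Real.pi) * C6 := by positivity
  have hC101 : 1 ≤ C10 := by linarith
  obtain ⟨Cf, Af, hCf, hcl⟩ := closureH T.c (A9 + A6) Q T.hecke.pos T.one_le_c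
  refine ⟨Cf * (C10 * 4) ^ 8, Af, (3 + B2 + B8) * 8, by positivity, ?_⟩
  intro X σ θ hX hσ hσ1 hθ0 hθ
  have p0 : 0 < θ := by linarith
  set ζ : ℝ := Real.pi / 2 - θ with hζ
  have hζ0 : 0 < ζ := by rw [hζ]; linarith
  have hζ1 : ζ ≤ 1 / 4 := by
    have h1 : th0 ≤ θ := hθ0
    unfold th0 at h1
    have := Real.pi_lt_four
    rw [hζ]; linarith
  have hζi : 1 ≤ ζ⁻¹ := (one_le_inv₀ hζ0).2 (by linarith)
  have hcos : 0 < Real.cos θ := Real.cos_pos_of_mem_Ioo ⟨by linarith, hθ⟩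
  have hκζ : (Real.cos θ)⁻¹ ≤ Real.pi / 2 * ζ⁻¹ := by
    have h1 : 2 / Real.pi * ζ ≤ Real.cos θ := by
      have h3 := Real.mul_le_sin hζ0.le (by rw [hζ]; linarith)
      have h4 : Real.sin ζ = Real.cos θ := by rw [hζ, Real.sin_pi_div_two_sub]
      rwa [h4] at h3
    calc (Real.cos θ)⁻¹ ≤ (2 / Real.pi * ζ)⁻¹ := inv_anti₀ (by positivity) h1
      _ = _ := by rw [mul_inv, inv_div]
  set Z : ℝ := ζ⁻¹ ^ (3 + B2 + B8) with hZ
  have hZ1 : 1 ≤ Z := one_le_pow₀ hζi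
  have hZ3 : ζ⁻¹ ^ 3 ≤ Z := pow_le_pow_right₀ hζi (by omega)
  have hZB2 : ζ⁻¹ ^ B2 ≤ Z := pow_le_pow_right₀ hζi (by omega)
  have hZB8 : ζ⁻¹ ^ B8 ≤ Z := pow_le_pow_right₀ hζi (by omega)
  -- the constant
  set C1 : ℝ := C10 * Z * 4 with hC1
  have hC11 : 1 ≤ C1 := by
    rw [hC1]
    have : 1 ≤ C10 * Z := one_le_mul_of_one_le_of_one_le hC101 hZ1
    linarith
  have hκ3 : (Real.cos θ)⁻¹ ^ 3 ≤ 4 * Z := by
    calc (Real.cos θ)⁻¹ ^ 3 ≤ (Real.pi / 2 * ζ⁻¹) ^ 3 := by gcongr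
      _ = (Real.pi / 2) ^ 3 * ζ⁻¹ ^ 3 := mul_pow _ _ _
      _ ≤ 4 * Z := by
        gcongr
        have h1 : Real.pi / 2 ≤ 1.58 := by linarith [Real.pi_lt_d2]
        calc (Real.pi / 2) ^ 3 ≤ 1.58 ^ 3 := by gcongr
          _ ≤ 4 := by norm_num
  have hX3 : (3 : ℝ) ≤ X := by exact_mod_cast hX
  have hX0 : (0 : ℝ) < X := by linarith
  have hlog1 : 1 ≤ Real.log X := by
    rw [Real.le_log_iff_exp_le hX0]
    exact (Real.exp_one_lt_d9.le).trans (by linarith)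
  have hlog0 : 0 < Real.log X := by linarith
  have hσ0 : 1 / 2 < σ := by
    have : 0 < 1 / Real.log X := by positivity
    linarith
  have hρ : (σ - 1 / 2)⁻¹ ≤ Real.log X := by
    rw [inv_le_comm₀ (by linarith) hlog0, ← one_div]
    linarith
  have hρ0 : 0 < (σ - 1 / 2)⁻¹ := inv_pos.2 (by linarith)
  have hCf : Cf * C1 ^ 8 = Cf * (C10 * 4) ^ 8 * ζ⁻¹ ^ ((3 + B2 + B8) * 8) := by
    rw [hC1, hZ, pow_mul]; ring
  rw [← hCf]
  refine hcl C1 hC11 X (fun d => NN σ θ (T.q d)⁻¹ (T.Gf d)) hX ?_ ?_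
  · intro d hd
    refine (h8 θ d σ p0 hθ hd hσ0.le hσ1).trans ?_
    gcongr
    calc C8 * ζ⁻¹ ^ B8 ≤ C10 * Z := by
          gcongr
          linarith
      _ ≤ C1 := by
          rw [hC1]
          have : 0 ≤ C10 * Z := by positivity
          linarith
  · intro M P Λ hM hP hΛ
    have hM0 : (0 : ℝ) < M := by exact_mod_cast hM
    have hP0 : (0 : ℝ) < P := by exact_mod_cast hP
    have hc0 : 0 < T.c := by linarith [T.one_le_c]
    set u0 : ℝ := (T.c * M)⁻¹ with hu0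
    have hu0p : 0 < u0 := by positivity
    set K : ℝ := (M : ℝ) * (P : ℝ) ^ 2 with hK
    have hKp : 0 < K := by positivity
    have hKu : K * u0 = (P : ℝ) ^ 2 / T.c := by
      rw [hK, hu0]; field_simp
    have hKuu : ∀ d : ℤ, |(d : ℝ)| * K * u0 ^ 2 = |(d : ℝ)| * ((P : ℝ) ^ 2 / (T.c ^ 2 * M)) := by
      intro d
      rw [hK, hu0]; field_simp
    have s1 : ∀ d ∈ sqf M, NN σ θ (T.q d)⁻¹ (T.Gf d) ≤
        ENNReal.ofReal (C9 * ((σ - 1 / 2)⁻¹) ^ A9) * NN σ θ u0 (G lam d) := by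
      intro d hd
      rw [mem_sqf] at hd
      have hd1 : |(d : ℝ)| ≤ M := by exact_mod_cast hd.1
      have hq1 := T.q_upper d hd.2
      have hq2 := T.q_lower d hd.2
      have hd0 : 0 < |(d : ℝ)| := by
        rw [abs_pos]; exact_mod_cast hd.2.ne_zero
      have hq0 : 0 < T.q d := by
        by_contra hcon
        have : T.c * T.q d ≤ 0 := mul_nonpos_of_nonneg_of_nonpos hc0.le (not_lt.1 hcon)
        linarith
      have hle : u0 ≤ (T.q d)⁻¹ := by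
        rw [hu0]
        apply inv_anti₀ hq0
        calc T.q d ≤ T.c * |(d : ℝ)| := hq1
          _ ≤ T.c * M := by gcongr
      refine (NN_anti σ θ hle _).trans ?_
      exact h9 d σ θ u0 hd.2 hσ0 hσ1 (by rw [abs_of_pos p0]; exact hθ) hu0p
    have s2 : SS (fun d => NN σ θ (T.q d)⁻¹ (T.Gf d)) M ≤
        ENNReal.ofReal (C9 * ((σ - 1 / 2)⁻¹) ^ A9) * ∑ d ∈ sqf M, NN σ θ u0 (G lam d) := by
      unfold SS
      rw [Finset.mul_sum]
      exact Finset.sum_le_sum s1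
    have s3 := Pool.Agent.Y141.QT7.T7 Q lam T.hecke M P hM hP σ θ u0 hσ0 hσ1
      (by rw [abs_of_pos p0]; exact hθ) hu0p
    have s4 := h6 θ σ K u0 hθ0 hθ hσ0 hσ1 hKp hu0p
    calc (prc Q P : ℝ≥0∞) * SS (fun d => NN σ θ (T.q d)⁻¹ (T.Gf d)) M
        ≤ (prc Q P : ℝ≥0∞) * (ENNReal.ofReal (C9 * ((σ - 1 / 2)⁻¹) ^ A9) *
          ∑ d ∈ sqf M, NN σ θ u0 (G lam d)) := by gcongr
      _ = ENNReal.ofReal (C9 * ((σ - 1 / 2)⁻¹) ^ A9) * ((prc Q P : ℝ≥0∞) *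
          ∑ d ∈ sqf M, NN σ θ u0 (G lam d)) := by ring
      _ ≤ ENNReal.ofReal (C9 * ((σ - 1 / 2)⁻¹) ^ A9) * (ENNReal.ofReal (4 * Real.exp Real.pi) *
          (ENNReal.ofReal (C6 * (Real.cos θ)⁻¹ ^ 3 * ((σ - 1 / 2)⁻¹) ^ A6) * (ENNReal.ofReal K +
          ENNReal.ofReal (K * u0) * ∑' d : ℤ, if Squarefree d.natAbs then
            ENNReal.ofReal (psi (|(d : ℝ)| * K * u0 ^ 2)) * T.IIt θ d σ else 0))) := by
          refine mul_le_mul' le_rfl ?_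
          refine s3.trans ?_
          exact mul_le_mul' le_rfl s4
      _ = ENNReal.ofReal (C9 * (4 * Real.exp Real.pi) * C6 * (Real.cos θ)⁻¹ ^ 3 *
            ((σ - 1 / 2)⁻¹) ^ (A9 + A6)) *
          (ENNReal.ofReal K +
          ENNReal.ofReal (K * u0) * ∑' d : ℤ, if Squarefree d.natAbs then
            ENNReal.ofReal (psi (|(d : ℝ)| * K * u0 ^ 2)) * T.IIt θ d σ else 0) := by
          rw [← mul_assoc, ← mul_assoc, ← ENNReal.ofReal_mul (by positivity),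
            ← ENNReal.ofReal_mul (by positivity)]
          congr 2
          rw [pow_add]; ring
      _ ≤ _ := by
          gcongr ENNReal.ofReal ?_ * (ENNReal.ofReal ?_ + ENNReal.ofReal ?_ * ?_)
          · gcongr
            calc C9 * (4 * Real.exp Real.pi) * C6 * (Real.cos θ)⁻¹ ^ 3 ≤ C10 * (4 * Z) := by
                  gcongr
                  linarith
              _ = C1 := by rw [hC1]; ring
          · exact hK.le
          · exact hKu.le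
          · refine ENNReal.tsum_le_tsum fun d => ?_
            split_ifs with hd
            · rw [hKuu d]
              gcongr
              refine (h2 θ d σ Λ hθ0 hθ (Int.squarefree_natAbs.1 hd) hσ0 hσ1 hΛ).trans ?_
              have hle : C2 * ζ⁻¹ ^ B2 ≤ C1 := by
                calc C2 * ζ⁻¹ ^ B2 ≤ C10 * Z := by
                      gcongr
                      linarith
                  _ ≤ C1 := by
                      rw [hC1]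
                      have : 0 ≤ C10 * Z := by positivity
                      linarith
              gcongr
            · exact le_rfl

/-- T11: the second moment -/
theorem T11 {Q : ℕ} {lam : ℕ → ℝ} (T : Twists Q lam) : ∃ (C : ℝ) (A : ℕ), 0 < C ∧
    ∀ (X : ℕ) (σ : ℝ), 3 ≤ X → 1 / 2 + 1 / Real.log X ≤ σ → σ ≤ 1 →
      ∑ d ∈ sqf X, NN σ th0 (T.q d)⁻¹ (T.Gf d) ≤ ENNReal.ofReal (C * X * Real.log X ^ A) := by
  obtain ⟨C, A, B, hC, h⟩ := H11 T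
  have hpi := Real.pi_pos
  have hθ : th0 < Real.pi / 2 := by unfold th0; linarith
  have h0 : 0 < Real.pi / 2 - th0 := by linarith
  exact ⟨C * ((Real.pi / 2 - th0)⁻¹) ^ B, A, by positivity,
    fun X σ hX hσ hσ1 => h X σ th0 hX hσ hσ1 le_rfl hθ⟩

end

end Pool.Agent.Y19.QT
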